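import Pool.Agent.MP485c8a.Defs

set_option autoImplicit false

namespace Pool.Agent.PC
namespace Cert

open Module

/-- a `4 × 4` matrix from the list of its entries -/
def m {p : ℕ} (l : List ℕ) : Matrix (Fin 4) (Fin 4) (ZMod p) :=
  fun i j => ((l.getD (4 * i.val + j.val) 0 : ℕ) : ZMod p)

/-- matrix of `excM` -/
def excMat {F : Type} [Field F] (t d : F) : Matrix (Fin 4) (Fin 4) F :=
  !![0, -d, 0, 0; 1, t, 0, 0; 0, 0, 0, -d; 0, 0, 1, t]

theorem sim_of_mul {F : Type} [Field F] (A D G H : Matrix (Fin 4) (Fin 4) F)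
    (h1 : G * H = 1) (h2 : D * G = G * A) :
    Sim (Matrix.toLin' A) (Matrix.toLin' D) := by
  have h3 : H * G = 1 := mul_eq_one_comm.mp h1
  refine ⟨LinearEquiv.ofLinear (Matrix.toLin' G) (Matrix.toLin' H) ?_ ?_, ?_⟩
  · rw [← Matrix.toLin'_mul, h1, Matrix.toLin'_one]
  · rw [← Matrix.toLin'_mul, h3, Matrix.toLin'_one]
  · intro x
    simp only [LinearEquiv.ofLinear_apply]
    rw [← Matrix.toLin'_mul_apply, ← Matrix.toLin'_mul_apply, h2]

theorem cert_sound {F : Type} [Field F] (t d : F)
    (B D1 D2 D3 D4 G1 G2 G3 G4 H1 H2 H3 H4 E1 E2 : Matrix (Fin 4) (Fin 4) F)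
    (a1 : G1 * H1 = 1) (a2 : G2 * H2 = 1) (a3 : G3 * H3 = 1) (a4 : G4 * H4 = 1)
    (b1 : D1 * G1 = G1 * excMat t d) (b2 : D2 * G2 = G2 * excMat t d)
    (b3 : D3 * G3 = G3 * excMat t d) (b4 : D4 * G4 = G4 * excMat t d)
    (c1 : D1 * D2 = E1) (c2 : D3 * D4 = E2) (c3 : E1 * E2 = B)
    (hN : ∀ a : F, a * a - t * a + d = 0 → ∃ K1 K2 K3 K4 : Matrix (Fin 4) (Fin 4) F,
      K1 * (D1 - a • 1) + K2 * (D2 - a • 1) + K3 * (D3 - a • 1) + K4 * (D4 - a • 1) = 1) :
    RepN (excM F t d) (Matrix.toLin' B) 4 := by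
  have hs : ∀ D ∈ [Matrix.toLin' D1, Matrix.toLin' D2, Matrix.toLin' D3, Matrix.toLin' D4],
      Sim (excM F t d) D := by
    intro D hD
    simp only [List.mem_cons, List.not_mem_nil, or_false] at hD
    rcases hD with rfl | rfl | rfl | rfl
    · exact sim_of_mul _ _ _ _ a1 b1
    · exact sim_of_mul _ _ _ _ a2 b2
    · exact sim_of_mul _ _ _ _ a3 b3
    · exact sim_of_mul _ _ _ _ a4 b4
  refine ⟨[Matrix.toLin' D1, Matrix.toLin' D2, Matrix.toLin' D3, Matrix.toLin' D4], rfl, hs, ?_, ?_⟩
  · simp only [List.prod_cons, List.prod_nil, mul_one]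
    rw [Module.End.mul_eq_comp, Module.End.mul_eq_comp, Module.End.mul_eq_comp,
      ← Matrix.toLin'_mul, ← Matrix.toLin'_mul, ← Matrix.toLin'_mul]
    congr 1
    rw [← c3, ← c1, ← c2, Matrix.mul_assoc]
  · intro c x hx
    by_contra hx0
    have q1 : Matrix.mulVec D1 x = c • x := by
      have := hx (Matrix.toLin' D1) (by simp)
      simpa [Matrix.toLin'_apply] using this
    have q2 : Matrix.mulVec D2 x = c • x := by
      have := hx (Matrix.toLin' D2) (by simp)
      simpa [Matrix.toLin'_apply] using this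
    have q3 : Matrix.mulVec D3 x = c • x := by
      have := hx (Matrix.toLin' D3) (by simp)
      simpa [Matrix.toLin'_apply] using this
    have q4 : Matrix.mulVec D4 x = c • x := by
      have := hx (Matrix.toLin' D4) (by simp)
      simpa [Matrix.toLin'_apply] using this
    -- `c` is a root
    have hroot : c * c - t * c + d = 0 := by
      obtain ⟨e, he⟩ := hs (Matrix.toLin' D1) (by simp)
      set y := e.symm x with hy
      have hy0 : y ≠ 0 := by
        intro h
        apply hx0
        have : e y = x := by rw [hy]; simp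
        rw [← this, h, map_zero]
      have hey : e y = x := by rw [hy]; simp
      have h1 : excM F t d y = c • y := by
        apply e.injective
        rw [← he y, hey, map_smul, hey]
        simpa [Matrix.toLin'_apply] using q1
      have h2 : excM F t d (excM F t d y) = t • excM F t d y - d • y := by
        ext i
        fin_cases i <;> simp [excM, Matrix.toLin'_apply, Matrix.mulVec, dotProduct,
          Fin.sum_univ_four] <;> ring
      rw [h1, map_smul, h1] at h2
      have h3 : (c * c - t * c + d) • y = 0 := by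
        have : (c * c - t * c + d) • y = c • c • y - t • c • y + d • y := by
          simp only [smul_smul, sub_smul, add_smul]
        rw [this, h2]; abel
      exact (smul_eq_zero.mp h3).resolve_right hy0
    obtain ⟨K1, K2, K3, K4, hK⟩ := hN c hroot
    apply hx0
    have z : ∀ D : Matrix (Fin 4) (Fin 4) F, D.mulVec x = c • x →
        (D - c • (1 : Matrix (Fin 4) (Fin 4) F)).mulVec x = 0 := by
      intro D hD
      rw [Matrix.sub_mulVec, hD, Matrix.smul_mulVec, Matrix.one_mulVec, sub_self]
    have := congrArg (fun M : Matrix (Fin 4) (Fin 4) F => M.mulVec x) hK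
    simp only [Matrix.add_mulVec, ← Matrix.mulVec_mulVec, z _ q1, z _ q2, z _ q3, z _ q4,
      Matrix.mulVec_zero, Matrix.one_mulVec, add_zero] at this
    exact this.symm

end Cert
end Pool.Agent.PC
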