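import Pool.Agent.MP485c8a.Cert

set_option autoImplicit false
set_option maxRecDepth 100000

namespace Pool.Agent.PC

namespace Cert2_01
open Pool.Agent.PC.Cert

theorem c_T1_1_1_0 : RepN (excM (ZMod 2) 0 1) (Matrix.toLin' (m [1,0,0,0,0,0,0,1,0,1,0,1,0,0,1,1])) 4 := by
  refine cert_sound (F := ZMod 2) 0 1 (m [1,0,0,0,0,0,0,1,0,1,0,1,0,0,1,1]) (m [0,0,0,1,1,1,1,1,0,0,1,0,1,0,0,0]) (m [0,1,0,1,1,1,1,0,1,1,1,1,0,1,1,0]) (m [0,0,0,1,1,1,0,1,0,1,1,1,1,0,0,0]) (m [1,0,1,0,0,1,0,0,0,0,1,0,0,1,1,1]) (m [0,0,1,0,1,0,1,1,1,1,1,1,0,0,0,1]) (m [0,1,1,0,1,1,1,0,0,1,0,1,0,1,1,1]) (m [1,0,0,0,1,0,1,1,0,1,0,1,0,1,0,0]) (m [0,1,1,1,1,1,1,1,1,1,0,0,0,0,1,0]) (m [1,1,0,1,0,1,1,0,1,0,0,0,0,0,0,1]) (m [1,1,0,0,1,0,1,1,0,0,1,1,1,0,0,1]) (m [1,0,0,0,0,0,0,1,1,1,1,1,0,0,1,1]) (m [1,1,0,0,1,1,1,0,0,0,0,1,0,1,1,1])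 (m [0,1,1,0,0,0,1,0,1,1,1,1,0,1,0,1]) (m [0,1,1,1,1,0,0,1,0,0,0,1,1,0,1,0]) (by decide +kernel) (by decide +kernel) (by decide +kernel) (by decide +kernel) (by decide +kernel) (by decide +kernel) (by decide +kernel) (by decide +kernel) (by decide +kernel) (by decide +kernel) (by decide +kernel) ?_
  intro a ha
  have hc : a = 0 ∨ a = 1 := by revert a; decide
  rcases hc with rfl | rfl
  · exact absurd ha (by decide)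
  · exact ⟨m [1,1,0,0,1,0,0,0,1,1,0,0,0,1,0,0], m [0,1,0,0,1,0,0,0,0,0,0,0,0,1,0,0], m [0,0,0,0,0,0,0,0,0,0,0,0,0,0,0,0], m [0,0,0,0,0,0,0,0,0,0,0,0,0,0,0,0], by decide +kernel⟩

theorem c_T1_1_1_1 : RepN (excM (ZMod 2) 0 1) (Matrix.toLin' (m [1,0,0,0,0,0,0,1,0,1,0,0,0,0,1,0])) 4 := by
  refine cert_sound (F := ZMod 2) 0 1 (m [1,0,0,0,0,0,0,1,0,1,0,0,0,0,1,0]) (m [1,1,0,1,0,1,1,1,0,0,0,1,0,0,1,0]) (m [1,0,0,1,1,1,1,1,0,0,1,1,0,0,0,1]) (m [0,1,1,1,1,0,1,1,1,1,1,0,1,1,0,1]) (m [1,0,0,0,1,1,0,1,0,0,1,1,0,0,0,1]) (m [1,0,1,1,1,0,0,1,1,0,1,0,0,1,0,1]) (m [1,0,0,0,1,1,1,0,0,1,1,1,1,1,0,0]) (m [0,1,1,0,1,0,1,0,1,0,1,1,1,0,0,0]) (m [1,1,1,1,0,1,0,0,1,1,1,0,0,0,1,1]) (m [1,1,1,0,1,0,1,1,1,1,0,0,1,0,1,0]) (m [1,0,0,0,1,0,0,1,0,1,0,1,1,1,1,0]) (m [0,0,0,1,1,1,0,1,0,1,0,1,0,1,1,0])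 (m [1,1,0,1,0,1,0,0,1,0,1,1,1,0,1,0]) (m [0,1,1,1,1,1,0,1,0,0,0,1,0,0,1,1]) (m [1,1,1,1,1,0,1,0,0,1,1,0,0,1,0,0]) (by decide +kernel) (by decide +kernel) (by decide +kernel) (by decide +kernel) (by decide +kernel) (by decide +kernel) (by decide +kernel) (by decide +kernel) (by decide +kernel) (by decide +kernel) (by decide +kernel) ?_
  intro a ha
  have hc : a = 0 ∨ a = 1 := by revert a; decide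
  rcases hc with rfl | rfl
  · exact absurd ha (by decide)
  · exact ⟨m [0,0,1,0,1,0,0,0,0,0,1,0,0,0,0,0], m [0,1,0,0,1,0,0,0,1,0,0,0,1,0,0,0], m [0,0,0,0,0,0,0,0,0,0,0,0,0,0,0,0], m [0,0,0,0,0,0,0,0,0,0,0,0,0,0,0,0], by decide +kernel⟩

theorem c_T2_1_1 : RepN (excM (ZMod 2) 0 1) (Matrix.toLin' (m [1,0,0,0,0,1,0,0,0,0,0,1,0,0,1,0])) 4 := by
  refine cert_sound (F := ZMod 2) 0 1 (m [1,0,0,0,0,1,0,0,0,0,0,1,0,0,1,0]) (m [0,0,1,1,0,0,1,0,0,1,0,0,1,1,0,0]) (m [1,0,0,0,1,1,0,1,1,0,1,0,0,0,0,1]) (m [0,0,1,1,1,0,1,0,0,1,1,1,1,1,1,1]) (m [1,0,1,1,0,1,0,0,0,1,0,1,0,1,1,0]) (m [0,0,1,0,0,1,1,0,1,0,0,1,1,0,0,0]) (m [1,1,0,0,0,1,0,1,1,0,0,0,0,0,1,1]) (m [0,1,1,1,0,0,0,1,0,1,0,1,1,1,1,0]) (m [1,0,1,0,0,0,1,1,0,1,0,0,1,0,1,1]) (m [0,0,0,1,1,1,0,0,1,0,0,0,0,0,1,1]) (m [0,0,1,0,1,0,1,0,1,1,1,1,1,1,1,0])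 (m [1,1,0,1,0,1,1,0,1,0,1,0,0,1,0,0]) (m [0,1,0,1,0,0,1,0,1,1,0,1,1,0,0,1]) (m [1,0,1,1,1,0,1,0,1,1,0,1,0,1,0,1]) (m [0,0,1,1,1,1,1,0,0,1,1,1,1,1,0,0]) (by decide +kernel) (by decide +kernel) (by decide +kernel) (by decide +kernel) (by decide +kernel) (by decide +kernel) (by decide +kernel) (by decide +kernel) (by decide +kernel) (by decide +kernel) (by decide +kernel) ?_
  intro a ha
  have hc : a = 0 ∨ a = 1 := by revert a; decide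
  rcases hc with rfl | rfl
  · exact absurd ha (by decide)
  · exact ⟨m [0,0,0,0,1,1,0,0,1,0,0,0,0,0,0,0], m [0,0,1,0,0,1,0,0,0,1,0,0,0,1,1,0], m [0,0,0,0,0,0,0,0,0,0,0,0,0,0,0,0], m [0,0,0,0,0,0,0,0,0,0,0,0,0,0,0,0], by decide +kernel⟩

theorem c_T3_0_1 : RepN (excM (ZMod 2) 0 1) (Matrix.toLin' (m [0,1,0,0,1,0,0,0,0,0,0,1,0,0,1,0])) 4 := by
  refine cert_sound (F := ZMod 2) 0 1 (m [0,1,0,0,1,0,0,0,0,0,0,1,0,0,1,0]) (m [1,1,0,1,0,1,1,0,0,0,1,0,0,0,1,1]) (m [0,0,1,1,1,1,1,1,1,1,1,0,0,1,1,0]) (m [0,0,1,0,1,0,0,1,1,0,0,0,0,1,1,0]) (m [0,1,1,0,1,0,1,0,0,0,1,0,0,0,1,1]) (m [0,0,1,0,1,0,0,1,1,1,1,1,1,0,1,0]) (m [0,1,0,0,0,1,1,1,1,1,0,1,0,1,0,1]) (m [1,0,0,0,0,0,0,1,0,1,0,0,1,0,1,0]) (m [1,0,0,1,0,1,0,1,0,0,1,1,0,0,1,0]) (m [1,0,0,1,1,1,1,0,1,0,0,0,1,1,0,1]) (m [0,0,1,1,1,0,0,0,0,1,0,1,1,0,0,1])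 (m [1,0,0,0,0,0,1,0,1,0,0,1,0,1,0,0]) (m [1,0,1,1,0,1,1,1,0,0,0,1,0,0,1,1]) (m [1,0,1,0,0,0,0,1,1,1,1,0,1,0,0,0]) (m [0,0,1,0,0,1,0,1,0,1,1,0,1,0,0,0]) (by decide +kernel) (by decide +kernel) (by decide +kernel) (by decide +kernel) (by decide +kernel) (by decide +kernel) (by decide +kernel) (by decide +kernel) (by decide +kernel) (by decide +kernel) (by decide +kernel) ?_
  intro a ha
  have hc : a = 0 ∨ a = 1 := by revert a; decide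
  rcases hc with rfl | rfl
  · exact absurd ha (by decide)
  · exact ⟨m [0,0,0,1,1,0,0,0,0,0,0,1,0,0,0,0], m [0,0,0,0,1,0,0,0,0,0,0,0,1,0,0,0], m [1,0,0,0,1,0,0,0,0,0,0,0,1,0,0,0], m [0,0,0,0,0,0,0,0,0,0,0,0,0,0,0,0], by decide +kernel⟩

theorem c_T3_1_1 : RepN (excM (ZMod 2) 0 1) (Matrix.toLin' (m [0,1,0,0,1,1,0,0,0,0,0,1,0,0,1,1])) 4 := by
  refine cert_sound (F := ZMod 2) 0 1 (m [0,1,0,0,1,1,0,0,0,0,0,1,0,0,1,1]) (m [0,1,0,0,1,0,0,0,0,0,1,1,0,0,0,1]) (m [0,1,1,1,1,0,1,0,0,0,1,1,0,0,0,1]) (m [0,1,0,0,1,0,0,0,0,0,0,1,0,0,1,0]) (m [1,1,1,0,0,1,0,1,0,0,1,1,0,0,0,1]) (m [1,0,1,0,0,1,0,1,1,0,1,1,1,1,0,0]) (m [1,0,1,1,1,1,1,0,0,1,1,0,1,1,1,1]) (m [0,1,1,0,1,0,0,1,0,1,0,0,1,0,0,0]) (m [0,0,1,0,0,1,0,0,0,1,1,1,1,1,0,0]) (m [1,1,1,1,1,1,1,0,0,1,1,1,1,0,1,0]) (m [0,1,1,0,1,0,0,1,1,0,1,1,0,1,0,1])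 (m [0,0,0,1,0,0,1,0,1,0,1,0,0,1,0,1]) (m [0,1,0,1,0,1,0,0,1,0,0,0,1,1,1,0]) (m [1,0,1,0,0,1,1,1,0,0,1,0,0,0,0,1]) (m [0,1,0,1,1,1,1,0,0,0,0,1,0,0,1,1]) (by decide +kernel) (by decide +kernel) (by decide +kernel) (by decide +kernel) (by decide +kernel) (by decide +kernel) (by decide +kernel) (by decide +kernel) (by decide +kernel) (by decide +kernel) (by decide +kernel) ?_
  intro a ha
  have hc : a = 0 ∨ a = 1 := by revert a; decide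
  rcases hc with rfl | rfl
  · exact absurd ha (by decide)
  · exact ⟨m [0,0,1,0,1,0,1,0,1,0,1,0,0,0,1,0], m [1,0,0,0,1,0,0,0,1,0,0,0,0,0,0,0], m [0,0,0,0,0,0,0,0,0,0,0,0,0,0,0,0], m [1,0,0,0,1,0,0,0,0,0,0,0,0,0,0,0], by decide +kernel⟩

end Cert2_01

namespace Cert2_11
open Pool.Agent.PC.Cert

theorem c_T1_1_1_0 : RepN (excM (ZMod 2) 1 1) (Matrix.toLin' (m [1,0,0,0,0,0,0,1,0,1,0,1,0,0,1,1])) 4 := by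
  refine cert_sound (F := ZMod 2) 1 1 (m [1,0,0,0,0,0,0,1,0,1,0,1,0,0,1,1]) (m [0,0,0,1,0,1,1,1,1,1,0,1,1,0,0,1]) (m [1,1,1,0,0,0,1,1,1,0,1,1,1,1,0,0]) (m [0,1,1,0,0,1,0,1,1,0,1,1,0,1,0,0]) (m [1,0,1,1,0,1,0,1,1,1,0,0,0,1,0,0]) (m [1,1,1,1,0,0,0,1,1,0,0,0,1,0,1,0]) (m [1,0,0,0,0,1,1,0,1,0,1,0,0,1,1,1]) (m [1,0,0,0,0,1,0,1,0,0,0,1,1,0,1,0]) (m [1,1,0,1,1,1,1,0,0,0,0,1,0,1,1,1]) (m [0,0,1,0,1,1,0,1,0,0,1,1,0,1,0,0]) (m [1,0,0,0,1,1,1,0,1,0,1,0,0,1,0,1]) (m [1,0,0,0,0,1,1,0,1,0,0,1,0,0,1,0]) (m [0,1,1,1,1,1,0,1,1,1,1,0,0,0,1,0]) (m [1,1,0,0,0,1,0,0,0,0,0,1,0,0,1,0]) (m [1,0,0,1,0,0,0,1,0,0,1,1,0,1,0,1]) (by decide +kernel) (by decide +kernel) (by decide +kernel) (by decide +kernel) (by decide +kernel) (by decide +kernel) (by decide +kernel) (by decide +kernel) (by decide +kernel)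 (by decide +kernel) (by decide +kernel) ?_
  intro a ha
  have hc : a = 0 ∨ a = 1 := by revert a; decide
  rcases hc with rfl | rfl
  · exact absurd ha (by decide)
  · exact absurd ha (by decide)

theorem c_T1_1_1_1 : RepN (excM (ZMod 2) 1 1) (Matrix.toLin' (m [1,0,0,0,0,0,0,1,0,1,0,0,0,0,1,0])) 4 := by
  refine cert_sound (F := ZMod 2) 1 1 (m [1,0,0,0,0,0,0,1,0,1,0,0,0,0,1,0]) (m [1,1,0,1,1,1,1,1,1,1,1,0,0,1,1,1]) (m [1,0,0,1,0,1,1,1,1,1,0,0,1,0,0,0]) (m [0,0,0,1,1,1,1,0,0,1,0,1,1,0,0,1]) (m [0,0,1,1,0,0,0,1,1,1,1,0,0,1,0,1]) (m [0,1,1,0,1,1,1,0,0,1,0,0,0,1,0,1]) (m [1,0,0,1,1,1,0,1,1,0,0,0,1,1,1,0]) (m [1,0,0,0,1,1,0,1,1,1,1,0,0,1,0,0]) (m [1,1,1,0,0,0,1,0,1,0,0,0,0,0,0,1]) (m [1,1,0,0,0,0,1,0,1,0,1,0,0,0,1,1]) (m [0,0,1,0,1,1,0,0,1,1,1,1,1,0,1,0]) (m [1,0,0,0,0,0,0,1,1,0,1,1,1,1,0,1])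 (m [0,0,1,0,1,1,1,0,0,1,0,0,0,0,0,1]) (m [0,1,1,0,1,0,1,0,0,0,1,0,0,0,1,1]) (m [0,1,0,1,1,1,0,0,0,1,0,0,0,1,1,0]) (by decide +kernel) (by decide +kernel) (by decide +kernel) (by decide +kernel) (by decide +kernel) (by decide +kernel) (by decide +kernel) (by decide +kernel) (by decide +kernel) (by decide +kernel) (by decide +kernel) ?_
  intro a ha
  have hc : a = 0 ∨ a = 1 := by revert a; decide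
  rcases hc with rfl | rfl
  · exact absurd ha (by decide)
  · exact absurd ha (by decide)

theorem c_T2_1_1 : RepN (excM (ZMod 2) 1 1) (Matrix.toLin' (m [1,0,0,0,0,1,0,0,0,0,0,1,0,0,1,0])) 4 := by
  refine cert_sound (F := ZMod 2) 1 1 (m [1,0,0,0,0,1,0,0,0,0,0,1,0,0,1,0]) (m [1,1,1,0,0,0,1,1,1,0,1,1,1,1,0,0]) (m [0,0,1,0,0,0,1,1,1,0,1,0,1,1,0,1]) (m [1,1,0,1,0,1,1,1,1,0,1,1,1,1,1,1]) (m [0,0,0,1,0,1,1,1,1,1,0,1,1,0,0,1]) (m [0,0,1,0,1,1,1,1,1,1,0,0,0,1,1,0]) (m [1,1,1,1,0,1,1,0,1,0,1,0,0,1,1,1]) (m [1,1,0,0,0,1,1,0,1,0,0,1,0,0,1,0]) (m [1,1,0,1,0,1,0,0,0,0,1,1,1,0,1,1]) (m [1,0,1,1,1,0,0,1,1,0,0,0,1,1,1,0]) (m [1,0,0,1,1,1,1,1,1,0,1,1,0,1,0,1]) (m [1,1,0,1,0,1,0,1,0,0,0,1,1,1,1,1]) (m [0,0,1,1,0,1,0,0,1,1,0,1,1,1,1,1]) (m [1,0,1,1,0,1,1,1,0,1,0,1,0,0,0,1]) (m [1,1,1,1,0,0,1,1,0,1,0,1,0,0,1,0])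 (by decide +kernel) (by decide +kernel) (by decide +kernel) (by decide +kernel) (by decide +kernel) (by decide +kernel) (by decide +kernel) (by decide +kernel) (by decide +kernel) (by decide +kernel) (by decide +kernel) ?_
  intro a ha
  have hc : a = 0 ∨ a = 1 := by revert a; decide
  rcases hc with rfl | rfl
  · exact absurd ha (by decide)
  · exact absurd ha (by decide)

theorem c_T3_0_1 : RepN (excM (ZMod 2) 1 1) (Matrix.toLin' (m [0,1,0,0,1,0,0,0,0,0,0,1,0,0,1,0])) 4 := by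
  refine cert_sound (F := ZMod 2) 1 1 (m [0,1,0,0,1,0,0,0,0,0,0,1,0,0,1,0]) (m [1,0,1,1,0,1,0,1,1,1,0,0,0,1,0,0]) (m [1,1,0,1,1,1,1,1,1,1,1,0,0,1,1,1]) (m [1,1,0,0,1,0,0,0,0,1,1,1,1,0,1,0]) (m [0,1,0,0,1,1,0,0,1,0,1,1,0,1,1,0]) (m [1,0,1,0,0,0,1,0,1,1,0,0,0,0,1,1]) (m [1,0,0,1,1,1,1,1,1,1,0,1,0,0,0,1]) (m [1,0,0,0,1,1,0,0,1,0,1,1,0,0,0,1]) (m [1,0,1,1,0,1,1,0,0,0,1,1,1,0,1,0]) (m [1,1,0,0,1,1,1,0,0,1,0,0,0,1,0,1]) (m [1,0,0,1,1,0,1,0,0,1,1,0,0,0,0,1]) (m [1,0,0,0,1,1,0,0,1,0,1,1,0,0,0,1]) (m [1,0,1,0,1,1,1,1,1,0,1,1,1,0,0,1]) (m [0,1,0,0,1,0,0,0,0,0,1,0,1,1,1,1]) (m [1,0,0,0,0,1,0,0,0,0,0,1,1,1,1,1]) (by decide +kernel) (by decide +kernel) (by decide +kernel) (by decide +kernel) (by decide +kernel) (by decide +kernel) (by decide +kernel) (by decide +kernel) (by decide +kernel)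 (by decide +kernel) (by decide +kernel) ?_
  intro a ha
  have hc : a = 0 ∨ a = 1 := by revert a; decide
  rcases hc with rfl | rfl
  · exact absurd ha (by decide)
  · exact absurd ha (by decide)

theorem c_T3_1_1 : RepN (excM (ZMod 2) 1 1) (Matrix.toLin' (m [0,1,0,0,1,1,0,0,0,0,0,1,0,0,1,1])) 4 := by
  refine cert_sound (F := ZMod 2) 1 1 (m [0,1,0,0,1,1,0,0,0,0,0,1,0,0,1,1]) (m [1,0,1,0,1,1,0,1,1,0,0,0,1,1,1,0]) (m [1,1,1,0,0,0,1,1,1,0,1,1,1,1,0,0]) (m [0,0,0,1,0,1,1,0,0,1,0,0,1,0,0,1]) (m [1,1,1,0,1,0,1,1,0,0,1,1,0,0,1,0]) (m [0,1,1,0,1,0,0,1,1,0,1,1,1,0,0,0]) (m [0,1,0,1,0,1,1,0,1,1,0,0,0,0,0,1]) (m [1,0,1,0,1,0,0,1,1,1,1,0,0,1,0,1]) (m [1,0,0,1,1,0,1,1,0,1,0,1,1,0,1,0]) (m [0,0,0,1,1,1,1,0,0,1,1,0,0,1,0,1]) (m [1,0,1,1,1,0,0,1,1,1,0,1,0,0,0,1]) (m [1,1,1,1,1,0,1,0,0,1,1,1,1,0,1,1])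 (m [1,1,0,1,0,1,1,1,1,1,0,0,0,1,0,1]) (m [0,1,0,1,0,0,0,1,1,1,1,0,0,1,1,0]) (m [0,0,1,0,1,0,0,0,1,0,1,1,1,1,0,0]) (by decide +kernel) (by decide +kernel) (by decide +kernel) (by decide +kernel) (by decide +kernel) (by decide +kernel) (by decide +kernel) (by decide +kernel) (by decide +kernel) (by decide +kernel) (by decide +kernel) ?_
  intro a ha
  have hc : a = 0 ∨ a = 1 := by revert a; decide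
  rcases hc with rfl | rfl
  · exact absurd ha (by decide)
  · exact absurd ha (by decide)

end Cert2_11

end Pool.Agent.PC
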