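import Pool.Agent.MP485c8a.Cert

set_option autoImplicit false
set_option maxRecDepth 100000

namespace Pool.Agent.PC

namespace Cert3_01
open Pool.Agent.PC.Cert

theorem c_T1_1_1_0 : RepN (excM (ZMod 3) 0 1) (Matrix.toLin' (m [1,0,0,0,0,0,0,1,0,1,0,2,0,0,1,1])) 4 := by
  refine cert_sound (F := ZMod 3) 0 1 (m [1,0,0,0,0,0,0,1,0,1,0,2,0,0,1,1]) (m [2,2,2,2,2,2,2,1,1,1,2,0,2,1,0,0]) (m [2,1,1,1,1,0,0,2,1,2,0,1,2,2,1,1]) (m [2,1,1,1,1,1,2,0,0,0,0,1,0,0,2,0]) (m [2,2,2,2,2,2,0,2,1,2,0,0,2,0,1,2]) (m [2,2,1,2,2,2,2,0,0,1,2,1,0,0,2,1]) (m [0,0,0,2,2,2,1,2,0,2,0,0,1,2,1,0]) (m [2,2,1,0,0,2,2,1,0,1,2,0,1,0,0,1]) (m [0,1,2,0,2,0,1,0,2,1,0,1,1,1,0,1]) (m [2,0,2,0,0,0,1,2,1,2,0,1,1,2,0,2]) (m [2,1,0,2,0,0,2,0,1,2,2,2,2,0,0,0]) (m [2,0,2,0,2,1,1,2,2,1,0,2,1,0,1,1]) (m [0,0,1,2,1,1,1,2,0,1,1,2,2,2,1,0])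 (m [0,1,1,1,1,2,0,0,2,2,1,2,2,2,2,1]) (m [0,2,2,2,0,2,2,1,2,0,1,2,2,1,0,0]) (by decide +kernel) (by decide +kernel) (by decide +kernel) (by decide +kernel) (by decide +kernel) (by decide +kernel) (by decide +kernel) (by decide +kernel) (by decide +kernel) (by decide +kernel) (by decide +kernel) ?_
  intro a ha
  have hc : a = 0 ∨ a = 1 ∨ a = 2 := by revert a; decide
  rcases hc with rfl | rfl | rfl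
  · exact absurd ha (by decide)
  · exact absurd ha (by decide)
  · exact absurd ha (by decide)

theorem c_T1_1_1_1 : RepN (excM (ZMod 3) 0 1) (Matrix.toLin' (m [1,0,0,0,0,0,0,1,0,1,0,0,0,0,1,0])) 4 := by
  refine cert_sound (F := ZMod 3) 0 1 (m [1,0,0,0,0,0,0,1,0,1,0,0,0,0,1,0]) (m [1,1,0,2,2,0,1,1,0,2,2,2,1,1,1,0]) (m [1,2,0,0,2,2,0,0,2,1,2,1,1,1,1,1]) (m [1,2,0,1,1,0,1,1,0,2,2,2,2,1,1,0]) (m [0,2,0,0,1,0,0,0,0,0,2,1,0,0,1,1]) (m [1,1,0,0,1,1,2,1,1,0,2,0,1,0,2,1]) (m [1,1,1,1,0,2,0,2,0,2,0,1,0,1,2,0]) (m [0,2,1,1,2,2,0,0,1,2,2,1,1,0,0,1]) (m [1,0,1,2,0,1,1,1,1,0,0,2,1,2,2,2]) (m [1,2,0,1,0,1,0,2,1,2,2,1,0,0,2,1]) (m [1,0,2,1,0,1,1,0,0,1,1,2,0,1,2,0]) (m [1,1,1,1,2,1,2,2,1,2,0,2,2,2,2,0]) (m [0,1,0,1,2,0,2,2,1,0,2,0,0,1,2,1]) (m [2,0,2,2,2,0,0,2,1,2,0,1,2,2,2,1]) (m [2,2,1,1,0,2,0,2,2,0,0,1,1,1,2,1])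 (by decide +kernel) (by decide +kernel) (by decide +kernel) (by decide +kernel) (by decide +kernel) (by decide +kernel) (by decide +kernel) (by decide +kernel) (by decide +kernel) (by decide +kernel) (by decide +kernel) ?_
  intro a ha
  have hc : a = 0 ∨ a = 1 ∨ a = 2 := by revert a; decide
  rcases hc with rfl | rfl | rfl
  · exact absurd ha (by decide)
  · exact absurd ha (by decide)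
  · exact absurd ha (by decide)

theorem c_T1_1_1_2 : RepN (excM (ZMod 3) 0 1) (Matrix.toLin' (m [1,0,0,0,0,0,0,1,0,1,0,1,0,0,1,2])) 4 := by
  refine cert_sound (F := ZMod 3) 0 1 (m [1,0,0,0,0,0,0,1,0,1,0,1,0,0,1,2]) (m [2,0,2,2,2,0,2,1,0,2,1,1,2,1,0,0]) (m [2,2,1,1,1,1,1,0,0,2,1,2,2,1,1,2]) (m [2,2,2,2,0,1,0,2,2,1,1,0,0,2,0,2]) (m [2,2,2,1,0,2,2,2,1,2,0,2,2,0,1,2]) (m [1,2,0,1,2,2,1,2,0,1,0,1,0,1,2,1]) (m [0,2,1,0,1,2,2,2,1,1,2,2,2,0,1,2]) (m [1,0,1,1,2,2,2,1,0,1,1,2,0,1,1,0]) (m [1,0,0,2,0,0,1,2,1,2,0,2,2,1,0,0]) (m [0,2,0,2,1,1,2,1,0,0,1,2,2,2,2,2]) (m [1,2,0,1,0,1,2,0,1,1,2,0,0,2,2,1]) (m [0,2,2,0,2,2,1,2,1,1,2,2,0,0,2,1]) (m [1,0,2,2,1,0,2,0,0,1,2,2,0,0,2,2]) (m [2,1,0,1,0,0,2,2,1,2,1,1,2,2,0,2]) (m [1,0,1,2,1,2,1,0,2,2,0,0,1,1,0,2]) (by decide +kernel) (by decide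 +kernel) (by decide +kernel) (by decide +kernel) (by decide +kernel) (by decide +kernel) (by decide +kernel) (by decide +kernel) (by decide +kernel) (by decide +kernel) (by decide +kernel) ?_
  intro a ha
  have hc : a = 0 ∨ a = 1 ∨ a = 2 := by revert a; decide
  rcases hc with rfl | rfl | rfl
  · exact absurd ha (by decide)
  · exact absurd ha (by decide)
  · exact absurd ha (by decide)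

theorem c_T1_2_1_0 : RepN (excM (ZMod 3) 0 1) (Matrix.toLin' (m [2,0,0,0,0,0,0,2,0,1,0,2,0,0,1,2])) 4 := by
  refine cert_sound (F := ZMod 3) 0 1 (m [2,0,0,0,0,0,0,2,0,1,0,2,0,0,1,2]) (m [2,1,2,2,2,1,1,2,2,1,0,0,2,2,2,0]) (m [2,1,2,2,2,1,1,2,2,1,0,0,2,2,2,0]) (m [2,1,2,1,2,2,2,2,0,1,1,2,2,0,1,1]) (m [1,2,1,2,1,2,2,0,0,1,2,2,1,1,1,1]) (m [1,2,0,2,1,2,1,2,0,0,0,1,1,1,2,2]) (m [1,1,0,2,1,2,1,0,2,0,2,1,0,2,0,0]) (m [1,1,0,1,0,1,0,2,1,1,0,2,0,0,1,1]) (m [1,1,0,0,0,0,1,2,1,1,0,2,1,0,2,0]) (m [0,2,1,2,2,2,0,2,2,1,0,0,0,0,1,0]) (m [1,1,1,0,0,0,0,2,2,0,2,2,0,1,1,2]) (m [0,2,1,0,2,1,1,0,1,0,2,1,2,0,1,0]) (m [1,1,2,1,0,2,1,2,1,1,2,0,1,0,2,0]) (m [2,0,0,0,0,2,0,0,0,0,2,0,0,0,0,2]) (m [1,0,0,0,0,0,0,1,0,2,0,1,0,0,2,1]) (by decide +kernel) (by decide +kernel) (by decide +kernel) (by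 decide +kernel) (by decide +kernel) (by decide +kernel) (by decide +kernel) (by decide +kernel) (by decide +kernel) (by decide +kernel) (by decide +kernel) ?_
  intro a ha
  have hc : a = 0 ∨ a = 1 ∨ a = 2 := by revert a; decide
  rcases hc with rfl | rfl | rfl
  · exact absurd ha (by decide)
  · exact absurd ha (by decide)
  · exact absurd ha (by decide)

theorem c_T1_2_1_1 : RepN (excM (ZMod 3) 0 1) (Matrix.toLin' (m [2,0,0,0,0,0,0,2,0,1,0,1,0,0,1,1])) 4 := by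
  refine cert_sound (F := ZMod 3) 0 1 (m [2,0,0,0,0,0,0,2,0,1,0,1,0,0,1,1]) (m [1,2,2,1,1,1,1,1,1,0,2,2,0,2,1,2]) (m [2,1,1,2,2,2,1,0,1,2,2,2,2,0,2,0]) (m [2,0,1,1,1,0,1,2,1,1,0,0,0,2,1,1]) (m [2,0,1,1,2,1,1,0,0,1,0,1,1,2,1,0]) (m [1,2,0,0,0,1,0,1,1,1,2,2,2,2,2,0]) (m [2,1,2,1,2,2,2,1,0,1,2,0,2,1,1,2]) (m [1,2,1,0,2,2,1,2,2,0,1,2,1,1,0,0]) (m [1,2,2,2,1,1,2,0,1,0,0,0,2,1,1,0]) (m [0,2,2,1,2,2,2,1,1,2,2,0,1,2,1,2]) (m [0,1,0,1,2,1,0,0,2,1,2,0,1,1,2,1]) (m [0,1,2,1,0,2,1,0,1,1,2,2,1,0,2,1]) (m [0,0,1,0,0,2,0,2,0,1,1,2,2,0,0,2]) (m [1,0,0,0,1,2,0,1,2,2,0,0,0,0,2,2]) (m [2,0,0,0,1,2,0,2,1,1,2,1,2,2,0,1]) (by decide +kernel) (by decide +kernel) (by decide +kernel) (by decide +kernel) (by decide +kernel) (by decide +kernel) (by decide +kernel) (by decide +kernel) (by decide +kernel)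 (by decide +kernel) (by decide +kernel) ?_
  intro a ha
  have hc : a = 0 ∨ a = 1 ∨ a = 2 := by revert a; decide
  rcases hc with rfl | rfl | rfl
  · exact absurd ha (by decide)
  · exact absurd ha (by decide)
  · exact absurd ha (by decide)

theorem c_T1_2_1_2 : RepN (excM (ZMod 3) 0 1) (Matrix.toLin' (m [2,0,0,0,0,0,0,2,0,1,0,0,0,0,1,0])) 4 := by
  refine cert_sound (F := ZMod 3) 0 1 (m [2,0,0,0,0,0,0,2,0,1,0,0,0,0,1,0]) (m [1,2,0,0,2,2,0,0,0,0,0,2,0,0,1,0]) (m [1,1,1,2,2,1,1,1,2,0,2,2,0,2,1,2]) (m [0,0,2,2,1,2,1,2,1,2,1,0,0,1,2,0]) (m [0,1,0,1,0,2,1,1,1,0,2,2,2,1,2,2]) (m [2,2,0,0,0,1,0,0,2,0,2,2,0,2,1,2]) (m [2,2,2,2,0,0,2,2,1,2,0,2,1,0,2,2]) (m [0,0,0,2,0,2,2,1,1,1,2,0,2,2,2,0]) (m [0,1,0,0,0,2,0,1,1,1,1,2,1,1,0,2]) (m [2,2,0,0,0,1,0,0,2,1,1,2,2,0,1,1]) (m [0,2,0,1,2,2,0,2,2,2,1,1,1,0,2,2])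 (m [1,1,0,2,2,2,2,2,0,0,1,1,2,0,0,0]) (m [0,1,0,1,1,0,0,0,0,0,1,2,1,1,0,0]) (m [2,0,0,1,0,1,1,0,0,1,2,1,2,0,2,2]) (m [0,2,2,2,2,1,2,0,1,2,1,2,2,2,2,2]) (by decide +kernel) (by decide +kernel) (by decide +kernel) (by decide +kernel) (by decide +kernel) (by decide +kernel) (by decide +kernel) (by decide +kernel) (by decide +kernel) (by decide +kernel) (by decide +kernel) ?_
  intro a ha
  have hc : a = 0 ∨ a = 1 ∨ a = 2 := by revert a; decide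
  rcases hc with rfl | rfl | rfl
  · exact absurd ha (by decide)
  · exact absurd ha (by decide)
  · exact absurd ha (by decide)

theorem c_T2_1_1 : RepN (excM (ZMod 3) 0 1) (Matrix.toLin' (m [1,0,0,0,0,1,0,0,0,0,0,2,0,0,1,2])) 4 := by
  refine cert_sound (F := ZMod 3) 0 1 (m [1,0,0,0,0,1,0,0,0,0,0,2,0,0,1,2]) (m [2,2,0,0,2,1,0,0,2,1,0,2,0,2,1,0]) (m [1,1,0,1,0,1,2,2,2,1,1,2,1,1,1,0]) (m [2,1,2,1,2,2,2,2,0,1,1,2,2,0,1,1]) (m [0,1,2,0,0,2,2,2,1,2,2,2,2,0,2,2]) (m [0,1,1,0,2,2,2,1,2,1,2,2,1,0,2,0]) (m [2,0,1,2,1,2,0,0,2,1,2,0,0,2,1,0]) (m [0,1,1,0,0,1,2,1,2,2,0,0,0,2,2,1]) (m [1,1,0,1,1,0,1,1,0,1,0,1,2,0,1,2]) (m [0,2,2,2,1,1,1,2,0,2,2,1,1,0,2,2]) (m [0,0,2,2,0,2,2,2,0,2,2,0,2,2,0,1]) (m [0,1,2,2,0,2,0,1,1,1,0,2,1,0,0,1]) (m [1,0,2,0,1,1,0,2,0,2,0,2,2,2,1,1]) (m [2,1,1,0,2,0,2,1,1,2,1,1,2,0,2,0])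 (m [1,2,0,2,0,1,1,0,2,1,2,2,0,1,2,1]) (by decide +kernel) (by decide +kernel) (by decide +kernel) (by decide +kernel) (by decide +kernel) (by decide +kernel) (by decide +kernel) (by decide +kernel) (by decide +kernel) (by decide +kernel) (by decide +kernel) ?_
  intro a ha
  have hc : a = 0 ∨ a = 1 ∨ a = 2 := by revert a; decide
  rcases hc with rfl | rfl | rfl
  · exact absurd ha (by decide)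
  · exact absurd ha (by decide)
  · exact absurd ha (by decide)

theorem c_T2_2_2 : RepN (excM (ZMod 3) 0 1) (Matrix.toLin' (m [2,0,0,0,0,2,0,0,0,0,0,2,0,0,1,1])) 4 := by
  refine cert_sound (F := ZMod 3) 0 1 (m [2,0,0,0,0,2,0,0,0,0,0,2,0,0,1,1]) (m [0,2,2,0,1,2,0,1,0,1,0,2,1,2,1,1]) (m [0,0,0,2,0,2,2,0,0,2,1,0,1,0,0,0]) (m [0,2,1,0,0,1,1,1,2,1,1,1,1,0,1,1]) (m [0,2,2,2,1,1,2,1,2,0,1,1,1,2,0,1]) (m [2,2,0,1,1,1,0,0,0,1,2,0,0,1,0,2]) (m [1,0,1,0,0,0,1,2,0,0,0,2,0,1,0,1]) (m [2,2,1,1,2,0,2,2,1,1,0,1,0,0,0,1]) (m [1,1,1,1,1,0,2,0,0,0,0,2,1,1,0,2]) (m [2,0,0,2,1,1,0,1,1,1,2,1,1,1,0,0]) (m [1,2,1,0,0,0,1,1,0,1,2,0,0,0,2,0]) (m [2,2,2,1,1,1,2,1,1,0,1,1,0,0,0,1]) (m [1,1,2,2,2,2,0,2,1,0,2,2,0,0,2,0]) (m [0,2,0,0,1,1,1,2,2,2,2,0,1,0,2,2]) (m [1,2,2,0,1,0,0,0,1,1,1,1,0,1,0,1]) (by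 decide +kernel) (by decide +kernel) (by decide +kernel) (by decide +kernel) (by decide +kernel) (by decide +kernel) (by decide +kernel) (by decide +kernel) (by decide +kernel) (by decide +kernel) (by decide +kernel) ?_
  intro a ha
  have hc : a = 0 ∨ a = 1 ∨ a = 2 := by revert a; decide
  rcases hc with rfl | rfl | rfl
  · exact absurd ha (by decide)
  · exact absurd ha (by decide)
  · exact absurd ha (by decide)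

theorem c_T3_0_1 : RepN (excM (ZMod 3) 0 1) (Matrix.toLin' (m [0,2,0,0,1,0,0,0,0,0,0,2,0,0,1,0])) 4 := by
  refine cert_sound (F := ZMod 3) 0 1 (m [0,2,0,0,1,0,0,0,0,0,0,2,0,0,1,0]) (m [1,2,1,2,2,2,2,2,0,0,2,1,0,0,1,1]) (m [0,2,1,0,0,1,1,1,2,1,1,1,1,0,1,1]) (m [0,2,1,0,0,1,1,1,2,1,1,1,1,0,1,1]) (m [2,2,2,2,2,1,2,1,0,0,1,1,0,0,1,2]) (m [2,1,1,0,2,0,2,0,0,2,2,2,2,2,1,0]) (m [1,2,1,0,2,1,0,2,1,0,0,1,1,0,2,0]) (m [0,0,0,2,2,1,1,1,2,1,0,1,0,2,0,0]) (m [0,0,0,2,2,0,2,0,0,1,2,2,1,2,0,2]) (m [2,1,0,2,2,0,0,1,1,1,0,1,0,2,2,1]) (m [2,2,2,2,0,1,1,0,2,2,2,1,1,1,2,1]) (m [2,0,2,2,0,0,0,2,0,1,2,0,2,0,0,0]) (m [2,1,2,2,0,1,2,1,1,1,1,1,2,0,0,0]) (m [1,2,0,2,0,2,2,0,2,2,0,0,0,1,2,2]) (m [1,2,2,0,2,1,1,1,0,2,2,2,2,2,1,2]) (by decide +kernel) (by decide +kernel) (by decide +kernel) (by decide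 +kernel) (by decide +kernel) (by decide +kernel) (by decide +kernel) (by decide +kernel) (by decide +kernel) (by decide +kernel) (by decide +kernel) ?_
  intro a ha
  have hc : a = 0 ∨ a = 1 ∨ a = 2 := by revert a; decide
  rcases hc with rfl | rfl | rfl
  · exact absurd ha (by decide)
  · exact absurd ha (by decide)
  · exact absurd ha (by decide)

theorem c_T3_1_1 : RepN (excM (ZMod 3) 0 1) (Matrix.toLin' (m [0,2,0,0,1,1,0,0,0,0,0,2,0,0,1,1])) 4 := by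
  refine cert_sound (F := ZMod 3) 0 1 (m [0,2,0,0,1,1,0,0,0,0,0,2,0,0,1,1]) (m [2,2,2,2,0,1,0,1,2,2,1,1,0,1,0,2]) (m [1,0,2,1,0,0,1,0,0,2,0,0,1,2,1,2]) (m [1,0,2,1,0,0,1,0,0,2,0,0,1,2,1,2]) (m [2,0,2,0,1,1,1,1,2,0,1,0,1,1,2,2]) (m [1,0,1,0,2,1,2,2,1,0,0,0,2,0,0,2]) (m [2,0,0,2,2,0,2,2,0,1,2,1,1,2,1,2]) (m [2,1,2,0,0,2,1,2,2,0,2,2,1,0,0,0]) (m [0,1,2,1,1,2,0,0,2,2,0,1,2,0,1,1]) (m [0,0,1,0,1,1,2,2,1,0,2,0,0,0,2,2]) (m [0,0,1,1,2,2,2,1,1,2,0,0,2,0,2,2]) (m [0,0,0,1,2,1,2,1,1,1,2,0,2,2,0,2]) (m [1,0,1,1,1,2,1,1,2,1,1,0,2,2,0,2]) (m [1,2,2,0,1,2,2,2,0,1,1,1,2,1,0,1]) (m [1,1,0,2,2,0,1,0,2,2,2,2,2,1,0,0]) (by decide +kernel) (by decide +kernel) (by decide +kernel) (by decide +kernel) (by decide +kernel) (by decide +kernel) (by decide +kernel) (by decide +kernel) (by decide +kernel)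 (by decide +kernel) (by decide +kernel) ?_
  intro a ha
  have hc : a = 0 ∨ a = 1 ∨ a = 2 := by revert a; decide
  rcases hc with rfl | rfl | rfl
  · exact absurd ha (by decide)
  · exact absurd ha (by decide)
  · exact absurd ha (by decide)

theorem c_T3_2_1 : RepN (excM (ZMod 3) 0 1) (Matrix.toLin' (m [0,2,0,0,1,2,0,0,0,0,0,2,0,0,1,2])) 4 := by
  refine cert_sound (F := ZMod 3) 0 1 (m [0,2,0,0,1,2,0,0,0,0,0,2,0,0,1,2]) (m [2,2,2,2,0,2,0,1,2,1,1,2,0,1,0,1]) (m [2,2,0,0,2,1,0,0,0,0,2,1,0,0,1,1]) (m [0,2,1,2,1,2,1,1,2,2,2,0,2,0,1,2]) (m [2,2,0,0,2,1,0,0,2,1,1,1,1,0,1,2]) (m [2,2,2,0,2,2,0,2,2,1,2,1,1,0,2,2]) (m [1,2,1,2,0,2,0,2,1,1,2,0,2,0,2,1]) (m [1,2,0,2,2,0,2,0,1,2,0,1,0,0,2,1]) (m [0,1,1,2,2,2,0,2,1,0,0,2,0,1,0,1]) (m [2,0,2,2,1,1,0,2,2,2,1,2,0,1,1,2]) (m [1,1,2,2,2,0,0,2,0,1,1,1,1,2,0,1])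 (m [2,2,1,1,0,2,2,1,1,0,2,2,1,0,2,0]) (m [0,2,0,2,0,1,1,2,1,1,1,0,0,2,2,2]) (m [2,0,0,1,1,2,1,1,0,2,1,0,2,1,1,1]) (m [2,0,0,2,0,2,2,0,0,2,2,2,2,2,0,2]) (by decide +kernel) (by decide +kernel) (by decide +kernel) (by decide +kernel) (by decide +kernel) (by decide +kernel) (by decide +kernel) (by decide +kernel) (by decide +kernel) (by decide +kernel) (by decide +kernel) ?_
  intro a ha
  have hc : a = 0 ∨ a = 1 ∨ a = 2 := by revert a; decide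
  rcases hc with rfl | rfl | rfl
  · exact absurd ha (by decide)
  · exact absurd ha (by decide)
  · exact absurd ha (by decide)

theorem c_T3_0_2 : RepN (excM (ZMod 3) 0 1) (Matrix.toLin' (m [0,1,0,0,1,0,0,0,0,0,0,1,0,0,1,0])) 4 := by
  refine cert_sound (F := ZMod 3) 0 1 (m [0,1,0,0,1,0,0,0,0,0,0,1,0,0,1,0]) (m [0,1,2,2,1,1,2,1,0,2,0,2,2,2,2,2]) (m [0,2,1,1,1,2,1,0,1,2,0,2,2,0,1,1]) (m [1,1,2,1,1,0,1,0,2,1,1,2,2,0,1,1]) (m [2,1,0,1,2,2,1,2,0,1,0,2,2,2,2,2]) (m [1,2,0,2,1,1,2,0,0,0,1,2,2,2,2,1]) (m [2,0,2,0,2,2,1,0,2,0,2,2,0,0,2,2]) (m [0,2,2,2,1,0,0,2,0,0,0,1,1,1,0,1]) (m [2,0,2,1,1,2,1,2,0,0,1,2,1,2,2,0]) (m [2,1,0,2,1,2,2,0,0,2,2,2,0,2,1,2]) (m [0,0,2,1,2,2,2,1,2,0,1,2,1,0,2,0]) (m [0,1,1,0,0,2,1,1,2,1,1,2,0,0,1,0]) (m [2,0,2,0,2,2,0,0,0,1,2,2,0,1,1,2]) (m [1,0,0,0,2,2,0,0,0,1,1,2,2,0,0,2])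 (m [0,1,0,0,2,2,0,0,1,0,2,1,0,2,2,0]) (by decide +kernel) (by decide +kernel) (by decide +kernel) (by decide +kernel) (by decide +kernel) (by decide +kernel) (by decide +kernel) (by decide +kernel) (by decide +kernel) (by decide +kernel) (by decide +kernel) ?_
  intro a ha
  have hc : a = 0 ∨ a = 1 ∨ a = 2 := by revert a; decide
  rcases hc with rfl | rfl | rfl
  · exact absurd ha (by decide)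
  · exact absurd ha (by decide)
  · exact absurd ha (by decide)

theorem c_T3_1_2 : RepN (excM (ZMod 3) 0 1) (Matrix.toLin' (m [0,1,0,0,1,1,0,0,0,0,0,1,0,0,1,1])) 4 := by
  refine cert_sound (F := ZMod 3) 0 1 (m [0,1,0,0,1,1,0,0,0,0,0,1,0,0,1,1]) (m [0,2,0,2,2,0,2,1,2,2,1,0,2,0,1,2]) (m [2,2,2,1,2,2,1,0,1,0,0,1,1,1,0,2]) (m [0,2,0,0,1,0,0,0,0,1,2,1,2,1,1,1]) (m [0,0,0,2,1,0,1,0,0,2,0,1,1,0,0,0]) (m [0,2,1,0,1,2,1,2,1,0,2,0,0,1,2,2]) (m [1,1,1,0,1,2,2,1,1,2,1,2,1,1,1,2]) (m [0,0,2,0,0,0,0,2,2,2,0,2,1,0,2,0]) (m [1,0,2,0,2,0,1,2,2,1,0,2,0,1,0,2]) (m [1,1,0,2,0,1,2,2,1,1,2,2,2,0,0,2]) (m [0,2,0,2,0,0,1,2,1,1,2,2,1,0,0,2]) (m [2,0,0,1,1,1,2,2,2,0,0,0,0,2,0,0]) (m [0,0,2,1,2,2,0,1,2,0,2,1,2,2,0,0]) (m [0,0,2,1,1,2,1,0,0,2,0,0,1,0,1,1]) (m [2,0,2,0,0,0,0,2,2,1,1,2,2,2,1,2]) (by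 decide +kernel) (by decide +kernel) (by decide +kernel) (by decide +kernel) (by decide +kernel) (by decide +kernel) (by decide +kernel) (by decide +kernel) (by decide +kernel) (by decide +kernel) (by decide +kernel) ?_
  intro a ha
  have hc : a = 0 ∨ a = 1 ∨ a = 2 := by revert a; decide
  rcases hc with rfl | rfl | rfl
  · exact absurd ha (by decide)
  · exact absurd ha (by decide)
  · exact absurd ha (by decide)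

theorem c_T3_2_2 : RepN (excM (ZMod 3) 0 1) (Matrix.toLin' (m [0,1,0,0,1,2,0,0,0,0,0,1,0,0,1,2])) 4 := by
  refine cert_sound (F := ZMod 3) 0 1 (m [0,1,0,0,1,2,0,0,0,0,0,1,0,0,1,2]) (m [0,0,2,1,0,2,0,1,1,1,0,1,0,1,0,1]) (m [0,2,1,0,0,0,0,1,2,0,0,1,0,2,0,0]) (m [1,1,2,2,0,0,0,1,2,2,2,0,0,2,0,0]) (m [2,0,1,0,2,1,1,2,1,0,1,0,1,2,1,2]) (m [2,2,2,2,2,2,0,1,2,2,2,0,1,0,1,1]) (m [0,0,1,1,2,0,2,0,2,0,0,2,0,1,0,1]) (m [2,2,1,2,0,2,1,2,1,0,1,0,2,0,2,2]) (m [2,1,2,2,0,2,2,0,0,2,1,0,2,0,1,0]) (m [0,2,1,1,2,0,0,2,1,1,1,0,2,0,1,0]) (m [1,1,1,0,1,1,2,1,2,1,2,0,2,2,1,0]) (m [2,1,0,0,1,1,2,1,1,2,1,0,0,0,2,2]) (m [0,1,2,2,0,1,1,0,0,1,2,0,2,2,0,1]) (m [1,2,0,2,0,2,0,2,0,1,1,1,0,2,0,1]) (m [2,2,0,0,1,2,1,2,1,2,0,1,1,2,2,1]) (by decide +kernel) (by decide +kernel) (by decide +kernel) (by decide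 +kernel) (by decide +kernel) (by decide +kernel) (by decide +kernel) (by decide +kernel) (by decide +kernel) (by decide +kernel) (by decide +kernel) ?_
  intro a ha
  have hc : a = 0 ∨ a = 1 ∨ a = 2 := by revert a; decide
  rcases hc with rfl | rfl | rfl
  · exact absurd ha (by decide)
  · exact absurd ha (by decide)
  · exact absurd ha (by decide)

end Cert3_01

namespace Cert3_11
open Pool.Agent.PC.Cert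

theorem c_T1_1_1_0 : RepN (excM (ZMod 3) 1 1) (Matrix.toLin' (m [1,0,0,0,0,0,0,1,0,1,0,2,0,0,1,1])) 4 := by
  refine cert_sound (F := ZMod 3) 1 1 (m [1,0,0,0,0,0,0,1,0,1,0,2,0,0,1,1]) (m [2,2,0,0,0,2,0,0,1,0,2,1,0,1,0,2]) (m [1,0,1,0,2,2,1,0,2,0,0,0,2,2,2,2]) (m [2,1,2,0,2,1,2,2,2,2,1,2,2,1,0,1]) (m [0,0,0,2,0,2,0,0,2,1,2,1,1,0,0,1]) (m [1,1,1,2,1,2,0,0,2,0,1,0,1,0,0,0]) (m [2,2,2,0,1,0,2,0,0,1,1,1,0,0,2,2]) (m [2,2,1,1,1,2,2,0,0,0,0,2,0,2,1,2]) (m [0,0,0,1,1,2,2,1,1,0,0,1,0,0,2,2]) (m [0,0,0,1,0,2,0,1,0,0,1,1,2,2,1,0]) (m [1,2,1,1,0,0,1,1,1,1,1,1,2,2,2,1]) (m [2,0,1,1,1,1,1,0,1,1,0,1,0,0,2,0]) (m [2,0,1,0,1,2,1,1,2,0,0,2,1,0,0,0]) (m [0,1,1,0,1,1,2,0,1,2,0,2,0,0,2,1]) (m [1,1,1,0,0,1,1,2,1,2,2,1,1,2,0,2]) (by decide +kernel) (by decide +kernel) (by decide +kernel) (by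 decide +kernel) (by decide +kernel) (by decide +kernel) (by decide +kernel) (by decide +kernel) (by decide +kernel) (by decide +kernel) (by decide +kernel) ?_
  intro a ha
  have hc : a = 0 ∨ a = 1 ∨ a = 2 := by revert a; decide
  rcases hc with rfl | rfl | rfl
  · exact absurd ha (by decide)
  · exact absurd ha (by decide)
  · exact ⟨m [2,0,0,0,2,0,0,0,2,0,0,0,1,0,1,0], m [1,0,0,1,0,0,0,0,2,0,0,1,2,0,0,2], m [0,0,0,0,0,0,0,0,0,0,0,0,0,0,0,0], m [0,0,0,0,0,0,0,0,0,0,0,0,0,0,0,0], by decide +kernel⟩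

theorem c_T1_1_1_1 : RepN (excM (ZMod 3) 1 1) (Matrix.toLin' (m [1,0,0,0,0,0,0,1,0,1,0,0,0,0,1,0])) 4 := by
  refine cert_sound (F := ZMod 3) 1 1 (m [1,0,0,0,0,0,0,1,0,1,0,0,0,0,1,0]) (m [2,2,2,1,0,0,1,0,0,2,1,0,0,0,0,2]) (m [2,1,2,2,0,2,0,0,0,1,0,1,0,2,2,1]) (m [2,1,0,2,0,0,0,2,1,0,2,2,0,1,0,1]) (m [2,1,0,1,0,0,0,1,2,1,2,0,0,2,0,1]) (m [0,2,1,0,1,1,0,2,1,0,2,2,1,2,0,0]) (m [2,2,2,1,1,2,1,2,0,1,2,0,0,2,2,2]) (m [0,1,1,1,2,2,0,2,2,0,0,0,1,0,1,1]) (m [0,2,1,1,2,0,2,0,0,2,2,2,0,1,0,1]) (m [1,2,1,1,1,2,1,0,2,2,1,0,2,0,2,1]) (m [1,2,2,2,1,1,0,0,1,1,2,0,1,1,1,2]) (m [0,0,2,0,1,0,2,2,1,1,2,0,2,2,2,1]) (m [0,2,1,1,1,0,1,0,0,0,2,2,2,0,2,1]) (m [1,1,0,1,0,1,0,1,0,2,0,1,0,1,1,2]) (m [1,0,0,2,0,1,0,2,0,1,1,0,0,2,0,2]) (by decide +kernel) (by decide +kernel) (by decide +kernel) (by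 decide +kernel) (by decide +kernel) (by decide +kernel) (by decide +kernel) (by decide +kernel) (by decide +kernel) (by decide +kernel) (by decide +kernel) ?_
  intro a ha
  have hc : a = 0 ∨ a = 1 ∨ a = 2 := by revert a; decide
  rcases hc with rfl | rfl | rfl
  · exact absurd ha (by decide)
  · exact absurd ha (by decide)
  · exact ⟨m [0,2,0,0,0,0,0,0,0,1,0,0,0,2,0,0], m [0,0,1,0,2,0,2,0,1,0,1,0,0,0,1,0], m [0,0,1,0,0,0,0,0,0,0,0,0,0,0,0,0], m [0,0,0,0,0,0,0,0,0,0,0,0,0,0,0,0], by decide +kernel⟩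

theorem c_T1_1_1_2 : RepN (excM (ZMod 3) 1 1) (Matrix.toLin' (m [1,0,0,0,0,0,0,1,0,1,0,1,0,0,1,2])) 4 := by
  refine cert_sound (F := ZMod 3) 1 1 (m [1,0,0,0,0,0,0,1,0,1,0,1,0,0,1,2]) (m [1,1,0,1,1,1,0,2,2,2,2,0,1,2,0,1]) (m [1,1,0,2,2,0,1,2,0,0,2,0,0,0,1,2]) (m [1,2,1,2,1,0,2,1,1,1,2,0,1,1,0,2]) (m [1,1,0,2,2,1,1,2,1,1,1,1,0,1,1,2]) (m [1,2,2,0,0,0,2,2,0,2,0,2,1,2,2,2]) (m [1,2,2,2,1,1,1,0,2,1,0,0,0,2,1,2]) (m [2,0,2,1,2,2,0,0,0,1,2,0,0,1,0,2]) (m [0,2,0,1,0,2,0,0,0,1,2,1,1,2,2,0]) (m [2,2,2,2,2,0,2,1,2,2,0,1,1,0,0,2]) (m [2,1,2,1,2,1,0,1,2,2,1,1,0,1,1,2]) (m [2,0,1,2,1,2,2,1,1,2,1,1,1,2,2,0]) (m [1,0,2,1,0,2,0,0,1,1,2,0,1,2,0,0]) (m [0,1,2,0,0,1,0,2,0,2,0,2,2,1,0,2]) (m [0,0,2,2,0,1,0,0,2,1,0,0,0,1,0,2]) (by decide +kernel) (by decide +kernel) (by decide +kernel) (by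 decide +kernel) (by decide +kernel) (by decide +kernel) (by decide +kernel) (by decide +kernel) (by decide +kernel) (by decide +kernel) (by decide +kernel) ?_
  intro a ha
  have hc : a = 0 ∨ a = 1 ∨ a = 2 := by revert a; decide
  rcases hc with rfl | rfl | rfl
  · exact absurd ha (by decide)
  · exact absurd ha (by decide)
  · exact ⟨m [2,0,1,0,1,0,1,0,0,0,0,0,2,0,0,0], m [2,0,0,0,1,0,0,0,2,1,0,0,1,0,0,0], m [0,0,0,0,0,0,0,0,0,0,0,0,0,0,0,0], m [0,0,0,0,0,0,0,0,0,0,0,0,0,0,0,0], by decide +kernel⟩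

theorem c_T1_2_1_0 : RepN (excM (ZMod 3) 1 1) (Matrix.toLin' (m [2,0,0,0,0,0,0,2,0,1,0,2,0,0,1,2])) 4 := by
  refine cert_sound (F := ZMod 3) 1 1 (m [2,0,0,0,0,0,0,2,0,1,0,2,0,0,1,2]) (m [0,1,0,0,2,1,0,0,2,2,0,2,2,2,1,1]) (m [2,1,2,2,0,2,0,0,0,1,0,1,0,2,2,1]) (m [2,0,0,1,2,1,2,2,1,1,0,0,0,0,0,2]) (m [2,2,1,1,2,0,0,2,0,2,0,1,2,2,2,0]) (m [2,0,1,0,0,1,0,2,0,0,2,0,1,2,2,0]) (m [2,2,0,1,0,0,1,2,2,0,2,2,0,1,1,1]) (m [1,0,1,2,0,1,2,0,0,1,1,0,1,2,0,0]) (m [0,2,2,1,2,1,2,0,2,0,1,2,2,2,1,1]) (m [2,0,2,0,2,0,0,2,0,0,2,0,2,2,0,2]) (m [2,1,0,2,2,1,1,0,2,0,1,2,2,2,1,2]) (m [0,2,2,1,0,2,2,0,0,1,2,0,2,0,1,1]) (m [1,2,2,1,1,1,0,2,0,1,1,1,2,2,1,0]) (m [0,2,0,0,1,1,1,1,1,1,2,0,1,0,0,0]) (m [0,0,1,2,1,0,0,0,1,2,1,0,1,1,1,0]) (by decide +kernel) (by decide +kernel) (by decide +kernel) (by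 decide +kernel) (by decide +kernel) (by decide +kernel) (by decide +kernel) (by decide +kernel) (by decide +kernel) (by decide +kernel) (by decide +kernel) ?_
  intro a ha
  have hc : a = 0 ∨ a = 1 ∨ a = 2 := by revert a; decide
  rcases hc with rfl | rfl | rfl
  · exact absurd ha (by decide)
  · exact absurd ha (by decide)
  · exact ⟨m [1,0,0,0,0,0,0,0,2,0,2,0,1,0,1,0], m [1,0,1,0,2,0,2,0,2,0,1,0,2,0,1,0], m [0,0,0,0,0,0,0,0,0,0,0,0,0,0,0,0], m [0,0,0,0,0,0,0,0,0,0,0,0,0,0,0,0], by decide +kernel⟩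

theorem c_T1_2_1_1 : RepN (excM (ZMod 3) 1 1) (Matrix.toLin' (m [2,0,0,0,0,0,0,2,0,1,0,1,0,0,1,1])) 4 := by
  refine cert_sound (F := ZMod 3) 1 1 (m [2,0,0,0,0,0,0,2,0,1,0,1,0,0,1,1]) (m [2,1,1,2,1,0,2,0,1,2,2,2,2,0,2,1]) (m [2,0,0,0,1,2,0,0,2,1,1,1,1,1,2,0]) (m [1,2,2,2,1,0,1,0,0,0,2,1,0,0,0,2]) (m [0,0,0,1,1,2,2,0,1,0,2,1,2,0,0,1]) (m [0,0,2,2,0,1,2,0,2,2,2,1,2,0,0,2]) (m [2,1,2,1,1,1,1,1,0,1,1,2,2,0,2,2]) (m [2,2,2,1,0,2,1,1,0,0,2,2,0,0,1,2]) (m [2,2,2,1,2,2,1,1,1,0,0,0,2,0,1,2]) (m [2,2,2,0,1,0,2,1,1,2,2,1,1,1,1,2]) (m [2,2,2,2,0,1,0,1,2,0,1,1,2,1,0,2]) (m [2,1,1,2,0,2,2,0,0,0,1,2,0,0,1,1]) (m [0,0,1,0,2,0,1,2,1,2,0,0,1,2,2,2]) (m [0,2,2,1,0,2,2,2,1,2,0,2,0,0,1,2]) (m [2,1,2,2,1,0,2,2,1,0,1,0,1,0,0,2]) (by decide +kernel) (by decide +kernel) (by decide +kernel) (by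 decide +kernel) (by decide +kernel) (by decide +kernel) (by decide +kernel) (by decide +kernel) (by decide +kernel) (by decide +kernel) (by decide +kernel) ?_
  intro a ha
  have hc : a = 0 ∨ a = 1 ∨ a = 2 := by revert a; decide
  rcases hc with rfl | rfl | rfl
  · exact absurd ha (by decide)
  · exact absurd ha (by decide)
  · exact ⟨m [0,0,0,0,2,0,0,0,2,2,0,0,0,2,0,0], m [0,1,0,0,0,2,2,0,0,0,2,0,0,2,1,0], m [0,0,0,0,0,0,0,0,0,0,0,0,0,0,0,0], m [0,0,0,0,0,0,0,0,0,0,0,0,0,0,0,0], by decide +kernel⟩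

theorem c_T1_2_1_2 : RepN (excM (ZMod 3) 1 1) (Matrix.toLin' (m [2,0,0,0,0,0,0,2,0,1,0,0,0,0,1,0])) 4 := by
  refine cert_sound (F := ZMod 3) 1 1 (m [2,0,0,0,0,0,0,2,0,1,0,0,0,0,1,0]) (m [1,0,1,1,0,0,0,2,2,2,0,2,0,1,0,1]) (m [0,2,2,0,1,1,2,0,0,0,2,0,1,2,0,2]) (m [0,0,0,1,0,0,1,0,0,2,1,0,2,0,0,1]) (m [2,2,2,0,1,0,0,1,2,2,2,2,2,0,1,1]) (m [2,0,2,1,2,0,2,0,1,2,2,2,0,2,0,2]) (m [0,1,1,0,2,2,1,0,0,0,2,1,2,2,2,1]) (m [0,2,1,1,0,1,0,2,1,1,2,2,2,2,1,0]) (m [1,1,1,0,2,2,0,1,2,0,2,0,1,2,0,1]) (m [0,1,2,1,2,1,0,2,0,1,1,2,1,2,0,0]) (m [2,1,2,1,1,2,2,1,0,1,1,2,0,1,2,2]) (m [1,0,1,0,0,1,2,2,1,1,0,0,0,0,2,2]) (m [0,1,0,2,1,0,1,0,0,2,2,1,1,2,1,2]) (m [1,1,1,2,2,1,0,1,1,1,2,1,2,0,2,2]) (m [2,0,1,1,2,2,2,2,1,2,2,1,0,1,2,1]) (by decide +kernel) (by decide +kernel) (by decide +kernel) (by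 decide +kernel) (by decide +kernel) (by decide +kernel) (by decide +kernel) (by decide +kernel) (by decide +kernel) (by decide +kernel) (by decide +kernel) ?_
  intro a ha
  have hc : a = 0 ∨ a = 1 ∨ a = 2 := by revert a; decide
  rcases hc with rfl | rfl | rfl
  · exact absurd ha (by decide)
  · exact absurd ha (by decide)
  · exact ⟨m [0,2,0,0,0,2,0,0,1,1,0,0,0,1,0,0], m [0,0,0,2,0,0,0,1,0,0,0,1,0,0,0,1], m [2,0,0,0,2,0,0,0,0,0,0,0,2,0,0,0], m [0,0,0,0,0,0,0,0,0,0,0,0,0,0,0,0], by decide +kernel⟩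

theorem c_T2_1_1 : RepN (excM (ZMod 3) 1 1) (Matrix.toLin' (m [1,0,0,0,0,1,0,0,0,0,0,2,0,0,1,2])) 4 := by
  refine cert_sound (F := ZMod 3) 1 1 (m [1,0,0,0,0,1,0,0,0,0,0,2,0,0,1,2]) (m [2,2,1,1,0,0,2,2,2,1,0,1,1,0,1,0]) (m [2,0,2,2,0,2,1,1,1,1,1,2,2,2,1,0]) (m [2,0,1,0,0,1,1,1,0,0,2,0,0,2,1,0]) (m [2,1,1,2,0,2,0,0,0,2,2,0,0,2,0,2]) (m [1,2,0,2,1,2,1,0,1,0,2,2,0,2,1,2]) (m [2,2,0,2,2,0,0,1,1,1,2,0,1,0,2,2]) (m [2,0,2,2,2,2,2,2,2,1,1,2,1,0,2,2]) (m [1,0,2,1,2,1,2,1,2,2,2,2,0,1,1,0]) (m [2,1,1,0,0,1,2,1,1,1,1,1,1,0,2,2]) (m [2,0,2,1,1,2,2,1,0,2,0,2,2,1,2,1]) (m [1,0,0,2,1,2,0,0,2,2,2,0,2,1,1,1]) (m [1,1,2,1,1,0,1,2,2,0,2,2,2,2,0,1]) (m [1,1,2,2,0,0,1,1,0,1,0,2,0,1,0,1]) (m [1,1,1,1,0,0,2,2,0,1,1,0,0,0,2,0]) (by decide +kernel) (by decide +kernel) (by decide +kernel) (by decide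 +kernel) (by decide +kernel) (by decide +kernel) (by decide +kernel) (by decide +kernel) (by decide +kernel) (by decide +kernel) (by decide +kernel) ?_
  intro a ha
  have hc : a = 0 ∨ a = 1 ∨ a = 2 := by revert a; decide
  rcases hc with rfl | rfl | rfl
  · exact absurd ha (by decide)
  · exact absurd ha (by decide)
  · exact ⟨m [0,1,2,0,0,1,0,0,0,0,0,0,0,0,0,0], m [1,0,0,0,2,0,0,0,0,0,0,0,2,0,0,0], m [0,0,0,0,0,0,0,0,1,0,0,0,2,0,0,0], m [0,0,0,0,0,0,0,0,0,0,0,0,0,0,0,0], by decide +kernel⟩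

theorem c_T2_2_2 : RepN (excM (ZMod 3) 1 1) (Matrix.toLin' (m [2,0,0,0,0,2,0,0,0,0,0,2,0,0,1,1])) 4 := by
  refine cert_sound (F := ZMod 3) 1 1 (m [2,0,0,0,0,2,0,0,0,0,0,2,0,0,1,1]) (m [2,2,2,0,0,1,2,0,0,1,0,0,2,1,0,2]) (m [2,2,0,2,2,1,1,1,1,0,1,1,1,1,2,1]) (m [2,1,1,1,1,2,1,0,0,2,1,2,2,1,0,0]) (m [1,2,2,0,0,1,2,1,1,2,1,2,1,1,1,2]) (m [2,2,1,0,0,1,0,1,2,0,2,0,1,0,0,2]) (m [2,1,0,1,1,1,1,1,0,1,2,0,2,2,1,0]) (m [0,2,0,1,0,0,2,0,0,1,2,0,2,0,0,2]) (m [2,2,1,1,2,0,0,2,1,2,0,2,2,0,2,2]) (m [2,2,2,2,1,2,1,2,1,1,0,1,2,2,2,1]) (m [0,0,2,2,2,1,0,2,2,1,2,2,2,2,2,0]) (m [2,1,2,2,0,2,1,0,0,2,0,0,1,2,1,0]) (m [2,2,1,2,1,2,1,1,0,1,0,2,1,0,2,1]) (m [1,0,1,2,1,1,0,0,2,1,1,1,2,1,2,1]) (m [1,2,2,2,2,0,1,1,0,0,1,2,2,2,0,1]) (by decide +kernel) (by decide +kernel) (by decide +kernel) (by decide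 +kernel) (by decide +kernel) (by decide +kernel) (by decide +kernel) (by decide +kernel) (by decide +kernel) (by decide +kernel) (by decide +kernel) ?_
  intro a ha
  have hc : a = 0 ∨ a = 1 ∨ a = 2 := by revert a; decide
  rcases hc with rfl | rfl | rfl
  · exact absurd ha (by decide)
  · exact absurd ha (by decide)
  · exact ⟨m [0,2,0,0,0,2,0,1,0,0,0,2,0,1,0,2], m [2,2,0,0,2,2,0,0,1,1,0,0,0,1,0,0], m [0,0,0,0,0,0,0,0,0,0,0,0,0,0,0,0], m [0,0,0,0,0,0,0,0,0,0,0,0,0,0,0,0], by decide +kernel⟩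

theorem c_T3_0_1 : RepN (excM (ZMod 3) 1 1) (Matrix.toLin' (m [0,2,0,0,1,0,0,0,0,0,0,2,0,0,1,0])) 4 := by
  refine cert_sound (F := ZMod 3) 1 1 (m [0,2,0,0,1,0,0,0,0,0,0,2,0,0,1,0]) (m [1,1,0,0,2,0,0,0,2,2,1,1,0,1,2,0]) (m [0,2,1,0,2,2,2,2,1,1,0,2,1,0,1,0]) (m [1,1,0,2,0,0,2,0,0,1,1,0,1,0,2,0]) (m [1,1,2,0,1,0,0,1,2,0,0,1,0,1,1,1]) (m [0,2,1,2,2,0,1,2,1,2,1,0,0,1,1,0]) (m [2,0,2,2,1,2,2,2,1,0,1,2,0,0,2,0]) (m [1,1,1,1,2,2,2,0,1,0,0,2,2,0,2,1]) (m [2,2,2,1,1,1,1,1,1,0,2,0,2,1,2,2]) (m [2,1,2,1,1,2,2,1,2,1,1,0,0,2,2,2]) (m [1,0,2,1,0,2,1,2,0,0,0,2,1,0,1,0]) (m [1,1,1,0,2,1,0,1,0,0,2,2,1,1,0,0]) (m [2,0,2,2,0,2,0,2,2,0,1,2,2,2,0,0]) (m [2,1,0,2,0,1,2,0,0,0,1,0,1,1,2,0]) (m [2,0,1,0,1,0,0,2,0,0,0,2,2,1,2,2]) (by decide +kernel) (by decide +kernel) (by decide +kernel) (by decide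 +kernel) (by decide +kernel) (by decide +kernel) (by decide +kernel) (by decide +kernel) (by decide +kernel) (by decide +kernel) (by decide +kernel) ?_
  intro a ha
  have hc : a = 0 ∨ a = 1 ∨ a = 2 := by revert a; decide
  rcases hc with rfl | rfl | rfl
  · exact absurd ha (by decide)
  · exact absurd ha (by decide)
  · exact ⟨m [1,0,1,0,2,0,1,0,1,0,0,0,1,0,0,0], m [1,0,0,0,1,0,0,0,1,0,0,0,0,0,0,0], m [1,0,0,0,1,0,0,0,0,0,0,0,2,0,0,0], m [0,0,0,0,0,0,0,0,0,0,0,0,0,0,0,0], by decide +kernel⟩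

theorem c_T3_1_1 : RepN (excM (ZMod 3) 1 1) (Matrix.toLin' (m [0,2,0,0,1,1,0,0,0,0,0,2,0,0,1,1])) 4 := by
  refine cert_sound (F := ZMod 3) 1 1 (m [0,2,0,0,1,1,0,0,0,0,0,2,0,0,1,1]) (m [0,2,0,0,1,1,0,0,0,0,0,2,0,0,1,1]) (m [0,2,2,0,2,0,1,2,2,1,0,1,0,0,0,2]) (m [2,0,0,0,1,2,0,0,0,0,2,0,2,0,2,2]) (m [2,2,2,0,1,1,0,2,2,1,2,1,2,0,2,0]) (m [1,0,0,0,0,1,0,0,2,1,2,2,2,1,1,0]) (m [1,1,0,1,0,1,1,0,2,2,1,2,0,0,1,2]) (m [1,2,0,0,1,0,2,1,0,0,1,2,1,1,0,2]) (m [2,1,1,0,1,1,0,1,2,2,2,0,2,2,0,0]) (m [1,0,0,0,0,1,0,0,1,2,0,1,1,2,2,2]) (m [1,2,0,1,2,1,2,0,1,0,1,0,1,0,1,2]) (m [0,1,1,0,2,1,1,0,2,2,0,2,2,2,2,2]) (m [1,0,1,0,2,0,2,2,0,0,2,1,0,1,0,1]) (m [1,0,2,1,2,2,0,2,0,0,0,1,2,1,0,0]) (m [1,1,1,0,1,1,2,1,1,2,1,2,0,0,0,2]) (by decide +kernel) (by decide +kernel) (by decide +kernel) (by decide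 +kernel) (by decide +kernel) (by decide +kernel) (by decide +kernel) (by decide +kernel) (by decide +kernel) (by decide +kernel) (by decide +kernel) ?_
  intro a ha
  have hc : a = 0 ∨ a = 1 ∨ a = 2 := by revert a; decide
  rcases hc with rfl | rfl | rfl
  · exact absurd ha (by decide)
  · exact absurd ha (by decide)
  · exact ⟨m [0,0,0,0,2,0,0,0,1,0,0,0,1,0,2,0], m [0,0,0,0,0,0,0,0,2,0,0,0,2,0,0,0], m [0,1,0,0,0,1,0,0,0,0,0,0,0,0,0,0], m [0,0,0,0,0,0,0,0,0,0,0,0,0,0,0,0], by decide +kernel⟩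

theorem c_T3_2_1 : RepN (excM (ZMod 3) 1 1) (Matrix.toLin' (m [0,2,0,0,1,2,0,0,0,0,0,2,0,0,1,2])) 4 := by
  refine cert_sound (F := ZMod 3) 1 1 (m [0,2,0,0,1,2,0,0,0,0,0,2,0,0,1,2]) (m [2,1,0,0,0,2,0,0,0,1,2,0,1,0,2,2]) (m [2,0,0,0,0,2,0,0,0,2,2,0,2,1,0,2]) (m [0,0,2,1,0,1,0,1,1,2,1,2,0,2,0,0]) (m [1,1,2,2,0,0,2,0,0,1,1,0,1,2,1,0]) (m [2,2,1,1,1,2,2,1,2,2,2,0,2,1,2,0]) (m [2,1,2,1,2,1,0,0,0,1,0,0,1,2,1,0]) (m [2,0,0,1,1,1,1,1,0,1,2,1,0,2,0,2]) (m [2,2,2,0,1,0,0,1,0,1,2,2,1,1,0,1]) (m [2,1,2,2,0,0,1,2,1,2,2,2,2,2,1,2]) (m [0,2,1,0,0,0,1,0,0,1,0,1,1,0,0,1]) (m [0,1,1,2,2,2,2,0,0,0,2,2,1,1,1,2]) (m [1,0,2,2,0,2,0,1,1,1,1,0,2,1,1,1]) (m [1,2,0,0,0,1,0,0,0,0,1,0,0,0,1,1]) (m [1,1,0,0,1,2,0,0,0,0,0,2,0,0,1,0]) (by decide +kernel) (by decide +kernel) (by decide +kernel) (by decide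 +kernel) (by decide +kernel) (by decide +kernel) (by decide +kernel) (by decide +kernel) (by decide +kernel) (by decide +kernel) (by decide +kernel) ?_
  intro a ha
  have hc : a = 0 ∨ a = 1 ∨ a = 2 := by revert a; decide
  rcases hc with rfl | rfl | rfl
  · exact absurd ha (by decide)
  · exact absurd ha (by decide)
  · exact ⟨m [0,0,1,0,0,0,1,0,0,0,1,2,0,0,0,2], m [0,0,0,2,0,0,0,0,0,0,0,2,0,0,0,0], m [0,0,0,0,0,0,0,0,0,0,0,0,1,0,0,0], m [0,0,0,0,0,0,0,0,0,0,0,0,0,0,0,0], by decide +kernel⟩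

theorem c_T3_0_2 : RepN (excM (ZMod 3) 1 1) (Matrix.toLin' (m [0,1,0,0,1,0,0,0,0,0,0,1,0,0,1,0])) 4 := by
  refine cert_sound (F := ZMod 3) 1 1 (m [0,1,0,0,1,0,0,0,0,0,0,1,0,0,1,0]) (m [0,1,2,1,1,1,2,2,1,1,1,1,2,1,1,0]) (m [1,1,0,2,2,0,1,2,0,0,2,0,0,0,1,2]) (m [0,0,1,1,2,0,2,0,1,1,0,2,1,2,1,2]) (m [2,1,2,0,2,2,0,2,2,0,2,2,0,2,1,2]) (m [2,2,0,1,2,0,2,2,2,2,2,2,2,2,1,1]) (m [2,2,2,1,1,1,0,2,1,2,2,1,1,0,1,1]) (m [2,1,0,1,1,0,2,0,1,0,0,1,0,2,1,0]) (m [2,2,0,0,2,1,1,0,1,2,1,0,1,1,2,1]) (m [0,2,2,1,0,1,2,0,2,0,0,1,1,0,1,1]) (m [1,0,2,0,2,2,2,1,2,2,0,0,0,1,1,1]) (m [2,2,1,2,2,1,1,1,2,1,1,2,1,1,0,1]) (m [1,2,1,0,1,1,2,0,0,2,2,0,1,2,2,1]) (m [2,0,0,1,0,1,1,2,0,1,1,0,1,2,0,0]) (m [2,2,0,1,2,2,2,1,1,1,1,0,2,0,0,1]) (by decide +kernel) (by decide +kernel) (by decide +kernel) (by decide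 +kernel) (by decide +kernel) (by decide +kernel) (by decide +kernel) (by decide +kernel) (by decide +kernel) (by decide +kernel) (by decide +kernel) ?_
  intro a ha
  have hc : a = 0 ∨ a = 1 ∨ a = 2 := by revert a; decide
  rcases hc with rfl | rfl | rfl
  · exact absurd ha (by decide)
  · exact absurd ha (by decide)
  · exact ⟨m [2,2,0,0,2,0,0,0,0,0,0,0,0,1,0,0], m [2,1,0,0,0,2,0,0,2,1,0,0,0,1,0,0], m [0,0,0,0,0,0,0,0,0,0,0,0,0,0,0,0], m [0,0,0,0,0,0,0,0,0,0,0,0,0,0,0,0], by decide +kernel⟩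

theorem c_T3_1_2 : RepN (excM (ZMod 3) 1 1) (Matrix.toLin' (m [0,1,0,0,1,1,0,0,0,0,0,1,0,0,1,1])) 4 := by
  refine cert_sound (F := ZMod 3) 1 1 (m [0,1,0,0,1,1,0,0,0,0,0,1,0,0,1,1]) (m [0,2,1,1,1,1,0,2,0,0,0,2,0,0,1,1]) (m [2,2,2,1,2,0,1,0,1,1,0,1,0,2,2,0]) (m [0,1,0,2,2,0,2,2,1,1,2,2,0,2,2,0]) (m [1,1,0,2,2,2,2,0,1,2,2,1,0,2,2,0]) (m [1,0,0,0,1,0,0,1,2,1,1,1,2,1,2,0]) (m [2,0,2,1,2,0,1,0,2,1,2,0,0,2,0,0]) (m [2,2,2,2,0,0,1,0,0,1,2,2,1,0,2,0]) (m [0,0,1,0,0,2,1,0,1,2,1,1,0,2,2,1]) (m [1,0,0,0,0,1,2,2,2,1,2,1,2,1,0,0]) (m [0,1,1,1,0,0,0,2,0,2,1,1,1,0,2,2]) (m [0,1,0,1,1,1,2,1,0,1,0,0,1,0,1,1]) (m [1,0,1,2,1,2,0,0,1,0,0,0,2,2,0,1]) (m [2,0,1,1,1,0,1,1,0,1,1,0,1,0,2,1]) (m [2,0,0,0,1,1,2,0,2,2,1,1,0,2,2,2]) (by decide +kernel) (by decide +kernel) (by decide +kernel) (by decide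 +kernel) (by decide +kernel) (by decide +kernel) (by decide +kernel) (by decide +kernel) (by decide +kernel) (by decide +kernel) (by decide +kernel) ?_
  intro a ha
  have hc : a = 0 ∨ a = 1 ∨ a = 2 := by revert a; decide
  rcases hc with rfl | rfl | rfl
  · exact absurd ha (by decide)
  · exact absurd ha (by decide)
  · exact ⟨m [2,0,0,0,0,0,2,0,1,0,0,0,1,0,2,0], m [2,0,0,0,2,0,0,0,0,0,0,0,0,0,0,0], m [0,0,0,0,0,0,0,0,0,0,0,0,0,0,0,0], m [1,0,0,0,0,0,0,0,1,0,0,0,1,0,0,0], by decide +kernel⟩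

theorem c_T3_2_2 : RepN (excM (ZMod 3) 1 1) (Matrix.toLin' (m [0,1,0,0,1,2,0,0,0,0,0,1,0,0,1,2])) 4 := by
  refine cert_sound (F := ZMod 3) 1 1 (m [0,1,0,0,1,2,0,0,0,0,0,1,0,0,1,2]) (m [1,0,1,1,2,2,1,2,2,0,0,1,0,0,0,2]) (m [1,2,1,1,1,0,2,1,0,0,2,2,0,0,0,2]) (m [0,1,2,2,1,1,0,1,2,2,0,1,0,1,1,1]) (m [0,0,2,0,1,2,2,0,1,0,1,0,1,1,1,2]) (m [2,0,0,0,1,2,2,0,0,2,1,2,1,2,2,1]) (m [2,2,1,2,0,1,2,2,2,0,1,0,1,2,2,1]) (m [1,2,2,2,1,0,1,0,1,2,2,0,1,0,0,0]) (m [2,2,1,2,1,0,2,1,1,0,1,2,1,0,1,0]) (m [2,0,0,0,1,0,1,1,1,2,2,2,0,2,0,1]) (m [0,2,1,2,1,0,0,1,0,2,2,2,1,0,1,2]) (m [0,0,0,1,0,2,2,2,0,1,0,2,2,0,1,0]) (m [0,2,2,0,2,2,0,0,0,1,1,1,0,0,2,1]) (m [1,2,0,2,1,1,2,1,2,1,2,1,0,0,0,1]) (m [2,1,0,1,2,0,2,2,0,2,0,2,0,0,1,2]) (by decide +kernel) (by decide +kernel) (by decide +kernel) (by decide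 +kernel) (by decide +kernel) (by decide +kernel) (by decide +kernel) (by decide +kernel) (by decide +kernel) (by decide +kernel) (by decide +kernel) ?_
  intro a ha
  have hc : a = 0 ∨ a = 1 ∨ a = 2 := by revert a; decide
  rcases hc with rfl | rfl | rfl
  · exact absurd ha (by decide)
  · exact absurd ha (by decide)
  · exact ⟨m [2,2,0,0,1,0,0,0,1,1,0,0,2,1,0,0], m [2,0,0,0,2,0,0,0,2,0,0,0,0,0,0,0], m [0,1,0,0,0,0,0,0,0,1,0,0,0,0,0,0], m [0,0,0,0,0,0,0,0,0,0,0,0,0,0,0,0], by decide +kernel⟩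

end Cert3_11

namespace Cert3_21
open Pool.Agent.PC.Cert

theorem c_T1_1_1_0 : RepN (excM (ZMod 3) 2 1) (Matrix.toLin' (m [1,0,0,0,0,0,0,1,0,1,0,2,0,0,1,1])) 4 := by
  refine cert_sound (F := ZMod 3) 2 1 (m [1,0,0,0,0,0,0,1,0,1,0,2,0,0,1,1]) (m [1,2,1,1,0,1,0,1,0,0,1,1,0,0,0,1]) (m [0,0,0,1,2,2,2,2,1,1,0,0,2,0,0,2]) (m [2,1,0,1,0,2,1,0,0,2,0,0,2,1,2,0]) (m [1,1,2,2,1,0,0,2,2,0,2,2,2,2,2,1]) (m [0,2,2,1,0,0,1,0,2,2,1,0,0,0,2,2]) (m [0,0,0,2,2,0,0,1,1,2,0,0,0,0,2,1]) (m [1,0,0,0,2,2,0,1,1,1,1,0,2,0,0,2]) (m [2,0,0,0,2,2,1,0,1,0,1,2,0,1,0,1]) (m [1,0,2,1,2,1,0,2,0,1,0,0,0,2,0,2]) (m [2,2,0,0,2,2,2,0,2,0,0,2,2,0,0,0]) (m [1,0,0,0,1,2,0,2,1,1,1,1,2,0,0,2]) (m [2,0,0,0,1,1,2,2,0,2,2,2,2,2,1,2]) (m [1,2,1,1,1,2,2,1,0,1,0,2,2,0,0,2]) (m [2,1,0,1,1,0,2,0,2,0,0,1,1,2,2,1]) (by decide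 +kernel) (by decide +kernel) (by decide +kernel) (by decide +kernel) (by decide +kernel) (by decide +kernel) (by decide +kernel) (by decide +kernel) (by decide +kernel) (by decide +kernel) (by decide +kernel) ?_
  intro a ha
  have hc : a = 0 ∨ a = 1 ∨ a = 2 := by revert a; decide
  rcases hc with rfl | rfl | rfl
  · exact absurd ha (by decide)
  · exact ⟨m [0,1,0,0,0,1,0,0,1,0,0,0,0,1,0,0], m [2,0,0,0,1,0,0,0,1,0,0,0,0,0,0,0], m [0,0,0,0,1,0,0,0,1,0,0,0,0,0,0,0], m [0,0,0,0,0,0,0,0,0,0,0,0,0,0,0,0], by decide +kernel⟩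
  · exact absurd ha (by decide)

theorem c_T1_1_1_1 : RepN (excM (ZMod 3) 2 1) (Matrix.toLin' (m [1,0,0,0,0,0,0,1,0,1,0,0,0,0,1,0])) 4 := by
  refine cert_sound (F := ZMod 3) 2 1 (m [1,0,0,0,0,0,0,1,0,1,0,0,0,0,1,0]) (m [2,1,0,2,2,0,2,1,0,0,1,0,0,0,2,1]) (m [1,0,0,0,0,1,0,0,2,1,1,0,1,1,0,1]) (m [1,1,0,2,0,1,0,0,0,1,1,0,0,0,0,1]) (m [1,2,0,2,1,1,2,2,1,2,0,1,2,0,1,2]) (m [2,0,0,0,2,1,2,0,0,0,2,2,0,0,2,0]) (m [1,1,1,1,1,1,0,0,0,0,1,0,1,0,2,0]) (m [1,2,0,1,1,1,0,0,2,0,1,1,0,0,2,2]) (m [2,2,2,1,1,0,1,1,1,0,2,1,2,0,0,0]) (m [2,0,0,0,2,1,0,2,0,0,0,2,0,0,2,1]) (m [0,0,1,1,0,1,2,2,0,0,1,0,1,2,2,0]) (m [0,0,2,2,0,1,1,1,2,2,1,0,1,1,2,2]) (m [0,0,0,2,2,0,1,2,0,2,1,0,0,2,2,1]) (m [1,0,0,2,1,0,2,1,2,1,1,0,2,0,2,1]) (m [0,0,1,2,1,1,2,2,2,0,2,0,2,0,1,2]) (by decide +kernel) (by decide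 +kernel) (by decide +kernel) (by decide +kernel) (by decide +kernel) (by decide +kernel) (by decide +kernel) (by decide +kernel) (by decide +kernel) (by decide +kernel) (by decide +kernel) ?_
  intro a ha
  have hc : a = 0 ∨ a = 1 ∨ a = 2 := by revert a; decide
  rcases hc with rfl | rfl | rfl
  · exact absurd ha (by decide)
  · exact ⟨m [0,0,0,0,0,0,0,0,0,0,0,2,2,0,0,0], m [0,0,1,2,0,0,2,2,0,0,0,0,0,0,0,1], m [0,0,0,0,0,0,0,0,0,0,0,0,0,0,0,0], m [0,0,0,0,0,0,0,0,0,0,0,0,0,0,0,0], by decide +kernel⟩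
  · exact absurd ha (by decide)

theorem c_T1_1_1_2 : RepN (excM (ZMod 3) 2 1) (Matrix.toLin' (m [1,0,0,0,0,0,0,1,0,1,0,1,0,0,1,2])) 4 := by
  refine cert_sound (F := ZMod 3) 2 1 (m [1,0,0,0,0,0,0,1,0,1,0,1,0,0,1,2]) (m [1,0,2,2,0,1,2,2,1,2,2,1,2,1,2,0]) (m [1,1,0,2,0,1,1,0,0,0,1,0,0,0,1,1]) (m [1,0,0,2,2,0,2,1,1,1,2,0,0,0,0,1]) (m [1,2,2,2,1,2,2,1,0,1,2,1,2,1,0,2]) (m [1,2,0,1,2,0,2,0,2,0,1,1,0,2,1,1]) (m [2,2,0,2,1,2,1,0,1,1,2,2,1,2,2,1]) (m [2,1,2,0,2,0,2,0,2,2,0,1,1,1,2,2]) (m [1,2,1,0,0,2,0,2,2,1,0,1,0,2,1,1]) (m [2,1,0,1,2,1,1,0,1,1,0,2,1,0,1,2]) (m [1,1,0,1,2,1,1,0,1,1,1,2,2,1,2,2]) (m [0,2,1,1,1,2,0,0,0,0,2,2,1,1,2,1]) (m [0,2,2,0,1,0,1,2,2,1,2,2,2,2,2,1]) (m [1,1,1,1,0,1,2,2,1,0,2,0,2,0,0,1]) (m [2,1,2,0,1,1,2,2,2,0,2,2,2,1,0,2]) (by decide +kernel) (by decide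 +kernel) (by decide +kernel) (by decide +kernel) (by decide +kernel) (by decide +kernel) (by decide +kernel) (by decide +kernel) (by decide +kernel) (by decide +kernel) (by decide +kernel) ?_
  intro a ha
  have hc : a = 0 ∨ a = 1 ∨ a = 2 := by revert a; decide
  rcases hc with rfl | rfl | rfl
  · exact absurd ha (by decide)
  · exact ⟨m [0,0,1,0,2,0,0,0,0,0,0,0,2,0,0,0], m [1,2,0,0,1,2,0,0,0,1,0,0,0,2,0,0], m [0,0,0,0,0,0,0,0,0,0,0,0,0,0,0,0], m [0,0,0,0,0,0,0,0,0,0,0,0,0,0,0,0], by decide +kernel⟩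
  · exact absurd ha (by decide)

theorem c_T1_2_1_0 : RepN (excM (ZMod 3) 2 1) (Matrix.toLin' (m [2,0,0,0,0,0,0,2,0,1,0,2,0,0,1,2])) 4 := by
  refine cert_sound (F := ZMod 3) 2 1 (m [2,0,0,0,0,0,0,2,0,1,0,2,0,0,1,2]) (m [0,1,2,0,0,1,0,0,1,2,2,0,1,0,1,1]) (m [2,1,0,0,2,0,0,0,1,0,2,1,1,2,2,0]) (m [1,0,2,2,1,1,1,2,0,0,0,2,0,0,1,2]) (m [0,0,1,2,2,1,0,1,1,0,0,1,2,0,1,0]) (m [2,1,1,1,0,0,1,1,2,0,0,0,0,1,1,2]) (m [1,0,0,2,1,2,2,0,0,1,1,1,0,0,2,0]) (m [2,0,2,1,2,2,1,2,0,1,0,2,2,1,1,2]) (m [1,2,2,0,0,1,0,0,1,0,2,1,2,0,2,0]) (m [0,0,2,0,1,2,2,0,1,1,2,2,2,0,1,1]) (m [2,2,2,0,2,1,2,1,0,0,0,2,1,2,2,0]) (m [1,2,0,2,0,1,0,2,1,2,2,0,0,1,2,2]) (m [2,2,0,1,0,1,0,0,1,1,0,1,2,2,1,0]) (m [1,0,1,2,2,0,0,0,2,1,1,2,1,0,1,1]) (m [0,0,0,1,1,1,0,1,1,0,2,0,2,0,2,1]) (by decide +kernel) (by decide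 +kernel) (by decide +kernel) (by decide +kernel) (by decide +kernel) (by decide +kernel) (by decide +kernel) (by decide +kernel) (by decide +kernel) (by decide +kernel) (by decide +kernel) ?_
  intro a ha
  have hc : a = 0 ∨ a = 1 ∨ a = 2 := by revert a; decide
  rcases hc with rfl | rfl | rfl
  · exact absurd ha (by decide)
  · exact ⟨m [2,0,0,2,1,0,0,1,1,0,0,2,0,0,0,2], m [1,0,0,0,0,0,0,0,2,0,0,0,0,0,1,0], m [0,0,0,0,0,0,0,0,0,0,0,0,0,0,0,0], m [0,0,0,0,0,0,0,0,0,0,0,0,0,0,0,0], by decide +kernel⟩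
  · exact absurd ha (by decide)

theorem c_T1_2_1_1 : RepN (excM (ZMod 3) 2 1) (Matrix.toLin' (m [2,0,0,0,0,0,0,2,0,1,0,1,0,0,1,1])) 4 := by
  refine cert_sound (F := ZMod 3) 2 1 (m [2,0,0,0,0,0,0,2,0,1,0,1,0,0,1,1]) (m [1,0,0,0,2,1,0,0,2,2,2,2,0,2,1,0]) (m [2,0,1,2,1,1,0,2,0,0,1,0,1,0,1,0]) (m [1,2,2,1,0,2,1,2,2,0,2,2,2,1,2,2]) (m [1,0,1,2,0,1,2,0,0,0,1,0,0,0,0,1]) (m [2,2,2,2,1,2,0,1,2,0,0,2,1,1,2,0]) (m [0,2,2,1,1,2,1,1,1,1,2,2,2,1,2,1]) (m [1,1,0,1,0,0,0,2,0,2,0,2,0,2,1,2]) (m [0,2,1,2,0,1,2,0,2,2,2,2,0,0,1,1]) (m [2,2,0,1,0,2,2,0,2,1,2,0,1,1,2,2]) (m [0,2,2,0,1,1,1,2,1,1,2,0,0,2,0,2]) (m [1,0,1,0,0,1,2,0,0,0,2,1,0,2,0,0]) (m [2,1,2,1,1,2,0,1,1,1,0,1,2,2,0,0]) (m [2,0,1,2,2,1,2,0,2,2,0,2,2,2,1,1]) (m [1,2,1,0,0,2,2,2,2,0,1,0,2,1,0,0]) (by decide +kernel) (by decide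 +kernel) (by decide +kernel) (by decide +kernel) (by decide +kernel) (by decide +kernel) (by decide +kernel) (by decide +kernel) (by decide +kernel) (by decide +kernel) (by decide +kernel) ?_
  intro a ha
  have hc : a = 0 ∨ a = 1 ∨ a = 2 := by revert a; decide
  rcases hc with rfl | rfl | rfl
  · exact absurd ha (by decide)
  · exact ⟨m [0,2,0,0,0,2,2,0,0,0,0,0,0,2,0,0], m [0,0,0,0,1,0,0,0,1,2,0,0,0,2,0,0], m [0,0,0,0,0,0,0,0,0,0,0,0,0,0,0,0], m [0,0,0,0,0,0,0,0,0,0,0,0,0,0,0,0], by decide +kernel⟩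
  · exact absurd ha (by decide)

theorem c_T1_2_1_2 : RepN (excM (ZMod 3) 2 1) (Matrix.toLin' (m [2,0,0,0,0,0,0,2,0,1,0,0,0,0,1,0])) 4 := by
  refine cert_sound (F := ZMod 3) 2 1 (m [2,0,0,0,0,0,0,2,0,1,0,0,0,0,1,0]) (m [1,0,0,2,1,0,1,1,1,2,2,2,0,0,0,1]) (m [2,0,2,0,2,0,1,2,1,0,0,0,1,1,2,2]) (m [2,1,2,1,0,1,2,2,2,2,0,0,1,1,1,1]) (m [2,1,1,0,1,2,1,2,1,1,2,1,0,0,0,1]) (m [2,1,0,1,0,2,0,2,2,2,0,1,1,1,2,2]) (m [2,2,0,1,0,2,1,0,2,2,2,0,1,2,2,0]) (m [2,1,2,2,2,2,1,0,1,2,2,0,2,1,2,1]) (m [0,2,1,2,0,0,1,0,2,0,2,2,2,2,2,2]) (m [2,2,0,0,2,0,1,0,0,0,2,2,1,2,2,0]) (m [0,0,1,2,0,1,2,2,0,2,2,2,1,1,0,1]) (m [2,1,0,2,0,1,1,0,2,0,1,2,1,0,0,2]) (m [1,1,0,2,0,0,1,2,0,1,0,0,2,1,2,1]) (m [1,2,0,1,1,1,1,2,1,2,2,2,1,1,2,2]) (m [1,0,1,2,0,1,2,0,0,0,1,1,1,1,1,1]) (by decide +kernel) (by decide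 +kernel) (by decide +kernel) (by decide +kernel) (by decide +kernel) (by decide +kernel) (by decide +kernel) (by decide +kernel) (by decide +kernel) (by decide +kernel) (by decide +kernel) ?_
  intro a ha
  have hc : a = 0 ∨ a = 1 ∨ a = 2 := by revert a; decide
  rcases hc with rfl | rfl | rfl
  · exact absurd ha (by decide)
  · exact ⟨m [1,2,0,0,1,0,0,0,1,2,0,0,2,0,0,0], m [0,1,0,0,2,2,0,0,2,1,0,0,0,0,0,0], m [0,0,0,0,0,0,0,0,0,0,0,0,0,0,0,0], m [0,0,0,0,0,0,0,0,0,0,0,0,0,0,0,0], by decide +kernel⟩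
  · exact absurd ha (by decide)

theorem c_T2_1_1 : RepN (excM (ZMod 3) 2 1) (Matrix.toLin' (m [1,0,0,0,0,1,0,0,0,0,0,2,0,0,1,2])) 4 := by
  refine cert_sound (F := ZMod 3) 2 1 (m [1,0,0,0,0,1,0,0,0,0,0,2,0,0,1,2]) (m [1,0,0,1,0,1,0,1,2,1,1,0,0,0,0,1]) (m [0,0,0,2,0,2,1,1,2,2,0,1,1,0,0,2]) (m [2,2,2,2,2,0,2,0,0,2,0,1,2,1,1,2]) (m [1,0,0,2,0,1,0,0,0,2,1,2,0,0,0,1]) (m [0,2,2,0,0,2,0,1,2,2,2,0,2,2,1,1]) (m [0,2,0,0,2,2,0,2,0,2,2,0,1,2,0,0]) (m [2,0,1,2,0,1,1,1,0,1,1,0,1,0,1,0]) (m [1,2,1,0,2,2,0,0,0,2,0,2,2,2,1,1]) (m [1,0,2,0,1,1,1,2,1,2,2,1,1,2,1,2]) (m [2,0,0,1,2,0,0,0,1,0,2,0,2,2,0,2]) (m [1,1,2,2,1,1,0,1,2,2,1,2,0,1,2,0]) (m [1,1,2,2,2,1,1,1,2,0,2,2,1,2,1,2]) (m [1,0,0,1,1,2,1,0,2,1,1,0,1,0,0,2]) (m [2,0,2,1,2,1,2,2,0,2,0,1,2,0,1,2]) (by decide +kernel) (by decide +kernel)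 (by decide +kernel) (by decide +kernel) (by decide +kernel) (by decide +kernel) (by decide +kernel) (by decide +kernel) (by decide +kernel) (by decide +kernel) (by decide +kernel) ?_
  intro a ha
  have hc : a = 0 ∨ a = 1 ∨ a = 2 := by revert a; decide
  rcases hc with rfl | rfl | rfl
  · exact absurd ha (by decide)
  · exact ⟨m [0,2,0,0,0,2,1,0,0,0,2,0,0,1,0,0], m [2,0,0,0,2,0,0,0,1,1,0,0,0,0,0,0], m [0,0,0,0,0,0,0,0,0,0,0,0,0,0,0,0], m [0,0,0,0,0,0,0,0,0,0,0,0,0,0,0,0], by decide +kernel⟩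
  · exact absurd ha (by decide)

theorem c_T2_2_2 : RepN (excM (ZMod 3) 2 1) (Matrix.toLin' (m [2,0,0,0,0,2,0,0,0,0,0,2,0,0,1,1])) 4 := by
  refine cert_sound (F := ZMod 3) 2 1 (m [2,0,0,0,0,2,0,0,0,0,0,2,0,0,1,1]) (m [2,2,1,1,2,1,1,2,1,0,0,1,0,1,1,1]) (m [2,2,1,1,2,1,1,2,1,0,0,1,0,1,1,1]) (m [1,0,1,0,1,0,2,1,0,0,1,0,1,2,1,2]) (m [2,1,0,2,0,1,0,0,2,0,1,1,1,1,0,0]) (m [1,1,1,2,2,0,0,0,0,2,2,2,1,0,1,0]) (m [2,1,0,0,0,1,0,2,0,2,1,2,0,0,2,0]) (m [1,2,1,1,1,1,2,0,1,1,0,0,1,0,2,0]) (m [0,1,2,1,1,1,0,0,0,0,1,2,0,1,0,2]) (m [0,2,0,0,2,1,1,2,0,1,0,1,1,1,1,0]) (m [2,2,1,1,0,2,1,1,0,0,0,2,0,1,1,1]) (m [0,2,1,1,0,1,0,2,0,2,1,0,1,0,1,1]) (m [2,1,2,0,1,0,1,0,1,0,2,2,1,0,1,2]) (m [0,1,2,2,1,1,2,1,2,0,2,2,0,2,2,1]) (m [1,1,1,0,1,2,2,1,2,0,1,1,0,2,1,0]) (by decide +kernel) (by decide +kernel)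 (by decide +kernel) (by decide +kernel) (by decide +kernel) (by decide +kernel) (by decide +kernel) (by decide +kernel) (by decide +kernel) (by decide +kernel) (by decide +kernel) ?_
  intro a ha
  have hc : a = 0 ∨ a = 1 ∨ a = 2 := by revert a; decide
  rcases hc with rfl | rfl | rfl
  · exact absurd ha (by decide)
  · exact ⟨m [2,0,0,0,2,2,0,0,0,0,0,0,1,2,0,0], m [0,0,0,0,0,0,0,0,0,0,0,0,0,0,0,0], m [1,0,0,0,2,0,0,0,1,0,0,0,0,0,0,0], m [2,0,0,0,0,0,0,0,0,0,0,0,1,0,0,0], by decide +kernel⟩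
  · exact absurd ha (by decide)

theorem c_T3_0_1 : RepN (excM (ZMod 3) 2 1) (Matrix.toLin' (m [0,2,0,0,1,0,0,0,0,0,0,2,0,0,1,0])) 4 := by
  refine cert_sound (F := ZMod 3) 2 1 (m [0,2,0,0,1,0,0,0,0,0,0,2,0,0,1,0]) (m [0,1,2,0,1,0,2,1,2,1,1,1,1,2,0,0]) (m [0,1,0,2,0,0,1,1,2,1,1,2,1,1,1,0]) (m [0,0,1,0,2,2,0,1,2,0,2,0,0,2,1,0]) (m [0,1,1,2,1,1,0,2,0,2,0,2,2,1,1,0]) (m [0,0,2,0,0,1,0,1,0,1,0,0,1,0,2,2]) (m [2,0,0,1,1,2,2,2,1,2,1,2,1,1,1,0]) (m [0,2,0,0,2,2,0,1,2,1,0,0,1,0,1,0]) (m [1,1,1,2,0,2,0,1,0,1,2,0,2,2,0,1]) (m [2,1,2,1,0,0,1,0,2,0,0,0,0,1,2,0]) (m [1,1,0,1,2,1,1,0,0,1,2,0,2,1,0,1]) (m [2,0,2,0,2,0,0,0,1,0,1,1,1,1,2,0]) (m [0,1,0,2,1,0,1,1,1,0,0,1,1,1,1,1]) (m [1,2,0,2,2,1,0,0,0,1,0,1,0,1,2,1]) (m [0,2,0,2,1,2,0,2,0,0,2,2,2,1,0,0]) (by decide +kernel) (by decide +kernel)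 (by decide +kernel) (by decide +kernel) (by decide +kernel) (by decide +kernel) (by decide +kernel) (by decide +kernel) (by decide +kernel) (by decide +kernel) (by decide +kernel) ?_
  intro a ha
  have hc : a = 0 ∨ a = 1 ∨ a = 2 := by revert a; decide
  rcases hc with rfl | rfl | rfl
  · exact absurd ha (by decide)
  · exact ⟨m [2,0,2,0,2,0,1,0,2,0,2,0,0,0,2,0], m [1,2,0,0,0,2,0,0,2,0,0,0,1,0,0,0], m [0,0,0,0,0,0,0,0,0,0,0,0,0,0,0,0], m [0,0,0,0,0,0,0,0,0,0,0,0,0,0,0,0], by decide +kernel⟩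
  · exact absurd ha (by decide)

theorem c_T3_1_1 : RepN (excM (ZMod 3) 2 1) (Matrix.toLin' (m [0,2,0,0,1,1,0,0,0,0,0,2,0,0,1,1])) 4 := by
  refine cert_sound (F := ZMod 3) 2 1 (m [0,2,0,0,1,1,0,0,0,0,0,2,0,0,1,1]) (m [0,1,2,1,2,1,2,0,1,2,2,2,1,0,1,1]) (m [1,2,0,2,2,2,2,1,0,1,1,1,1,2,1,0]) (m [1,0,1,0,0,1,2,0,0,0,1,0,1,1,1,1]) (m [0,0,0,2,0,2,2,0,0,1,0,0,1,0,0,2]) (m [0,2,2,2,2,2,1,0,0,1,2,2,0,0,0,1]) (m [1,1,1,2,2,1,2,0,0,0,0,2,1,2,0,2]) (m [1,0,0,0,0,1,2,2,2,2,0,0,1,1,2,1]) (m [2,0,1,1,1,2,0,2,0,1,1,0,0,2,2,2]) (m [0,2,2,2,1,0,2,0,1,0,1,2,0,0,0,1]) (m [2,2,0,1,2,2,1,0,0,2,1,2,0,0,2,0]) (m [1,0,0,0,2,0,2,0,1,1,2,1,1,1,0,2]) (m [1,2,1,2,1,1,2,0,2,2,2,0,0,0,2,2]) (m [0,0,2,0,1,2,1,1,1,0,2,0,2,2,2,0]) (m [0,1,0,2,0,1,2,0,0,1,0,0,1,0,2,1]) (by decide +kernel) (by decide +kernel)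 (by decide +kernel) (by decide +kernel) (by decide +kernel) (by decide +kernel) (by decide +kernel) (by decide +kernel) (by decide +kernel) (by decide +kernel) (by decide +kernel) ?_
  intro a ha
  have hc : a = 0 ∨ a = 1 ∨ a = 2 := by revert a; decide
  rcases hc with rfl | rfl | rfl
  · exact absurd ha (by decide)
  · exact ⟨m [0,2,0,0,0,1,0,0,0,0,0,0,1,1,0,0], m [0,0,0,0,0,0,0,0,0,0,0,0,0,0,0,0], m [2,0,0,0,0,0,0,1,1,0,0,0,0,0,0,2], m [0,0,0,0,0,0,0,0,0,0,0,0,0,0,0,0], by decide +kernel⟩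
  · exact absurd ha (by decide)

theorem c_T3_2_1 : RepN (excM (ZMod 3) 2 1) (Matrix.toLin' (m [0,2,0,0,1,2,0,0,0,0,0,2,0,0,1,2])) 4 := by
  refine cert_sound (F := ZMod 3) 2 1 (m [0,2,0,0,1,2,0,0,0,0,0,2,0,0,1,2]) (m [1,1,1,0,0,1,1,2,0,0,0,1,0,0,2,2]) (m [2,2,0,1,0,1,0,0,0,1,1,0,2,1,0,0]) (m [2,0,2,0,2,0,1,2,1,0,0,0,1,1,2,2]) (m [2,1,1,2,2,0,1,1,0,0,1,0,0,0,2,1]) (m [2,1,0,0,0,1,1,0,2,1,2,0,1,0,0,1]) (m [2,0,0,1,0,0,2,2,1,1,1,0,2,1,0,2]) (m [2,1,1,2,2,1,0,0,0,2,0,1,0,1,2,2]) (m [1,2,1,1,2,2,0,2,2,2,1,1,1,2,2,1]) (m [1,1,1,0,2,1,1,0,1,0,2,0,2,2,2,1]) (m [0,2,2,1,1,1,1,0,2,0,1,2,1,2,2,1]) (m [2,0,1,2,2,1,1,2,0,0,2,2,2,1,2,2]) (m [2,0,1,0,2,1,0,2,2,0,0,1,2,1,2,1]) (m [2,1,1,1,1,1,1,0,2,1,0,0,1,1,2,0]) (m [1,2,1,1,1,2,1,0,2,1,1,2,1,1,2,2]) (by decide +kernel) (by decide +kernel)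 (by decide +kernel) (by decide +kernel) (by decide +kernel) (by decide +kernel) (by decide +kernel) (by decide +kernel) (by decide +kernel) (by decide +kernel) (by decide +kernel) ?_
  intro a ha
  have hc : a = 0 ∨ a = 1 ∨ a = 2 := by revert a; decide
  rcases hc with rfl | rfl | rfl
  · exact absurd ha (by decide)
  · exact ⟨m [2,0,2,0,0,0,0,0,1,0,0,0,1,0,1,0], m [1,0,2,0,0,0,1,0,0,0,2,0,0,0,2,0], m [0,0,0,0,0,0,0,0,0,0,0,0,0,0,0,0], m [0,0,0,0,0,0,0,0,0,0,0,0,0,0,0,0], by decide +kernel⟩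
  · exact absurd ha (by decide)

theorem c_T3_0_2 : RepN (excM (ZMod 3) 2 1) (Matrix.toLin' (m [0,1,0,0,1,0,0,0,0,0,0,1,0,0,1,0])) 4 := by
  refine cert_sound (F := ZMod 3) 2 1 (m [0,1,0,0,1,0,0,0,0,0,0,1,0,0,1,0]) (m [0,1,0,0,2,2,0,0,2,2,2,1,2,0,2,0]) (m [2,0,1,0,1,2,2,1,2,0,0,0,0,2,2,0]) (m [2,0,2,0,2,0,1,2,1,0,0,0,1,1,2,2]) (m [1,1,1,0,0,1,0,0,0,0,1,0,0,1,0,1]) (m [1,1,1,2,1,1,2,0,0,1,2,2,0,2,1,0]) (m [1,0,1,0,2,0,0,0,1,2,1,2,2,0,0,2]) (m [0,1,1,1,1,2,0,1,2,0,1,1,0,2,2,1]) (m [1,2,2,1,2,2,2,2,2,2,0,0,0,2,2,1]) (m [0,1,0,1,2,1,1,0,2,1,1,1,0,0,2,2]) (m [0,2,0,0,1,2,2,1,1,1,0,0,0,1,0,2]) (m [1,2,1,2,0,1,1,1,2,2,2,0,2,0,0,2]) (m [1,0,0,2,2,0,2,1,2,1,1,2,1,1,0,1]) (m [1,2,2,1,0,1,0,2,1,0,2,2,2,0,2,0]) (m [2,2,1,0,2,1,0,2,1,1,1,0,1,1,0,2]) (by decide +kernel) (by decide +kernel)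 (by decide +kernel) (by decide +kernel) (by decide +kernel) (by decide +kernel) (by decide +kernel) (by decide +kernel) (by decide +kernel) (by decide +kernel) (by decide +kernel) ?_
  intro a ha
  have hc : a = 0 ∨ a = 1 ∨ a = 2 := by revert a; decide
  rcases hc with rfl | rfl | rfl
  · exact absurd ha (by decide)
  · exact ⟨m [0,0,0,0,1,0,0,0,0,0,0,0,1,0,1,0], m [2,0,0,0,2,0,0,0,2,0,0,0,2,0,0,0], m [2,0,0,0,2,0,0,0,1,0,0,0,0,0,0,0], m [0,0,0,0,0,0,0,0,0,0,0,0,0,0,0,0], by decide +kernel⟩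
  · exact absurd ha (by decide)

theorem c_T3_1_2 : RepN (excM (ZMod 3) 2 1) (Matrix.toLin' (m [0,1,0,0,1,1,0,0,0,0,0,1,0,0,1,1])) 4 := by
  refine cert_sound (F := ZMod 3) 2 1 (m [0,1,0,0,1,1,0,0,0,0,0,1,0,0,1,1]) (m [2,2,0,0,1,0,0,0,0,0,1,0,2,1,2,1]) (m [2,2,1,0,0,1,0,0,2,1,0,0,1,1,1,1]) (m [1,0,0,0,1,1,1,1,0,0,2,1,0,0,2,0]) (m [2,1,0,2,2,2,2,1,1,2,2,2,0,2,2,1]) (m [0,1,1,0,2,0,2,1,0,0,2,2,2,1,2,1]) (m [0,2,0,1,0,0,1,1,2,0,2,1,1,0,0,0]) (m [0,0,2,2,0,1,1,0,0,1,1,1,1,0,2,2]) (m [0,0,1,0,2,0,0,2,0,2,2,0,2,0,2,0]) (m [1,0,2,2,0,2,0,1,1,1,0,2,2,2,2,1]) (m [0,0,0,1,2,2,2,2,0,2,1,1,0,2,2,2]) (m [2,0,0,1,1,0,1,0,2,1,2,0,0,2,1,0]) (m [2,0,0,2,2,0,2,0,1,0,0,0,1,2,0,1]) (m [1,0,2,0,2,2,1,0,2,1,0,0,0,2,0,1]) (m [2,1,0,2,2,1,0,0,2,0,0,2,2,1,1,1]) (by decide +kernel) (by decide +kernel)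 (by decide +kernel) (by decide +kernel) (by decide +kernel) (by decide +kernel) (by decide +kernel) (by decide +kernel) (by decide +kernel) (by decide +kernel) (by decide +kernel) ?_
  intro a ha
  have hc : a = 0 ∨ a = 1 ∨ a = 2 := by revert a; decide
  rcases hc with rfl | rfl | rfl
  · exact absurd ha (by decide)
  · exact ⟨m [1,0,0,2,0,0,0,2,2,0,0,2,0,0,0,2], m [0,0,0,2,0,0,0,2,0,0,0,0,0,0,0,1], m [0,0,0,0,0,0,0,0,0,0,0,0,0,1,0,0], m [0,0,0,0,0,0,0,0,0,0,0,0,0,0,0,0], by decide +kernel⟩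
  · exact absurd ha (by decide)

theorem c_T3_2_2 : RepN (excM (ZMod 3) 2 1) (Matrix.toLin' (m [0,1,0,0,1,2,0,0,0,0,0,1,0,0,1,2])) 4 := by
  refine cert_sound (F := ZMod 3) 2 1 (m [0,1,0,0,1,2,0,0,0,0,0,1,0,0,1,2]) (m [2,0,2,0,2,1,0,2,1,0,0,0,2,0,1,1]) (m [1,0,2,2,1,0,0,1,2,1,0,1,1,2,1,0]) (m [2,1,1,2,1,0,0,1,1,1,2,2,0,1,2,0]) (m [0,1,1,0,0,1,1,2,2,1,1,1,2,1,0,2]) (m [0,2,0,1,1,0,1,0,1,0,2,0,1,2,1,0]) (m [0,2,1,0,2,2,0,2,2,1,0,0,2,0,1,1]) (m [0,1,0,0,2,1,0,1,0,1,1,1,1,2,1,2]) (m [0,2,1,2,0,2,1,1,2,2,1,2,0,0,1,2]) (m [0,2,2,0,0,1,0,2,0,2,1,0,1,1,0,2]) (m [2,1,0,1,2,1,1,1,0,1,1,1,2,0,2,1]) (m [0,1,1,2,1,0,0,0,0,1,0,1,2,2,1,2]) (m [1,0,2,0,2,0,0,1,1,2,0,1,1,2,0,0]) (m [0,2,1,0,2,1,0,2,1,0,2,2,2,0,2,2]) (m [0,0,1,1,2,2,1,2,2,0,1,2,1,0,0,1]) (by decide +kernel) (by decide +kernel)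 (by decide +kernel) (by decide +kernel) (by decide +kernel) (by decide +kernel) (by decide +kernel) (by decide +kernel) (by decide +kernel) (by decide +kernel) (by decide +kernel) ?_
  intro a ha
  have hc : a = 0 ∨ a = 1 ∨ a = 2 := by revert a; decide
  rcases hc with rfl | rfl | rfl
  · exact absurd ha (by decide)
  · exact ⟨m [1,0,0,0,1,0,0,0,0,0,0,0,0,0,0,0], m [1,0,0,0,2,2,0,0,1,0,0,0,1,0,0,0], m [0,0,0,0,0,0,0,0,0,0,0,0,0,0,0,0], m [0,2,0,0,0,0,0,0,0,2,0,0,0,1,0,0], by decide +kernel⟩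
  · exact absurd ha (by decide)

end Cert3_21

end Pool.Agent.PC
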