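import Mathlib

set_option autoImplicit false

namespace Pool.Agent.PC

open Module Polynomial

/-- similarity of endomorphisms, possibly of different spaces -/
def Sim {F V W : Type} [Field F] [AddCommGroup V] [Module F V] [AddCommGroup W] [Module F W]
    (a : V →ₗ[F] V) (b : W →ₗ[F] W) : Prop :=
  ∃ e : V ≃ₗ[F] W, ∀ x, b (e x) = e (a x)

/-- `u` is a cyclic vector of `T` -/
def Cyc {F V : Type} [Field F] [AddCommGroup V] [Module F V] (T : V →ₗ[F] V) (u : V) : Prop :=
  ∀ p : Submodule F V, u ∈ p → (∀ x ∈ p, T x ∈ p) → p = ⊤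

/-- scalar endomorphism -/
def Scal {F V : Type} [Field F] [AddCommGroup V] [Module F V] (a : V →ₗ[F] V) : Prop :=
  ∃ c : F, ∀ x, a x = c • x

/-- `rank (a - μ) ≥ 2` for all `μ` in `F` -/
def Big {F V : Type} [Field F] [AddCommGroup V] [Module F V] (a : V →ₗ[F] V) : Prop :=
  ∀ μ : F, 2 ≤ finrank F (LinearMap.range (a - μ • (LinearMap.id : V →ₗ[F] V)))

/-- the maps in the list have no common eigenvector with a common eigenvalue -/
def NoCom {F V : Type} [Field F] [AddCommGroup V] [Module F V] (l : List (Module.End F V)) : Prop :=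
  ∀ (c : F) (x : V), (∀ d ∈ l, d x = c • x) → x = 0

/-- `b` is a product of `m` endomorphisms similar to `a` -/
def Rep {F V : Type} [Field F] [AddCommGroup V] [Module F V] (a b : Module.End F V) (m : ℕ) : Prop :=
  ∃ l : List (Module.End F V), l.length = m ∧ (∀ d ∈ l, Sim a d) ∧ l.prod = b

/-- `b` is a product of `m` endomorphisms similar to `a` without common eigenvector -/
def RepN {F V : Type} [Field F] [AddCommGroup V] [Module F V] (a b : Module.End F V) (m : ℕ) : Prop :=
  ∃ l : List (Module.End F V), l.length = m ∧ (∀ d ∈ l, Sim a d) ∧ l.prod = b ∧ NoCom l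

/-- the cyclic class with characteristic polynomial `(X - λ) g`, `g(λ) ≠ 0` -/
def CycS {F V : Type} [Field F] [AddCommGroup V] [Module F V] [FiniteDimensional F V]
    (b : Module.End F V) (lam : F) (g : F[X]) : Prop :=
  (∃ w, Cyc b w) ∧ LinearMap.charpoly b = (X - C lam) * g

/-- the model `C' ⊕ C'` with `C'` the companion matrix of `X^2 - t X + d` -/
def excM (F : Type) [Field F] (t d : F) : (Fin 4 → F) →ₗ[F] (Fin 4 → F) :=
  Matrix.toLin' !![0, -d, 0, 0; 1, t, 0, 0; 0, 0, 0, -d; 0, 0, 1, t]

/-- block triangular map on `F × H` -/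
def Tr {F H : Type} [Field F] [AddCommGroup H] [Module F H] (a : F) (χ : H →ₗ[F] F)
    (D : H →ₗ[F] H) : (F × H) →ₗ[F] (F × H) :=
  LinearMap.prod (a • LinearMap.fst F F H + χ.comp (LinearMap.snd F F H)) (D.comp (LinearMap.snd F F H))

/-- block upper triangular map `(u, x) ↦ (P u + Z x, Q x)` -/
def Blk {F U W : Type} [Field F] [AddCommGroup U] [Module F U] [AddCommGroup W] [Module F W]
    (P : U →ₗ[F] U) (Z : W →ₗ[F] U) (Q : W →ₗ[F] W) : (U × W) →ₗ[F] (U × W) :=
  LinearMap.prod (P.comp (LinearMap.fst F U W) + Z.comp (LinearMap.snd F U W))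
    (Q.comp (LinearMap.snd F U W))

/-- the quadratic model on `U × U` -/
def quadM {F : Type} [Field F] (U : Type) [AddCommGroup U] [Module F U] (t d : F) :
    (U × U) →ₗ[F] (U × U) :=
  LinearMap.prod (-(d • LinearMap.snd F U U)) (LinearMap.fst F U U + t • LinearMap.snd F U U)

/-- the exceptional four-dimensional statement for the field `F` -/
def ExcGood (F : Type) [Field F] : Prop :=
  ∀ (t d : F) (b : Module.End F (Fin 4 → F)), d ≠ 0 → ¬ Scal b →
    LinearMap.det b = LinearMap.det (excM F t d) ^ 4 → RepN (excM F t d) b 4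

/-- the conclusion of the problem over `F` -/
def Concl (F : Type) [Field F] : Prop :=
  ∀ (n : ℕ), 2 < n → ∀ α β : Matrix.SpecialLinearGroup (Fin n) F,
    α ∉ Subgroup.center (Matrix.SpecialLinearGroup (Fin n) F) →
    β ∉ Subgroup.center (Matrix.SpecialLinearGroup (Fin n) F) →
    ∃ g : Fin n → Matrix.GeneralLinearGroup (Fin n) F,
      (β : Matrix (Fin n) (Fin n) F) =
        (List.ofFn (fun i =>
          ((g i : Matrix.GeneralLinearGroup (Fin n) F) : Matrix (Fin n) (Fin n) F) *
            (α : Matrix (Fin n) (Fin n) F) *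
            (((g i)⁻¹ : Matrix.GeneralLinearGroup (Fin n) F) : Matrix (Fin n) (Fin n) F))).prod

end Pool.Agent.PC
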