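import Pool.Agent.MP485c8a.Defs

set_option autoImplicit false

namespace Pool.Agent.PC
namespace A1a

open Module Polynomial

/-- cyclicity is feedback invariant -/
theorem cyc_feedback {F V : Type} [Field F] [AddCommGroup V] [Module F V]
    (T : V →ₗ[F] V) (u : V) (c : V →ₗ[F] F) (h : Cyc T u) : Cyc (T + c.smulRight u) u := by
  intro p hu hp
  apply h p hu
  intro x hx
  have h1 := hp x hx
  have h2 : T x = (T + c.smulRight u) x - c x • u := by
    simp
  rw [h2]
  exact p.sub_mem h1 (p.smul_mem _ hu)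

/-- powers of a cyclic vector are a basis -/
theorem cyc_basis {F V : Type} [Field F] [AddCommGroup V] [Module F V] [FiniteDimensional F V]
    (T : V →ₗ[F] V) (u : V) (h : Cyc T u) :
    ∃ b : Basis (Fin (finrank F V)) F V, ∀ i, b i = (T ^ (i : ℕ)) u := by
  obtain ⟨k, hk⟩ : ∃ k, k = finrank F V := ⟨_, rfl⟩
  obtain ⟨p, hp⟩ : ∃ p : Submodule F V,
      p = Submodule.span F (Set.range fun i : Fin (finrank F V) => (T ^ (i : ℕ)) u) := ⟨_, rfl⟩
  have hmem : ∀ i : ℕ, i < finrank F V → (T ^ i) u ∈ p := by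
    intro i hi
    rw [hp]
    exact Submodule.subset_span ⟨⟨i, hi⟩, rfl⟩
  have hTk : (T ^ (finrank F V)) u ∈ p := by
    have h1 := LinearMap.aeval_self_charpoly T
    rw [Polynomial.aeval_eq_sum_range, LinearMap.charpoly_natDegree, Finset.sum_range_succ] at h1
    have hl : (LinearMap.charpoly T).coeff (finrank F V) = 1 := by
      have h2 := LinearMap.charpoly_monic T
      rw [Polynomial.Monic, Polynomial.leadingCoeff, LinearMap.charpoly_natDegree] at h2
      exact h2
    rw [hl, one_smul] at h1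
    have h2 : (T ^ (finrank F V)) u =
        -(∑ i ∈ Finset.range (finrank F V), (LinearMap.charpoly T).coeff i • (T ^ i) u) := by
      have h3 := congrArg (fun A : Module.End F V => A u) h1
      simp only [LinearMap.add_apply, LinearMap.zero_apply, LinearMap.sum_apply,
        LinearMap.smul_apply] at h3
      exact eq_neg_of_add_eq_zero_right h3
    rw [h2]
    apply p.neg_mem
    apply p.sum_mem
    intro i hi
    exact p.smul_mem _ (hmem i (Finset.mem_range.1 hi))
  have hu : u ∈ p := by
    rcases Nat.eq_zero_or_pos (finrank F V) with h0 | h0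
    · rw [h0] at hTk
      simpa using hTk
    · simpa using hmem 0 h0
  have htop : p = ⊤ := by
    apply h p hu
    have h1 : p ≤ p.comap T := by
      nth_rewrite 1 [hp]
      rw [Submodule.span_le]
      rintro _ ⟨i, rfl⟩
      show T ((T ^ (i : ℕ)) u) ∈ p
      have h2 : T ((T ^ (i : ℕ)) u) = (T ^ ((i : ℕ) + 1)) u := by
        rw [pow_succ']; rfl
      rw [h2]
      rcases Nat.lt_or_ge ((i : ℕ) + 1) (finrank F V) with h3 | h3
      · exact hmem _ h3
      · have h4 : (i : ℕ) + 1 = finrank F V := by have := i.2; omega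
        rw [h4]; exact hTk
    exact fun x hx => h1 hx
  refine ⟨basisOfTopLeSpanOfCardEqFinrank (fun i : Fin (finrank F V) => (T ^ (i : ℕ)) u)
    (by rw [← hp, htop]) (by simp), ?_⟩
  intro i
  rw [coe_basisOfTopLeSpanOfCardEqFinrank]

/-- a polynomial of degree `< dim` killing a cyclic vector is zero -/
theorem cyc_aeval_eq_zero {F V : Type} [Field F] [AddCommGroup V] [Module F V] [FiniteDimensional F V]
    (T : Module.End F V) (u : V) (h : Cyc T u) (p : F[X]) (hp : p.degree < (finrank F V : ℕ))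
    (h0 : (aeval T p) u = 0) : p = 0 := by
  by_contra hne
  obtain ⟨b, hb⟩ := cyc_basis T u h
  have hn : p.natDegree < finrank F V := (Polynomial.natDegree_lt_iff_degree_lt hne).2 hp
  rw [Polynomial.aeval_eq_sum_range' hn, LinearMap.sum_apply] at h0
  have h1 : ∑ i : Fin (finrank F V), p.coeff i • b i = 0 := by
    rw [← h0, ← Fin.sum_univ_eq_sum_range (fun i => (p.coeff i • T ^ i) u)]
    apply Finset.sum_congr rfl
    intro i _
    rw [hb i]
    rfl
  have h2 := Fintype.linearIndependent_iff.1 b.linearIndependent _ h1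
  apply hne
  ext n
  rw [Polynomial.coeff_zero]
  rcases Nat.lt_or_ge n (finrank F V) with h3 | h3
  · exact h2 ⟨n, h3⟩
  · exact Polynomial.coeff_eq_zero_of_natDegree_lt (lt_of_lt_of_le hn h3)

/-- a monic polynomial of degree `dim` killing a cyclic vector is the characteristic polynomial -/
theorem cyc_charpoly {F V : Type} [Field F] [AddCommGroup V] [Module F V] [FiniteDimensional F V]
    (T : Module.End F V) (u : V) (h : Cyc T u) (p : F[X]) (hm : p.Monic)
    (hp : p.natDegree = finrank F V)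
    (h0 : (aeval T p) u = 0) : LinearMap.charpoly T = p := by
  have h1 : (aeval T (LinearMap.charpoly T - p)) u = 0 := by
    rw [map_sub, LinearMap.sub_apply, h0, LinearMap.aeval_self_charpoly, LinearMap.zero_apply,
      sub_zero]
  have hd : (LinearMap.charpoly T).degree = p.degree := by
    rw [Polynomial.degree_eq_natDegree (LinearMap.charpoly_monic T).ne_zero,
      Polynomial.degree_eq_natDegree hm.ne_zero, hp, LinearMap.charpoly_natDegree]
  have h2 : (LinearMap.charpoly T - p).degree < (finrank F V : ℕ) := by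
    have h3 := Polynomial.degree_sub_lt_left hd (LinearMap.charpoly_monic T).ne_zero (by
      rw [(LinearMap.charpoly_monic T).leadingCoeff, hm.leadingCoeff])
    rw [hd, Polynomial.degree_eq_natDegree hm.ne_zero, hp] at h3
    exact h3
  have h3 := cyc_aeval_eq_zero T u h _ h2 h1
  exact sub_eq_zero.1 h3

/-- an injective cyclic map: the inverse is cyclic too (same vector) -/
theorem cyc_inv {F V : Type} [Field F] [AddCommGroup V] [Module F V] [FiniteDimensional F V]
    (T S : Module.End F V) (u : V) (h : Cyc T u) (hS : S * T = 1) : Cyc S u := by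
  have hT : T * S = 1 := mul_eq_one_comm.1 hS
  intro p hu hp
  apply h p hu
  intro x hx
  have hinj : Function.Injective (S.restrict hp) := by
    intro a b hab
    have h1 : S a = S b := congrArg Subtype.val hab
    have h2 : T (S a) = T (S b) := by rw [h1]
    have h3 : ∀ y, T (S y) = y := fun y => congrArg (fun A : Module.End F V => A y) hT
    rw [h3, h3] at h2
    exact Subtype.ext h2
  have hsurj := LinearMap.injective_iff_surjective.1 hinj
  obtain ⟨y, hy⟩ := hsurj ⟨x, hx⟩
  have h1 : S y = x := congrArg Subtype.val hy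
  have h3 : T (S (y : V)) = y := congrArg (fun A : Module.End F V => A (y : V)) hT
  rw [← h1, h3]
  exact y.2

/-- converse of `cyc_basis` -/
theorem cyc_of_span {F V : Type} [Field F] [AddCommGroup V] [Module F V] [FiniteDimensional F V]
    (T : Module.End F V) (u : V)
    (h : ⊤ ≤ Submodule.span F (Set.range (fun i : ℕ => (T ^ i) u))) : Cyc T u := by
  intro p hu hp
  have h1 : ∀ i : ℕ, (T ^ i) u ∈ p := by
    intro i
    induction i with
    | zero => simpa using hu
    | succ i ih =>
      have h2 : (T ^ (i + 1)) u = T ((T ^ i) u) := by rw [pow_succ']; rfl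
      rw [h2]
      exact hp _ ih
  apply top_le_iff.1
  refine h.trans ?_
  rw [Submodule.span_le]
  rintro _ ⟨i, rfl⟩
  exact h1 i

end A1a
end Pool.Agent.PC

namespace Pool.Agent.PC
namespace A1b
open Pool.Agent.PC.A1a (cyc_feedback)
open Pool.Agent.PC.A1a (cyc_basis)
open Pool.Agent.PC.A1a (cyc_charpoly)

open Module Polynomial

/-- pole placement -/
theorem pole_placement {F V : Type} [Field F] [AddCommGroup V] [Module F V] [FiniteDimensional F V]
    (T : Module.End F V) (u : V) (h : Cyc T u) (f : F[X]) (hm : f.Monic)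
    (hp : f.natDegree = finrank F V) :
    ∃ c : V →ₗ[F] F, LinearMap.charpoly (T + c.smulRight u) = f := by
  rcases Nat.eq_zero_or_pos (finrank F V) with hk0 | hkpos
  · refine ⟨0, cyc_charpoly _ u (cyc_feedback T u 0 h) f hm hp ?_⟩
    have : Subsingleton V := Module.finrank_zero_iff.mp hk0
    exact Subsingleton.elim _ _
  · have hcb := cyc_basis T u h
    have hp' := hp
    generalize finrank F V = k at hcb hp hkpos
    obtain ⟨b, hb⟩ := hcb
    have hk1 : k - 1 < k := by omega
    set l : V →ₗ[F] F := b.coord ⟨k - 1, hk1⟩ with hl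
    have lT : ∀ j, j < k → l ((T ^ j) u) = if j = k - 1 then 1 else 0 := by
      intro j hj
      have h1 := hb ⟨j, hj⟩
      simp only at h1
      rw [← h1, hl, Basis.coord_apply, Basis.repr_self, Finsupp.single_apply]
      simp only [Fin.mk.injEq]
    have lT1 : l ((T ^ (k - 1)) u) = 1 := by rw [lT _ hk1, if_pos rfl]
    have lT0 : ∀ j, j < k - 1 → l ((T ^ j) u) = 0 := by
      intro j hj
      rw [lT j (by omega), if_neg (by omega)]
    set c : V →ₗ[F] F := -(l ∘ₗ (aeval T f)) with hc
    have hcx : ∀ x, c x = - l ((aeval T f) x) := fun x => rfl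
    set S : Module.End F V := T + c.smulRight u with hS
    have hSx : ∀ x, S x = T x + c x • u := fun x => rfl
    have c1 : ∀ j, j ≤ k - 1 → ∀ x, l ((S ^ j) x) = l ((T ^ j) x) := by
      intro j
      induction j with
      | zero => intro _ x; rfl
      | succ j ih =>
        intro hj x
        rw [pow_succ, pow_succ, Module.End.mul_apply, Module.End.mul_apply, ih (by omega), hSx,
          map_add, map_add, map_smul, map_smul, lT0 j (by omega), smul_zero, add_zero]
    have c2 : ∀ x, l ((S ^ k) x) = l ((T ^ k) x) + c x := by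
      intro x
      obtain ⟨m, hm⟩ : ∃ m, k = m + 1 := ⟨k - 1, by omega⟩
      have hm' : k - 1 = m := by omega
      rw [hm'] at c1 lT1
      rw [hm, pow_succ, pow_succ, Module.End.mul_apply, Module.End.mul_apply, c1 m le_rfl, hSx,
        map_add, map_add, map_smul, map_smul, lT1, smul_eq_mul, mul_one]
    have c3 : ∀ x, l ((aeval S f) x) = 0 := by
      intro x
      have e : ∀ R : Module.End F V, l ((aeval R f) x) =
          ∑ i ∈ Finset.range k, f.coeff i * l ((R ^ i) x) + l ((R ^ k) x) := by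
        intro R
        rw [Polynomial.aeval_eq_sum_range, hp, Finset.sum_range_succ, LinearMap.add_apply,
          map_add, LinearMap.sum_apply, map_sum]
        congr 1
        · refine Finset.sum_congr rfl fun i _ => ?_
          rw [LinearMap.smul_apply, map_smul, smul_eq_mul]
        · have : f.coeff k = 1 := by
            rw [← hp]; exact hm
          rw [this, one_smul]
      have h1 := e S
      have h2 := e T
      rw [h1, c2, hcx, h2]
      have h3 : ∑ i ∈ Finset.range k, f.coeff i * l ((S ^ i) x) =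
          ∑ i ∈ Finset.range k, f.coeff i * l ((T ^ i) x) := by
        refine Finset.sum_congr rfl fun i hi => ?_
        rw [Finset.mem_range] at hi
        rw [c1 i (by omega)]
      rw [h3]
      ring
    have c4 : ∀ j x, l ((S ^ j) ((aeval S f) x)) = 0 := by
      intro j x
      have hcomm : (S ^ j) * (aeval S f) = (aeval S f) * (S ^ j) := by
        have h1 : S ^ j = aeval S (X ^ j : F[X]) := by simp
        rw [h1, ← map_mul, ← map_mul, mul_comm]
      rw [← Module.End.mul_apply, hcomm, Module.End.mul_apply]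
      exact c3 _
    have c5 : ∀ j, j ≤ k - 1 → l ((T ^ j) ((aeval S f) u)) = 0 := by
      intro j hj
      rw [← c1 j hj]
      exact c4 j u
    have c6 : (aeval S f) u = 0 := by
      generalize (aeval S f) u = y at c5
      by_contra hy
      have hr : b.repr y ≠ 0 := by
        intro h0
        exact hy (b.repr.map_eq_zero_iff.mp h0)
      have hne : (b.repr y).support.Nonempty := Finsupp.support_nonempty_iff.mpr hr
      set i := (b.repr y).support.max' hne with hi
      have himem : i ∈ (b.repr y).support := Finset.max'_mem _ _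
      have hi0 : b.repr y i ≠ 0 := Finsupp.mem_support_iff.mp himem
      apply hi0
      have h5 := c5 (k - 1 - i) (by omega)
      have e1 : y = ∑ m, b.repr y m • (T ^ (m : ℕ)) u := by
        conv_lhs => rw [← b.sum_repr y]
        refine Finset.sum_congr rfl fun m _ => ?_
        rw [hb]
      rw [e1, map_sum, map_sum] at h5
      rw [Finset.sum_eq_single i] at h5
      · rw [map_smul, map_smul, ← Module.End.mul_apply, ← pow_add] at h5
        have e2 : k - 1 - (i : ℕ) + (i : ℕ) = k - 1 := by
          have := i.isLt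
          omega
        rw [e2, lT1, smul_eq_mul, mul_one] at h5
        exact h5
      · intro m _ hmi
        rw [map_smul, map_smul, ← Module.End.mul_apply, ← pow_add]
        rcases lt_or_gt_of_ne hmi with hlt | hgt
        · have : (m : ℕ) < (i : ℕ) := hlt
          rw [lT0 _ (by omega), smul_zero]
        · have hm0 : b.repr y m = 0 := by
            by_contra hcon
            have h6 : m ∈ (b.repr y).support := Finsupp.mem_support_iff.mpr hcon
            have h7 := Finset.le_max' _ m h6
            exact absurd hgt (not_lt.mpr h7)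
          rw [hm0, zero_smul]
      · intro hcon
        exact absurd (Finset.mem_univ i) hcon
    exact ⟨c, cyc_charpoly S u (cyc_feedback T u c h) f hm hp' c6⟩


end A1b
end Pool.Agent.PC

namespace Pool.Agent.PC
namespace A1c
open Pool.Agent.PC.A1a (cyc_basis)

open Module Polynomial

theorem cs_aeval_sum {F V : Type} [Field F] [AddCommGroup V] [Module F V]
    (T : Module.End F V) (u : V) (p : F[X]) :
    (aeval T p) u = ∑ i ∈ p.support, p.coeff i • (T ^ i) u := by
  rw [aeval_def, eval₂_eq_sum, sum_def, LinearMap.sum_apply]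
  refine Finset.sum_congr rfl (fun i _ => ?_)
  rw [Module.End.mul_apply, Module.algebraMap_end_apply]

/-- two cyclic endomorphisms with the same characteristic polynomial are similar -/
theorem cyc_sim {F V W : Type} [Field F] [AddCommGroup V] [Module F V] [FiniteDimensional F V]
    [AddCommGroup W] [Module F W] [FiniteDimensional F W]
    (T : Module.End F V) (u : V) (h : Cyc T u) (T' : Module.End F W) (u' : W) (h' : Cyc T' u')
    (hc : LinearMap.charpoly T = LinearMap.charpoly T') :
    ∃ e : V ≃ₗ[F] W, e u = u' ∧ ∀ x, T' (e x) = e (T x) := by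
  obtain ⟨b, hb⟩ := cyc_basis T u h
  obtain ⟨b', hb'⟩ := cyc_basis T' u' h'
  have hk : finrank F V = finrank F W := by
    rw [← LinearMap.charpoly_natDegree T, ← LinearMap.charpoly_natDegree T', hc]
  let e : V ≃ₗ[F] W := b.equiv b' (finCongr hk)
  have he : ∀ i : ℕ, i < finrank F V → e ((T ^ i) u) = (T' ^ i) u' := by
    intro i hi
    have h1 := hb ⟨i, hi⟩
    have h2 := hb' (finCongr hk ⟨i, hi⟩)
    have h3 : e (b ⟨i, hi⟩) = b' (finCongr hk ⟨i, hi⟩) := b.equiv_apply _ _ _
    rw [h1, h2] at h3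
    exact h3
  have hlow : ∀ p : F[X], p.degree < (finrank F V : ℕ) → e ((aeval T p) u) = (aeval T' p) u' := by
    intro p hp
    rw [cs_aeval_sum, cs_aeval_sum, map_sum]
    refine Finset.sum_congr rfl (fun i hi => ?_)
    rw [map_smul, he i]
    have := lt_of_le_of_lt (le_degree_of_mem_supp i hi) hp
    exact_mod_cast this
  have hmod : ∀ p : F[X], (aeval T p) u = (aeval T (p %ₘ LinearMap.charpoly T)) u := by
    intro p
    conv_lhs => rw [← modByMonic_add_div p (LinearMap.charpoly T)]
    rw [map_add, map_mul, LinearMap.aeval_self_charpoly, zero_mul, add_zero]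
  have hmod' : ∀ p : F[X], (aeval T' p) u' = (aeval T' (p %ₘ LinearMap.charpoly T)) u' := by
    intro p
    rw [hc]
    conv_lhs => rw [← modByMonic_add_div p (LinearMap.charpoly T')]
    rw [map_add, map_mul, LinearMap.aeval_self_charpoly, zero_mul, add_zero]
  have hall : ∀ p : F[X], e ((aeval T p) u) = (aeval T' p) u' := by
    intro p
    rw [hmod, hmod']
    apply hlow
    have h1 := degree_modByMonic_lt p (LinearMap.charpoly_monic T)
    rw [degree_eq_natDegree (LinearMap.charpoly_monic T).ne_zero,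
      LinearMap.charpoly_natDegree] at h1
    exact h1
  refine ⟨e, ?_, ?_⟩
  · have := hall 1
    rw [map_one, map_one] at this
    exact this
  · intro x
    obtain ⟨p, hp⟩ : ∃ p : F[X], (aeval T p) u = x := by
      refine ⟨∑ i, C (b.repr x i) * X ^ (i : ℕ), ?_⟩
      rw [map_sum, LinearMap.sum_apply]
      conv_rhs => rw [← b.sum_repr x]
      refine Finset.sum_congr rfl (fun i _ => ?_)
      rw [hb i, map_mul, aeval_C, map_pow, aeval_X, Module.End.mul_apply,
        Module.algebraMap_end_apply]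
    have h1 := hall (X * p)
    rw [map_mul, map_mul, aeval_X, aeval_X, Module.End.mul_apply, Module.End.mul_apply, hp,
      ← hall p, hp] at h1
    exact h1.symm

end A1c
end Pool.Agent.PC

namespace Pool.Agent.PC
namespace A2

open Module Polynomial

/-- no proper subspace containing `ker E` with `R S ≤ E S` -/
def Good {F X Y : Type} [Field F] [AddCommGroup X] [Module F X] [AddCommGroup Y] [Module F Y]
    (R E : X →ₗ[F] Y) : Prop :=
  ∀ S : Submodule F X, LinearMap.ker E ≤ S → S.map R ≤ S.map E → S = ⊤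

theorem good_step {F X Y Z : Type} [Field F] [AddCommGroup X] [Module F X] [AddCommGroup Y]
    [Module F Y] [AddCommGroup Z] [Module F Z] (R E : X →ₗ[F] Y) (A B : Y →ₗ[F] Z)
    (h : ∀ x, A (R x) = B (E x)) (hk : ∀ y, A y = 0 → ∃ c, E c = 0 ∧ R c = y)
    (hG : Good B A) : Good R E := by
  intro S hS hRE
  have hT : S.map E = ⊤ := by
    refine hG _ ?_ ?_
    · intro y hy
      obtain ⟨c, hc, rfl⟩ := hk y (LinearMap.mem_ker.1 hy)
      exact hRE (Submodule.mem_map_of_mem (hS (LinearMap.mem_ker.2 hc)))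
    · rintro _ ⟨_, ⟨x, hx, rfl⟩, rfl⟩
      rw [← h x]
      exact Submodule.mem_map_of_mem (hRE (Submodule.mem_map_of_mem hx))
  rw [eq_top_iff]
  intro x _
  have h1 : E x ∈ S.map E := by rw [hT]; exact Submodule.mem_top
  obtain ⟨x', hx', hxx⟩ := h1
  have h2 : x - x' ∈ S := hS (by rw [LinearMap.mem_ker, map_sub, hxx, sub_self])
  have h3 := S.add_mem h2 hx'
  rwa [sub_add_cancel] at h3

theorem gg_step {F X Y Z : Type} [Field F] [AddCommGroup X] [Module F X] [AddCommGroup Y]
    [Module F Y] [AddCommGroup Z] [Module F Z] (R E : X →ₗ[F] Y) (A B : Y →ₗ[F] Z)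
    (hE : Function.Surjective E)
    (h : ∀ x, A (R x) = B (E x)) (hk : ∀ y, A y = 0 → ∃ c, E c = 0 ∧ R c = y)
    (hG : Good B A ∧ Good A B) : Good R E ∧ Good E R := by
  refine ⟨good_step R E A B h hk hG.1, good_step E R B A (fun x => (h x).symm) ?_ hG.2⟩
  intro y hy
  obtain ⟨x, rfl⟩ := hE y
  rw [← h x] at hy
  obtain ⟨c, hc, hcx⟩ := hk _ hy
  exact ⟨x - c, by rw [map_sub, hcx, sub_self], by rw [map_sub, hc, sub_zero]⟩

theorem good_comp {F X X' Y : Type} [Field F] [AddCommGroup X] [Module F X] [AddCommGroup X']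
    [Module F X'] [AddCommGroup Y] [Module F Y] (R E : X →ₗ[F] Y) (g : X' ≃ₗ[F] X)
    (hG : Good R E) : Good (R ∘ₗ g.toLinearMap) (E ∘ₗ g.toLinearMap) := by
  intro S hS hRE
  have h1 : S.map g.toLinearMap = ⊤ := by
    refine hG _ ?_ ?_
    · intro x hx
      refine ⟨g.symm x, hS ?_, g.apply_symm_apply x⟩
      rw [LinearMap.mem_ker]
      show E (g (g.symm x)) = 0
      rw [g.apply_symm_apply]
      exact hx
    · rw [← Submodule.map_comp, ← Submodule.map_comp]
      exact hRE
  rw [eq_top_iff]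
  intro x _
  have h2 : g x ∈ S.map g.toLinearMap := by rw [h1]; exact Submodule.mem_top
  obtain ⟨x', hx', hxx⟩ := h2
  have : x' = x := g.injective hxx
  rwa [← this]

theorem lift_aux {F X Y Z : Type} [Field F] [AddCommGroup X] [Module F X] [AddCommGroup Y]
    [Module F Y] [AddCommGroup Z] [Module F Z] (P : Y →ₗ[F] Z) (hP : Function.Surjective P)
    (q : X →ₗ[F] Z) (hq : Function.Surjective q) (y : Y) (hy : ∀ w, P w = 0 ↔ ∃ t : F, t • y = w)
    (f : X →ₗ[F] F) (hf : ∃ c, q c = 0 ∧ f c ≠ 0) :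
    ∃ R : X →ₗ[F] Y, Function.Surjective R ∧ (∀ x, P (R x) = q x) ∧ ∀ c, q c = 0 → R c = f c • y := by
  obtain ⟨s, hs⟩ := P.exists_rightInverse_of_surjective (LinearMap.range_eq_top.2 hP)
  have hs' : ∀ z, P (s z) = z := fun z => LinearMap.congr_fun hs z
  have hPy : P y = 0 := (hy y).2 ⟨1, one_smul _ _⟩
  have e1 : ∀ x, (s ∘ₗ q + f.smulRight y) x = s (q x) + f x • y := fun x => rfl
  refine ⟨s ∘ₗ q + f.smulRight y, ?_, ?_, ?_⟩
  · intro w
    obtain ⟨c, hc, hfc⟩ := hf
    obtain ⟨x, hx⟩ := hq (P w)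
    obtain ⟨t, ht⟩ := (hy (w - (s (q x) + f x • y))).1 (by
      rw [map_sub, map_add, map_smul, hPy, smul_zero, add_zero, hs', hx, sub_self])
    refine ⟨x + (t * (f c)⁻¹) • c, ?_⟩
    rw [map_add, map_smul, e1, e1, hc, map_zero, zero_add, smul_smul, mul_assoc,
      inv_mul_cancel₀ hfc, mul_one, ht]
    abel
  · intro x
    rw [e1, map_add, map_smul, hPy, smul_zero, add_zero, hs']
  · intro c hc
    rw [e1, hc, map_zero, zero_add]

theorem line_aux {F X Y : Type} [Field F] [AddCommGroup X] [Module F X] [AddCommGroup Y]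
    [Module F Y] [FiniteDimensional F X] (P : X →ₗ[F] Y) (hP : Function.Surjective P)
    (h : finrank F X = finrank F Y + 1) : ∃ y : X, y ≠ 0 ∧ ∀ w, P w = 0 ↔ ∃ t : F, t • y = w := by
  have h1 := P.finrank_range_add_finrank_ker
  rw [LinearMap.range_eq_top.2 hP, finrank_top] at h1
  have h2 : finrank F (LinearMap.ker P) = 1 := by omega
  obtain ⟨v, hv, hv'⟩ := finrank_eq_one_iff'.1 h2
  refine ⟨v, fun h => hv (Subtype.ext h), fun w => ⟨fun hw => ?_, ?_⟩⟩
  · obtain ⟨t, ht⟩ := hv' ⟨w, hw⟩
    exact ⟨t, congrArg Subtype.val ht⟩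
  · rintro ⟨t, rfl⟩
    rw [map_smul, LinearMap.mem_ker.1 v.2, smul_zero]

theorem dual_aux {F X : Type} [Field F] [AddCommGroup X] [Module F X] (v : X) (hv : v ≠ 0) :
    ∃ f : X →ₗ[F] F, f v ≠ 0 := by
  by_contra hcon
  push Not at hcon
  exact hv ((Module.forall_dual_apply_eq_zero_iff F v).1 hcon)

theorem pencil {F : Type} [Field F] (m : ℕ) : ∀ (X Y : Type) [AddCommGroup X] [Module F X]
    [FiniteDimensional F X] [AddCommGroup Y] [Module F Y] [FiniteDimensional F Y],
    finrank F X = m + 1 → finrank F Y = m → ∀ (E₁ E₂ : X →ₗ[F] Y), Function.Surjective E₁ →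
    Function.Surjective E₂ → ∃ R : X →ₗ[F] Y, Function.Surjective R ∧ (Good R E₁ ∧ Good E₁ R) ∧
      (Good R E₂ ∧ Good E₂ R) := by
  induction m with
  | zero =>
    intro X Y _ _ _ _ _ _ hX hY E₁ E₂ h₁ h₂
    have hs : Subsingleton Y := finrank_zero_iff.1 hY
    have hg : ∀ A B : X →ₗ[F] Y, Good A B := by
      intro A B S hS _
      rw [eq_top_iff]
      intro x _
      exact hS (LinearMap.mem_ker.2 (Subsingleton.elim _ _))
    exact ⟨0, fun y => ⟨0, Subsingleton.elim _ _⟩, ⟨hg _ _, hg _ _⟩, ⟨hg _ _, hg _ _⟩⟩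
  | succ m ih =>
    intro X Y _ _ _ _ _ _ hX hY E₁ E₂ h₁ h₂
    obtain ⟨c₁, hc₁, hk₁⟩ := line_aux E₁ h₁ (by omega)
    obtain ⟨c₂, hc₂, hk₂⟩ := line_aux E₂ h₂ (by omega)
    by_cases hc : ∃ t : F, t • c₁ = c₂
    · -- equal kernels
      obtain ⟨t, ht⟩ := hc
      have ht0 : t ≠ 0 := by
        rintro rfl
        rw [zero_smul] at ht
        exact hc₂ ht.symm
      have hker : ∀ x, E₁ x = 0 ↔ E₂ x = 0 := by
        intro x
        rw [hk₁, hk₂]
        constructor
        · rintro ⟨a, rfl⟩
          exact ⟨a * t⁻¹, by rw [← ht, smul_smul, mul_assoc, inv_mul_cancel₀ ht0, mul_one]⟩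
        · rintro ⟨a, rfl⟩
          exact ⟨a * t, by rw [← ht, smul_smul]⟩
      obtain ⟨s, hs⟩ := E₁.exists_rightInverse_of_surjective (LinearMap.range_eq_top.2 h₁)
      have hs' : ∀ z, E₁ (s z) = z := fun z => LinearMap.congr_fun hs z
      have hG₁ : ∀ x, (E₂ ∘ₗ s) (E₁ x) = E₂ x := by
        intro x
        have h3 : E₁ (s (E₁ x) - x) = 0 := by rw [map_sub, hs', sub_self]
        have h4 := (hker _).1 h3
        rw [map_sub] at h4
        exact sub_eq_zero.1 h4
      have hGi : Function.Injective (E₂ ∘ₗ s) := by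
        rw [← LinearMap.ker_eq_bot, LinearMap.ker_eq_bot']
        intro y hy
        obtain ⟨x, rfl⟩ := h₁ y
        rw [hG₁] at hy
        exact (hker x).2 hy
      set G : Y ≃ₗ[F] Y := LinearEquiv.ofInjectiveEndo (E₂ ∘ₗ s) hGi with hG
      have hG₂ : ∀ x, G (E₁ x) = E₂ x := hG₁
      obtain ⟨y0, hy0⟩ : ∃ y0 : Y, y0 ≠ 0 := by
        have : Nontrivial Y := Module.nontrivial_of_finrank_pos (R := F) (by omega)
        exact exists_ne 0
      set Y' := Y ⧸ (Submodule.span F {y0}) with hY'
      have hfin : finrank F Y' = m := by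
        have h5 := Submodule.finrank_quotient_add_finrank (Submodule.span F {y0})
        rw [finrank_span_singleton hy0] at h5
        have : finrank F Y' = finrank F (Y ⧸ (Submodule.span F {y0})) := rfl
        omega
      obtain ⟨R', hR', hR₁, hR₂⟩ := ih Y Y' hY hfin (Submodule.mkQ _)
        (Submodule.mkQ (Submodule.span F {y0}) ∘ₗ G.toLinearMap) (Submodule.mkQ_surjective _)
        ((Submodule.mkQ_surjective _).comp G.surjective)
      obtain ⟨f, hf⟩ := dual_aux (F := F) c₁ hc₁
      have hc₁0 : E₁ c₁ = 0 := (hk₁ c₁).2 ⟨1, one_smul _ _⟩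
      have hker0 : ∀ w, (Submodule.span F {y0}).mkQ w = 0 ↔ ∃ t : F, t • y0 = w := by
        intro w
        rw [Submodule.mkQ_apply, Submodule.Quotient.mk_eq_zero, Submodule.mem_span_singleton]
      obtain ⟨R, hR, hPR, hRc⟩ := lift_aux (Submodule.mkQ (Submodule.span F {y0}))
        (Submodule.mkQ_surjective _) (R' ∘ₗ E₁) (hR'.comp h₁) y0 hker0 f
        ⟨c₁, by show R' (E₁ c₁) = 0; rw [hc₁0, map_zero], hf⟩
      have hk : ∀ y, (Submodule.span F {y0}).mkQ y = 0 → ∃ c, E₁ c = 0 ∧ R c = y := by
        intro y hy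
        obtain ⟨a, rfl⟩ := (hker0 y).1 hy
        refine ⟨(a * (f c₁)⁻¹) • c₁, by rw [map_smul, hc₁0, smul_zero], ?_⟩
        rw [map_smul, hRc c₁ (by show R' (E₁ c₁) = 0; rw [hc₁0, map_zero]), smul_smul, mul_assoc,
          inv_mul_cancel₀ hf, mul_one]
      refine ⟨R, hR, ?_, ?_⟩
      · exact gg_step R E₁ (Submodule.mkQ (Submodule.span F {y0})) R' h₁ hPR hk hR₁
      · have h6 : Good (R' ∘ₗ G.symm.toLinearMap) (Submodule.mkQ (Submodule.span F {y0})) ∧
            Good (Submodule.mkQ (Submodule.span F {y0})) (R' ∘ₗ G.symm.toLinearMap) := by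
          have e : (Submodule.mkQ (Submodule.span F {y0}) ∘ₗ G.toLinearMap) ∘ₗ G.symm.toLinearMap =
              Submodule.mkQ (Submodule.span F {y0}) := by
            ext y
            simp
          have h7 := good_comp _ _ G.symm hR₂.1
          have h8 := good_comp _ _ G.symm hR₂.2
          rw [e] at h7 h8
          exact ⟨h7, h8⟩
        refine gg_step R E₂ (Submodule.mkQ (Submodule.span F {y0})) (R' ∘ₗ G.symm.toLinearMap) h₂
          ?_ ?_ h6
        · intro x
          rw [hPR]
          show R' (E₁ x) = R' (G.symm (E₂ x))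
          rw [← hG₂, G.symm_apply_apply]
        · intro y hy
          obtain ⟨c, hc, hcy⟩ := hk y hy
          exact ⟨c, (hker c).1 hc, hcy⟩
    · -- different kernels
      have hc₁0 : E₁ c₁ = 0 := (hk₁ c₁).2 ⟨1, one_smul _ _⟩
      have hc₂0 : E₂ c₂ = 0 := (hk₂ c₂).2 ⟨1, one_smul _ _⟩
      set C : Submodule F X := Submodule.span F {c₁, c₂} with hC
      have hli : LinearIndependent F ![c₁, c₂] := by
        rw [LinearIndependent.pair_iff' hc₁]
        intro a ha
        exact hc ⟨a, ha⟩
      have hCf : finrank F C = 2 := by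
        have h5 := finrank_span_eq_card hli
        rw [Matrix.range_cons, Matrix.range_cons, Matrix.range_empty, Set.union_empty,
          Set.singleton_union, Fintype.card_fin] at h5
        exact h5
      set Y' := X ⧸ C with hY'
      have hfin : finrank F Y' = m := by
        have h5 := Submodule.finrank_quotient_add_finrank C
        have : finrank F Y' = finrank F (X ⧸ C) := rfl
        omega
      have hC₁ : c₁ ∈ C := Submodule.subset_span (by simp)
      have hC₂ : c₂ ∈ C := Submodule.subset_span (by simp)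
      -- factor maps
      have hfac : ∀ (E : X →ₗ[F] Y), Function.Surjective E → (∀ x, E x = 0 → x ∈ C) →
          ∃ E' : Y →ₗ[F] Y', ∀ x, E' (E x) = C.mkQ x := by
        intro E hE hEC
        obtain ⟨s, hs⟩ := E.exists_rightInverse_of_surjective (LinearMap.range_eq_top.2 hE)
        have hs' : ∀ z, E (s z) = z := fun z => LinearMap.congr_fun hs z
        refine ⟨C.mkQ ∘ₗ s, fun x => ?_⟩
        have h3 : E (s (E x) - x) = 0 := by rw [map_sub, hs', sub_self]
        have h4 := hEC _ h3
        show C.mkQ (s (E x)) = C.mkQ x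
        rw [Submodule.mkQ_apply, Submodule.mkQ_apply, Submodule.Quotient.eq]
        exact h4
      obtain ⟨E₁', hE₁'⟩ := hfac E₁ h₁ (fun x hx => by
        obtain ⟨t, rfl⟩ := (hk₁ x).1 hx
        exact C.smul_mem t hC₁)
      obtain ⟨E₂', hE₂'⟩ := hfac E₂ h₂ (fun x hx => by
        obtain ⟨t, rfl⟩ := (hk₂ x).1 hx
        exact C.smul_mem t hC₂)
      have hs₁ : Function.Surjective E₁' := by
        intro z
        obtain ⟨x, rfl⟩ := Submodule.mkQ_surjective C z
        exact ⟨E₁ x, hE₁' x⟩
      have hs₂ : Function.Surjective E₂' := by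
        intro z
        obtain ⟨x, rfl⟩ := Submodule.mkQ_surjective C z
        exact ⟨E₂ x, hE₂' x⟩
      obtain ⟨R', hR', hR₁, hR₂⟩ := ih Y Y' hY hfin E₁' E₂' hs₁ hs₂
      obtain ⟨y, hy, hky⟩ := line_aux R' hR' (by omega)
      -- functional
      obtain ⟨f, hf₁, hf₂⟩ : ∃ f : X →ₗ[F] F, f c₁ ≠ 0 ∧ f c₂ ≠ 0 := by
        have hne : (Submodule.mkQ (Submodule.span F {c₁ - c₂})) c₁ ≠ 0 := by
          rw [Submodule.mkQ_apply, Ne, Submodule.Quotient.mk_eq_zero, Submodule.mem_span_singleton]
          rintro ⟨a, ha⟩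
          have h9 : (a - 1) • c₁ + (-a) • c₂ = 0 := by
            rw [smul_sub] at ha
            rw [sub_smul, one_smul, neg_smul, ← sub_eq_zero.2 ha]
            abel
          have h10 := (LinearIndependent.pair_iff.1 hli) _ _ h9
          have h11 : a = 0 := by simpa using h10.2
          have h12 := h10.1
          rw [h11] at h12
          simp at h12
        obtain ⟨g, hg⟩ := dual_aux (F := F) _ hne
        refine ⟨g ∘ₗ Submodule.mkQ (Submodule.span F {c₁ - c₂}), hg, ?_⟩
        have h13 : (Submodule.mkQ (Submodule.span F {c₁ - c₂})) c₂ =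
            (Submodule.mkQ (Submodule.span F {c₁ - c₂})) c₁ := by
          rw [Submodule.mkQ_apply, Submodule.mkQ_apply, eq_comm, Submodule.Quotient.eq]
          exact Submodule.mem_span_singleton_self _
        show g ((Submodule.mkQ (Submodule.span F {c₁ - c₂})) c₂) ≠ 0
        rw [h13]
        exact hg
      have hq₁ : C.mkQ c₁ = 0 := by
        rw [Submodule.mkQ_apply, Submodule.Quotient.mk_eq_zero]; exact hC₁
      have hq₂ : C.mkQ c₂ = 0 := by
        rw [Submodule.mkQ_apply, Submodule.Quotient.mk_eq_zero]; exact hC₂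
      obtain ⟨R, hR, hPR, hRc⟩ := lift_aux R' hR' C.mkQ (Submodule.mkQ_surjective _) y hky f
        ⟨c₁, hq₁, hf₁⟩
      refine ⟨R, hR, ?_, ?_⟩
      · refine gg_step R E₁ R' E₁' h₁ (fun x => by rw [hPR, hE₁']) ?_ ⟨hR₁.2, hR₁.1⟩
        intro w hw
        obtain ⟨a, rfl⟩ := (hky w).1 hw
        refine ⟨(a * (f c₁)⁻¹) • c₁, by rw [map_smul, hc₁0, smul_zero], ?_⟩
        rw [map_smul, hRc c₁ hq₁, smul_smul, mul_assoc, inv_mul_cancel₀ hf₁, mul_one]
      · refine gg_step R E₂ R' E₂' h₂ (fun x => by rw [hPR, hE₂']) ?_ ⟨hR₂.2, hR₂.1⟩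
        intro w hw
        obtain ⟨a, rfl⟩ := (hky w).1 hw
        refine ⟨(a * (f c₂)⁻¹) • c₂, by rw [map_smul, hc₂0, smul_zero], ?_⟩
        rw [map_smul, hRc c₂ hq₂, smul_smul, mul_assoc, inv_mul_cancel₀ hf₂, mul_one]

/-- `R*`.  For every injective `B` and `u ≠ 0` there is `ρ` such that `u` is cyclic for
both `ρ` and `ρ ∘ B`. -/
theorem r_star {F V : Type} [Field F] [AddCommGroup V] [Module F V] [FiniteDimensional F V]
    (B : Module.End F V) (hB : Function.Injective B) (u : V) (hu : u ≠ 0) :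
    ∃ r : Module.End F V, Cyc r u ∧ Cyc (r * B) u := by
  set Be : V ≃ₗ[F] V := LinearEquiv.ofInjectiveEndo B hB with hBe
  have hBe' : ∀ x, Be x = B x := fun x => rfl
  have hf := Submodule.finrank_quotient_add_finrank (Submodule.span F {u})
  rw [finrank_span_singleton hu] at hf
  obtain ⟨R, hR, hR₁, hR₂⟩ := pencil (F := F) (finrank F (V ⧸ Submodule.span F {u})) V
    (V ⧸ Submodule.span F {u}) hf.symm rfl (Submodule.mkQ _)
    (Submodule.mkQ (Submodule.span F {u}) ∘ₗ Be.symm.toLinearMap) (Submodule.mkQ_surjective _)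
    ((Submodule.mkQ_surjective _).comp Be.symm.surjective)
  obtain ⟨s, hs⟩ := (Submodule.mkQ (Submodule.span F {u})).exists_rightInverse_of_surjective
    (LinearMap.range_eq_top.2 (Submodule.mkQ_surjective _))
  have hs' : ∀ z, (Submodule.mkQ (Submodule.span F {u})) (s z) = z := fun z => LinearMap.congr_fun hs z
  have hker : ∀ p : Submodule F V, u ∈ p → ∀ x, (Submodule.mkQ (Submodule.span F {u})) x = 0 → x ∈ p := by
    intro p hp x hx
    rw [Submodule.mkQ_apply, Submodule.Quotient.mk_eq_zero, Submodule.mem_span_singleton] at hx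
    obtain ⟨a, rfl⟩ := hx
    exact p.smul_mem a hp
  refine ⟨s ∘ₗ R, ?_, ?_⟩
  · intro p hp hinv
    refine hR₁.1 p ?_ ?_
    · intro x hx
      exact hker p hp x hx
    · rintro _ ⟨x, hx, rfl⟩
      refine ⟨s (R x), hinv x hx, hs' _⟩
  · intro p hp hinv
    have h1 : p.map B = ⊤ := by
      refine hR₂.1 _ ?_ ?_
      · intro x hx
        have h2 : (Submodule.mkQ (Submodule.span F {u})) (Be.symm x) = 0 := hx
        have h3 := hker p hp _ h2
        refine ⟨Be.symm x, h3, ?_⟩
        exact Be.apply_symm_apply x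
      · rintro _ ⟨_, ⟨x, hx, rfl⟩, rfl⟩
        have h2 := hinv x hx
        refine ⟨B (s (R (B x))), Submodule.mem_map_of_mem h2, ?_⟩
        show (Submodule.mkQ (Submodule.span F {u})) (Be.symm (Be (s (R (B x))))) = R (B x)
        rw [Be.symm_apply_apply, hs']
    rw [eq_top_iff]
    intro x _
    have h2 : B x ∈ p.map B := by rw [h1]; exact Submodule.mem_top
    obtain ⟨x', hx', hxx⟩ := h2
    rwa [← hB hxx]

end A2
end Pool.Agent.PC

namespace Pool.Agent.PC
namespace B1
open Pool.Agent.PC.A1a (cyc_feedback)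
open Pool.Agent.PC.A1a (cyc_charpoly)
open Pool.Agent.PC.A1a (cyc_inv)
open Pool.Agent.PC.A1b (pole_placement)
open Pool.Agent.PC.A1c (cyc_sim)
open Pool.Agent.PC.A2 (r_star)

open Module Polynomial

theorem det_block {F V H : Type} [Field F] [AddCommGroup V] [Module F V] [FiniteDimensional F V]
    [AddCommGroup H] [Module F H] [FiniteDimensional F H]
    (phi : V →ₗ[F] F) (iota : H →ₗ[F] V) (pr : V →ₗ[F] H) (v : V)
    (h1 : phi v = 1) (h2 : ∀ h, phi (iota h) = 0) (h3 : ∀ h, pr (iota h) = h) (h4 : pr v = 0)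
    (h5 : ∀ x, phi x • v + iota (pr x) = x)
    (T : V →ₗ[F] V) (S : H →ₗ[F] H) (a : F) (ha : phi (T v) = a)
    (hS : ∀ h, pr (T (iota h)) = S h)
    (hT : (∀ h, phi (T (iota h)) = 0) ∨ pr (T v) = 0) :
    LinearMap.det T = a * LinearMap.det S := by
  classical
  let e : V ≃ₗ[F] F × H :=
    { (phi.prod pr) with
      invFun := fun q => q.1 • v + iota q.2
      left_inv := fun x => h5 x
      right_inv := fun q => by
        refine Prod.ext ?_ ?_
        · show phi (q.1 • v + iota q.2) = q.1
          simp [h1, h2]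
        · show pr (q.1 • v + iota q.2) = q.2
          simp [h3, h4] }
  have e1 : ∀ x, (e x).1 = phi x := fun x => rfl
  have e2 : ∀ x, (e x).2 = pr x := fun x => rfl
  have e3 : ∀ q : F × H, e.symm q = q.1 • v + iota q.2 := fun q => rfl
  let bH := Module.Free.chooseBasis F H
  let bV : Basis (Unit ⊕ Module.Free.ChooseBasisIndex F H) F V :=
    ((Basis.singleton Unit F).prod bH).map e.symm
  have hbl : ∀ i, bV (Sum.inl i) = v := by
    intro i
    simp only [bV, Basis.map_apply, e3]
    simp
  have hbr : ∀ i, bV (Sum.inr i) = iota (bH i) := by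
    intro i
    simp only [bV, Basis.map_apply, e3]
    simp
  have hrl : ∀ x i, bV.repr x (Sum.inl i) = phi x := by
    intro x i
    simp only [bV, Basis.map_repr, LinearEquiv.trans_apply, LinearEquiv.symm_symm]
    simp [e1]
  have hrr : ∀ x i, bV.repr x (Sum.inr i) = bH.repr (pr x) i := by
    intro x i
    simp only [bV, Basis.map_repr, LinearEquiv.trans_apply, LinearEquiv.symm_symm]
    simp [e2]
  have hM : LinearMap.toMatrix bV bV T = Matrix.fromBlocks (Matrix.of fun _ _ => a)
      (Matrix.of fun _ j => phi (T (iota (bH j))))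
      (Matrix.of fun i _ => bH.repr (pr (T v)) i) (LinearMap.toMatrix bH bH S) := by
    ext i j
    rcases i with i | i <;> rcases j with j | j
    · simp [LinearMap.toMatrix_apply, hbl, hrl, ha]
    · simp [LinearMap.toMatrix_apply, hbr, hrl]
    · simp [LinearMap.toMatrix_apply, hbl, hrr]
    · simp [LinearMap.toMatrix_apply, hbr, hrr, hS]
  rw [← LinearMap.det_toMatrix bV, hM, ← LinearMap.det_toMatrix bH]
  rcases hT with hT | hT
  · have : (Matrix.of fun (_ : Unit) j => phi (T (iota (bH j)))) = 0 := by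
      ext i j
      simp [hT]
    rw [this, Matrix.det_fromBlocks_zero₁₂]
    simp
  · have : (Matrix.of fun i (_ : Unit) => bH.repr (pr (T v)) i) = 0 := by
      ext i j
      simp [hT]
    rw [this, Matrix.det_fromBlocks_zero₂₁]
    simp

theorem exists_inv_of_det {F V : Type} [Field F] [AddCommGroup V] [Module F V]
    [FiniteDimensional F V] (T : Module.End F V) (h : LinearMap.det T ≠ 0) :
    ∃ S : Module.End F V, S * T = 1 ∧ T * S = 1 := by
  obtain ⟨U, hU⟩ := (LinearMap.isUnit_iff_isUnit_det T).2 (isUnit_iff_ne_zero.2 h)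
  refine ⟨((U⁻¹ : (Module.End F V)ˣ) : Module.End F V), ?_, ?_⟩
  · rw [← hU]
    exact U.inv_mul
  · rw [← hU]
    exact U.mul_inv

theorem aeval_mem_of_inv {F V : Type} [Field F] [AddCommGroup V] [Module F V]
    (T : Module.End F V) (P : Submodule F V) (hP : ∀ x ∈ P, T x ∈ P) (q : F[X]) :
    ∀ x ∈ P, (aeval T q) x ∈ P := by
  induction q using Polynomial.induction_on with
  | C a =>
    intro x hx
    rw [aeval_C]
    exact P.smul_mem a hx
  | add p q hp hq =>
    intro x hx
    rw [map_add]
    exact P.add_mem (hp x hx) (hq x hx)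
  | monomial n a h =>
    intro x hx
    rw [pow_succ, ← mul_assoc, map_mul, aeval_X]
    exact h _ (hP x hx)

theorem aeval_comm_pr {F V H : Type} [Field F] [AddCommGroup V] [Module F V]
    [AddCommGroup H] [Module F H] (T : Module.End F V) (S : Module.End F H) (pr : V →ₗ[F] H)
    (h : ∀ x, pr (T x) = S (pr x)) (q : F[X]) :
    ∀ x, pr ((aeval T q) x) = (aeval S q) (pr x) := by
  induction q using Polynomial.induction_on with
  | C a =>
    intro x
    rw [aeval_C, aeval_C]
    simp [Module.algebraMap_end_apply]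
  | add p q hp hq =>
    intro x
    rw [map_add, map_add, LinearMap.add_apply, LinearMap.add_apply, map_add, hp, hq]
  | monomial n a hn =>
    intro x
    rw [pow_succ, ← mul_assoc, map_mul (aeval T), map_mul (aeval S), aeval_X, aeval_X]
    rw [Module.End.mul_apply, Module.End.mul_apply, hn, h]

theorem exists_indep {F V : Type} [Field F] [AddCommGroup V] [Module F V] [FiniteDimensional F V]
    (b : Module.End F V) (hbs : ¬ Scal b) :
    ∃ v : V, ∀ s t : F, s • v + t • b v = 0 → s = 0 ∧ t = 0 := by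
  by_contra hcon
  push Not at hcon
  apply hbs
  obtain ⟨a, ha⟩ := LinearMap.exists_eq_smul_id_of_forall_notLinearIndependent (f := b) (by
    intro v hv
    obtain ⟨s, t, hst, hne⟩ := hcon v
    have := LinearIndependent.pair_iff.1 hv s t hst
    exact hne this.1 this.2)
  exact ⟨a, fun x => by rw [ha]; rfl⟩

theorem exists_functional {F V : Type} [Field F] [AddCommGroup V] [Module F V]
    (v u : V) (h : ∀ c : F, v ≠ c • u) : ∃ phi : V →ₗ[F] F, phi v = 1 ∧ phi u = 0 := by
  have hv : v ∉ Submodule.span F {u} := by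
    intro hm
    obtain ⟨c, hc⟩ := Submodule.mem_span_singleton.1 hm
    exact h c hc.symm
  obtain ⟨f, hf1, hf2⟩ := Submodule.exists_le_ker_of_notMem hv
  refine ⟨(f v)⁻¹ • f, ?_, ?_⟩
  · simp [hf1]
  · have : f u = 0 := hf2 (Submodule.mem_span_singleton_self u)
    simp [this]


theorem cyc_D0 {F V H : Type} [Field F] [AddCommGroup V] [Module F V]
    [AddCommGroup H] [Module F H]
    (phi : V →ₗ[F] F) (iota : H →ₗ[F] V) (pr : V →ₗ[F] H) (v : V)
    (h1 : phi v = 1) (h2 : ∀ h, phi (iota h) = 0) (h3 : ∀ h, pr (iota h) = h) (h4 : pr v = 0)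
    (h5 : ∀ x, phi x • v + iota (pr x) = x)
    (theta : Module.End F H) (hth : Function.Surjective theta) (uH : H) (hc : Cyc theta uH)
    (D0 : Module.End F V)
    (hD0 : ∀ x, D0 x = phi x • (v + iota uH) + iota (theta (pr x))) :
    Cyc D0 (v + iota uH) := by
  intro P hy hP
  have hDi : ∀ h, D0 (iota h) = iota (theta h) := by
    intro h
    rw [hD0, h2, h3, zero_smul, zero_add]
  have hDy : D0 (v + iota uH) = (v + iota uH) + iota (theta uH) := by
    rw [hD0, map_add, map_add, h1, h2, h3, h4, add_zero, one_smul, zero_add]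
  have hu : iota (theta uH) ∈ P := by
    have := P.sub_mem (hP _ hy) hy
    rwa [hDy, add_sub_cancel_left] at this
  have htop : (P.comap (iota ∘ₗ theta)) = ⊤ := by
    apply hc
    · exact hu
    · intro x hx
      show iota (theta (theta x)) ∈ P
      rw [← hDi]
      exact hP _ hx
  have hall : ∀ h, iota h ∈ P := by
    intro h
    obtain ⟨k, rfl⟩ := hth h
    have : k ∈ P.comap (iota ∘ₗ theta) := by rw [htop]; trivial
    exact this
  have hv : v ∈ P := by
    have := P.sub_mem hy (hall uH)
    rwa [add_sub_cancel_right] at this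
  rw [eq_top_iff]
  intro x _
  rw [← h5 x]
  exact P.add_mem (P.smul_mem _ hv) (hall _)

theorem cyc_T {F V H : Type} [Field F] [AddCommGroup V] [Module F V] [FiniteDimensional F V]
    [AddCommGroup H] [Module F H] [FiniteDimensional F H]
    (phi : V →ₗ[F] F) (iota : H →ₗ[F] V) (pr : V →ₗ[F] H) (v : V)
    (h1 : phi v = 1) (h2 : ∀ h, phi (iota h) = 0) (h3 : ∀ h, pr (iota h) = h) (h4 : pr v = 0)
    (h5 : ∀ x, phi x • v + iota (pr x) = x)
    (T : Module.End F V) (S : Module.End F H) (lam : F) (g : F[X]) (uH : H)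
    (hTv : T v = lam • v) (hpT : ∀ x, pr (T x) = S (pr x)) (hg : g.Monic)
    (hgd : g.natDegree + 1 = finrank F V) (hgl : g.eval lam ≠ 0) (hc : Cyc S uH)
    (hS : LinearMap.charpoly S = g) : CycS T lam g := by
  have hgv : (aeval T g) v = g.eval lam • v :=
    Module.End.aeval_apply_of_mem_apply_eq_smul hTv
  have hker : ∀ x, (aeval T g) x = phi ((aeval T g) x) • v := by
    intro x
    have e1 : pr ((aeval T g) x) = 0 := by
      rw [aeval_comm_pr T S pr hpT g x, ← hS, LinearMap.aeval_self_charpoly]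
      rfl
    conv_lhs => rw [← h5 ((aeval T g) x), e1, map_zero, add_zero]
  have hw : ∃ w : V, ∃ k : F, pr w = uH ∧ k ≠ 0 ∧ (aeval T g) w = k • v := by
    by_cases hk : phi ((aeval T g) (iota uH)) = 0
    · refine ⟨iota uH + v, g.eval lam, ?_, hgl, ?_⟩
      · rw [map_add, h3, h4, add_zero]
      · rw [map_add, hgv, hker (iota uH), hk, zero_smul, zero_add]
    · exact ⟨iota uH, _, h3 _, hk, hker _⟩
  obtain ⟨w, k, hw1, hk, hw2⟩ := hw
  have hcyc : Cyc T w := by
    intro P hwP hP
    have hv : v ∈ P := by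
      have := aeval_mem_of_inv T P hP g w hwP
      rw [hw2] at this
      exact (P.smul_mem_iff hk).1 this
    have htop : P.map pr = ⊤ := by
      apply hc
      · exact ⟨w, hwP, hw1⟩
      · rintro x ⟨z, hz, rfl⟩
        exact ⟨T z, hP z hz, hpT z⟩
    rw [eq_top_iff]
    intro x _
    have hx : pr x ∈ P.map pr := by rw [htop]; trivial
    obtain ⟨z, hz, hzx⟩ := hx
    have h6 : x - z = phi (x - z) • v := by
      conv_lhs => rw [← h5 (x - z), map_sub pr, hzx, sub_self, map_zero, add_zero]
    have h7 : x = phi (x - z) • v + z := by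
      rw [← h6, sub_add_cancel]
    rw [h7]
    exact P.add_mem (P.smul_mem _ hv) hz
  refine ⟨⟨w, hcyc⟩, ?_⟩
  apply cyc_charpoly T w hcyc
  · exact (monic_X_sub_C lam).mul hg
  · rw [(monic_X_sub_C lam).natDegree_mul hg, natDegree_X_sub_C, ← hgd, add_comm]
  · rw [map_mul, Module.End.mul_apply, hw2, map_smul]
    simp [hTv, Module.algebraMap_end_apply]

/-- Theorem II*: for a non-scalar `b` and a cyclic class (of `d0`), some `d ∼ d0` has
`d * b` in the cyclic class `(X - λ) g`. -/
theorem thmII {F V : Type} [Field F] [AddCommGroup V] [Module F V] [FiniteDimensional F V]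
    (b d0 : Module.End F V) (u0 : V) (lam : F) (g : F[X])
    (hb : LinearMap.det b ≠ 0) (hbs : ¬ Scal b) (hd0 : LinearMap.det d0 ≠ 0) (hu0 : Cyc d0 u0)
    (hlam : lam ≠ 0) (hg : g.Monic) (hgd : g.natDegree + 1 = finrank F V) (hgl : g.eval lam ≠ 0)
    (hdet : LinearMap.det d0 * LinearMap.det b = lam * ((-1) ^ g.natDegree * g.coeff 0)) :
    ∃ d : Module.End F V, Sim d0 d ∧ CycS (d * b) lam g ∧
      ∃ v : V, v ≠ 0 ∧ (d * b) v = lam • v ∧ ¬ ∃ c : F, d v = c • v := by
  classical
  obtain ⟨v, hv⟩ := exists_indep b hbs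
  obtain ⟨y, hy⟩ : ∃ y : V, y = lam⁻¹ • b v := ⟨_, rfl⟩
  have hby : b v = lam • y := by
    rw [hy, smul_smul, mul_inv_cancel₀ hlam, one_smul]
  have hvy : ∀ s t : F, s • v + t • y = 0 → s = 0 ∧ t = 0 := by
    intro s t h
    rw [hy, smul_smul] at h
    obtain ⟨h1, h2⟩ := hv _ _ h
    exact ⟨h1, (mul_eq_zero.1 h2).resolve_right (inv_ne_zero hlam)⟩
  have hvu : ∀ c : F, v ≠ c • (y - v) := by
    intro c hc
    have h0 : (1 + c) • v + (-c) • y = 0 := by
      have h1 : v - c • (y - v) = 0 := sub_eq_zero.2 hc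
      rw [← h1]
      module
    obtain ⟨h1, h2⟩ := hvy _ _ h0
    rw [neg_eq_zero.1 h2, add_zero] at h1
    exact one_ne_zero h1
  obtain ⟨phi, hphiv, hphiu⟩ := exists_functional v (y - v) hvu
  have hphiy : phi y = 1 := by
    have h1 := hphiu
    rw [map_sub, hphiv, sub_eq_zero] at h1
    exact h1
  let H : Submodule F V := LinearMap.ker phi
  let iota : H →ₗ[F] V := H.subtype
  let pr : V →ₗ[F] H := LinearMap.codRestrict H (LinearMap.id - phi.smulRight v) (by
    intro x
    simp [H, hphiv])
  have hpr : ∀ x, (pr x : V) = x - phi x • v := fun x => rfl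
  have h2 : ∀ h : H, phi (iota h) = 0 := fun h => h.2
  have h3 : ∀ h : H, pr (iota h) = h := by
    intro h
    apply Subtype.ext
    rw [hpr, h2, zero_smul, sub_zero]
    rfl
  have h4 : pr v = 0 := by
    apply Subtype.ext
    rw [hpr, hphiv, one_smul, sub_self]
    rfl
  have h5 : ∀ x, phi x • v + iota (pr x) = x := by
    intro x
    show phi x • v + (pr x : V) = x
    rw [hpr]
    abel
  let uH : H := ⟨y - v, hphiu⟩
  have hyu : y = v + iota uH := by
    show y = v + (y - v)
    abel
  have huH : uH ≠ 0 := by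
    intro h0
    have h1 : y - v = 0 := congrArg Subtype.val h0
    have h6 : (-1 : F) • v + (1 : F) • y = 0 := by
      rw [← h1]
      module
    exact one_ne_zero (hvy _ _ h6).2
  have hbinj : Function.Injective b := by
    obtain ⟨bi, hbi1, _⟩ := exists_inv_of_det b hb
    intro p q hpq
    have e1 : bi (b p) = p := LinearMap.congr_fun hbi1 p
    have e2 : bi (b q) = q := LinearMap.congr_fun hbi1 q
    rw [← e1, ← e2, hpq]
  have hfin : finrank F H + 1 = finrank F V := by
    have e := LinearMap.finrank_range_add_finrank_ker phi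
    have hr : LinearMap.range phi = ⊤ := by
      rw [LinearMap.range_eq_top]
      intro c
      exact ⟨c • v, by rw [map_smul, hphiv, smul_eq_mul, mul_one]⟩
    rw [hr, finrank_top, finrank_self, add_comm] at e
    exact e
  have hgd' : g.natDegree = finrank F H := by omega
  clear_value pr iota uH
  let B : Module.End F H := pr ∘ₗ b ∘ₗ iota - (phi ∘ₗ b ∘ₗ iota).smulRight uH
  have hB : ∀ h, iota (B h) = b (iota h) - phi (b (iota h)) • y := by
    intro h
    show iota (pr (b (iota h)) - phi (b (iota h)) • uH) = _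
    rw [map_sub, map_smul]
    have e : iota (pr (b (iota h))) = b (iota h) - phi (b (iota h)) • v := by
      rw [eq_sub_iff_add_eq, add_comm]
      exact h5 (b (iota h))
    rw [e, hyu, smul_add]
    abel
  have hBinj : Function.Injective B := by
    rw [injective_iff_map_eq_zero]
    intro h h0
    have e := hB h
    rw [h0, map_zero] at e
    have e2 : b (iota h) = b ((phi (b (iota h)) * lam⁻¹) • v) := by
      rw [map_smul, hby, smul_smul, mul_assoc, inv_mul_cancel₀ hlam, mul_one]
      exact (sub_eq_zero.1 e.symm)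
    have e3 := hbinj e2
    have e4 := h2 h
    rw [e3, map_smul, hphiv, smul_eq_mul, mul_one] at e4
    rw [← h3 h, e3, e4, zero_smul, map_zero]
  obtain ⟨r, hr1, hr2⟩ := r_star B hBinj uH huH
  obtain ⟨c, hc⟩ := pole_placement (r * B) uH hr2 g hg hgd'
  let Be : H ≃ₗ[F] H := LinearEquiv.ofInjectiveEndo B hBinj
  let rho : Module.End F H := r + (c ∘ₗ (Be.symm : H →ₗ[F] H)).smulRight uH
  have hrB : rho * B = r * B + c.smulRight uH := by
    refine LinearMap.ext fun h => ?_
    show r (B h) + c (Be.symm (B h)) • uH = r (B h) + c h • uH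
    rw [show Be.symm (B h) = h from Be.symm_apply_apply h]
  have hrho : Cyc rho uH := cyc_feedback r uH _ hr1
  have hrhoB : Cyc (rho * B) uH := by
    rw [hrB]
    exact cyc_feedback _ _ _ hr2
  have hcp : LinearMap.charpoly (rho * B) = g := by
    rw [hrB]
    exact hc
  clear_value rho
  have hdetS : LinearMap.det (rho * B) = (-1) ^ g.natDegree * g.coeff 0 := by
    rw [LinearMap.det_eq_sign_charpoly_coeff, hcp, hgd']
  have hdet' : LinearMap.det d0 * LinearMap.det b = lam * LinearMap.det (rho * B) := by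
    rw [hdetS]
    exact hdet
  have hS0 : LinearMap.det (rho * B) ≠ 0 := by
    intro h0
    rw [h0, mul_zero] at hdet'
    exact mul_ne_zero hd0 hb hdet'
  have hrho0 : LinearMap.det rho ≠ 0 := by
    intro h0
    apply hS0
    rw [map_mul, h0, zero_mul]
  obtain ⟨theta, hth1, hth2⟩ := exists_inv_of_det rho hrho0
  have hth : ∀ h, theta (rho h) = h := fun h => LinearMap.congr_fun hth1 h
  have hthc : Cyc theta uH := cyc_inv rho theta uH hrho hth1
  have hths : Function.Surjective theta := fun h => ⟨rho h, hth h⟩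
  let D0 : Module.End F V := phi.smulRight y + iota ∘ₗ theta ∘ₗ pr
  have hD0' : ∀ x, D0 x = phi x • y + iota (theta (pr x)) := fun x => rfl
  have hD0 : ∀ x, D0 x = phi x • (v + iota uH) + iota (theta (pr x)) := by
    intro x
    rw [← hyu]
    exact hD0' x
  have hD0c : Cyc D0 y := by
    rw [hyu]
    exact cyc_D0 phi iota pr v hphiv h2 h3 h4 h5 theta hths uH hthc D0 hD0
  obtain ⟨d0i, hd1, hd2⟩ := exists_inv_of_det d0 hd0
  have hd0ic : Cyc d0i u0 := cyc_inv d0 d0i u0 hu0 hd1
  obtain ⟨ch, hch⟩ := pole_placement D0 y hD0c (LinearMap.charpoly d0i)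
    (LinearMap.charpoly_monic _) (LinearMap.charpoly_natDegree _)
  obtain ⟨D, hD⟩ : ∃ D : Module.End F V, D = D0 + ch.smulRight y := ⟨_, rfl⟩
  rw [← hD] at hch
  have hDx : ∀ x, D x = D0 x + ch x • y := by
    intro x
    rw [hD]
    rfl
  have hDc : Cyc D y := by
    rw [hD]
    exact cyc_feedback _ _ _ hD0c
  have hD0v : D0 v = y := by
    rw [hD0', hphiv, h4, map_zero, map_zero, one_smul, add_zero]
  have hD0i : ∀ h, D0 (iota h) = iota (theta h) := by
    intro h
    rw [hD0', h2, h3, zero_smul, zero_add]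
  have hdetD0 : LinearMap.det D0 = LinearMap.det theta := by
    have e := det_block phi iota pr v hphiv h2 h3 h4 h5 D0 theta 1 (by rw [hD0v, hphiy])
      (fun h => by rw [hD0i, h3]) (Or.inl fun h => by rw [hD0i, h2])
    rw [e, one_mul]
  obtain ⟨K, hK⟩ : ∃ K : Module.End F V, ∀ x, K x = phi x • lam • v + iota (rho (B (pr x))) +
      phi (b (iota (pr x))) • v :=
    ⟨phi.smulRight (lam • v) + iota ∘ₗ rho ∘ₗ B ∘ₗ pr + (phi ∘ₗ b ∘ₗ iota ∘ₗ pr).smulRight v,
      fun x => rfl⟩
  have hKv : K v = lam • v := by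
    rw [hK, hphiv, h4]
    simp
  have hdetK : LinearMap.det K = lam * LinearMap.det (rho * B) := by
    refine det_block phi iota pr v hphiv h2 h3 h4 h5 K (rho * B) lam ?_ ?_ (Or.inr ?_)
    · rw [hKv, map_smul, hphiv, smul_eq_mul, mul_one]
    · intro h
      rw [hK, h2, h3, zero_smul, zero_add, map_add, h3, map_smul, h4, smul_zero, add_zero]
      rfl
    · rw [hKv, map_smul, h4, smul_zero]
  have hbK : D0 * K = b := by
    refine LinearMap.ext fun x => ?_
    show D0 (K x) = b x
    rw [hK, map_add, map_add, map_smul, map_smul, map_smul, hD0v, hD0i, hth, hB, ← hby]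
    conv_rhs => rw [← h5 x, map_add, map_smul]
    abel
  have hdetb : LinearMap.det b = LinearMap.det theta * (lam * LinearMap.det (rho * B)) := by
    rw [← hbK, map_mul, hdetD0, hdetK]
  have hdetDD : LinearMap.det D = LinearMap.det theta * (1 + ch v) := by
    have e : D = D0 * LinearMap.transvection ch v := by
      refine LinearMap.ext fun x => ?_
      rw [hDx, Module.End.mul_apply, LinearMap.transvection.apply, map_add, map_smul, hD0v]
    rw [e, map_mul, hdetD0, LinearMap.transvection.det]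
  have hdetDi : LinearMap.det D = LinearMap.det d0i := by
    rw [LinearMap.det_eq_sign_charpoly_coeff, LinearMap.det_eq_sign_charpoly_coeff, hch]
  have hdd : LinearMap.det d0 * LinearMap.det d0i = 1 := by
    rw [← map_mul, hd2, map_one]
  have hdth : LinearMap.det d0 * LinearMap.det theta = 1 := by
    have hne : lam * LinearMap.det (rho * B) ≠ 0 := mul_ne_zero hlam hS0
    apply mul_right_cancel₀ hne
    rw [one_mul, mul_assoc, ← hdetb]
    exact hdet'
  have hthi : LinearMap.det theta = LinearMap.det d0i := by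
    apply mul_left_cancel₀ hd0
    rw [hdth, hdd]
  have hth0 : LinearMap.det theta ≠ 0 := by
    intro h0
    rw [h0, mul_zero] at hdth
    exact zero_ne_one hdth
  have hchv : ch v = 0 := by
    have e : LinearMap.det theta * (1 + ch v) = LinearMap.det theta * 1 := by
      rw [← hdetDD, hdetDi, mul_one, hthi]
    have e2 := mul_left_cancel₀ hth0 e
    exact add_eq_left.1 e2
  have hDv : D v = y := by
    rw [hDx, hD0v, hchv, zero_smul, add_zero]
  have hDne : LinearMap.det D ≠ 0 := by
    rw [hdetDi, ← hthi]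
    exact hth0
  obtain ⟨d, hdD, hDd⟩ := exists_inv_of_det D hDne
  have hdD' : ∀ x, d (D x) = x := fun x => LinearMap.congr_fun hdD x
  have hDd' : ∀ x, D (d x) = x := fun x => LinearMap.congr_fun hDd x
  have hd1' : ∀ x, d0i (d0 x) = x := fun x => LinearMap.congr_fun hd1 x
  have hsim : Sim d0 d := by
    obtain ⟨e, he1, he2⟩ := cyc_sim d0i u0 hd0ic D y hDc hch.symm
    refine ⟨e, fun x => ?_⟩
    have e3 := he2 (d0 x)
    rw [hd1'] at e3
    rw [← e3, hdD']
  have hTv : (d * b) v = lam • v := by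
    rw [Module.End.mul_apply, hby, map_smul, ← hDv, hdD']
  have hTx : ∀ x, (d * b) x = phi x • lam • v + iota (rho (B (pr x))) +
      (phi (b (iota (pr x))) - ch (iota (rho (B (pr x))))) • v := by
    intro x
    rw [Module.End.mul_apply]
    rw [← hdD' (phi x • lam • v + iota (rho (B (pr x))) +
      (phi (b (iota (pr x))) - ch (iota (rho (B (pr x))))) • v)]
    congr 1
    rw [map_add, map_add, map_smul, map_smul, map_smul, hDv, hDx, hD0i, hth, hB, ← hby, sub_smul]
    conv_lhs => rw [← h5 x, map_add, map_smul]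
    abel
  have hpT : ∀ x, pr ((d * b) x) = (rho * B) (pr x) := by
    intro x
    rw [hTx, map_add, map_add, map_smul, map_smul, map_smul, h4, h3, smul_zero, smul_zero,
      smul_zero, zero_add, add_zero]
    rfl
  refine ⟨d, hsim, ?_, v, ?_, hTv, ?_⟩
  · exact cyc_T phi iota pr v hphiv h2 h3 h4 h5 (d * b) (rho * B) lam g uH hTv hpT hg hgd hgl
      hrhoB hcp
  · intro h0
    have e : (1 : F) • v + (0 : F) • y = 0 := by
      rw [h0]
      simp
    exact one_ne_zero (hvy _ _ e).1
  · rintro ⟨k, hk⟩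
    have e : v = k • y := by
      conv_lhs => rw [← hDd' v, hk, map_smul, hDv]
    have e2 : (1 : F) • v + (-k) • y = 0 := by
      rw [neg_smul, ← e, one_smul]
      exact add_neg_cancel v
    exact one_ne_zero (hvy _ _ e2).1

end B1
end Pool.Agent.PC

namespace Pool.Agent.PC
namespace E1
open Pool.Agent.PC.A1a (cyc_inv)
open Pool.Agent.PC.A1c (cyc_sim)
open Pool.Agent.PC.B1 (thmII)

open Module Polynomial

theorem sim_refl' {F V : Type} [Field F] [AddCommGroup V] [Module F V] (a : V →ₗ[F] V) :
    Sim a a := ⟨LinearEquiv.refl F V, fun _ => rfl⟩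

theorem sim_trans' {F V W U : Type} [Field F] [AddCommGroup V] [Module F V] [AddCommGroup W]
    [Module F W] [AddCommGroup U] [Module F U] {a : V →ₗ[F] V} {b : W →ₗ[F] W} {c : U →ₗ[F] U}
    (h : Sim a b) (h' : Sim b c) : Sim a c := by
  obtain ⟨e, he⟩ := h
  obtain ⟨e', he'⟩ := h'
  exact ⟨e.trans e', fun x => by simp only [LinearEquiv.trans_apply, he', he]⟩

theorem sim_det' {F V : Type} [Field F] [AddCommGroup V] [Module F V]
    {a b : Module.End F V} (h : Sim a b) : LinearMap.det b = LinearMap.det a := by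
  obtain ⟨e, he⟩ := h
  have h1 : b = (e : V →ₗ[F] V) ∘ₗ (a ∘ₗ (e.symm : V →ₗ[F] V)) := by
    ext x
    have := he (e.symm x)
    rw [LinearEquiv.apply_symm_apply] at this
    simpa using this
  rw [h1]
  exact LinearMap.det_conj a e

theorem rep_det' {F V : Type} [Field F] [AddCommGroup V] [Module F V]
    {a b : Module.End F V} {k : ℕ} (h : Rep a b k) : LinearMap.det b = LinearMap.det a ^ k := by
  obtain ⟨l, h1, h2, h3⟩ := h
  subst h3
  subst h1
  induction l with
  | nil =>
    simp only [List.prod_nil, List.length_nil, pow_zero]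
    exact map_one _
  | cons d l ih =>
    rw [List.prod_cons, map_mul, sim_det' (h2 d (by simp)), List.length_cons, pow_succ',
      ih (fun d hd => h2 d (by simp [hd]))]

/-- polynomial choice avoiding a finite set -/
theorem exists_poly_avoid {F : Type} [Field F] (m : ℕ) (hm : 2 ≤ m) (c : F) (M : Finset F)
    (h0 : (0 : F) ∉ M) :
    ∃ g : F[X], g.Monic ∧ g.natDegree = m ∧ g.coeff 0 = c ∧ ∀ μ ∈ M, g.eval μ ≠ 0 := by
  classical
  have h1 : ∃ t : F, t ∉ M.image (fun μ => -(μ ^ m + c) / μ) := by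
    by_contra hcon
    push Not at hcon
    have h2 : (insert 0 M).card ≤ (M.image (fun μ => -(μ ^ m + c) / μ)).card :=
      Finset.card_le_card (fun t _ => hcon t)
    rw [Finset.card_insert_of_notMem h0] at h2
    have h3 : (M.image (fun μ => -(μ ^ m + c) / μ)).card ≤ M.card := Finset.card_image_le
    omega
  obtain ⟨t, ht⟩ := h1
  have hd : (C t * X + C c : F[X]).degree < (m : WithBot ℕ) := by
    refine lt_of_le_of_lt (degree_linear_le) ?_
    exact_mod_cast (by omega : 1 < m)
  have hd' : (C t * X + C c : F[X]).natDegree < m := by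
    refine lt_of_le_of_lt (natDegree_linear_le) ?_
    omega
  refine ⟨X ^ m + (C t * X + C c), ?_, ?_, ?_, ?_⟩
  · exact monic_X_pow_add hd
  · rw [natDegree_add_eq_left_of_natDegree_lt]
    · exact natDegree_X_pow m
    · rw [natDegree_X_pow]
      exact hd'
  · simp only [coeff_add, coeff_X_pow, coeff_C_mul, coeff_X_zero, mul_zero, zero_add, coeff_C_zero]
    rw [if_neg (by omega), zero_add]
  · intro μ hμ h2
    apply ht
    rw [Finset.mem_image]
    refine ⟨μ, hμ, ?_⟩
    have hμ0 : μ ≠ 0 := fun h => h0 (h ▸ hμ)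
    simp only [eval_add, eval_pow, eval_X, eval_mul, eval_C] at h2
    rw [div_eq_iff hμ0]
    linear_combination -h2

/--  -/
theorem cycS_sim {F V : Type} [Field F] [AddCommGroup V] [Module F V] [FiniteDimensional F V]
    (b b' : Module.End F V) (lam : F) (g : F[X]) (h : CycS b lam g) (h' : CycS b' lam g) :
    Sim b b' := by
  obtain ⟨⟨w, hw⟩, hc⟩ := h
  obtain ⟨⟨w', hw'⟩, hc'⟩ := h'
  obtain ⟨e, -, he⟩ := cyc_sim b w hw b' w' hw' (hc.trans hc'.symm)
  exact ⟨e, he⟩

/--  -/
theorem rep_sim {F V : Type} [Field F] [AddCommGroup V] [Module F V] [FiniteDimensional F V]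
    (a b b' : Module.End F V) (k : ℕ) (h : Rep a b k) (hs : Sim b b') : Rep a b' k := by
  obtain ⟨l, h1, h2, h3⟩ := h
  obtain ⟨e, he⟩ := hs
  have hcomp : ∀ l : List (Module.End F V), ∀ x,
      (l.map (fun d => ((e : V →ₗ[F] V) ∘ₗ (d ∘ₗ (e.symm : V →ₗ[F] V)) : Module.End F V))).prod
        (e x) = e (l.prod x) := by
    intro l
    induction l with
    | nil => intro x; simp
    | cons d l ih =>
      intro x
      rw [List.map_cons, List.prod_cons, List.prod_cons, Module.End.mul_apply, ih]
      simp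
  refine ⟨l.map (fun d => ((e : V →ₗ[F] V) ∘ₗ (d ∘ₗ (e.symm : V →ₗ[F] V)) : Module.End F V)),
    by simpa using h1, ?_, ?_⟩
  · intro d hd
    rw [List.mem_map] at hd
    obtain ⟨d', hd', rfl⟩ := hd
    exact sim_trans' (h2 d' hd') ⟨e, fun x => by simp⟩
  · ext x
    have h4 := hcomp l (e.symm x)
    rw [LinearEquiv.apply_symm_apply] at h4
    rw [h4, h3, ← he, LinearEquiv.apply_symm_apply]

/--  -/
theorem rep_mul {F V : Type} [Field F] [AddCommGroup V] [Module F V] [FiniteDimensional F V]
    (a b b' : Module.End F V) (k k' : ℕ) (h : Rep a b k) (h' : Rep a b' k') :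
    Rep a (b * b') (k + k') := by
  obtain ⟨l, h1, h2, h3⟩ := h
  obtain ⟨l', h1', h2', h3'⟩ := h'
  refine ⟨l ++ l', by rw [List.length_append, h1, h1'], ?_, by rw [List.prod_append, h3, h3']⟩
  intro d hd
  rw [List.mem_append] at hd
  rcases hd with hd | hd
  · exact h2 d hd
  · exact h2' d hd

theorem rep_one' {F V : Type} [Field F] [AddCommGroup V] [Module F V]
    (a : Module.End F V) : Rep a a 1 := by
  refine ⟨[a], rfl, ?_, by simp⟩
  intro d hd
  rw [List.mem_singleton] at hd
  rw [hd]
  exact sim_refl' a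

theorem cycS_ex' {F V : Type} [Field F] [AddCommGroup V] [Module F V] [FiniteDimensional F V]
    (a e : Module.End F V) (w : V) (k : ℕ) (ha : LinearMap.det a ≠ 0) (has : ¬ Scal a)
    (he : Rep a e k) (hw : Cyc e w) (lam : F) (g : F[X]) (hlam : lam ≠ 0) (hg : g.Monic)
    (hgd : g.natDegree + 1 = finrank F V) (hgl : g.eval lam ≠ 0)
    (hdet : LinearMap.det a ^ (k + 1) = lam * ((-1) ^ g.natDegree * g.coeff 0)) :
    ∃ b : Module.End F V, CycS b lam g ∧ Rep a b (k + 1) := by
  have h1 := rep_det' he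
  obtain ⟨d, hd1, hd2, -⟩ := thmII a e w lam g ha has (by rw [h1]; exact pow_ne_zero _ ha) hw
    hlam hg hgd hgl (by rw [h1, ← pow_succ]; exact hdet)
  exact ⟨d * a, hd2, rep_mul a d a k 1 (rep_sim a e d k he hd1) (rep_one' a)⟩

/-- from a cyclic element in `C(a)^k` every class `(X-λ)g` lies in `C(a)^(k+1)` -/
theorem rep_cycS_succ {F V : Type} [Field F] [AddCommGroup V] [Module F V] [FiniteDimensional F V]
    (a e : Module.End F V) (w : V) (k : ℕ) (ha : LinearMap.det a ≠ 0) (has : ¬ Scal a)
    (he : Rep a e k) (hw : Cyc e w) (lam : F) (g : F[X]) (hlam : lam ≠ 0) (hg : g.Monic)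
    (hgd : g.natDegree + 1 = finrank F V) (hgl : g.eval lam ≠ 0)
    (hdet : LinearMap.det a ^ (k + 1) = lam * ((-1) ^ g.natDegree * g.coeff 0))
    (b : Module.End F V) (hb : CycS b lam g) : Rep a b (k + 1) := by
  obtain ⟨b', h1, h2⟩ := cycS_ex' a e w k ha has he hw lam g hlam hg hgd hgl hdet
  exact rep_sim a b' b (k + 1) h2 (cycS_sim b' b lam g h1 hb)

theorem choose_g' {F : Type} [Field F] (n : ℕ) (h3 : 3 ≤ n) (c : F) :
    ∃ g : F[X], g.Monic ∧ g.natDegree + 1 = n ∧ g.eval 1 ≠ 0 ∧
      c = 1 * ((-1) ^ g.natDegree * g.coeff 0) := by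
  obtain ⟨g, g1, g2, g3, g4⟩ := exists_poly_avoid (n - 1) (by omega) ((-1) ^ (n - 1) * c) {1}
    (by simp)
  refine ⟨g, g1, by omega, g4 1 (by simp), ?_⟩
  rw [g2, g3, one_mul, ← mul_assoc, ← mul_pow]
  simp

/-- the same for all `j ≥ k + 1`, with existence -/
theorem rep_cycS_ge {F V : Type} [Field F] [AddCommGroup V] [Module F V] [FiniteDimensional F V]
    (h3 : 3 ≤ finrank F V)
    (a e : Module.End F V) (w : V) (k : ℕ) (ha : LinearMap.det a ≠ 0) (has : ¬ Scal a)
    (he : Rep a e k) (hw : Cyc e w) (j : ℕ) (hj : k + 1 ≤ j)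
    (lam : F) (g : F[X]) (hlam : lam ≠ 0) (hg : g.Monic)
    (hgd : g.natDegree + 1 = finrank F V) (hgl : g.eval lam ≠ 0)
    (hdet : LinearMap.det a ^ j = lam * ((-1) ^ g.natDegree * g.coeff 0)) :
    (∃ b : Module.End F V, CycS b lam g) ∧ ∀ b : Module.End F V, CycS b lam g → Rep a b j := by
  induction j, hj using Nat.le_induction generalizing lam g with
  | base =>
    obtain ⟨b, hb, -⟩ := cycS_ex' a e w k ha has he hw lam g hlam hg hgd hgl hdet
    exact ⟨⟨b, hb⟩, rep_cycS_succ a e w k ha has he hw lam g hlam hg hgd hgl hdet⟩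
  | succ j hj ih =>
    obtain ⟨g', g1, g2, g3, g4⟩ := choose_g' (finrank F V) h3 (LinearMap.det a ^ j)
    obtain ⟨⟨b'', hb''⟩, h2⟩ := ih 1 g' one_ne_zero g1 g2 g3 g4
    have h4 := h2 b'' hb''
    obtain ⟨⟨w'', hw''⟩, -⟩ := hb''
    obtain ⟨b, hb, -⟩ := cycS_ex' a b'' w'' j ha has h4 hw'' lam g hlam hg hgd hgl hdet
    exact ⟨⟨b, hb⟩, rep_cycS_succ a b'' w'' j ha has h4 hw'' lam g hlam hg hgd hgl hdet⟩

/-- master lemma -/
theorem rep_master {F V : Type} [Field F] [AddCommGroup V] [Module F V] [FiniteDimensional F V]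
    (h3 : 3 ≤ finrank F V)
    (a e : Module.End F V) (w : V) (k : ℕ) (ha : LinearMap.det a ≠ 0) (has : ¬ Scal a)
    (he : Rep a e k) (hw : Cyc e w) (m : ℕ) (hm : 2 * k + 1 ≤ m)
    (b : Module.End F V) (hbs : ¬ Scal b) (hdet : LinearMap.det b = LinearMap.det a ^ m) :
    Rep a b m := by
  have hde := rep_det' he
  have hde0 : LinearMap.det e ≠ 0 := by
    rw [hde]
    exact pow_ne_zero _ ha
  have hu : IsUnit e := (LinearMap.isUnit_iff_isUnit_det e).2 (isUnit_iff_ne_zero.2 hde0)
  obtain ⟨u, hu⟩ := hu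
  have he1 : (↑u⁻¹ : Module.End F V) * e = 1 := by rw [← hu]; exact u.inv_mul
  have he2 : e * (↑u⁻¹ : Module.End F V) = 1 := by rw [← hu]; exact u.mul_inv
  obtain ⟨g, g1, g2, g3, g4⟩ := choose_g' (finrank F V) h3 (LinearMap.det a ^ (m - k))
  have hdd : LinearMap.det (↑u⁻¹ : Module.End F V) * LinearMap.det e = 1 := by
    rw [← map_mul, he1, map_one]
  have hdb : LinearMap.det (↑u⁻¹ : Module.End F V) * LinearMap.det b =
      LinearMap.det a ^ (m - k) := by
    have h5 : LinearMap.det a ^ m = LinearMap.det e * LinearMap.det a ^ (m - k) := by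
      rw [hde, ← pow_add]
      congr 1
      omega
    rw [hdet, h5, ← mul_assoc, hdd, one_mul]
  obtain ⟨d, hd1, hd2, -⟩ := thmII b (↑u⁻¹ : Module.End F V) w 1 g
    (by rw [hdet]; exact pow_ne_zero _ ha) hbs (left_ne_zero_of_mul_eq_one hdd)
    (cyc_inv e _ w hw he1) one_ne_zero g1 g2 g3 (by rw [hdb]; exact g4)
  have h6 := (rep_cycS_ge h3 a e w k ha has he hw (m - k) (by omega) 1 g one_ne_zero g1 g2 g3
    g4).2 (d * b) hd2
  obtain ⟨E, hE⟩ := hd1
  let D : Module.End F V := (E : V →ₗ[F] V) ∘ₗ (e ∘ₗ (E.symm : V →ₗ[F] V))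
  have hD : D * d = 1 := by
    ext x
    have h7 := hE (E.symm x)
    rw [LinearEquiv.apply_symm_apply] at h7
    have h8 : e ((↑u⁻¹ : Module.End F V) (E.symm x)) = E.symm x := by
      rw [← Module.End.mul_apply, he2, Module.End.one_apply]
    simp [D, h7, h8]
  have hDr : Rep a D k := rep_sim a e D k he ⟨E, fun x => by simp [D]⟩
  have h9 := rep_mul a D (d * b) k (m - k) hDr h6
  rw [← mul_assoc, hD, one_mul, show k + (m - k) = m by omega] at h9
  exact h9

end E1
end Pool.Agent.PC

namespace Pool.Agent.PC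
namespace E2
open Pool.Agent.PC.A1a (cyc_inv)
open Pool.Agent.PC.B1 (thmII)
open Pool.Agent.PC.E1 (exists_poly_avoid)
open Pool.Agent.PC.E1 (rep_cycS_ge)

open Module Polynomial

lemma cyc_eig_E2 {F V : Type} [Field F] [AddCommGroup V] [Module F V] [FiniteDimensional F V]
    (T : Module.End F V) (w : V) (hw : Cyc T w) (μ : F) (x y : V) (hx : T x = μ • x)
    (hy : T y = μ • y) (hy0 : y ≠ 0) : ∃ s : F, x = s • y := by
  set D : V →ₗ[F] V := T - μ • (LinearMap.id : V →ₗ[F] V) with hD
  have hDv : ∀ v, T v = D v + μ • v := by intro v; simp [hD]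
  have htop : LinearMap.range D ⊔ Submodule.span F {w} = ⊤ := by
    apply hw
    · exact Submodule.mem_sup_right (Submodule.mem_span_singleton_self w)
    · intro v hv
      rw [hDv]
      exact Submodule.add_mem _ (Submodule.mem_sup_left ⟨v, rfl⟩) (Submodule.smul_mem _ _ hv)
  have h1 : finrank F V ≤ finrank F (LinearMap.range D) + 1 := by
    have h2 := Submodule.finrank_add_le_finrank_add_finrank (LinearMap.range D) (Submodule.span F {w})
    rw [htop, finrank_top] at h2
    have h3 : finrank F (Submodule.span F {w}) ≤ 1 := by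
      simpa using finrank_span_le_card (R := F) ({w} : Set V)
    omega
  have h2 := LinearMap.finrank_range_add_finrank_ker D
  have h3 : finrank F (LinearMap.ker D) ≤ 1 := by omega
  rw [finrank_le_one_iff] at h3
  obtain ⟨z, hz⟩ := h3
  have hxk : x ∈ LinearMap.ker D := by
    rw [LinearMap.mem_ker]
    have := hDv x
    rw [hx] at this
    simpa using this
  have hyk : y ∈ LinearMap.ker D := by
    rw [LinearMap.mem_ker]
    have := hDv y
    rw [hy] at this
    simpa using this
  obtain ⟨c1, hc1⟩ := hz ⟨x, hxk⟩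
  obtain ⟨c2, hc2⟩ := hz ⟨y, hyk⟩
  have e1 : c1 • (z : V) = x := by simpa using congrArg Subtype.val hc1
  have e2 : c2 • (z : V) = y := by simpa using congrArg Subtype.val hc2
  have hc20 : c2 ≠ 0 := by
    rintro rfl
    exact hy0 (by rw [← e2]; simp)
  refine ⟨c1 * c2⁻¹, ?_⟩
  rw [← e1, ← e2, smul_smul, mul_assoc, inv_mul_cancel₀ hc20, mul_one]

lemma cyc_not_scal_E2 {F V : Type} [Field F] [AddCommGroup V] [Module F V] [FiniteDimensional F V]
    (h2 : 2 ≤ finrank F V) (T : Module.End F V) (w : V) (hw : Cyc T w) : ¬ Scal T := by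
  rintro ⟨c, hc⟩
  have htop : Submodule.span F {w} = ⊤ := by
    apply hw
    · exact Submodule.mem_span_singleton_self w
    · intro v hv
      rw [hc]
      exact Submodule.smul_mem _ _ hv
  have h3 : finrank F (Submodule.span F {w}) ≤ 1 := by
    simpa using finrank_span_le_card (R := F) ({w} : Set V)
  rw [htop, finrank_top] at h3
  omega

lemma list_eig_E2 {F V : Type} [Field F] [AddCommGroup V] [Module F V] (c : F) (x : V)
    (l : List (Module.End F V)) (h : ∀ d ∈ l, d x = c • x) : l.prod x = c ^ l.length • x := by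
  induction l with
  | nil => simp
  | cons a t ih =>
    have h1 := ih (fun d hd => h d (by simp [hd]))
    rw [List.prod_cons, Module.End.mul_apply, h1, map_smul, h a (by simp), smul_smul,
      List.length_cons, pow_succ]

/-- the theorem for cyclic `a`, without common eigenvector -/
theorem repN_cyclic {F V : Type} [Field F] [AddCommGroup V] [Module F V] [FiniteDimensional F V]
    (h3 : 3 ≤ finrank F V)
    (a : Module.End F V) (w : V) (ha : LinearMap.det a ≠ 0) (hw : Cyc a w)
    (b : Module.End F V) (hbs : ¬ Scal b) (hdet : LinearMap.det b = LinearMap.det a ^ (finrank F V)) :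
    RepN a b (finrank F V) := by
  classical
  set n := finrank F V with hn
  have has : ¬ Scal a := cyc_not_scal_E2 (by omega) a w hw
  -- eigenvalues
  have hfin : Set.Finite {μ | Module.End.HasEigenvalue a μ} := Module.End.finite_hasEigenvalue a
  set E : Finset F := hfin.toFinset with hE
  have hEmem : ∀ μ, μ ∈ E ↔ Module.End.HasEigenvalue a μ := by intro μ; simp [hE]
  have hinj : Function.Injective a := by
    rw [← LinearMap.ker_eq_bot]
    by_contra hk
    exact ha (LinearMap.det_eq_zero_iff_ker_ne_bot.mpr hk)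
  have hE0 : ∀ μ ∈ E, μ ≠ 0 := by
    intro μ hμ h0
    rw [hEmem] at hμ
    obtain ⟨x, hx⟩ := hμ.exists_hasEigenvector
    have h1 := hx.apply_eq_smul
    rw [h0, zero_smul] at h1
    exact hx.2 (hinj (by rw [h1, map_zero]))
  set M : Finset F := insert 1 (E.image (fun c => c ^ (n - 1))) with hM
  have hM0 : (0 : F) ∉ M := by
    simp only [hM, Finset.mem_insert, Finset.mem_image, not_or, not_exists, not_and]
    refine ⟨zero_ne_one, ?_⟩
    intro c hc h0
    exact hE0 c hc (pow_eq_zero_iff (by omega) |>.mp h0)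
  obtain ⟨g, hg, hgd, hgc, hgM⟩ := exists_poly_avoid (n - 1) (by omega)
    ((-1) ^ (n - 1) * LinearMap.det a ^ (n - 1)) M hM0
  have hgd' : g.natDegree + 1 = finrank F V := by omega
  have hg1 : g.eval 1 ≠ 0 := hgM 1 (by simp [hM])
  have hkey : LinearMap.det a ^ (n - 1) = 1 * ((-1) ^ g.natDegree * g.coeff 0) := by
    rw [hgd, hgc, one_mul, ← mul_assoc, ← mul_pow]
    norm_num
  -- inverse
  have haunit : IsUnit a := (LinearMap.isUnit_iff_isUnit_det a).mpr (isUnit_iff_ne_zero.mpr ha)
  obtain ⟨S, hSa, haS⟩ : ∃ S : Module.End F V, S * a = 1 ∧ a * S = 1 := by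
    obtain ⟨u, hu⟩ := haunit
    exact ⟨↑u⁻¹, by rw [← hu]; exact u.inv_mul, by rw [← hu]; exact u.mul_inv⟩
  have hdetS : LinearMap.det S * LinearMap.det a = 1 := by
    rw [← map_mul, hSa, map_one]
  have hdetS0 : LinearMap.det S ≠ 0 := left_ne_zero_of_mul_eq_one hdetS
  have hdetb0 : LinearMap.det b ≠ 0 := by rw [hdet]; exact pow_ne_zero _ ha
  have hcycS := cyc_inv a S w hw hSa
  obtain ⟨d, hSd, hcyc, v, hv0, hv1, hv2⟩ := thmII b S w 1 g hdetb0 hbs hdetS0 hcycS one_ne_zero hg hgd'
    hg1 (by
      rw [← hkey, hdet]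
      have : LinearMap.det a ^ n = LinearMap.det a * LinearMap.det a ^ (n - 1) := by
        rw [← pow_succ']; congr 1; omega
      rw [this, ← mul_assoc, hdetS, one_mul])
  have hRep1 : Rep a a 1 := ⟨[a], by simp, by
    intro d hd
    simp only [List.mem_singleton] at hd
    subst hd
    exact ⟨LinearEquiv.refl F V, fun x => rfl⟩, by simp⟩
  obtain ⟨_, hrep⟩ := rep_cycS_ge h3 a a w 1 ha has hRep1 hw (n - 1) (by omega) 1 g one_ne_zero hg hgd'
    hg1 hkey
  obtain ⟨l', hl'len, hl'sim, hl'prod⟩ := hrep (d * b) hcyc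
  -- inverse of d
  obtain ⟨e, he⟩ := hSd
  set D : Module.End F V := e.toLinearMap ∘ₗ a ∘ₗ e.symm.toLinearMap with hDdef
  have hDe : ∀ x, D (e x) = e (a x) := by intro x; simp [hDdef]
  have hDd : ∀ x, D (d x) = x := by
    intro x
    obtain ⟨y, rfl⟩ := e.surjective x
    rw [he, hDe]
    have : a (S y) = y := by
      have := LinearMap.congr_fun haS y
      simpa using this
    rw [this]
  have hdD : ∀ x, d (D x) = x := by
    intro x
    obtain ⟨y, rfl⟩ := e.surjective x
    rw [hDe, he]
    have : S (a y) = y := by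
      have := LinearMap.congr_fun hSa y
      simpa using this
    rw [this]
  refine ⟨D :: l', by simp [hl'len]; omega, ?_, ?_, ?_⟩
  · intro δ hδ
    simp only [List.mem_cons] at hδ
    rcases hδ with rfl | hδ
    · exact ⟨e, hDe⟩
    · exact hl'sim δ hδ
  · rw [List.prod_cons, hl'prod]
    ext x
    simp only [Module.End.mul_apply]
    rw [hDd]
  · intro c x hx
    by_contra hx0
    have hDx : D x = c • x := hx D (by simp)
    have hl'x : ∀ δ ∈ l', δ x = c • x := fun δ hδ => hx δ (by simp [hδ])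
    have hcE : c ∈ E := by
      rw [hEmem]
      apply Module.End.hasEigenvalue_of_hasEigenvector (x := e.symm x)
      rw [Module.End.hasEigenvector_iff, Module.End.mem_eigenspace_iff]
      refine ⟨?_, by simpa using hx0⟩
      apply e.injective
      rw [← hDe]
      simp [hDx]
    have hb'x : (d * b) x = c ^ (n - 1) • x := by
      rw [← hl'prod, list_eig_E2 c x l' hl'x, hl'len]
    have hroot : (LinearMap.charpoly (d * b)).IsRoot (c ^ (n - 1)) := by
      rw [← Module.End.hasEigenvalue_iff_isRoot_charpoly]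
      apply Module.End.hasEigenvalue_of_hasEigenvector (x := x)
      rw [Module.End.hasEigenvector_iff, Module.End.mem_eigenspace_iff]
      exact ⟨hb'x, hx0⟩
    rw [hcyc.2, IsRoot.def, eval_mul] at hroot
    have hgc' : g.eval (c ^ (n - 1)) ≠ 0 := hgM _ (by
      rw [hM, Finset.mem_insert]
      right
      exact Finset.mem_image_of_mem _ hcE)
    have hc1 : c ^ (n - 1) = 1 := by
      rcases mul_eq_zero.mp hroot with h | h
      · simpa [sub_eq_zero] using h
      · exact absurd h hgc'
    rw [hc1] at hb'x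
    obtain ⟨w', hw'⟩ := hcyc.1
    obtain ⟨s, hs⟩ := cyc_eig_E2 (d * b) w' hw' 1 v x hv1 hb'x hx0
    have hs0 : s ≠ 0 := by
      rintro rfl
      exact hv0 (by rw [hs]; simp)
    have hDv : D v = c • v := by
      rw [hs, map_smul, hDx, smul_comm]
    have hc0 : c ≠ 0 := hE0 c hcE
    apply hv2
    refine ⟨c⁻¹, ?_⟩
    have h1 := hdD v
    rw [hDv, map_smul] at h1
    calc d v = c⁻¹ • (c • d v) := by rw [smul_smul, inv_mul_cancel₀ hc0, one_smul]
      _ = c⁻¹ • v := by rw [h1]

end E2
end Pool.Agent.PC
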