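import Pool.Agent.MP485c8a.Defs

set_option autoImplicit false

namespace Pool.Agent.PC
namespace C1

open Module Polynomial

section aux
variable {F V : Type} [Field F] [AddCommGroup V] [Module F V]

theorem one_add_apply' (φ : V →ₗ[F] F) (x u : V) :
    ((1 : Module.End F V) + φ.smulRight x) u = u + φ u • x := rfl

theorem exists_dual_of_li {ι : Type} {x : ι → V} (hx : LinearIndependent F x) (c : ι → F) :
    ∃ g : V →ₗ[F] F, ∀ i, g (x i) = c i := by
  obtain ⟨g, hg⟩ := LinearMap.exists_extend ((Basis.span hx).constr F c)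
  refine ⟨g, fun i => ?_⟩
  have h2 := LinearMap.congr_fun hg (Basis.span hx i)
  rw [Basis.constr_basis, LinearMap.comp_apply, Submodule.subtype_apply, Basis.span_apply] at h2
  exact h2

theorem lift_v (psi : V →ₗ[F] F) (v : V) (hv : psi v = 1) : ∀ (m : ℕ) (x : Fin m → V)
    (φ : Fin m → (V →ₗ[F] F)) (c : Fin m → F), (∀ i, psi (x i) = 0) →
    ∃ k : Fin m → F,
      (List.ofFn (fun i => (1 : Module.End F V) + (φ i + k i • psi).smulRight (x i))).prod v
        = v + ∑ i, c i • x i := by
  intro m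
  induction m with
  | zero =>
    intro x φ c hx
    exact ⟨fun _ => 0, by simp⟩
  | succ m ih =>
    intro x φ c hx
    obtain ⟨k, hk⟩ := ih (fun i => x i.succ) (fun i => φ i.succ) (fun i => c i.succ)
      (fun i => hx _)
    have hw : psi (∑ i : Fin m, c i.succ • x i.succ) = 0 := by
      rw [map_sum]
      exact Finset.sum_eq_zero fun i _ => by rw [map_smul, hx, smul_zero]
    refine ⟨Fin.cons (c 0 - φ 0 v - φ 0 (∑ i : Fin m, c i.succ • x i.succ)) k, ?_⟩
    rw [List.ofFn_succ, List.prod_cons, Module.End.mul_apply]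
    simp only [Fin.cons_succ, Fin.cons_zero]
    rw [hk, one_add_apply', Fin.sum_univ_succ]
    have e : (φ 0 + (c 0 - φ 0 v - φ 0 (∑ i : Fin m, c i.succ • x i.succ)) • psi)
        (v + ∑ i : Fin m, c i.succ • x i.succ) = c 0 := by
      rw [LinearMap.add_apply, LinearMap.smul_apply, map_add, map_add psi, hv, hw]
      simp only [smul_eq_mul]
      ring
    rw [e]
    abel

theorem lift_H (psi : V →ₗ[F] F) : ∀ (m : ℕ) (x : Fin m → LinearMap.ker psi)
    (φ : Fin m → (LinearMap.ker psi →ₗ[F] F)) (Φ : Fin m → (V →ₗ[F] F))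
    (_ : ∀ i (y : LinearMap.ker psi), Φ i y = φ i y) (y : LinearMap.ker psi),
    (List.ofFn (fun i => (1 : Module.End F V) + (Φ i).smulRight (x i : V))).prod (y : V)
      = ((List.ofFn (fun i => (1 : Module.End F (LinearMap.ker psi)) +
        (φ i).smulRight (x i))).prod y : V) := by
  intro m
  induction m with
  | zero =>
    intro x φ Φ h y
    simp
  | succ m ih =>
    intro x φ Φ h y
    rw [List.ofFn_succ, List.prod_cons, Module.End.mul_apply, List.ofFn_succ, List.prod_cons,
      Module.End.mul_apply]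
    rw [ih (fun i => x i.succ) (fun i => φ i.succ) (fun i => Φ i.succ) (fun i y => h _ y) y]
    rw [one_add_apply', one_add_apply', h]
    rfl

theorem choice (h : F) (hh : h ≠ 0) (b : Module.End F V) (hb : Function.Injective b)
    (v : V) (hv : LinearIndependent F ![v, b v]) (hd : 2 < finrank F V) :
    ∃ psi : V →ₗ[F] F, psi v = 1 ∧ psi (b v) = h ∧
      ¬ ∃ s : F, ∀ y, psi y = 0 → b y - psi (b y) • (h⁻¹ • b v) = s • y := by
  obtain ⟨y, hy⟩ := exists_linearIndependent_cons_of_lt_finrank hv (by simpa using hd)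
  obtain ⟨p1, hp1⟩ := exists_dual_of_li hy ![0, 1, h]
  obtain ⟨p2, hp2⟩ := exists_dual_of_li hy ![1, 1, h]
  obtain ⟨θ, hθ⟩ := exists_dual_of_li hv ![1, 0]
  have a0 : p1 y = 0 := hp1 0
  have a1 : p1 v = 1 := hp1 1
  have a2 : p1 (b v) = h := hp1 2
  have b0 : p2 y = 1 := hp2 0
  have b1 : p2 v = 1 := hp2 1
  have b2 : p2 (b v) = h := hp2 2
  have t1 : θ v = 1 := hθ 0
  have t2 : θ (b v) = 0 := hθ 1
  by_contra hcon
  push Not at hcon
  obtain ⟨s1, hs1⟩ := hcon p1 a1 a2
  obtain ⟨s2, hs2⟩ := hcon p2 b1 b2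
  have e1 := congrArg θ (hs1 (b v - h • v) (by simp [a1, a2]))
  have e2 := congrArg θ (hs2 (b v - h • v) (by simp [b1, b2]))
  have e3 := congrArg θ (hs1 y a0)
  have e4 := congrArg θ (hs2 (v - y) (by simp [b0, b1]))
  simp only [map_sub, map_smul, t1, t2, smul_eq_mul, mul_zero, sub_zero, mul_one] at e1 e2 e3 e4
  have hs : s1 = s2 := by
    have : (s1 - s2) * h = 0 := by linear_combination e1 - e2
    rcases mul_eq_zero.1 this with h3 | h3
    · exact sub_eq_zero.1 h3
    · exact absurd h3 hh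
  subst hs
  have hs0 : s1 = 0 := by linear_combination -e3 - e4
  have e5 := hs1 y a0
  rw [hs0, zero_smul] at e5
  have e6 : b (y - (p1 (b y) * h⁻¹) • v) = 0 := by
    rw [map_sub, map_smul, ← smul_smul]
    exact e5
  have e7 : y - (p1 (b y) * h⁻¹) • v = 0 := hb (by rw [e6, map_zero])
  have e8 := congrArg p1 e7
  rw [map_sub, map_smul, a0, a1, map_zero, smul_eq_mul, mul_one, zero_sub, neg_eq_zero] at e8
  rw [e8, zero_smul, sub_zero] at e7
  rw [e7, map_zero] at b0
  exact zero_ne_one b0

/-- the modified map -/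
noncomputable def TT (h : F) (b : Module.End F V) (v : V) (psi : V →ₗ[F] F) : Module.End F V :=
  b - (psi ∘ₗ b - psi).smulRight (h⁻¹ • b v)

theorem TT_apply (h : F) (b : Module.End F V) (v : V) (psi : V →ₗ[F] F) (u : V) :
    TT h b v psi u = b u - (psi (b u) - psi u) • (h⁻¹ • b v) := rfl

theorem psi_TT (h : F) (hh : h ≠ 0) (b : Module.End F V) (v : V) (psi : V →ₗ[F] F)
    (h2 : psi (b v) = h) (u : V) : psi (TT h b v psi u) = psi u := by
  rw [TT_apply, map_sub, map_smul, map_smul, h2]
  simp only [smul_eq_mul]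
  rw [inv_mul_cancel₀ hh]
  ring

theorem TT_mem (h : F) (hh : h ≠ 0) (b : Module.End F V) (v : V) (psi : V →ₗ[F] F)
    (h2 : psi (b v) = h) (u : V) (hu : u ∈ LinearMap.ker psi) :
    TT h b v psi u ∈ LinearMap.ker psi := by
  rw [LinearMap.mem_ker, psi_TT h hh b v psi h2]
  exact hu

end aux

theorem main_fact {F : Type} [Field F] (h : F) (hh : h ≠ 0) : ∀ (m : ℕ) (V : Type)
    [AddCommGroup V] [Module F V] [FiniteDimensional F V], finrank F V = m + 1 →
    ∀ b : Module.End F V, Function.Injective b → (m = 0 ∨ ¬ Scal b) →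
    ∃ (x : Fin (m + 1) → V) (φ : Fin (m + 1) → (V →ₗ[F] F)), LinearIndependent F x ∧
      (∀ i, i ≠ 0 → φ i (x i) = h - 1) ∧
      (List.ofFn (fun i => (1 : Module.End F V) + (φ i).smulRight (x i))).prod = b := by
  intro m
  induction m with
  | zero =>
    intro V _ _ _ hn b hb _
    let B := Module.finBasisOfFinrankEq F V hn
    refine ⟨B, fun _ => B.coord 0 ∘ₗ (b - 1), B.linearIndependent, ?_, ?_⟩
    · intro i hi
      exact absurd (Fin.fin_one_eq_zero i) hi
    · rw [List.ofFn_succ, List.ofFn_zero, List.prod_singleton]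
      ext u
      rw [one_add_apply']
      have := B.sum_repr ((b - 1) u)
      rw [Fin.sum_univ_one] at this
      rw [LinearMap.comp_apply, Basis.coord_apply, this]
      simp
  | succ m ih =>
    intro V _ _ _ hn b hb hs
    have hs : ¬ Scal b := by
      rcases hs with hs | hs
      · exact absurd hs (Nat.succ_ne_zero m)
      · exact hs
    obtain ⟨v, hv⟩ : ∃ v, LinearIndependent F ![v, b v] := by
      by_contra hcon
      push Not at hcon
      obtain ⟨a, ha⟩ := LinearMap.exists_eq_smul_id_of_forall_notLinearIndependent hcon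
      exact hs ⟨a, fun x => by rw [ha]; rfl⟩
    obtain ⟨psi, p1, p2, p3⟩ : ∃ psi : V →ₗ[F] F, psi v = 1 ∧ psi (b v) = h ∧
      (m = 0 ∨ ¬ ∃ s : F, ∀ y, psi y = 0 → b y - psi (b y) • (h⁻¹ • b v) = s • y) := by
      by_cases hm : m = 0
      · obtain ⟨psi, hp⟩ := exists_dual_of_li hv ![1, h]
        exact ⟨psi, hp 0, hp 1, Or.inl hm⟩
      · obtain ⟨psi, a, b', c⟩ := choice h hh b hb v hv (by omega)
        exact ⟨psi, a, b', Or.inr c⟩
    let S : Module.End F (LinearMap.ker psi) :=
      (TT h b v psi).restrict (TT_mem h hh b v psi p2)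
    have hS : ∀ y : LinearMap.ker psi, ((S y : LinearMap.ker psi) : V) = TT h b v psi y :=
      fun y => rfl
    have hS' : ∀ y : LinearMap.ker psi, ((S y : LinearMap.ker psi) : V) =
        b y - psi (b y) • (h⁻¹ • b v) := by
      intro y
      rw [hS, TT_apply]
      have : psi (y : V) = 0 := y.2
      rw [this, sub_zero]
    have hSinj : Function.Injective S := by
      rw [injective_iff_map_eq_zero]
      intro y hy
      have e1 := hS' y
      rw [hy] at e1
      have e2 : b ((y : V) - (psi (b y) * h⁻¹) • v) = 0 := by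
        rw [map_sub, map_smul, ← smul_smul, ← e1]
        rfl
      have e3 : (y : V) - (psi (b y) * h⁻¹) • v = 0 := hb (by rw [e2, map_zero])
      have e4 := congrArg psi e3
      have e5 : psi (y : V) = 0 := y.2
      rw [map_sub, map_smul, e5, p1, map_zero, smul_eq_mul, mul_one, zero_sub, neg_eq_zero] at e4
      rw [e4, zero_smul, sub_zero] at e3
      exact Subtype.ext e3
    have hSs : m = 0 ∨ ¬ Scal S := by
      rcases p3 with p3 | p3
      · exact Or.inl p3
      · right
        rintro ⟨s, hs⟩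
        apply p3
        refine ⟨s, fun y hy => ?_⟩
        have := hS' ⟨y, hy⟩
        rw [hs] at this
        exact this.symm
    have hfr : finrank F (LinearMap.ker psi) = m + 1 := by
      have h1 := LinearMap.finrank_range_add_finrank_ker psi
      have h2 : LinearMap.range psi = ⊤ := by
        rw [LinearMap.range_eq_top]
        intro c
        exact ⟨c • v, by rw [map_smul, p1, smul_eq_mul, mul_one]⟩
      rw [h2, finrank_top, finrank_self] at h1
      omega
    obtain ⟨x, φ, hx, hφ, hprod⟩ := ih (LinearMap.ker psi) hfr S hSinj hSs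
    -- the vector h⁻¹ w in the span of x
    have hxV : LinearIndependent F (fun i => (x i : V)) :=
      hx.map' (LinearMap.ker psi).subtype (Submodule.ker_subtype _)
    let pr : V →ₗ[F] LinearMap.ker psi :=
      LinearMap.codRestrict (LinearMap.ker psi) (LinearMap.id - psi.smulRight v) (by
        intro u
        rw [LinearMap.mem_ker, LinearMap.sub_apply, map_sub, LinearMap.smulRight_apply, map_smul,
          p1, LinearMap.id_apply, smul_eq_mul, mul_one, sub_self])
    have hpr : ∀ y : LinearMap.ker psi, pr y = y := by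
      intro y
      apply Subtype.ext
      show (y : V) - psi y • v = y
      have e5 : psi (y : V) = 0 := y.2
      rw [e5, zero_smul, sub_zero]
    obtain ⟨c, hc⟩ : ∃ c : Fin (m + 1) → F, v + ∑ i, c i • (x i : V) = h⁻¹ • b v := by
      have hmem : h⁻¹ • b v - v ∈ LinearMap.ker psi := by
        rw [LinearMap.mem_ker, map_sub, map_smul, p1, p2, smul_eq_mul, inv_mul_cancel₀ hh, sub_self]
      have hspan : Submodule.span F (Set.range x) = ⊤ :=
        hx.span_eq_top_of_card_eq_finrank (by rw [hfr, Fintype.card_fin])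
      have h3 : (⟨_, hmem⟩ : LinearMap.ker psi) ∈ Submodule.span F (Set.range x) := by
        rw [hspan]; trivial
      obtain ⟨c, hc⟩ := (Submodule.mem_span_range_iff_exists_fun F).1 h3
      refine ⟨c, ?_⟩
      have h4 := congrArg (Subtype.val) hc
      simp only [Submodule.coe_sum, Submodule.coe_smul] at h4
      rw [h4]
      abel
    obtain ⟨k, hk⟩ := lift_v psi v p1 (m + 1) (fun i => (x i : V)) (fun i => φ i ∘ₗ pr) c
      (fun i => (x i).2)
    rw [hc] at hk
    refine ⟨Fin.snoc (fun i => (x i : V)) v,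
      Fin.snoc (fun i => φ i ∘ₗ pr + k i • psi) (psi ∘ₗ b - psi), ?_, ?_, ?_⟩
    · rw [linearIndependent_finSnoc]
      refine ⟨hxV, ?_⟩
      intro hmem
      have : Submodule.span F (Set.range fun i => (x i : V)) ≤ LinearMap.ker psi := by
        rw [Submodule.span_le]
        rintro _ ⟨i, rfl⟩
        exact (x i).2
      have h5 := this hmem
      rw [LinearMap.mem_ker, p1] at h5
      exact one_ne_zero h5
    · intro i
      refine Fin.lastCases ?_ (fun i => ?_) i
      · intro _
        rw [Fin.snoc_last, Fin.snoc_last, LinearMap.sub_apply, LinearMap.comp_apply, p1, p2]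
      · intro hi
        rw [Fin.snoc_castSucc, Fin.snoc_castSucc, LinearMap.add_apply, LinearMap.comp_apply, hpr,
          LinearMap.smul_apply]
        have e5 : psi (x i : V) = 0 := (x i).2
        rw [e5, smul_zero, add_zero]
        apply hφ
        rintro rfl
        exact hi rfl
    · rw [List.ofFn_succ']
      rw [List.concat_eq_append, List.prod_append, List.prod_singleton]
      simp only [Fin.snoc_castSucc, Fin.snoc_last]
      ext u
      rw [Module.End.mul_apply, one_add_apply']
      have hP : ∀ z : V, (List.ofFn (fun i => (1 : Module.End F V) +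
          (φ i ∘ₗ pr + k i • psi).smulRight (x i : V))).prod z =
          TT h b v psi (z - psi z • v) + psi z • (h⁻¹ • b v) := by
        intro z
        have hz : z - psi z • v ∈ LinearMap.ker psi := by
          rw [LinearMap.mem_ker, map_sub, map_smul, p1, smul_eq_mul, mul_one, sub_self]
        have e1 : z = ((⟨z - psi z • v, hz⟩ : LinearMap.ker psi) : V) + psi z • v := by
          simp
        conv_lhs => rw [e1]
        rw [map_add, map_smul, hk]
        rw [lift_H psi (m + 1) x φ (fun i => φ i ∘ₗ pr + k i • psi) (by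
          intro i y
          rw [LinearMap.add_apply, LinearMap.comp_apply, hpr, LinearMap.smul_apply]
          have e5 : psi (y : V) = 0 := y.2
          rw [e5, smul_zero, add_zero]), hprod, hS]
      rw [hP, TT_apply]
      have hbv : b v = h • (h⁻¹ • b v) := by rw [smul_smul, mul_inv_cancel₀ hh, one_smul]
      set β := h⁻¹ • b v with hβ
      simp only [map_add, map_sub, map_smul, LinearMap.sub_apply, LinearMap.comp_apply, p1, p2,
        smul_eq_mul]
      rw [hbv]
      module

/-- Sourour factorisation with prescribed homology ratio `h`, independent centres. -/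
theorem sourour {F V : Type} [Field F] [AddCommGroup V] [Module F V] [FiniteDimensional F V]
    (n : ℕ) (hn : finrank F V = n) (h1 : 1 ≤ n) (b : Module.End F V) (h : F) (hh : h ≠ 0)
    (hdet : LinearMap.det b = h ^ n) (hs : n = 1 ∨ ¬ Scal b) :
    ∃ (x : Fin n → V) (φ : Fin n → (V →ₗ[F] F)), LinearIndependent F x ∧
      (∀ i, φ i (x i) = h - 1) ∧
      (List.ofFn (fun i => (1 : Module.End F V) + (φ i).smulRight (x i))).prod = b := by
  obtain ⟨m, rfl⟩ : ∃ m, n = m + 1 := ⟨n - 1, by omega⟩
  have hinj : Function.Injective b :=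
    (LinearMap.equivOfDetNeZero b (by rw [hdet]; exact pow_ne_zero _ hh)).injective
  obtain ⟨x, φ, hx, hφ, hprod⟩ := main_fact h hh m V hn b hinj (by
    rcases hs with hs | hs
    · left; omega
    · exact Or.inr hs)
  refine ⟨x, φ, hx, ?_, hprod⟩
  intro i
  by_cases hi : i = 0
  · subst hi
    have h2 : LinearMap.det b = ∏ i, (1 + φ i (x i)) := by
      rw [← hprod, map_list_prod, List.map_ofFn, List.prod_ofFn]
      refine Finset.prod_congr rfl fun i _ => ?_
      rw [← LinearMap.transvection.det]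
      rfl
    rw [hdet, Fin.prod_univ_succ] at h2
    have h3 : ∀ i : Fin m, 1 + φ i.succ (x i.succ) = h := by
      intro i
      rw [hφ _ (Fin.succ_ne_zero i)]
      ring
    simp only [h3, Finset.prod_const, Finset.card_univ, Fintype.card_fin] at h2
    rw [pow_succ'] at h2
    have h4 := mul_right_cancel₀ (pow_ne_zero m hh) h2
    rw [h4]
    ring
  · exact hφ i hi

end C1
end Pool.Agent.PC

namespace Pool.Agent.PC
namespace C4
open Pool.Agent.PC.C1 (sourour)

open Module Polynomial

lemma aut_map_C4 {F W : Type} [Field F] [AddCommGroup W] [Module F W]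
    (u v : W) (hu : u ≠ 0) (hv : v ≠ 0) : ∃ g : W ≃ₗ[F] W, g u = v := by
  let f := (LinearEquiv.toSpanNonzeroSingleton F W u hu).symm ≪≫ₗ
    (LinearEquiv.toSpanNonzeroSingleton F W v hv)
  obtain ⟨g, hg⟩ := Submodule.exists_linearEquiv_restrict_eq f
  refine ⟨g, ?_⟩
  have h := hg ⟨u, Submodule.mem_span_singleton_self u⟩
  have h1 : (LinearEquiv.toSpanNonzeroSingleton F W u hu).symm
      ⟨u, Submodule.mem_span_singleton_self u⟩ = 1 := by
    rw [LinearEquiv.symm_apply_eq]
    exact (LinearEquiv.toSpanNonzeroSingleton_one F W u hu).symm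
  have h2 : (f ⟨u, Submodule.mem_span_singleton_self u⟩ : W) = v := by
    simp only [f, LinearEquiv.trans_apply, h1]
    rw [LinearEquiv.toSpanNonzeroSingleton_one]
  rw [h2] at h
  exact h.symm

lemma dual_one_C4 {F W : Type} [Field F] [AddCommGroup W] [Module F W]
    (u : W) (hu : u ≠ 0) : ∃ g : W →ₗ[F] F, g u = 1 := by
  have : u ∉ (⊥ : Submodule F W) := by simpa using hu
  obtain ⟨g, _, hg⟩ := LinearMap.exists_extend_of_notMem (K := F) (0 : (⊥ : Submodule F W) →ₗ[F] F) this 1
  exact ⟨g, hg⟩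

lemma ker_rank_C4 {F V : Type} [Field F] [AddCommGroup V] [Module F V] [FiniteDimensional F V]
    (φ : V →ₗ[F] F) (hφ : φ ≠ 0) :
    finrank F (LinearMap.ker φ) + 1 = finrank F V := by
  have h := LinearMap.finrank_range_add_finrank_ker φ
  have hs : LinearMap.range φ = ⊤ := by
    rw [LinearMap.range_eq_top]
    exact LinearMap.surjective hφ
  rw [hs, finrank_top, Module.finrank_self] at h
  omega

lemma exists_equiv_C4 {F V : Type} [Field F] [AddCommGroup V] [Module F V] [FiniteDimensional F V]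
    (x x' : V) (φ φ' : V →ₗ[F] F) (hx : x ≠ 0) (hx' : x' ≠ 0) (hφ : φ ≠ 0) (hφ' : φ' ≠ 0)
    (h : φ x = φ' x') : ∃ e : V ≃ₗ[F] V, e x = x' ∧ ∀ v, φ' (e v) = φ v := by
  -- general construction
  have key : ∀ (z z' : V) (f : LinearMap.ker φ ≃ₗ[F] LinearMap.ker φ'), φ z = 1 → φ' z' = 1 →
      ∃ e : V ≃ₗ[F] V, (∀ v, φ' (e v) = φ v) ∧
        ∀ (v : V) (k : F) (w : LinearMap.ker φ), v = k • z + w → e v = k • z' + f w := by
    intro z z' f hz hz'
    let P : V →ₗ[F] LinearMap.ker φ :=
      LinearMap.codRestrict (LinearMap.ker φ) (LinearMap.id - φ.smulRight z) (by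
        intro v; simp [hz])
    have hP : ∀ v, ((P v : LinearMap.ker φ) : V) = v - φ v • z := fun v => rfl
    let E : V →ₗ[F] V := (LinearMap.ker φ').subtype ∘ₗ f.toLinearMap ∘ₗ P + φ.smulRight z'
    have hE : ∀ v, E v = (f (P v) : V) + φ v • z' := by intro v; simp [E]
    have hphi : ∀ v, φ' (E v) = φ v := by
      intro v
      have : φ' (f (P v) : V) = 0 := (f (P v)).2
      rw [hE, map_add, this, map_smul, hz']; simp
    have hinj : Function.Injective E := by
      rw [← LinearMap.ker_eq_bot, LinearMap.ker_eq_bot']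
      intro v hv
      have h1 : φ v = 0 := by rw [← hphi, hv, map_zero]
      rw [hE, h1, zero_smul, add_zero] at hv
      have h2 : f (P v) = 0 := Subtype.ext hv
      have h3 : P v = 0 := by simpa using h2
      have h4 := hP v
      rw [h3, h1] at h4
      simpa using h4.symm
    refine ⟨LinearEquiv.ofInjectiveEndo E hinj, ?_, ?_⟩
    · intro v; simpa using hphi v
    · intro v k w hv
      have hk : φ v = k := by
        have : φ (w : V) = 0 := w.2
        rw [hv, map_add, map_smul, hz, this]; simp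
      have hPw : P v = w := by
        apply Subtype.ext
        have h4 := hP v
        rw [h4, hk, hv]; simp
      have : (LinearEquiv.ofInjectiveEndo E hinj) v = E v := by simp
      rw [this, hE, hPw, hk, add_comm]
  have hfr : finrank F (LinearMap.ker φ) = finrank F (LinearMap.ker φ') := by
    have h1 := ker_rank_C4 φ hφ
    have h2 := ker_rank_C4 φ' hφ'
    omega
  obtain ⟨f0⟩ : Nonempty (LinearMap.ker φ ≃ₗ[F] LinearMap.ker φ') :=
    ⟨LinearEquiv.ofFinrankEq _ _ hfr⟩
  by_cases hk : φ x = 0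
  · obtain ⟨z, hz⟩ := LinearMap.surjective hφ 1
    obtain ⟨z', hz'⟩ := LinearMap.surjective hφ' 1
    have hk' : φ' x' = 0 := by rw [← h, hk]
    have hx1 : f0 ⟨x, hk⟩ ≠ 0 := by
      intro h0
      have : (⟨x, hk⟩ : LinearMap.ker φ) = 0 := by simpa using h0
      exact hx (by simpa using congrArg Subtype.val this)
    have hx2 : (⟨x', hk'⟩ : LinearMap.ker φ') ≠ 0 := by
      intro h0
      exact hx' (by simpa using congrArg Subtype.val h0)
    obtain ⟨g, hg⟩ := aut_map_C4 (F := F) (f0 ⟨x, hk⟩) (⟨x', hk'⟩ : LinearMap.ker φ') hx1 hx2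
    obtain ⟨e, he1, he2⟩ := key z z' (f0 ≪≫ₗ g) hz hz'
    refine ⟨e, ?_, he1⟩
    have := he2 x 0 ⟨x, hk⟩ (by simp)
    rw [this]
    simp [hg]
  · have hk' : φ' x' ≠ 0 := by rw [← h]; exact hk
    obtain ⟨e, he1, he2⟩ := key ((φ x)⁻¹ • x) ((φ' x')⁻¹ • x') f0 (by simp [hk]) (by simp [hk'])
    refine ⟨e, ?_, he1⟩
    have := he2 x (φ x) 0 (by simp [smul_smul, hk])
    rw [this, h]
    simp [smul_smul, hk']

/-- 1: rank-one perturbations of the identity with the same ratio are similar -/
theorem sim_rank_one {F V : Type} [Field F] [AddCommGroup V] [Module F V] [FiniteDimensional F V]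
    (x x' : V) (φ φ' : V →ₗ[F] F) (hx : x ≠ 0) (hx' : x' ≠ 0) (hφ : φ ≠ 0) (hφ' : φ' ≠ 0)
    (h : φ x = φ' x') (a : F) :
    Sim (a • ((1 : Module.End F V) + φ.smulRight x)) (a • ((1 : Module.End F V) + φ'.smulRight x')) := by
  obtain ⟨e, he1, he2⟩ := exists_equiv_C4 x x' φ φ' hx hx' hφ hφ' h
  refine ⟨e, fun v => ?_⟩
  simp [he2, ← he1]

/-- 2: a non-scalar `a` which is not `Big` is a scalar plus a rank-one map -/
theorem not_big_form {F V : Type} [Field F] [AddCommGroup V] [Module F V] [FiniteDimensional F V]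
    (h2 : 2 ≤ finrank F V) (a : Module.End F V) (hdet : LinearMap.det a ≠ 0) (hs : ¬ Scal a)
    (hb : ¬ Big a) :
    ∃ (c : F) (x : V) (φ : V →ₗ[F] F), c ≠ 0 ∧ x ≠ 0 ∧ φ ≠ 0 ∧ 1 + φ x ≠ 0 ∧
      a = c • ((1 : Module.End F V) + φ.smulRight x) ∧
      LinearMap.det a = c ^ (finrank F V) * (1 + φ x) := by
  unfold Big at hb
  push Not at hb
  obtain ⟨μ, hμ⟩ := hb
  set D : V →ₗ[F] V := a - μ • (LinearMap.id : V →ₗ[F] V) with hD
  have hD1 : ∀ v, a v = μ • v + D v := by intro v; simp [hD]
  have hD0 : D ≠ 0 := by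
    intro h0
    exact hs ⟨μ, fun v => by rw [hD1, h0]; simp⟩
  obtain ⟨y, hy⟩ : ∃ y, D y ≠ 0 := by
    by_contra hc
    push Not at hc
    exact hD0 (LinearMap.ext hc)
  set x : V := D y with hxdef
  obtain ⟨g, hg⟩ := dual_one_C4 (F := F) x hy
  have hspan : ∀ v, D v = g (D v) • x := by
    intro v
    have h1 : finrank F (LinearMap.range D) ≤ 1 := by omega
    rw [finrank_le_one_iff] at h1
    obtain ⟨w, hw⟩ := h1
    obtain ⟨c1, hc1⟩ := hw ⟨x, ⟨y, rfl⟩⟩
    obtain ⟨c2, hc2⟩ := hw ⟨D v, ⟨v, rfl⟩⟩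
    have e1 : c1 • (w : V) = x := by simpa using congrArg Subtype.val hc1
    have e2 : c2 • (w : V) = D v := by simpa using congrArg Subtype.val hc2
    have hc10 : c1 ≠ 0 := by
      rintro rfl
      apply hy
      rw [← e1]; simp
    have hgw : c1 * g (w : V) = 1 := by
      have := hg
      rw [← e1, map_smul] at this
      simpa using this
    have hgw' : g (w : V) = c1⁻¹ := by
      field_simp
      rw [mul_comm]; exact hgw
    rw [← e2, map_smul, ← e1, hgw', smul_smul, smul_eq_mul, mul_assoc, inv_mul_cancel₀ hc10, mul_one]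
  have hμ0 : μ ≠ 0 := by
    rintro rfl
    have hunit : IsUnit (LinearMap.det a) := isUnit_iff_ne_zero.mpr hdet
    have haD : a = D := by
      ext v; rw [hD1]; simp
    have hbij : IsUnit a := (LinearMap.isUnit_iff_isUnit_det a).mpr hunit
    have hrange : LinearMap.range a = ⊤ := ((LinearMap.isUnit_iff_range_eq_top a).mp hbij)
    rw [← haD, hrange, finrank_top] at hμ
    omega
  have ha : a = μ • ((1 : Module.End F V) + (μ⁻¹ • (g ∘ₗ D)).smulRight x) := by
    ext v
    rw [hD1, hspan v]
    simp [smul_smul, hμ0]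
  have hdeta : LinearMap.det a = μ ^ (finrank F V) * (1 + (μ⁻¹ • (g ∘ₗ D)) x) := by
    have h1 : ((1 : Module.End F V) + (μ⁻¹ • (g ∘ₗ D)).smulRight x)
        = LinearMap.transvection (μ⁻¹ • (g ∘ₗ D)) x := by
      ext v
      simp [LinearMap.transvection.apply]
    rw [← LinearMap.transvection.det, ← h1, ← LinearMap.det_smul, ← ha]
  refine ⟨μ, x, μ⁻¹ • (g ∘ₗ D), hμ0, hy, ?_, ?_, ha, hdeta⟩
  · intro h0
    have := congrArg (fun f => f y) h0
    simp only [LinearMap.smul_apply, LinearMap.comp_apply, LinearMap.zero_apply] at this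
    rw [← hxdef, hg] at this
    simp [hμ0] at this
  · intro h0
    rw [h0, mul_zero] at hdeta
    exact hdet hdeta

lemma prod_smul_C4 {F V : Type} [Field F] [AddCommGroup V] [Module F V] (c : F)
    (l : List (Module.End F V)) : (l.map (fun d => c • d)).prod = c ^ l.length • l.prod := by
  induction l with
  | nil => simp
  | cons a t ih =>
    simp only [List.map_cons, List.prod_cons, ih, List.length_cons]
    rw [smul_mul_smul_comm, pow_succ']

/-- transvection with nonzero data -/
def IsT_C4 {F V : Type} [Field F] [AddCommGroup V] [Module F V] (t : Module.End F V) : Prop :=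
  ∃ (x : V) (φ : V →ₗ[F] F), x ≠ 0 ∧ φ ≠ 0 ∧ φ x = 0 ∧ t = (1 : Module.End F V) + φ.smulRight x

lemma split_C4 {F V : Type} [Field F] [AddCommGroup V] [Module F V] [FiniteDimensional F V]
    (h3 : 3 ≤ finrank F V) (t : Module.End F V) (ht : IsT_C4 t) :
    ∃ t1 t2 : Module.End F V, IsT_C4 t1 ∧ IsT_C4 t2 ∧ t1 * t2 = t := by
  obtain ⟨x, φ, hx, hφ, h0, rfl⟩ := ht
  obtain ⟨y, hy1, hy2⟩ : ∃ y ∈ LinearMap.ker φ, y ∉ Submodule.span F {x} := by
    by_contra hc
    push Not at hc
    have h1 : LinearMap.ker φ ≤ Submodule.span F {x} := fun y hy => hc y hy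
    have h2 := Submodule.finrank_mono h1
    have h3 := finrank_span_singleton (K := F) hx
    have h4 := ker_rank_C4 φ hφ
    omega
  obtain ⟨g, hg1, hg2⟩ := LinearMap.exists_extend_of_notMem (K := F)
    (0 : (Submodule.span F {x}) →ₗ[F] F) hy2 1
  have hgx : g x = 0 := by
    have := LinearMap.congr_fun hg1 ⟨x, Submodule.mem_span_singleton_self x⟩
    simpa using this
  have hφy : φ y = 0 := hy1
  refine ⟨(1 : Module.End F V) + g.smulRight x, (1 : Module.End F V) + (φ - g).smulRight x,
    ⟨x, g, hx, ?_, hgx, rfl⟩, ⟨x, φ - g, hx, ?_, by simp [h0, hgx], rfl⟩, ?_⟩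
  · rintro rfl; simp at hg2
  · intro h
    have := LinearMap.congr_fun h y
    simp [hφy, hg2] at this
  · ext v
    have e1 : ((1 : Module.End F V) + (φ - g).smulRight x) v = v + (φ v - g v) • x := by simp
    have e2 : ∀ w, ((1 : Module.End F V) + g.smulRight x) w = w + g w • x := by intro w; simp
    have e3 : ((1 : Module.End F V) + φ.smulRight x) v = v + φ v • x := by simp
    rw [Module.End.mul_apply, e1, e2, e3, map_add, map_smul, hgx, smul_zero, add_zero, sub_smul]
    abel

lemma pad_C4 {F V : Type} [Field F] [AddCommGroup V] [Module F V] [FiniteDimensional F V]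
    (h3 : 3 ≤ finrank F V) (l : List (Module.End F V)) (hl : ∀ t ∈ l, IsT_C4 t) (hne : l ≠ [])
    (n : ℕ) (hn : l.length ≤ n) :
    ∃ l' : List (Module.End F V), l'.length = n ∧ l'.prod = l.prod ∧ ∀ t ∈ l', IsT_C4 t := by
  induction n, hn using Nat.le_induction with
  | base => exact ⟨l, rfl, rfl, hl⟩
  | succ m hm ih =>
    obtain ⟨l', h1, h2, h4⟩ := ih
    have hlpos : 0 < l.length := List.length_pos_iff.mpr hne
    match l', h1, h2, h4 with
    | [], h1, _, _ => simp at h1; omega
    | t :: r, h1, h2, h4 =>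
      obtain ⟨t1, t2, ht1, ht2, ht⟩ := split_C4 h3 t (h4 t (by simp))
      refine ⟨t1 :: t2 :: r, by simpa using h1, ?_, ?_⟩
      · rw [← h2]
        simp only [List.prod_cons]
        rw [← mul_assoc, ht]
      · intro s hs
        simp only [List.mem_cons] at hs
        rcases hs with rfl | rfl | hs
        · exact ht1
        · exact ht2
        · exact h4 s (by simp [hs])

open Classical in
lemma filter_C4 {F V : Type} [Field F] [AddCommGroup V] [Module F V] [FiniteDimensional F V]
    (n : ℕ) (xs : Fin n → V) (φs : Fin n → (V →ₗ[F] F)) (hli : LinearIndependent F xs)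
    (h0 : ∀ i, φs i (xs i) = 0) :
    ∃ l' : List (Module.End F V), (∀ t ∈ l', IsT_C4 t) ∧ l'.length ≤ n ∧
      l'.prod = (List.ofFn (fun i => (1 : Module.End F V) + (φs i).smulRight (xs i))).prod := by
  set l := List.ofFn (fun i => (1 : Module.End F V) + (φs i).smulRight (xs i)) with hl
  refine ⟨l.filter (fun t => decide (t ≠ 1)), ?_, ?_, ?_⟩
  · intro t ht
    rw [List.mem_filter] at ht
    obtain ⟨ht1, ht2⟩ := ht
    rw [hl, List.mem_ofFn] at ht1
    obtain ⟨i, rfl⟩ := ht1
    refine ⟨xs i, φs i, hli.ne_zero i, ?_, h0 i, rfl⟩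
    intro hz
    rw [hz] at ht2
    simp at ht2
  · refine (List.length_filter_le _ _).trans ?_
    simp [hl]
  · generalize l = l
    induction l with
    | nil => simp
    | cons a t ih =>
      by_cases ha : a = 1
      · simp only [List.filter_cons, ha, ne_eq, not_true_eq_false, decide_false, Bool.false_eq_true,
          if_false, List.prod_cons, one_mul]
        simpa using ih
      · simp only [List.filter_cons, ne_eq, ha, not_false_eq_true, decide_true, if_true,
          List.prod_cons]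
        congr 1

/-- 3: the rank-one case of the theorem -/
theorem rep_of_not_big {F V : Type} [Field F] [AddCommGroup V] [Module F V] [FiniteDimensional F V]
    (h3 : 3 ≤ finrank F V) (a b : Module.End F V) (hdet : LinearMap.det a ≠ 0) (hs : ¬ Scal a)
    (hb : ¬ Big a) (hbs : ¬ Scal b) (hdet2 : LinearMap.det b = LinearMap.det a ^ (finrank F V)) :
    Rep a b (finrank F V) := by
  obtain ⟨c, x, φ, hc, hx, hφ, hh, ha, hda⟩ := not_big_form (by omega) a hdet hs hb
  set n := finrank F V with hn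
  have hcn : c ^ n ≠ 0 := pow_ne_zero _ hc
  set b1 : Module.End F V := (c ^ n)⁻¹ • b with hb1
  have hbb1 : b = c ^ n • b1 := by rw [hb1, smul_smul, mul_inv_cancel₀ hcn, one_smul]
  have hb1s : ¬ Scal b1 := by
    rintro ⟨d, hd⟩
    exact hbs ⟨c ^ n * d, fun v => by rw [hbb1, LinearMap.smul_apply, hd, smul_smul]⟩
  have hdetb1 : LinearMap.det b1 = (1 + φ x) ^ n := by
    rw [hb1, LinearMap.det_smul, ← hn, hdet2, hda, ← mul_pow, ← mul_assoc,
      inv_mul_cancel₀ hcn, one_mul]
  obtain ⟨xs, φs, hli, hval, hprod⟩ := sourour n rfl (by omega) b1 (1 + φ x) hh hdetb1 (Or.inr hb1s)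
  -- enough: a list of length n of rank one perturbations with nonzero data
  have key : ∀ l : List (Module.End F V), l.length = n → l.prod = b1 →
      (∀ d ∈ l, ∃ (y : V) (ψ : V →ₗ[F] F), y ≠ 0 ∧ ψ ≠ 0 ∧ ψ y = φ x ∧
        d = (1 : Module.End F V) + ψ.smulRight y) → Rep a b n := by
    intro l hl hp hd
    refine ⟨l.map (fun d => c • d), by simpa using hl, ?_, ?_⟩
    · intro d hd'
      rw [List.mem_map] at hd'
      obtain ⟨d0, hd0, rfl⟩ := hd'
      obtain ⟨y, ψ, hy, hψ, hv, rfl⟩ := hd d0 hd0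
      rw [ha]
      exact sim_rank_one x y φ ψ hx hy hφ hψ hv.symm c
    · rw [prod_smul_C4, hl, hp, hbb1]
  by_cases h1 : φ x = 0
  · have h0 : ∀ i, φs i (xs i) = 0 := by intro i; rw [hval, h1]; ring
    obtain ⟨l', hl', hlen, hp'⟩ := filter_C4 n xs φs hli h0
    have hne' : l' ≠ [] := by
      rintro rfl
      simp only [List.prod_nil] at hp'
      exact hb1s ⟨1, fun v => by rw [← hprod, ← hp']; simp⟩
    obtain ⟨l'', hlen'', hp'', hl''⟩ := pad_C4 (by omega) l' hl' hne' n hlen
    apply key l'' hlen'' (by rw [hp'', hp', hprod])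
    intro d hd
    obtain ⟨y, ψ, hy, hψ, hv, hdd⟩ := hl'' d hd
    exact ⟨y, ψ, hy, hψ, by rw [hv, h1], hdd⟩
  · apply key (List.ofFn (fun i => (1 : Module.End F V) + (φs i).smulRight (xs i))) (by simp) hprod
    intro d hd
    rw [List.mem_ofFn] at hd
    obtain ⟨i, rfl⟩ := hd
    have hv : φs i (xs i) = φ x := by rw [hval]; ring
    exact ⟨xs i, φs i, hli.ne_zero i, by rintro h0; rw [h0] at hv; exact h1 (by simpa using hv.symm),
      hv, rfl⟩

end C4
end Pool.Agent.PC

namespace Pool.Agent.PC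
namespace D0

open Module Polynomial

theorem exists_indep_aux {F V : Type} [Field F] [AddCommGroup V] [Module F V]
    (a : Module.End F V) (hs : ¬ Scal a) : ∃ v, LinearIndependent F ![v, a v] := by
  by_contra hcon
  push Not at hcon
  obtain ⟨c, hc⟩ := LinearMap.exists_eq_smul_id_of_forall_notLinearIndependent (f := a) hcon
  exact hs ⟨c, fun x => by rw [hc]; simp⟩

theorem exists_equiv_aux {F V W : Type} [Field F] [AddCommGroup V] [Module F V]
    [FiniteDimensional F V] [AddCommGroup W] [Module F W] [FiniteDimensional F W]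
    (hVW : finrank F V = finrank F W) (p : Fin 2 → V) (q : Fin 2 → W)
    (hp : LinearIndependent F p) (hq : LinearIndependent F q) :
    ∃ e : V ≃ₗ[F] W, ∀ i, e (p i) = q i := by
  let bP := Basis.span hp
  let bQ := Basis.span hq
  let e1 := bP.equiv bQ (Equiv.refl _)
  obtain ⟨P', hP'⟩ := (Submodule.span F (Set.range p)).exists_isCompl
  obtain ⟨Q', hQ'⟩ := (Submodule.span F (Set.range q)).exists_isCompl
  have h1 := Submodule.finrank_add_eq_of_isCompl hP'
  have h2 := Submodule.finrank_add_eq_of_isCompl hQ'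
  have h3 : finrank F (Submodule.span F (Set.range p)) = 2 := by
    rw [finrank_span_eq_card hp]; simp
  have h4 : finrank F (Submodule.span F (Set.range q)) = 2 := by
    rw [finrank_span_eq_card hq]; simp
  have h5 : finrank F P' = finrank F Q' := by omega
  let e2 : P' ≃ₗ[F] Q' := LinearEquiv.ofFinrankEq _ _ h5
  refine ⟨(Submodule.prodEquivOfIsCompl _ _ hP').symm ≪≫ₗ (LinearEquiv.prodCongr e1 e2) ≪≫ₗ
    (Submodule.prodEquivOfIsCompl _ _ hQ'), ?_⟩
  intro i
  have h6 : (bP i : V) = p i := by simp [bP, Basis.span_apply]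
  have h7 : (bQ i : W) = q i := by simp [bQ, Basis.span_apply]
  have h8 : e1 (bP i) = bQ i := by simp [e1]
  rw [← h6, ← h7, ← h8]
  simp only [LinearEquiv.trans_apply]
  rw [Submodule.prodEquivOfIsCompl_symm_apply_left]
  simp

/-- a non-scalar map has a conjugate with prescribed value at one vector -/
theorem exists_conj_value {F V W : Type} [Field F] [AddCommGroup V] [Module F V]
    [FiniteDimensional F V] [AddCommGroup W] [Module F W] [FiniteDimensional F W]
    (hVW : finrank F V = finrank F W) (a : Module.End F V) (hs : ¬ Scal a) (x y : W)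
    (hxy : LinearIndependent F ![x, y]) : ∃ d : Module.End F W, Sim a d ∧ d x = y := by
  obtain ⟨v, hv⟩ := exists_indep_aux a hs
  obtain ⟨e, he⟩ := exists_equiv_aux hVW _ _ hv hxy
  have h0 : e v = x := he 0
  have h1 : e (a v) = y := he 1
  refine ⟨e.toLinearMap ∘ₗ a ∘ₗ e.symm.toLinearMap, ⟨e, fun z => ?_⟩, ?_⟩
  · simp
  · rw [← h0]
    simp [h1]

/-- non-scalar maps have a non-eigenvector -/
theorem exists_indep_of_not_scal {F V : Type} [Field F] [AddCommGroup V] [Module F V]
    (a : Module.End F V) (hs : ¬ Scal a) : ∃ v, LinearIndependent F ![v, a v] :=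
  exists_indep_aux a hs

end D0
end Pool.Agent.PC

namespace Pool.Agent.PC
namespace D1

open Module Polynomial

theorem Tr_apply_7830 {F H : Type} [Field F] [AddCommGroup H] [Module F H] (a : F) (χ : H →ₗ[F] F)
    (D : H →ₗ[F] H) (p : F × H) : Tr a χ D p = (a * p.1 + χ p.2, D p.2) := rfl

theorem Tr_mul_7830 {F H : Type} [Field F] [AddCommGroup H] [Module F H] (a A : F)
    (χ χ' : H →ₗ[F] F) (d D : Module.End F H) :
    (Tr a χ d : Module.End F (F × H)) * Tr A χ' D = Tr (a * A) (a • χ' + χ.comp D) (d * D) := by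
  apply LinearMap.ext
  intro p
  rw [Module.End.mul_apply, Tr_apply_7830, Tr_apply_7830, Tr_apply_7830]
  apply Prod.ext
  · show a * (A * p.1 + χ' p.2) + χ (D p.2) = a * A * p.1 + (a * χ' p.2 + χ (D p.2))
    ring
  · rfl

theorem sim_head_7830 {F V H H0 : Type} [Field F] [AddCommGroup V] [Module F V]
    [AddCommGroup H] [Module F H] [AddCommGroup H0] [Module F H0]
    (al : Module.End F V) (a : F) (χ0 : H0 →ₗ[F] F) (at' : Module.End F H0)
    (hal : Sim al (Tr a χ0 at')) (d : Module.End F H) (hd : Sim at' d) :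
    ∃ χ1 : H →ₗ[F] F, Sim al (Tr a χ1 d) := by
  obtain ⟨e0, he0⟩ := hal
  obtain ⟨e, he⟩ := hd
  refine ⟨χ0.comp (e.symm : H →ₗ[F] H0), e0.trans ((LinearEquiv.refl F F).prodCongr e), ?_⟩
  intro x
  have h1 := he0 x
  rw [Tr_apply_7830] at h1
  have h2 : (e0.trans ((LinearEquiv.refl F F).prodCongr e)) x = ((e0 x).1, e (e0 x).2) := rfl
  have h3 : (e0.trans ((LinearEquiv.refl F F).prodCongr e)) (al x) =
      ((e0 (al x)).1, e (e0 (al x)).2) := rfl
  rw [h2, h3, Tr_apply_7830, ← h1]
  apply Prod.ext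
  · show a * (e0 x).1 + χ0 (e.symm (e (e0 x).2)) = a * (e0 x).1 + χ0 (e0 x).2
    rw [e.symm_apply_apply]
  · exact he _

theorem sim_shift_7830 {F V H : Type} [Field F] [AddCommGroup V] [Module F V]
    [AddCommGroup H] [Module F H]
    (al : Module.End F V) (a : F) (χ1 : H →ₗ[F] F) (d : Module.End F H)
    (h : Sim al (Tr a χ1 d)) (z : H →ₗ[F] F) :
    Sim al (Tr a (χ1 + z.comp (d - a • (LinearMap.id : H →ₗ[F] H))) d) := by
  obtain ⟨e, he⟩ := h
  let T : (F × H) ≃ₗ[F] (F × H) :=
    { toFun := fun p => (p.1 + z p.2, p.2)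
      map_add' := by
        intro p q
        apply Prod.ext
        · show p.1 + q.1 + z (p.2 + q.2) = p.1 + z p.2 + (q.1 + z q.2)
          rw [map_add]; ring
        · rfl
      map_smul' := by
        intro c p
        apply Prod.ext
        · show c * p.1 + z (c • p.2) = c * (p.1 + z p.2)
          rw [map_smul, smul_eq_mul]; ring
        · rfl
      invFun := fun p => (p.1 - z p.2, p.2)
      left_inv := by
        intro p
        apply Prod.ext
        · show p.1 + z p.2 - z p.2 = p.1
          ring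
        · rfl
      right_inv := by
        intro p
        apply Prod.ext
        · show p.1 - z p.2 + z p.2 = p.1
          ring
        · rfl }
  refine ⟨e.trans T, fun x => ?_⟩
  have h1 := he x
  rw [Tr_apply_7830] at h1
  have h2 : (e.trans T) x = ((e x).1 + z (e x).2, (e x).2) := rfl
  have h3 : (e.trans T) (al x) = ((e (al x)).1 + z (e (al x)).2, (e (al x)).2) := rfl
  rw [h2, h3, Tr_apply_7830, ← h1]
  apply Prod.ext
  · show a * ((e x).1 + z (e x).2) + (χ1 (e x).2 + z (d (e x).2 - a • (e x).2)) =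
      a * (e x).1 + χ1 (e x).2 + z (d (e x).2)
    rw [map_sub, map_smul, smul_eq_mul]
    ring
  · rfl

theorem prod_eig_7830 {F H : Type} [Field F] [AddCommGroup H] [Module F H] (a : F) (x : H)
    (ds : List (Module.End F H)) (h : ∀ d ∈ ds, d x = a • x) :
    ds.prod x = a ^ ds.length • x := by
  induction ds with
  | nil => simp
  | cons d ds ih =>
    rw [List.prod_cons, Module.End.mul_apply, ih (fun d hd => h d (List.mem_cons_of_mem _ hd)),
      map_smul, h d List.mem_cons_self, List.length_cons, smul_smul, pow_succ]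

theorem lift_aux_7830 {F V H H0 : Type} [Field F] [AddCommGroup V] [Module F V]
    [AddCommGroup H] [Module F H] [FiniteDimensional F H] [AddCommGroup H0] [Module F H0]
    (al : Module.End F V) (a : F) (ha : a ≠ 0) (χ0 : H0 →ₗ[F] F) (at' : Module.End F H0)
    (hal : Sim al (Tr a χ0 at')) (ds : List (Module.End F H)) (hds : ∀ d ∈ ds, Sim at' d) :
    ∃ χ_0 : H →ₗ[F] F, ∀ χ : H →ₗ[F] F, (∀ x : H, (∀ d ∈ ds, d x = a • x) → χ x = χ_0 x) →
    ∃ l : List (Module.End F (F × H)),
      List.Forall₂ (fun δ d => Sim al δ ∧ ∃ χ' : H →ₗ[F] F, δ = Tr a χ' d) l ds ∧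
      l.prod = Tr (a ^ ds.length) χ ds.prod := by
  induction ds with
  | nil =>
    refine ⟨0, fun χ hχ => ⟨[], List.Forall₂.nil, ?_⟩⟩
    have h0 : χ = 0 := by
      apply LinearMap.ext
      intro x
      exact hχ x (by simp)
    rw [h0]
    apply LinearMap.ext
    intro p
    rw [Tr_apply_7830]
    simp
  | cons d ds ih =>
    obtain ⟨χ'_0, hχ'⟩ := ih (fun d hd => hds d (List.mem_cons_of_mem _ hd))
    obtain ⟨χ1, hχ1⟩ := sim_head_7830 al a χ0 at' hal d (hds d List.mem_cons_self)
    refine ⟨a • χ'_0 + χ1.comp ds.prod, fun χ hχ => ?_⟩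
    obtain ⟨W, hW⟩ : ∃ W : Submodule F H, ∀ x, x ∈ W ↔ ∀ d ∈ ds, d x = a • x :=
      ⟨{ carrier := {x | ∀ d ∈ ds, d x = a • x}
         add_mem' := by
          intro x y hx hy d hd
          rw [map_add, hx d hd, hy d hd, smul_add]
         zero_mem' := by
          intro d hd
          rw [map_zero, smul_zero]
         smul_mem' := by
          intro c x hx d hd
          rw [map_smul, hx d hd, smul_comm] }, fun x => Iff.rfl⟩
    obtain ⟨B, hB⟩ : ∃ B : H →ₗ[F] H,
      B = (d - a • (LinearMap.id : H →ₗ[F] H)).comp ds.prod := ⟨_, rfl⟩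
    have hφ : χ - (a • χ'_0 + χ1.comp ds.prod) ∈ (W ⊓ LinearMap.ker B).dualAnnihilator := by
      rw [Submodule.mem_dualAnnihilator]
      rintro x ⟨hx1, hx2⟩
      rw [LinearMap.sub_apply, sub_eq_zero]
      apply hχ
      have hx3 := (hW x).1 hx1
      intro d' hd'
      rcases List.mem_cons.1 hd' with rfl | hd'
      · have h1 : B x = 0 := hx2
        rw [hB, LinearMap.comp_apply, prod_eig_7830 a x ds hx3, map_smul] at h1
        rcases smul_eq_zero.1 h1 with h2 | h2
        · exact absurd h2 (pow_ne_zero _ ha)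
        · have h3 : d' x - a • x = 0 := h2
          exact sub_eq_zero.1 h3
      · exact hx3 d' hd'
    rw [Subspace.dualAnnihilator_inf_eq, Submodule.mem_sup] at hφ
    obtain ⟨η, hη, ζ, hζ, hsum⟩ := hφ
    rw [← LinearMap.range_dualMap_eq_dualAnnihilator_ker] at hζ
    obtain ⟨z, hz⟩ := hζ
    have hz' : ∀ x, ζ x = z (B x) := fun x => by rw [← hz]; rfl
    rw [Submodule.mem_dualAnnihilator] at hη
    obtain ⟨l, hl1, hl2⟩ := hχ' (χ'_0 + a⁻¹ • η) (by
      intro x hx
      rw [LinearMap.add_apply, LinearMap.smul_apply, hη x ((hW x).2 hx), smul_zero, add_zero])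
    refine ⟨Tr a (χ1 + z.comp (d - a • (LinearMap.id : H →ₗ[F] H))) d :: l,
      List.Forall₂.cons ⟨sim_shift_7830 al a χ1 d hχ1 z, _, rfl⟩ hl1, ?_⟩
    rw [List.prod_cons, hl2, Tr_mul_7830, List.length_cons, List.prod_cons, pow_succ']
    congr 1
    apply LinearMap.ext
    intro x
    have h1 := congrArg (fun f : H →ₗ[F] F => f x) hsum
    have h2 : η x + ζ x = χ x - (a * χ'_0 x + χ1 (ds.prod x)) := h1
    have h3 := hz' x
    rw [hB] at h3
    have h4 : ζ x = z (d (ds.prod x) - a • ds.prod x) := h3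
    show a * (χ'_0 x + a⁻¹ * η x) + (χ1 (ds.prod x) + z (d (ds.prod x) - a • ds.prod x)) = χ x
    rw [← h4]
    have h5 : a * (a⁻¹ * η x) = η x := by rw [← mul_assoc, mul_inv_cancel₀ ha, one_mul]
    rw [mul_add, h5]
    linear_combination h2

/-- lifting a factorisation from the quotient -/
theorem lift_list {F V H H0 : Type} [Field F] [AddCommGroup V] [Module F V]
    [AddCommGroup H] [Module F H] [FiniteDimensional F H] [AddCommGroup H0] [Module F H0]
    (al : Module.End F V) (a : F) (ha : a ≠ 0) (χ0 : H0 →ₗ[F] F) (at' : Module.End F H0)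
    (hal : Sim al (Tr a χ0 at')) (ds : List (Module.End F H)) (hds : ∀ d ∈ ds, Sim at' d)
    (hcom : ∀ x : H, (∀ d ∈ ds, d x = a • x) → x = 0) (χ : H →ₗ[F] F) :
    ∃ l : List (Module.End F (F × H)),
      List.Forall₂ (fun δ d => Sim al δ ∧ ∃ χ' : H →ₗ[F] F, δ = Tr a χ' d) l ds ∧
      l.prod = Tr (a ^ ds.length) χ ds.prod := by
  obtain ⟨χ_0, h⟩ := lift_aux_7830 al a ha χ0 at' hal ds hds
  apply h
  intro x hx
  rw [hcom x hx, map_zero, map_zero]

end D1
end Pool.Agent.PC

namespace Pool.Agent.PC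
namespace D3
open Pool.Agent.PC.D0 (exists_conj_value)

open Module Polynomial

theorem ln_span_le {F V : Type} [Field F] [AddCommGroup V] [Module F V] (w : V) :
    finrank F (Submodule.span F ({w} : Set V)) ≤ 1 := by
  have := finrank_span_le_card (R := F) ({w} : Set V)
  simpa using this

theorem ln_ex {F V : Type} [Field F] [AddCommGroup V] [Module F V] [FiniteDimensional F V]
    (h4 : 4 ≤ finrank F V) (f : V →ₗ[F] F × F) (w : V) :
    ∃ x, f x = 0 ∧ x ∉ Submodule.span F ({w} : Set V) := by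
  by_contra hc
  push Not at hc
  have h1 : LinearMap.ker f ≤ Submodule.span F ({w} : Set V) := fun x hx => hc x hx
  have h2 := Submodule.finrank_mono h1
  have h3 := ln_span_le (F := F) w
  have h5 := LinearMap.finrank_range_add_finrank_ker f
  have h6 : finrank F (LinearMap.range f) ≤ 2 := by
    have h7 := Submodule.finrank_le (LinearMap.range f)
    have h8 : finrank F (F × F) = 2 := by
      rw [Module.finrank_prod, Module.finrank_self]
    omega
  omega

/-- Lemma N -/
theorem lemmaN {F V : Type} [Field F] [AddCommGroup V] [Module F V] [FiniteDimensional F V]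
    (h4 : 4 ≤ finrank F V) (a b : Module.End F V) (ha : LinearMap.det a ≠ 0) (hbig : Big a)
    (hb : LinearMap.det b ≠ 0) (v y : V) (hvy : LinearIndependent F ![v, y]) :
    ∃ d : Module.End F V, Sim a d ∧ d v = y ∧
      ¬ ∃ s : F, ∀ x, b x - s • d x ∈ Submodule.span F {y} := by
  classical
  by_contra hcon
  push Not at hcon
  -- non scalar
  have hs : ¬ Scal a := by
    rintro ⟨c, hc⟩
    have h1 := hbig c
    have h2 : a - c • (LinearMap.id : V →ₗ[F] V) = 0 := by
      ext x
      simp [hc x]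
    rw [h2, LinearMap.range_zero, finrank_bot] at h1
    omega
  obtain ⟨d, ⟨e, he⟩, hdv⟩ := exists_conj_value rfl a hs v y hvy
  have hy0 : y ≠ 0 := hvy.ne_zero 1
  have hv0 : v ≠ 0 := hvy.ne_zero 0
  have hvn : v ∉ Submodule.span F ({y} : Set V) := by
    intro h
    obtain ⟨c, hc⟩ := Submodule.mem_span_singleton.mp h
    have h1 := (LinearIndependent.pair_iff.mp hvy) 1 (-c) (by rw [neg_smul, hc, one_smul, add_neg_cancel])
    exact one_ne_zero h1.1
  -- `d` is injective
  have hainj : Function.Injective a := by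
    have h1 : IsUnit (LinearMap.det a) := isUnit_iff_ne_zero.mpr ha
    have h2 := LinearMap.isUnit_iff_isUnit_det a |>.mpr h1
    exact ((Module.End.isUnit_iff a).mp h2).1
  have hbsurj : Function.Surjective b := by
    have h1 : IsUnit (LinearMap.det b) := isUnit_iff_ne_zero.mpr hb
    have h2 := LinearMap.isUnit_iff_isUnit_det b |>.mpr h1
    exact ((Module.End.isUnit_iff b).mp h2).2
  have hdinj : Function.Injective d := by
    intro p q hpq
    have h1 : e (a (e.symm p)) = e (a (e.symm q)) := by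
      rw [← he, ← he, e.apply_symm_apply, e.apply_symm_apply, hpq]
    exact e.symm.injective (hainj (e.injective h1))
  -- scalars are nonzero
  have hs0 : ∀ d : Module.End F V, ∀ s : F,
      (∀ x, b x - s • d x ∈ Submodule.span F ({y} : Set V)) → s ≠ 0 := by
    rintro d s h rfl
    obtain ⟨x, hx1, hx2⟩ := ln_ex h4 (0 : V →ₗ[F] F × F) y
    obtain ⟨x', hx'⟩ := hbsurj x
    have h1 := h x'
    rw [zero_smul, sub_zero, hx'] at h1
    exact hx2 h1
  obtain ⟨s, hsd⟩ := hcon d ⟨e, he⟩ hdv
  have hsne := hs0 d s hsd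
  -- conjugation by transvections
  have hconj : ∀ (ψ : V →ₗ[F] F) (z : V), ψ v = 0 → ψ y = 0 → ψ z = 0 →
      ∃ κ : F, ∀ x, d x + ψ (d x) • z - κ • d x - (κ * ψ x) • d z ∈ Submodule.span F ({y} : Set V) := by
    intro ψ z hψv hψy hψz
    set g : V ≃ₗ[F] V := LinearEquiv.ofLinearMap
      (LinearMap.id + ψ.smulRight z) (LinearMap.id - ψ.smulRight z)
      (by
        ext x
        simp [hψz])
      (by
        ext x
        simp [hψz]) with hg
    have hgx : ∀ x, g x = x + ψ x • z := fun x => rfl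
    have hgs : ∀ x, g.symm x = x - ψ x • z := fun x => rfl
    set d' : Module.End F V := g.toLinearMap ∘ₗ d ∘ₗ g.symm.toLinearMap with hd'
    have hd'g : ∀ x, d' (g x) = g (d x) := by
      intro x
      show g (d (g.symm (g x))) = g (d x)
      rw [g.symm_apply_apply]
    have hsim : Sim a d' := by
      refine ⟨e.trans g, fun x => ?_⟩
      show d' (g (e x)) = g (e (a x))
      rw [hd'g, he]
    have hd'v : d' v = y := by
      have h1 : g v = v := by rw [hgx, hψv, zero_smul, add_zero]
      have h2 : g y = y := by rw [hgx, hψy, zero_smul, add_zero]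
      have h3 := hd'g v
      rw [h1, hdv, h2] at h3
      exact h3
    obtain ⟨s', hs'⟩ := hcon d' hsim hd'v
    have hs'0 := hs0 d' s' hs'
    refine ⟨s / s', fun x => ?_⟩
    have h1 := hsd (g x)
    have h2 := hs' (g x)
    have h3 : s' • d' (g x) - s • d (g x) ∈ Submodule.span F ({y} : Set V) := by
      have := Submodule.sub_mem _ h1 h2
      have h4 : b (g x) - s • d (g x) - (b (g x) - s' • d' (g x)) = s' • d' (g x) - s • d (g x) := by
        abel
      rwa [h4] at this
    have h5 := Submodule.smul_mem _ (s'⁻¹) h3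
    have h6 : s'⁻¹ • (s' • d' (g x) - s • d (g x))
        = d x + ψ (d x) • z - (s / s') • d x - (s / s' * ψ x) • d z := by
      rw [hd'g, hgx (d x), hgx x, map_add, map_smul, smul_sub, smul_smul, smul_smul,
        inv_mul_cancel₀ hs'0, one_smul, smul_add, smul_smul, div_eq_inv_mul, sub_sub]
    rwa [h6] at h5
  -- the ratio is one
  have hone : ∀ (ψ : V →ₗ[F] F) (z : V), ψ v = 0 → ψ y = 0 → ψ z = 0 →
      ∀ x, ψ (d x) • z - ψ x • d z ∈ Submodule.span F ({y} : Set V) := by
    intro ψ z hψv hψy hψz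
    obtain ⟨κ, hκ⟩ := hconj ψ z hψv hψy hψz
    have hκ1 : κ = 1 := by
      by_contra hne
      obtain ⟨x, hx1, hx2⟩ := ln_ex h4 (ψ.prod (ψ ∘ₗ d)) v
      have h1 : ψ x = 0 := congrArg Prod.fst hx1
      have h2 : ψ (d x) = 0 := congrArg Prod.snd hx1
      have h3 := hκ x
      rw [h1, h2, mul_zero, zero_smul, zero_smul, add_zero, sub_zero] at h3
      have h5 : d x - κ • d x = (1 - κ) • d x := by rw [sub_smul, one_smul]
      rw [h5] at h3
      have h6 : (1 - κ) ≠ 0 := sub_ne_zero.mpr (Ne.symm hne)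
      have h7 : d x ∈ Submodule.span F ({y} : Set V) := (Submodule.smul_mem_iff _ h6).mp h3
      obtain ⟨c, hc⟩ := Submodule.mem_span_singleton.mp h7
      apply hx2
      apply Submodule.mem_span_singleton.mpr
      refine ⟨c, hdinj ?_⟩
      rw [map_smul, hdv, hc]
    intro x
    have h1 := hκ x
    rw [hκ1, one_mul, one_smul] at h1
    have h2 : d x + ψ (d x) • z - d x - ψ x • d z = ψ (d x) • z - ψ x • d z := by abel
    rwa [h2] at h1
  -- eigenfunctionals
  have heig : ∀ (ψ : V →ₗ[F] F), ψ v = 0 → ψ y = 0 → ψ ≠ 0 →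
      ∃ μ : F, ∀ z, ψ z = 0 → d z - μ • z ∈ Submodule.span F ({y} : Set V) := by
    intro ψ hψv hψy hψ0
    obtain ⟨z0, hz1, hz2⟩ := ln_ex h4 (ψ.prod 0) y
    have hz0 : ψ z0 = 0 := congrArg Prod.fst hz1
    have hker : ∀ x, ψ x = 0 → ψ (d x) = 0 := by
      intro x hx
      by_contra hne
      have h1 := hone ψ z0 hψv hψy hz0 x
      rw [hx, zero_smul, sub_zero] at h1
      exact hz2 ((Submodule.smul_mem_iff _ hne).mp h1)
    obtain ⟨u, hu⟩ : ∃ u, ψ u ≠ 0 := by
      by_contra hc
      push Not at hc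
      exact hψ0 (LinearMap.ext hc)
    refine ⟨ψ (d u) / ψ u, fun z hz => ?_⟩
    have h1 := hone ψ z hψv hψy hz u
    have h2 := Submodule.smul_mem _ (-(ψ u)⁻¹) h1
    have h3 : (-(ψ u)⁻¹) • (ψ (d u) • z - ψ u • d z) = d z - (ψ (d u) / ψ u) • z := by
      rw [smul_sub, smul_smul, smul_smul, neg_mul, neg_mul, inv_mul_cancel₀ hu, neg_smul, neg_smul,
        div_eq_inv_mul, one_smul]
      abel
    rwa [h3] at h2
  -- two functionals
  obtain ⟨p, hp⟩ : ∃ p, p ∉ Submodule.span F ({v, y} : Set V) := by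
    by_contra hc
    push Not at hc
    have h1 : Submodule.span F ({v, y} : Set V) = ⊤ := by
      rw [eq_top_iff]; intro x _; exact hc x
    have h2 := finrank_span_finset_le_card (R := F) ({v, y} : Finset V)
    rw [Finset.coe_insert, Finset.coe_singleton] at h2
    unfold Set.finrank at h2
    rw [h1, finrank_top] at h2
    have h3 : ({v, y} : Finset V).card ≤ 2 := Finset.card_le_two
    omega
  obtain ⟨q, hq⟩ : ∃ q, q ∉ Submodule.span F (insert p {v, y} : Set V) := by
    by_contra hc
    push Not at hc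
    have h1 : Submodule.span F (insert p {v, y} : Set V) = ⊤ := by
      rw [eq_top_iff]; intro x _; exact hc x
    have h2 := finrank_span_finset_le_card (R := F) (insert p {v, y} : Finset V)
    rw [Finset.coe_insert, Finset.coe_insert, Finset.coe_singleton] at h2
    unfold Set.finrank at h2
    rw [h1, finrank_top] at h2
    have h3 : (insert p {v, y} : Finset V).card ≤ 3 := Finset.card_le_three
    omega
  have hp' : p ∉ Submodule.span F (insert q {v, y} : Set V) := by
    intro h
    exact hq (mem_span_insert_exchange h hp)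
  obtain ⟨ψ, hψp, hψk⟩ := Submodule.exists_le_ker_of_notMem hp'
  obtain ⟨ψ', hψq, hψk'⟩ := Submodule.exists_le_ker_of_notMem hq
  have hψv : ψ v = 0 := hψk (Submodule.subset_span (by simp))
  have hψy : ψ y = 0 := hψk (Submodule.subset_span (by simp))
  have hψv' : ψ' v = 0 := hψk' (Submodule.subset_span (by simp))
  have hψy' : ψ' y = 0 := hψk' (Submodule.subset_span (by simp))
  have hψp' : ψ' p = 0 := hψk' (Submodule.subset_span (by simp))
  obtain ⟨μ, hμ⟩ := heig ψ hψv hψy (by rintro rfl; exact hψp rfl)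
  obtain ⟨μ', hμ'⟩ := heig ψ' hψv' hψy' (by rintro rfl; exact hψq rfl)
  have hμμ : μ = μ' := by
    by_contra hne
    have h1 := hμ v hψv
    have h2 := hμ' v hψv'
    have h3 := Submodule.sub_mem _ h2 h1
    have h5 : d v - μ' • v - (d v - μ • v) = (μ - μ') • v := by
      rw [sub_smul]; abel
    rw [h5] at h3
    exact hvn ((Submodule.smul_mem_iff _ (sub_ne_zero.mpr hne)).mp h3)
  have hall : ∀ x, d x - μ • x ∈ Submodule.span F ({y} : Set V) := by
    intro x
    set c := ψ x / ψ p with hc
    have h1 := hμ (x - c • p) (by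
      rw [map_sub, map_smul, smul_eq_mul, hc, div_mul_cancel₀ _ hψp, sub_self])
    have h2 := hμ' (c • p) (by rw [map_smul, hψp', smul_zero])
    rw [← hμμ] at h2
    have h3 := Submodule.add_mem _ h1 h2
    have h5 : d (x - c • p) - μ • (x - c • p) + (d (c • p) - μ • (c • p)) = d x - μ • x := by
      rw [map_sub, smul_sub]; abel
    rwa [h5] at h3
  -- contradiction with Big
  have hB := hbig μ
  have h1 : Submodule.map e.toLinearMap (LinearMap.range (a - μ • (LinearMap.id : V →ₗ[F] V)))
      ≤ Submodule.span F ({y} : Set V) := by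
    rintro _ ⟨_, ⟨x, rfl⟩, rfl⟩
    have h2 := hall (e x)
    rw [he] at h2
    have h3 : e.toLinearMap ((a - μ • (LinearMap.id : V →ₗ[F] V)) x) = e (a x) - μ • e x := by
      simp
    rw [h3]
    exact h2
  have h2 := Submodule.finrank_mono h1
  have h3 : finrank F (Submodule.map e.toLinearMap
      (LinearMap.range (a - μ • (LinearMap.id : V →ₗ[F] V))))
      = finrank F (LinearMap.range (a - μ • (LinearMap.id : V →ₗ[F] V))) :=
    LinearEquiv.finrank_map_eq e _
  have h5 := ln_span_le (F := F) y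
  omega

end D3
end Pool.Agent.PC

namespace Pool.Agent.PC
namespace D4
open Pool.Agent.PC.D0 (exists_indep_of_not_scal)
open Pool.Agent.PC.D1 (lift_list)
open Pool.Agent.PC.D3 (lemmaN)

open Module Polynomial

theorem pc4_det_Tr {F H : Type} [Field F] [AddCommGroup H] [Module F H] [FiniteDimensional F H]
    (a : F) (χ : H →ₗ[F] F) (D : H →ₗ[F] H) :
    LinearMap.det (Tr a χ D) = a * LinearMap.det D := by
  classical
  obtain ⟨b2⟩ : Nonempty (Module.Basis (Fin (finrank F H)) F H) := ⟨Module.finBasis F H⟩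
  obtain ⟨b1, hb1⟩ : ∃ b1 : Module.Basis Unit F F, b1 = Module.Basis.singleton Unit F := ⟨_, rfl⟩
  rw [← LinearMap.det_toMatrix (b1.prod b2), ← LinearMap.det_toMatrix b2]
  have h : LinearMap.toMatrix (b1.prod b2) (b1.prod b2) (Tr a χ D) =
      Matrix.fromBlocks (Matrix.of fun _ _ => a) (Matrix.of fun _ j => χ (b2 j)) 0
        (LinearMap.toMatrix b2 b2 D) := by
    ext i j
    rcases i with i | i <;> rcases j with j | j <;>
      simp [LinearMap.toMatrix_apply, hb1, Tr]
  rw [h, Matrix.det_fromBlocks_zero₂₁]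
  simp

theorem pc4_Tr_apply {F H : Type} [Field F] [AddCommGroup H] [Module F H]
    (a : F) (χ : H →ₗ[F] F) (D : H →ₗ[F] H) (z : F × H) :
    Tr a χ D z = (a * z.1 + χ z.2, D z.2) := by
  simp [Tr]

theorem pc4_det_sim {F V W : Type} [Field F] [AddCommGroup V] [Module F V] [AddCommGroup W]
    [Module F W] {a : V →ₗ[F] V} {b : W →ₗ[F] W} (h : Sim a b) :
    LinearMap.det b = LinearMap.det a := by
  obtain ⟨e, he⟩ := h
  have hb : b = ((e : V →ₗ[F] W) ∘ₗ a ∘ₗ (e.symm : W →ₗ[F] V)) := by
    ext x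
    simp only [LinearMap.comp_apply, LinearEquiv.coe_coe]
    rw [← he, LinearEquiv.apply_symm_apply]
  rw [hb, LinearMap.det_conj]

theorem pc4_sim_trans {F V W U : Type} [Field F] [AddCommGroup V] [Module F V] [AddCommGroup W]
    [Module F W] [AddCommGroup U] [Module F U] {a : V →ₗ[F] V} {b : W →ₗ[F] W} {c : U →ₗ[F] U}
    (h : Sim a b) (h' : Sim b c) : Sim a c := by
  obtain ⟨e, he⟩ := h
  obtain ⟨e', he'⟩ := h'
  exact ⟨e.trans e', fun x => by simp [he, he']⟩

/-- conjugation -/
def pc4_conj {F V W : Type} [Field F] [AddCommGroup V] [Module F V] [AddCommGroup W] [Module F W]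
    (e : W ≃ₗ[F] V) (f : Module.End F W) : Module.End F V :=
  (e : W →ₗ[F] V) ∘ₗ f ∘ₗ (e.symm : V →ₗ[F] W)

theorem pc4_conj_apply {F V W : Type} [Field F] [AddCommGroup V] [Module F V] [AddCommGroup W]
    [Module F W] (e : W ≃ₗ[F] V) (f : Module.End F W) (x : V) :
    pc4_conj e f x = e (f (e.symm x)) := rfl

theorem pc4_conj_prod {F V W : Type} [Field F] [AddCommGroup V] [Module F V] [AddCommGroup W]
    [Module F W] (e : W ≃ₗ[F] V) (l : List (Module.End F W)) :
    (l.map (pc4_conj e)).prod = pc4_conj e l.prod := by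
  induction l with
  | nil =>
    ext x
    simp [pc4_conj_apply]
  | cons d l ih =>
    rw [List.map_cons, List.prod_cons, List.prod_cons, ih]
    ext x
    simp [pc4_conj_apply, Module.End.mul_apply]

theorem pc4_forall₂ {A B : Type} {R : A → B → Prop} {l : List A} {m : List B}
    (h : List.Forall₂ R l m) : (∀ d ∈ m, ∃ c ∈ l, R c d) ∧ (∀ c ∈ l, ∃ d ∈ m, R c d) := by
  induction h with
  | nil => simp
  | cons h1 h2 ih =>
    constructor
    · intro d hd
      rcases List.mem_cons.1 hd with rfl | hd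
      · exact ⟨_, List.mem_cons_self, h1⟩
      · obtain ⟨c, hc, hR⟩ := ih.1 d hd
        exact ⟨c, List.mem_cons_of_mem _ hc, hR⟩
    · intro c hc
      rcases List.mem_cons.1 hc with rfl | hc
      · exact ⟨_, List.mem_cons_self, h1⟩
      · obtain ⟨d, hd, hR⟩ := ih.2 c hc
        exact ⟨d, List.mem_cons_of_mem _ hd, hR⟩

theorem pc4_split {F V : Type} [Field F] [AddCommGroup V] [Module F V] [FiniteDimensional F V]
    (n : ℕ) (hn : finrank F V = n + 1) (v : V) (hv : v ≠ 0) :
    ∃ e : (F × (Fin n → F)) ≃ₗ[F] V, e (1, 0) = v := by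
  obtain ⟨W, hW⟩ := Submodule.exists_isCompl (Submodule.span F {v})
  have h1 := Submodule.finrank_add_eq_of_isCompl hW
  rw [finrank_span_singleton hv, hn] at h1
  have h2 : finrank F (Fin n → F) = finrank F W := by
    rw [Module.finrank_fin_fun]; omega
  have e2 : (Fin n → F) ≃ₗ[F] W := LinearEquiv.ofFinrankEq _ _ h2
  refine ⟨((LinearEquiv.toSpanNonzeroSingleton F V v hv).prodCongr e2).trans
    (Submodule.prodEquivOfIsCompl _ _ hW), ?_⟩
  simp only [LinearEquiv.trans_apply, LinearEquiv.prodCongr_apply, map_zero,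
    Submodule.coe_prodEquivOfIsCompl', LinearEquiv.toSpanNonzeroSingleton_one,
    ZeroMemClass.coe_zero, add_zero]

/-- the induction step -/
theorem step_one {F V : Type} [Field F] [AddCommGroup V] [Module F V] [FiniteDimensional F V]
    (n : ℕ) (h3 : 3 ≤ n) (hn : finrank F V = n + 1)
    (ih : ∀ (c d : Module.End F (Fin n → F)), LinearMap.det c ≠ 0 → Big c → ¬ Scal d →
      LinearMap.det d = LinearMap.det c ^ n → RepN c d n)
    (al be : Module.End F V) (hal : LinearMap.det al ≠ 0) (hbig : Big al)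
    (a : F) (χ0 : (Fin n → F) →ₗ[F] F) (at' : Module.End F (Fin n → F))
    (hsim : Sim al (Tr a χ0 at')) (hbig' : Big at') (hbs : ¬ Scal be)
    (hdet : LinearMap.det be = LinearMap.det al ^ (n + 1)) : RepN al be (n + 1) := by
  have hdal : LinearMap.det al = a * LinearMap.det at' := by
    rw [← pc4_det_sim hsim, pc4_det_Tr]
  have ha : a ≠ 0 := by
    rintro rfl
    rw [zero_mul] at hdal
    exact hal hdal
  have hat : LinearMap.det at' ≠ 0 := by
    intro h
    rw [h, mul_zero] at hdal
    exact hal hdal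
  obtain ⟨v, hv⟩ := exists_indep_of_not_scal be hbs
  rw [LinearIndependent.pair_iff] at hv
  have hvne : v ≠ 0 := by
    rintro rfl
    have := (hv 1 0 (by simp)).1
    exact one_ne_zero this
  obtain ⟨c, hc⟩ : ∃ c, c = a ^ n := ⟨_, rfl⟩
  have hc0 : c ≠ 0 := by rw [hc]; exact pow_ne_zero n ha
  obtain ⟨y, hy⟩ : ∃ y, y = c⁻¹ • be v := ⟨_, rfl⟩
  have hbev : be v = c • y := by rw [hy, smul_smul, mul_inv_cancel₀ hc0, one_smul]
  have hvy : LinearIndependent F ![v, y] := by
    rw [LinearIndependent.pair_iff]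
    intro s t hst
    rw [hy, smul_smul] at hst
    obtain ⟨h1, h2⟩ := hv _ _ hst
    exact ⟨h1, (mul_eq_zero.1 h2).resolve_right (inv_ne_zero hc0)⟩
  have hdbe : LinearMap.det be ≠ 0 := by rw [hdet]; exact pow_ne_zero _ hal
  obtain ⟨d1, hd1s, hd1v, hd1n⟩ := lemmaN (by omega) al be hal hbig hdbe v y hvy
  rw [LinearIndependent.pair_iff] at hvy
  have hdd1 : LinearMap.det d1 = LinearMap.det al := pc4_det_sim hd1s
  obtain ⟨d1e, hd1e⟩ : ∃ d1e : V ≃ₗ[F] V, ∀ x, d1e x = d1 x :=
    ⟨LinearMap.equivOfDetNeZero d1 (by rw [hdd1]; exact hal), fun x => rfl⟩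
  obtain ⟨b', hb'⟩ : ∃ b' : Module.End F V, b' = (d1e.symm : V →ₗ[F] V) ∘ₗ be := ⟨_, rfl⟩
  have hb'1 : ∀ x, d1 (b' x) = be x := by
    intro x
    rw [hb', ← hd1e]
    simp
  have hmul : d1 * b' = be := by
    ext x
    rw [Module.End.mul_apply, hb'1]
  have hb'v : b' v = c • v := by
    apply d1e.injective
    rw [hd1e, hb'1, map_smul, hd1e, hd1v, hbev]
  obtain ⟨e, he⟩ := pc4_split n hn v hvne
  obtain ⟨B, hB⟩ : ∃ B : Module.End F (F × (Fin n → F)), B = pc4_conj e.symm b' := ⟨_, rfl⟩
  have hBapp : ∀ z, B z = e.symm (b' (e z)) := by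
    intro z
    rw [hB, pc4_conj_apply]
    simp
  have hB10 : B (1, 0) = (c, 0) := by
    rw [hBapp, he, hb'v, map_smul, ← he, LinearEquiv.symm_apply_apply]
    simp
  obtain ⟨χ, hχ⟩ : ∃ χ : (Fin n → F) →ₗ[F] F,
      χ = LinearMap.fst F F (Fin n → F) ∘ₗ B ∘ₗ LinearMap.inr F F (Fin n → F) := ⟨_, rfl⟩
  obtain ⟨γ, hγ⟩ : ∃ γ : Module.End F (Fin n → F),
      γ = LinearMap.snd F F (Fin n → F) ∘ₗ B ∘ₗ LinearMap.inr F F (Fin n → F) := ⟨_, rfl⟩
  have hBTr : B = Tr c χ γ := by
    refine LinearMap.ext fun z => ?_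
    obtain ⟨s, h⟩ := z
    rw [pc4_Tr_apply, hχ, hγ]
    have e1 : ((s, h) : F × (Fin n → F)) = s • ((1, 0) : F × (Fin n → F)) + (0, h) := by
      ext1 <;> simp
    have e2 : B (s, h) = s • B (1, 0) + B (0, h) := by
      conv_lhs => rw [e1]
      rw [map_add, map_smul]
    rw [e2, hB10]
    ext1
    · simp [mul_comm]
    · simp
  have hγns : ¬ Scal γ := by
    rintro ⟨s, hs⟩
    apply hd1n
    refine ⟨s, fun x => ?_⟩
    have h1 : e.symm (b' x - s • x) = (B (e.symm x)).1 • ((1, 0) : F × (Fin n → F)) -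
        (s * (e.symm x).1) • ((1, 0) : F × (Fin n → F)) := by
      rw [map_sub, map_smul]
      have h2 : e.symm (b' x) = B (e.symm x) := by rw [hBapp]; simp
      rw [h2]
      have h3 : (B (e.symm x)).2 = s • (e.symm x).2 := by
        rw [hBTr, pc4_Tr_apply]
        exact hs _
      ext1
      · simp
      · simp [h3]
    rw [← sub_smul] at h1
    have h4 : b' x - s • x = ((B (e.symm x)).1 - s * (e.symm x).1) • v := by
      have h5 := congrArg e h1
      rwa [LinearEquiv.apply_symm_apply, map_smul, he] at h5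
    have h6 := congrArg d1 h4
    rw [map_sub, map_smul, map_smul, hb'1, hd1v] at h6
    rw [h6]
    exact Submodule.smul_mem _ _ (Submodule.mem_span_singleton_self y)
  have hdetγ : LinearMap.det γ = LinearMap.det at' ^ n := by
    have h1 : LinearMap.det be = LinearMap.det d1 * LinearMap.det b' := by
      rw [← hmul, map_mul]
    have h2 : LinearMap.det B = LinearMap.det b' :=
      pc4_det_sim ⟨e.symm, fun x => by rw [hBapp, LinearEquiv.apply_symm_apply]⟩
    rw [hBTr, pc4_det_Tr] at h2
    rw [hdet, hdd1, ← h2, pow_succ, mul_comm (LinearMap.det al ^ n)] at h1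
    have h3 := mul_left_cancel₀ hal h1
    rw [hdal, mul_pow, ← hc] at h3
    exact (mul_left_cancel₀ hc0 h3).symm
  obtain ⟨ds, hlen, hdsim, hdprod, hdcom⟩ := ih at' γ hat hbig' hγns hdetγ
  obtain ⟨l, hl2, hlprod⟩ := lift_list al a ha χ0 at' hsim ds hdsim (hdcom a) χ
  obtain ⟨hR1, hR2⟩ := pc4_forall₂ hl2
  rw [hlen, hdprod, ← hc, ← hBTr] at hlprod
  refine ⟨d1 :: l.map (pc4_conj e), ?_, ?_, ?_, ?_⟩
  · rw [List.length_cons, List.length_map, hl2.length_eq, hlen]
  · intro d hd
    rcases List.mem_cons.1 hd with rfl | hd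
    · exact hd1s
    · obtain ⟨δ, hδ, rfl⟩ := List.mem_map.1 hd
      obtain ⟨d', _, hδs, _⟩ := hR2 δ hδ
      exact pc4_sim_trans hδs ⟨e, fun x => by rw [pc4_conj_apply, LinearEquiv.symm_apply_apply]⟩
  · rw [List.prod_cons, pc4_conj_prod, hlprod, ← hmul]
    congr 1
    refine LinearMap.ext fun x => ?_
    rw [pc4_conj_apply, hBapp, LinearEquiv.apply_symm_apply, LinearEquiv.apply_symm_apply]
  · intro k x hx
    have hx1 := hx d1 List.mem_cons_self
    have hx2 : ∀ δ ∈ l, δ (e.symm x) = k • e.symm x := by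
      intro δ hδ
      have h1 := hx (pc4_conj e δ) (List.mem_cons_of_mem _ (List.mem_map_of_mem hδ))
      rw [pc4_conj_apply] at h1
      apply e.injective
      rw [h1, map_smul, LinearEquiv.apply_symm_apply]
    have hx3 : (e.symm x).2 = 0 := by
      apply hdcom k
      intro d hd
      obtain ⟨δ, hδ, _, χ', hδe⟩ := hR1 d hd
      have h1 := congrArg Prod.snd (hx2 δ hδ)
      rw [hδe, pc4_Tr_apply] at h1
      exact h1
    have hx4 : x = (e.symm x).1 • v := by
      rw [← he, ← map_smul]
      apply e.symm.injective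
      rw [LinearEquiv.symm_apply_apply]
      ext1
      · simp
      · simp [hx3]
    obtain ⟨s, hs⟩ : ∃ s, s = (e.symm x).1 := ⟨_, rfl⟩
    rw [← hs] at hx4
    rw [hx4, map_smul, hd1v, smul_smul] at hx1
    have h1 : (-(k * s)) • v + s • y = 0 := by
      rw [hx1, neg_smul, neg_add_cancel]
    have h2 := (hvy _ _ h1).2
    rw [hx4, h2, zero_smul]

end D4
end Pool.Agent.PC
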