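import Pool.Agent.MP485c8a.Defs

set_option autoImplicit false

namespace Pool.Agent.PC
namespace D2

open Module Polynomial

theorem stepA {F V : Type} [Field F] [AddCommGroup V] [Module F V] [FiniteDimensional F V]
    (n : ℕ) (hn : finrank F V = n + 1) (al : Module.End F V) (a : F) (w : V) (hw : w ≠ 0)
    (haw : al w = a • w)
    (h : ∀ μ : F, 3 ≤ finrank F (LinearMap.range (al - μ • (LinearMap.id : V →ₗ[F] V))) ∨
      (2 ≤ finrank F (LinearMap.range (al - μ • (LinearMap.id : V →ₗ[F] V))) ∧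
        w ∉ LinearMap.range (al - μ • (LinearMap.id : V →ₗ[F] V)))) :
    ∃ (a : F) (χ : (Fin n → F) →ₗ[F] F) (at' : Module.End F (Fin n → F)),
      Sim al (Tr a χ at') ∧ Big at' := by
  obtain ⟨φ, hφ⟩ : ∃ φ : V →ₗ[F] F, φ w = 1 := by
    have h1 : ¬ ∀ φ : Module.Dual F V, φ w = 0 := fun h => hw ((Module.forall_dual_apply_eq_zero_iff F w).1 h)
    push Not at h1
    obtain ⟨ψ, hψ⟩ := h1
    refine ⟨(ψ w)⁻¹ • ψ, ?_⟩
    rw [LinearMap.smul_apply, smul_eq_mul, inv_mul_cancel₀ hψ]
  have hker : finrank F (LinearMap.ker φ) = n := by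
    have h1 := LinearMap.finrank_range_add_finrank_ker φ
    have h2 : LinearMap.range φ = ⊤ := by
      rw [LinearMap.range_eq_top]
      intro c
      refine ⟨c • w, ?_⟩
      rw [map_smul, hφ, smul_eq_mul, mul_one]
    rw [h2, finrank_top, finrank_self, hn] at h1
    omega
  have e2 : (Fin n → F) ≃ₗ[F] LinearMap.ker φ :=
    LinearEquiv.ofFinrankEq _ _ (by rw [hker, Module.finrank_fin_fun])
  obtain ⟨f, hf⟩ : ∃ f : (F × (Fin n → F)) →ₗ[F] V, ∀ c h, f (c, h) = c • w + (e2 h : V) := by
    refine ⟨LinearMap.coprod (LinearMap.toSpanSingleton F V w)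
      ((LinearMap.ker φ).subtype ∘ₗ e2.toLinearMap), ?_⟩
    intro c h
    simp
  have hfi : Function.Injective f := by
    rw [← LinearMap.ker_eq_bot, LinearMap.ker_eq_bot']
    rintro ⟨c, h⟩ hch
    rw [hf] at hch
    have h1 := congrArg φ hch
    have h2 : φ (e2 h : V) = 0 := (e2 h).2
    rw [map_add, map_smul, hφ, h2, map_zero, smul_eq_mul, mul_one, add_zero] at h1
    rw [h1, zero_smul, zero_add] at hch
    have h3 : e2 h = 0 := Subtype.ext hch
    have h4 : h = 0 := e2.map_eq_zero_iff.1 h3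
    rw [h1, h4]
    rfl
  have hdim : finrank F (F × (Fin n → F)) = finrank F V := by
    rw [finrank_prod, finrank_self, Module.finrank_fin_fun, hn, add_comm]
  obtain ⟨e, he⟩ : ∃ e : V ≃ₗ[F] (F × (Fin n → F)), ∀ c h, e.symm (c, h) = f (c, h) := by
    refine ⟨(f.linearEquivOfInjective hfi hdim).symm, ?_⟩
    intro c h
    rfl
  have hew : e w = (1, 0) := by
    rw [← LinearEquiv.eq_symm_apply, he, hf]
    simp
  have hx : ∀ x : V, x = (e x).1 • w + e.symm (0, (e x).2) := by
    intro x
    apply e.injective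
    rw [map_add, map_smul, hew, LinearEquiv.apply_symm_apply]
    ext1 <;> simp
  obtain ⟨χ, hχ⟩ : ∃ χ : (Fin n → F) →ₗ[F] F, ∀ h, χ h = (e (al (e.symm (0, h)))).1 :=
    ⟨LinearMap.fst F F (Fin n → F) ∘ₗ e.toLinearMap ∘ₗ al ∘ₗ e.symm.toLinearMap ∘ₗ
      LinearMap.inr F F (Fin n → F), fun h => rfl⟩
  obtain ⟨at', hat⟩ : ∃ at' : (Fin n → F) →ₗ[F] (Fin n → F), ∀ h, at' h = (e (al (e.symm (0, h)))).2 :=
    ⟨LinearMap.snd F F (Fin n → F) ∘ₗ e.toLinearMap ∘ₗ al ∘ₗ e.symm.toLinearMap ∘ₗ
      LinearMap.inr F F (Fin n → F), fun h => rfl⟩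
  have hsim : ∀ x, Tr a χ at' (e x) = e (al x) := by
    intro x
    have h1 : al x = ((e x).1 * a) • w + al (e.symm (0, (e x).2)) := by
      conv_lhs => rw [hx x]
      rw [map_add, map_smul, haw, smul_smul]
    rw [h1, map_add, map_smul, hew]
    refine Prod.ext ?_ ?_
    · show a • (e x).1 + χ (e x).2 = (e x).1 * a * 1 + (e (al (e.symm (0, (e x).2)))).1
      rw [hχ, smul_eq_mul]
      ring
    · show at' (e x).2 = ((e x).1 * a) • (0 : Fin n → F) + (e (al (e.symm (0, (e x).2)))).2
      rw [hat, smul_zero, zero_add]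
  refine ⟨a, χ, at', ⟨e, hsim⟩, ?_⟩
  obtain ⟨π, hπ⟩ : ∃ π : V →ₗ[F] (Fin n → F), ∀ x, π x = (e x).2 :=
    ⟨LinearMap.snd F F (Fin n → F) ∘ₗ e.toLinearMap, fun x => rfl⟩
  have hπs : Function.Surjective π := by
    intro h
    refine ⟨e.symm (0, h), ?_⟩
    rw [hπ, LinearEquiv.apply_symm_apply]
  have hπa : ∀ x, at' (π x) = π (al x) := by
    intro x
    rw [hπ, hπ, ← hsim x]
    rfl
  have hπk : ∀ x, π x = 0 → x = (e x).1 • w := by
    intro x h0
    rw [hπ] at h0
    conv_lhs => rw [hx x]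
    rw [h0]
    simp
  intro μ
  obtain ⟨R, hR⟩ : ∃ R : Submodule F V, R = LinearMap.range (al - μ • (LinearMap.id : V →ₗ[F] V)) :=
    ⟨_, rfl⟩
  have hrange : LinearMap.range (at' - μ • (LinearMap.id : (Fin n → F) →ₗ[F] (Fin n → F))) =
      LinearMap.range (π.domRestrict R) := by
    rw [LinearMap.range_domRestrict, hR]
    ext y
    constructor
    · rintro ⟨h, rfl⟩
      obtain ⟨x, rfl⟩ := hπs h
      refine ⟨(al - μ • (LinearMap.id : V →ₗ[F] V)) x, ⟨x, rfl⟩, ?_⟩
      simp only [LinearMap.sub_apply, LinearMap.smul_apply, LinearMap.id_apply, map_sub, map_smul,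
        hπa]
    · rintro ⟨_, ⟨x, rfl⟩, rfl⟩
      refine ⟨π x, ?_⟩
      simp only [LinearMap.sub_apply, LinearMap.smul_apply, LinearMap.id_apply, map_sub, map_smul,
        hπa]
  rw [hrange]
  have hdim2 := LinearMap.finrank_range_add_finrank_ker (π.domRestrict R)
  have hk1 : finrank F (LinearMap.ker (π.domRestrict R)) ≤ 1 := by
    have h1 : finrank F F = 1 := finrank_self F
    rw [← h1]
    refine LinearMap.finrank_le_finrank_of_injective
      (f := (LinearMap.fst F F (Fin n → F) ∘ₗ e.toLinearMap ∘ₗ R.subtype) ∘ₗ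
        (LinearMap.ker (π.domRestrict R)).subtype) ?_
    rw [← LinearMap.ker_eq_bot, LinearMap.ker_eq_bot']
    rintro ⟨⟨x, hxR⟩, hxk⟩ hx0
    have h2 : π x = 0 := hxk
    have h3 : (e x).1 = 0 := hx0
    have h4 := hπk x h2
    rw [h3, zero_smul] at h4
    apply Subtype.ext
    apply Subtype.ext
    exact h4
  rcases h μ with h3 | ⟨h2, hwR⟩
  · rw [← hR] at h3
    omega
  · rw [← hR] at h2 hwR
    have hk0 : LinearMap.ker (π.domRestrict R) = ⊥ := by
      rw [LinearMap.ker_eq_bot']
      rintro ⟨x, hxR⟩ hxk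
      have h5 : π x = 0 := hxk
      have h4 := hπk x h5
      by_cases hc : (e x).1 = 0
      · rw [hc, zero_smul] at h4
        exact Subtype.ext h4
      · exfalso
        apply hwR
        have h6 : w = ((e x).1)⁻¹ • x := by
          conv_rhs => rw [h4]
          rw [smul_smul]
          have h7 : (e ((e x).1 • w)).1 = (e x).1 := by rw [← h4]
          rw [h7, inv_mul_cancel₀ hc, one_smul]
        rw [h6]
        exact R.smul_mem _ hxR
    rw [hk0, finrank_bot, add_zero] at hdim2
    omega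

theorem sim_excM {F V : Type} [Field F] [AddCommGroup V] [Module F V] [FiniteDimensional F V]
    (hn : finrank F V = 4) (al : Module.End F V) (t d : F) (u1 u2 : V)
    (h1 : al (al u1) = t • al u1 - d • u1) (h2 : al (al u2) = t • al u2 - d • u2)
    (hli : ∀ c0 c1 c2 c3 : F, c0 • u1 + c1 • al u1 + c2 • u2 + c3 • al u2 = 0 →
      c0 = 0 ∧ c1 = 0 ∧ c2 = 0 ∧ c3 = 0) : Sim al (excM F t d) := by
  have hLI : LinearIndependent F ![u1, al u1, u2, al u2] := by
    rw [Fintype.linearIndependent_iff]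
    intro g hg
    rw [Fin.sum_univ_four] at hg
    have h3 := hli (g 0) (g 1) (g 2) (g 3) hg
    intro i
    fin_cases i
    · exact h3.1
    · exact h3.2.1
    · exact h3.2.2.1
    · exact h3.2.2.2
  obtain ⟨b, hb⟩ : ∃ b : Basis (Fin 4) F V, ⇑b = ![u1, al u1, u2, al u2] :=
    ⟨basisOfLinearIndependentOfCardEqFinrank hLI (by rw [hn, Fintype.card_fin]),
      coe_basisOfLinearIndependentOfCardEqFinrank hLI (by rw [hn, Fintype.card_fin])⟩
  have b0 : b 0 = u1 := by rw [hb]; rfl
  have b1 : b 1 = al u1 := by rw [hb]; rfl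
  have b2 : b 2 = u2 := by rw [hb]; rfl
  have b3 : b 3 = al u2 := by rw [hb]; rfl
  refine ⟨b.equivFun, ?_⟩
  have hlin : (excM F t d) ∘ₗ b.equivFun.toLinearMap = b.equivFun.toLinearMap ∘ₗ al := by
    apply b.ext
    intro i
    simp only [LinearMap.comp_apply, LinearEquiv.coe_coe]
    have key : ∀ k : Fin 4, b.equivFun (b k) = Pi.single k 1 := by
      intro k
      funext j
      rw [Basis.equivFun_self, Pi.single_apply]
      simp only [eq_comm]
    rw [key]
    unfold excM
    rw [Matrix.toLin'_apply]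
    fin_cases i
    · have e1 : al (b 0) = b 1 := by rw [b0, b1]
      show _ = b.equivFun (al (b 0))
      rw [e1, key]
      funext j
      fin_cases j <;> simp [Matrix.mulVec, dotProduct, Fin.sum_univ_four, Pi.single_apply]
    · have e1 : al (b 1) = t • b 1 - d • b 0 := by rw [b0, b1, h1]
      show _ = b.equivFun (al (b 1))
      rw [e1, map_sub, map_smul, map_smul, key, key]
      funext j
      fin_cases j <;> simp [Matrix.mulVec, dotProduct, Fin.sum_univ_four, Pi.single_apply]
    · have e1 : al (b 2) = b 3 := by rw [b2, b3]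
      show _ = b.equivFun (al (b 2))
      rw [e1, key]
      funext j
      fin_cases j <;> simp [Matrix.mulVec, dotProduct, Fin.sum_univ_four, Pi.single_apply]
    · have e1 : al (b 3) = t • b 3 - d • b 2 := by rw [b2, b3, h2]
      show _ = b.equivFun (al (b 3))
      rw [e1, map_sub, map_smul, map_smul, key, key]
      funext j
      fin_cases j <;> simp [Matrix.mulVec, dotProduct, Fin.sum_univ_four, Pi.single_apply]
  intro x
  exact LinearMap.congr_fun hlin x

theorem exists_pair {F V : Type} [Field F] [AddCommGroup V] [Module F V] [FiniteDimensional F V]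
    (K : Submodule F V) (hK : finrank F K = 2) : ∃ p1 ∈ K, ∃ p2 ∈ K, ∀ s t : F,
      s • p1 + t • p2 = 0 → s = 0 ∧ t = 0 := by
  have b := Module.finBasisOfFinrankEq F K hK
  refine ⟨b 0, (b 0).2, b 1, (b 1).2, ?_⟩
  intro s t h
  have h1 := Fintype.linearIndependent_iff.1 b.linearIndependent ![s, t] (by
    rw [Fin.sum_univ_two]
    apply Subtype.ext
    simpa using h)
  exact ⟨h1 0, h1 1⟩

/-- Lemma T: a `Big` map with an eigenvector has an eigenvector with `Big` quotient, unless it is
`C' ⊕ C'` in dimension 4. -/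
theorem exists_big_quotient {F V : Type} [Field F] [AddCommGroup V] [Module F V]
    [FiniteDimensional F V] (n : ℕ) (h3 : 3 ≤ n) (hn : finrank F V = n + 1)
    (al : Module.End F V) (hal : LinearMap.det al ≠ 0) (hbig : Big al)
    (hev : ∃ (a : F) (w : V), w ≠ 0 ∧ al w = a • w)
    (hexc : ¬ ∃ t d : F, Sim al (excM F t d)) :
    ∃ (a : F) (χ : (Fin n → F) →ₗ[F] F) (at' : Module.End F (Fin n → F)),
      Sim al (Tr a χ at') ∧ Big at' := by
  have hdim : ∀ μ : F, finrank F (LinearMap.range (al - μ • (LinearMap.id : V →ₗ[F] V))) +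
      finrank F (LinearMap.ker (al - μ • (LinearMap.id : V →ₗ[F] V))) = n + 1 := by
    intro μ
    rw [LinearMap.finrank_range_add_finrank_ker, hn]
  have hmemk : ∀ (μ : F) (x : V), x ∈ LinearMap.ker (al - μ • (LinearMap.id : V →ₗ[F] V)) ↔
      al x = μ • x := by
    intro μ x
    rw [LinearMap.mem_ker, LinearMap.sub_apply, LinearMap.smul_apply, LinearMap.id_apply,
      sub_eq_zero]
  by_cases hall : ∀ μ : F, 3 ≤ finrank F (LinearMap.range (al - μ • (LinearMap.id : V →ₗ[F] V)))
  · obtain ⟨a, w, hw, haw⟩ := hev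
    exact stepA n hn al a w hw haw fun μ => Or.inl (hall μ)
  push Not at hall
  obtain ⟨μ0, hμ0⟩ := hall
  have hr2 : finrank F (LinearMap.range (al - μ0 • (LinearMap.id : V →ₗ[F] V))) = 2 := by
    have := hbig μ0
    omega
  have hk0 := hdim μ0
  rw [hr2] at hk0
  -- main sub-case: there is an eigenvector outside the range and all other ranks are at least 3
  have hmain : (∀ μ : F, μ ≠ μ0 →
      3 ≤ finrank F (LinearMap.range (al - μ • (LinearMap.id : V →ₗ[F] V)))) →
      ¬ (LinearMap.ker (al - μ0 • (LinearMap.id : V →ₗ[F] V)) ≤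
        LinearMap.range (al - μ0 • (LinearMap.id : V →ₗ[F] V))) →
      ∃ (a : F) (χ : (Fin n → F) →ₗ[F] F) (at' : Module.End F (Fin n → F)),
        Sim al (Tr a χ at') ∧ Big at' := by
    intro h1 h2
    obtain ⟨w, hwK, hwR⟩ := Set.not_subset.1 h2
    have hw : w ≠ 0 := by
      rintro rfl
      exact hwR (zero_mem _)
    refine stepA n hn al μ0 w hw ((hmemk μ0 w).1 hwK) ?_
    intro μ
    by_cases hμ : μ = μ0
    · subst hμ
      exact Or.inr ⟨hbig μ, hwR⟩
    · exact Or.inl (h1 μ hμ)
  have hKle : ∀ μ : F, μ ≠ μ0 → LinearMap.ker (al - μ0 • (LinearMap.id : V →ₗ[F] V)) ≤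
      LinearMap.range (al - μ • (LinearMap.id : V →ₗ[F] V)) := by
    intro μ hμ x hx
    rw [hmemk] at hx
    refine ⟨(μ0 - μ)⁻¹ • x, ?_⟩
    have h1 : μ0 - μ ≠ 0 := sub_ne_zero.2 (Ne.symm hμ)
    rw [LinearMap.sub_apply, LinearMap.smul_apply, LinearMap.id_apply, map_smul, hx,
      smul_comm μ, ← smul_sub, ← sub_smul, smul_smul, inv_mul_cancel₀ h1, one_smul]
  by_cases h4 : 4 ≤ n
  · apply hmain
    · intro μ hμ
      have h1 := Submodule.finrank_mono (hKle μ hμ)
      omega
    · intro hle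
      have h1 := Submodule.finrank_mono hle
      omega
  have hn3 : n = 3 := by omega
  subst hn3
  have hkk : finrank F (LinearMap.ker (al - μ0 • (LinearMap.id : V →ₗ[F] V))) = 2 := by omega
  by_cases hle : LinearMap.ker (al - μ0 • (LinearMap.id : V →ₗ[F] V)) ≤
      LinearMap.range (al - μ0 • (LinearMap.id : V →ₗ[F] V))
  · -- kernel = range
    exfalso
    have heq : LinearMap.ker (al - μ0 • (LinearMap.id : V →ₗ[F] V)) =
        LinearMap.range (al - μ0 • (LinearMap.id : V →ₗ[F] V)) :=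
      Submodule.eq_of_le_of_finrank_eq hle (by rw [hkk, hr2])
    obtain ⟨y1, hy1, y2, hy2, hy⟩ := exists_pair _ hr2
    have hk1 : al y1 = μ0 • y1 := (hmemk _ _).1 (heq ▸ hy1)
    have hk2 : al y2 = μ0 • y2 := (hmemk _ _).1 (heq ▸ hy2)
    obtain ⟨x1, hx1⟩ := hy1
    obtain ⟨x2, hx2⟩ := hy2
    rw [LinearMap.sub_apply, LinearMap.smul_apply, LinearMap.id_apply] at hx1 hx2
    have hal1 : al x1 = y1 + μ0 • x1 := by rw [← hx1]; abel
    have hal2 : al x2 = y2 + μ0 • x2 := by rw [← hx2]; abel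
    apply hexc
    refine ⟨2 * μ0, μ0 ^ 2, sim_excM hn al _ _ x1 x2 ?_ ?_ ?_⟩
    · rw [hal1, map_add, map_smul, hk1, hal1]
      module
    · rw [hal2, map_add, map_smul, hk2, hal2]
      module
    · intro c0 c1 c2 c3 hc
      have hc' := congrArg al hc
      simp only [map_add, map_smul, map_zero, hal1, hal2, hk1, hk2] at hc'
      rw [hal1, hal2] at hc
      have e1 : (c0 + c1 * μ0) • y1 + (c2 + c3 * μ0) • y2 = 0 := by
        have e2 : (c0 + c1 * μ0) • y1 + (c2 + c3 * μ0) • y2 =
            (c0 • (y1 + μ0 • x1) + c1 • (μ0 • y1 + μ0 • (y1 + μ0 • x1)) + c2 • (y2 + μ0 • x2) +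
              c3 • (μ0 • y2 + μ0 • (y2 + μ0 • x2))) -
            μ0 • (c0 • x1 + c1 • (y1 + μ0 • x1) + c2 • x2 + c3 • (y2 + μ0 • x2)) := by
          module
        rw [e2, hc', hc, smul_zero, sub_zero]
      obtain ⟨f1, f2⟩ := hy _ _ e1
      have e3 : c1 • y1 + c3 • y2 = 0 := by
        have e4 : c1 • y1 + c3 • y2 =
            (c0 • x1 + c1 • (y1 + μ0 • x1) + c2 • x2 + c3 • (y2 + μ0 • x2)) -
            ((c0 + c1 * μ0) • x1 + (c2 + c3 * μ0) • x2) := by
          module
        rw [e4, hc, f1, f2, zero_smul, zero_smul, add_zero, sub_zero]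
      obtain ⟨g1, g2⟩ := hy _ _ e3
      rw [g1, zero_mul, add_zero] at f1
      rw [g2, zero_mul, add_zero] at f2
      exact ⟨f1, g1, f2, g2⟩
  · by_cases h3' : ∀ μ : F, μ ≠ μ0 →
      3 ≤ finrank F (LinearMap.range (al - μ • (LinearMap.id : V →ₗ[F] V)))
    · exact hmain h3' hle
    · exfalso
      push Not at h3'
      obtain ⟨μ1, hμ1, hr1⟩ := h3'
      have hr1' := hbig μ1
      have hk1 := hdim μ1
      have hkk1 : finrank F (LinearMap.ker (al - μ1 • (LinearMap.id : V →ₗ[F] V))) = 2 := by omega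
      obtain ⟨p1, hp1, p2, hp2, hp⟩ := exists_pair _ hkk
      obtain ⟨q1, hq1, q2, hq2, hq⟩ := exists_pair _ hkk1
      rw [hmemk] at hp1 hp2 hq1 hq2
      apply hexc
      refine ⟨μ0 + μ1, μ0 * μ1, sim_excM hn al _ _ (p1 + q1) (p2 + q2) ?_ ?_ ?_⟩
      · simp only [map_add, map_smul, hp1, hq1]
        module
      · simp only [map_add, map_smul, hp2, hq2]
        module
      · intro c0 c1 c2 c3 hc
        simp only [map_add, map_smul, hp1, hq1, hp2, hq2] at hc
        obtain ⟨P, hP⟩ : ∃ P : V, P = (c0 + c1 * μ0) • p1 + (c2 + c3 * μ0) • p2 := ⟨_, rfl⟩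
        obtain ⟨Q, hQ⟩ : ∃ Q : V, Q = (c0 + c1 * μ1) • q1 + (c2 + c3 * μ1) • q2 := ⟨_, rfl⟩
        have hPQ : P + Q = 0 := by
          rw [hP, hQ, ← hc]
          module
        have haP : al P = μ0 • P := by
          rw [hP, map_add, map_smul, map_smul, hp1, hp2]
          module
        have haQ : al Q = μ1 • Q := by
          rw [hQ, map_add, map_smul, map_smul, hq1, hq2]
          module
        have hQP : Q = -P := by rw [eq_neg_iff_add_eq_zero, add_comm]; exact hPQ
        have hP0 : P = 0 := by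
          rw [hQP, map_neg, haP, smul_neg, neg_inj] at haQ
          have e5 : (μ0 - μ1) • P = 0 := by rw [sub_smul, haQ, sub_self]
          rcases smul_eq_zero.1 e5 with h | h
          · exact absurd (sub_eq_zero.1 h).symm hμ1
          · exact h
        have hQ0 : Q = 0 := by rw [hQP, hP0, neg_zero]
        rw [hP0] at hP
        rw [hQ0] at hQ
        obtain ⟨f1, f2⟩ := hp _ _ hP.symm
        obtain ⟨g1, g2⟩ := hq _ _ hQ.symm
        have hne : μ0 - μ1 ≠ 0 := sub_ne_zero.2 (Ne.symm hμ1)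
        have e6 : c1 * (μ0 - μ1) = 0 := by linear_combination f1 - g1
        have e7 : c3 * (μ0 - μ1) = 0 := by linear_combination f2 - g2
        have e8 : c1 = 0 := by
          rcases mul_eq_zero.1 e6 with h | h
          · exact h
          · exact absurd h hne
        have e9 : c3 = 0 := by
          rcases mul_eq_zero.1 e7 with h | h
          · exact h
          · exact absurd h hne
        rw [e8, zero_mul, add_zero] at f1
        rw [e9, zero_mul, add_zero] at f2
        exact ⟨f1, e8, f2, e9⟩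

end D2
end Pool.Agent.PC

namespace Pool.Agent.PC
namespace F2

open Module Polynomial

theorem aux_isCoprime_X {F : Type} [Field F] {p : F[X]} (hp0 : p.coeff 0 ≠ 0) : IsCoprime p X := by
  refine ⟨C (p.coeff 0)⁻¹, -(C (p.coeff 0)⁻¹ * p.divX), ?_⟩
  have h := Polynomial.divX_mul_X_add p
  have h2 : C (p.coeff 0)⁻¹ * C (p.coeff 0) = (1 : F[X]) := by
    rw [← C_mul, inv_mul_cancel₀ hp0, C_1]
  linear_combination h2 - C (p.coeff 0)⁻¹ * h

theorem aux_core {F : Type} [Field F] (a b : ℕ) (ha : 1 ≤ a) (hab : a < b) (p : F[X])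
    (hp : p.Monic) (hpd : p.natDegree = a) (hp0 : p.coeff 0 ≠ 0) (lam c : F) (hlam : lam ≠ 0)
    (hpl : p.eval lam ≠ 0) (hc : c ≠ 0) :
    ∃ g : F[X], g.Monic ∧ g.natDegree = b ∧ g.coeff 0 = c ∧ g.eval lam ≠ 0 ∧ IsCoprime p g := by
  set h : F[X] := X ^ (b - a) + C (c / p.coeff 0) with hh
  have hba : 1 ≤ b - a := by omega
  have hdeg : degree (C (c / p.coeff 0)) < ((b - a : ℕ) : WithBot ℕ) := by
    refine lt_of_le_of_lt degree_C_le ?_
    exact_mod_cast (by omega : 0 < b - a)
  have hhm : h.Monic := monic_X_pow_add hdeg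
  have hhd : h.natDegree = b - a := by
    rw [hh]; exact natDegree_X_pow_add_C
  have hmul : (h * p).Monic := hhm.mul hp
  have hmd : (h * p).natDegree = b := by
    rw [hhm.natDegree_mul hp, hhd, hpd]; omega
  have key : ∃ κ : F, κ ≠ 0 ∧ (h * p).eval lam + κ * lam ≠ 0 := by
    by_cases h1 : (h * p).eval lam + lam ≠ 0
    · exact ⟨1, one_ne_zero, by rw [one_mul]; exact h1⟩
    · push Not at h1
      by_cases h2 : ∃ κ : F, κ ≠ 0 ∧ κ ≠ 1
      · obtain ⟨κ, k0, k1⟩ := h2
        refine ⟨κ, k0, ?_⟩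
        have : (h * p).eval lam + κ * lam = (κ - 1) * lam := by linear_combination h1
        rw [this]
        exact mul_ne_zero (sub_ne_zero.2 k1) hlam
      · push Not at h2
        exfalso
        have e1 : lam = 1 := h2 _ hlam
        have e2 : c / p.coeff 0 = 1 := h2 _ (div_ne_zero hc hp0)
        have e3 : (1 : F) + 1 = 0 := by
          by_contra h3
          have := h2 _ h3
          exact one_ne_zero (α := F) (by linear_combination this)
        have e4 : h.eval lam = 0 := by
          rw [hh, e2, e1]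
          simp [e3]
        rw [eval_mul, e4, zero_mul, zero_add] at h1
        exact hlam h1
  obtain ⟨κ, k0, k1⟩ := key
  have hdX : degree (C κ * X : F[X]) < degree (h * p) := by
    rw [degree_eq_natDegree hmul.ne_zero, hmd]
    refine lt_of_le_of_lt (degree_C_mul_X_le κ) ?_
    exact_mod_cast (by omega : 1 < b)
  refine ⟨h * p + C κ * X, hmul.add_of_left hdX, ?_, ?_, ?_, ?_⟩
  · rw [natDegree_add_eq_left_of_degree_lt hdX, hmd]
  · rw [coeff_add, mul_coeff_zero, hh]
    have : ¬ (0 = b - a) := by omega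
    simp [this, coeff_X_pow]
    field_simp
  · have : (h * p + C κ * X).eval lam = (h * p).eval lam + κ * lam := by
      rw [eval_add, eval_mul (p := C κ), eval_C, eval_X]
    rw [this]
    exact k1
  · have h3 : IsCoprime p (C κ * X) := by
      apply IsCoprime.mul_right
      · exact ⟨0, C κ⁻¹, by rw [zero_mul, zero_add, ← C_mul, inv_mul_cancel₀ k0, C_1]⟩
      · exact aux_isCoprime_X hp0
    rw [add_comm]
    exact h3.add_mul_right_right h

/-- `X^a + q` with small `q` -/
theorem aux_monic {F : Type} [Field F] (a : ℕ) (q : F[X]) (hq : q.natDegree < a) :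
    (X ^ a + q).Monic ∧ (X ^ a + q).natDegree = a := by
  have hd : degree q < (a : WithBot ℕ) := lt_of_le_of_lt degree_le_natDegree (by exact_mod_cast hq)
  refine ⟨monic_X_pow_add hd, ?_⟩
  rw [natDegree_add_eq_left_of_degree_lt, natDegree_X_pow]
  rw [degree_X_pow]; exact hd

theorem aux_first {F : Type} [Field F] (a : ℕ) (ha : 2 ≤ a) (lam c1 v : F) (hlam : lam ≠ 0) :
    ∃ g1 : F[X], g1.Monic ∧ g1.natDegree = a ∧ g1.coeff 0 = c1 ∧ g1.eval lam = v := by
  set t : F := (v - lam ^ a - c1) / lam with ht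
  have hnd : (C t * X + C c1 : F[X]).natDegree < a :=
    lt_of_le_of_lt natDegree_linear_le (by omega)
  obtain ⟨h1, h2⟩ := aux_monic a _ hnd
  refine ⟨_, h1, h2, ?_, ?_⟩
  · have : ¬ (0 = a) := by omega
    simp [this, coeff_X_pow]
  · simp only [eval_add, eval_pow, eval_X, eval_mul, eval_C]
    rw [ht]
    field_simp
    ring

theorem aux_pair_lt {F : Type} [Field F] (a b : ℕ) (ha : 2 ≤ a) (hab : a < b)
    (lam c1 c2 : F) (hlam : lam ≠ 0) (hc1 : c1 ≠ 0) (hc2 : c2 ≠ 0) :
    ∃ g1 g2 : F[X], g1.Monic ∧ g2.Monic ∧ g1.natDegree = a ∧ g2.natDegree = b ∧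
      g1.coeff 0 = c1 ∧ g2.coeff 0 = c2 ∧ g1.eval lam ≠ 0 ∧ g2.eval lam ≠ 0 ∧ IsCoprime g1 g2 := by
  obtain ⟨g1, m1, d1, e1, v1⟩ := aux_first a ha lam c1 1 hlam
  have v1' : g1.eval lam ≠ 0 := by rw [v1]; exact one_ne_zero
  obtain ⟨g2, m2, d2, e2, v2, hcop⟩ := aux_core a b (by omega) hab g1 m1 d1 (by rw [e1]; exact hc1)
    lam c2 hlam v1' hc2
  exact ⟨g1, g2, m1, m2, d1, d2, e1, e2, v1', v2, hcop⟩

/-- polynomial choice -/
theorem poly_pair {F : Type} [Field F] (a b : ℕ) (ha : 2 ≤ a) (hb : 2 ≤ b)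
    (hex : ¬ (a = 2 ∧ b = 2 ∧ ∀ x : F, x = 0 ∨ x = 1)) (lam c1 c2 : F) (hlam : lam ≠ 0)
    (hc1 : c1 ≠ 0) (hc2 : c2 ≠ 0) :
    ∃ g1 g2 : F[X], g1.Monic ∧ g2.Monic ∧ g1.natDegree = a ∧ g2.natDegree = b ∧
      g1.coeff 0 = c1 ∧ g2.coeff 0 = c2 ∧ g1.eval lam ≠ 0 ∧ g2.eval lam ≠ 0 ∧ IsCoprime g1 g2 := by
  rcases lt_trichotomy a b with h | h | h
  · exact aux_pair_lt a b ha h lam c1 c2 hlam hc1 hc2
  · subst h
    by_cases h2 : ∀ x : F, x = 0 ∨ x = 1
    · -- the field with two elements
      have ha3 : 3 ≤ a := by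
        by_contra hc
        exact hex ⟨by omega, by omega, h2⟩
      have f1 : ∀ x : F, x ≠ 0 → x = 1 := fun x hx => (h2 x).resolve_left hx
      have e3 : (1 : F) + 1 = 0 := by
        rcases h2 (1 + 1) with h | h
        · exact h
        · exact absurd (by linear_combination h : (1 : F) = 0) one_ne_zero
      have el := f1 _ hlam
      have ec1 := f1 _ hc1
      have ec2 := f1 _ hc2
      subst el
      have hn1 : (X + 1 : F[X]).natDegree < a := by
        have : (X + 1 : F[X]).natDegree = 1 := by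
          have := natDegree_X_add_C (1 : F)
          simpa using this
        omega
      have hn2 : (X ^ 2 + 1 : F[X]).natDegree < a := by
        have : (X ^ 2 + 1 : F[X]).natDegree = 2 := by
          have := natDegree_X_pow_add_C (n := 2) (r := (1 : F))
          simpa using this
        omega
      obtain ⟨m1, d1⟩ := aux_monic a _ hn1
      obtain ⟨m2, d2⟩ := aux_monic a _ hn2
      have hane : ¬ (0 = a) := by omega
      have h3 : (1 : F) + (1 + 1) ≠ 0 := by rw [e3, add_zero]; exact one_ne_zero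
      refine ⟨_, _, m1, m2, d1, d2, ?_, ?_, ?_, ?_, ?_⟩
      · rw [ec1]; simp [hane, coeff_X_pow]
      · rw [ec2]; simp [hane, coeff_X_pow]
      · simpa using h3
      · simpa using h3
      · have c1' : IsCoprime (X ^ a + (X + 1) : F[X]) X := by
          apply aux_isCoprime_X
          simp [hane, coeff_X_pow]
        have c2' : IsCoprime (X ^ a + (X + 1) : F[X]) (X - 1) := by
          have hev : (X ^ a + (X + 1) : F[X]).eval 1 ≠ 0 := by simpa using h3
          have hir : Irreducible (X - C (1 : F)) := irreducible_X_sub_C 1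
          have := (hir.coprime_iff_not_dvd (n := (X ^ a + (X + 1) : F[X]))).2 (by
            rw [dvd_iff_isRoot]
            exact hev)
          simpa using this.symm
        have c3 := c1'.mul_right c2'
        have : (X ^ a + (X ^ 2 + 1) : F[X]) = (X * (X - 1)) + (X ^ a + (X + 1)) * 1 := by ring
        rw [this]
        exact c3.add_mul_left_right 1
    · push Not at h2
      obtain ⟨k, hk0, hk1⟩ := h2
      by_cases hcc : c1 = c2
      · subst hcc
        obtain ⟨g1, m1, d1, e1, v1⟩ := aux_first a ha lam c1 1 hlam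
        have key : ∃ κ : F, κ ≠ 0 ∧ 1 + κ * lam ≠ 0 := by
          by_cases h1 : 1 + lam ≠ 0
          · exact ⟨1, one_ne_zero, by rw [one_mul]; exact h1⟩
          · push Not at h1
            refine ⟨k, hk0, ?_⟩
            have : 1 + k * lam = 1 - k := by linear_combination k * h1
            rw [this]
            exact sub_ne_zero.2 (Ne.symm hk1)
        obtain ⟨κ, k0, k1⟩ := key
        have hdX : degree (C κ * X : F[X]) < degree g1 := by
          rw [degree_eq_natDegree m1.ne_zero, d1]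
          refine lt_of_le_of_lt (degree_C_mul_X_le κ) ?_
          exact_mod_cast (by omega : 1 < a)
        refine ⟨g1, g1 + C κ * X, m1, m1.add_of_left hdX, d1, ?_, e1, ?_, ?_, ?_, ?_⟩
        · rw [natDegree_add_eq_left_of_degree_lt hdX, d1]
        · simp [e1]
        · rw [v1]; exact one_ne_zero
        · rw [eval_add, eval_mul, eval_C, eval_X, v1]; exact k1
        · have h3 : IsCoprime g1 (C κ * X) := by
            apply IsCoprime.mul_right
            · exact ⟨0, C κ⁻¹, by rw [zero_mul, zero_add, ← C_mul, inv_mul_cancel₀ k0, C_1]⟩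
            · exact aux_isCoprime_X (by rw [e1]; exact hc1)
          have : g1 + C κ * X = C κ * X + g1 * 1 := by ring
          rw [this]
          exact h3.add_mul_left_right 1
      · have key : ∃ v : F, v ≠ 0 ∧ v ≠ c1 - c2 := by
          by_cases h1 : c1 - c2 = 1
          · exact ⟨k, hk0, by rw [h1]; exact hk1⟩
          · exact ⟨1, one_ne_zero, fun h => h1 h.symm⟩
        obtain ⟨v, v0, vc⟩ := key
        obtain ⟨g1, m1, d1, e1, v1⟩ := aux_first a ha lam c1 v hlam
        have hdC : degree (C (c2 - c1) : F[X]) < degree g1 := by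
          rw [degree_eq_natDegree m1.ne_zero, d1]
          refine lt_of_le_of_lt degree_C_le ?_
          exact_mod_cast (by omega : 0 < a)
        refine ⟨g1, g1 + C (c2 - c1), m1, m1.add_of_left hdC, d1, ?_, e1, ?_, ?_, ?_, ?_⟩
        · rw [natDegree_add_eq_left_of_degree_lt hdC, d1]
        · rw [coeff_add, e1, coeff_C_zero]; ring
        · rw [v1]; exact v0
        · rw [eval_add, eval_C, v1]
          intro h
          exact vc (by linear_combination h)
        · have hne : c2 - c1 ≠ 0 := sub_ne_zero.2 (Ne.symm hcc)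
          refine ⟨-C (c2 - c1)⁻¹, C (c2 - c1)⁻¹, ?_⟩
          have h2 : C (c2 - c1)⁻¹ * C (c2 - c1) = (1 : F[X]) := by
            rw [← C_mul, inv_mul_cancel₀ hne, C_1]
          linear_combination h2
  · obtain ⟨g2, g1, m2, m1, d2, d1, e2, e1, v2, v1, hcop⟩ :=
      aux_pair_lt b a hb h lam c2 c1 hlam hc2 hc1
    exact ⟨g1, g2, m1, m2, d1, d2, e1, e2, v1, v2, hcop.symm⟩

/-- polynomial choice, second form -/
theorem poly_one {F : Type} [Field F] (b : ℕ) (hb : 3 ≤ b) (p : F[X]) (hp : p.Monic)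
    (hpd : p.natDegree = 2) (hp0 : p.coeff 0 ≠ 0) (lam c : F) (hlam : lam ≠ 0)
    (hpl : p.eval lam ≠ 0) (hc : c ≠ 0) :
    ∃ g : F[X], g.Monic ∧ g.natDegree = b ∧ g.coeff 0 = c ∧ g.eval lam ≠ 0 ∧ IsCoprime p g :=
  aux_core 2 b (by norm_num) (by omega) p hp hpd hp0 lam c hlam hpl hc

end F2
end Pool.Agent.PC

namespace Pool.Agent.PC
namespace F5

open Module Polynomial

theorem struct0 {F V : Type} [Field F] [AddCommGroup V] [Module F V] [FiniteDimensional F V]
    (a : Module.End F V) : ∃ (ι : Type) (_ : Fintype ι) (p : ι → F[X]) (e : ι → ℕ)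
      (E : V ≃+ (∀ i, F[X] ⧸ Ideal.span {p i ^ e i})), (∀ i, Irreducible (p i)) ∧
      ∀ (f : F[X]) (x : V) (i : ι), E (aeval a f x) i = Ideal.Quotient.mk _ f * E x i := by
  classical
  obtain ⟨ι, hι, p, hp, e, ⟨E⟩⟩ := Module.equiv_directSum_of_isTorsion
    (R := F[X]) (M := Module.AEval F V a) (Module.AEval.isTorsion_of_finiteDimensional F V a)
  refine ⟨ι, hι, p, e, ((Module.AEval.of F V a).toAddEquiv.trans E.toAddEquiv).trans
    (DirectSum.linearEquivFunOnFintype F[X] ι _).toAddEquiv, hp, ?_⟩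
  intro f x i
  have h1 : (Module.AEval.of F V a) (aeval a f x) = f • (Module.AEval.of F V a) x := rfl
  change (DirectSum.linearEquivFunOnFintype F[X] ι _) (E ((Module.AEval.of F V a) (aeval a f x))) i
    = Ideal.Quotient.mk _ f * (DirectSum.linearEquivFunOnFintype F[X] ι _)
      (E ((Module.AEval.of F V a) x)) i
  rw [h1, map_smul, map_smul, Pi.smul_apply]
  rfl

theorem inv_aeval {F V : Type} [Field F] [AddCommGroup V] [Module F V]
    (a : Module.End F V) (r : Submodule F V) (hr : ∀ x ∈ r, a x ∈ r) (f : F[X]) :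
    ∀ x ∈ r, aeval a f x ∈ r := by
  induction f using Polynomial.induction_on' with
  | add p q hp hq =>
    intro x hx
    rw [map_add, LinearMap.add_apply]
    exact r.add_mem (hp x hx) (hq x hx)
  | monomial n c =>
    intro x hx
    rw [aeval_monomial, Module.End.mul_apply, Module.algebraMap_end_apply]
    refine r.smul_mem _ ?_
    induction n generalizing x with
    | zero => simpa using hx
    | succ n ih =>
      rw [pow_succ, Module.End.mul_apply]
      exact ih _ (hr x hx)

/-- decomposition of a non-cyclic map -/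
theorem decomp {F V : Type} [Field F] [AddCommGroup V] [Module F V] [FiniteDimensional F V]
    (hV : 0 < finrank F V) (a : Module.End F V) (hnc : ¬ ∃ w, Cyc a w) :
    ∃ p q : Submodule F V, IsCompl p q ∧ (∀ x ∈ p, a x ∈ p) ∧ (∀ x ∈ q, a x ∈ q) ∧ q ≠ ⊥ ∧
      (∃ w ∈ q, ∀ r : Submodule F V, w ∈ r → (∀ x ∈ r, a x ∈ r) → q ≤ r) ∧
      (∀ f : F[X], (∀ x ∈ p, (aeval a f) x = 0) → aeval a f = 0) := by
  classical
  obtain ⟨ι, hι, p, e, E, hp, hE⟩ := struct0 a
  have hEc : ∀ (c : F) (x : V) (i : ι), E (c • x) i = Ideal.Quotient.mk _ (C c) * E x i := by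
    intro c x i
    rw [← hE, aeval_C, Module.algebraMap_end_apply]
  have hEX : ∀ (x : V) (i : ι), E (a x) i = Ideal.Quotient.mk _ X * E x i := by
    intro x i
    rw [← hE, aeval_X]
  -- two components are not coprime
  have hex : ∃ i j, i ≠ j ∧ ¬ IsCoprime (p i ^ e i) (p j ^ e j) := by
    by_contra hcon
    push Not at hcon
    apply hnc
    refine ⟨E.symm (fun i => 1), ?_⟩
    intro r hr hinv
    rw [eq_top_iff]
    intro x _
    choose g hg using fun i => Ideal.Quotient.mk_surjective (E x i)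
    obtain ⟨f, hf⟩ := Ideal.exists_forall_sub_mem_ideal
      (I := fun i => Ideal.span {p i ^ e i}) (fun i j hij =>
        (Ideal.isCoprime_span_singleton_iff _ _).2 (hcon i j hij)) g
    have hxf : x = aeval a f (E.symm (fun i => 1)) := by
      apply E.injective
      funext i
      rw [hE, AddEquiv.apply_symm_apply, mul_one, ← hg i]
      symm
      rw [Ideal.Quotient.eq]
      exact hf i
    rw [hxf]
    exact inv_aeval a r hinv f _ hr
  have hex2 : ∃ i j, i ≠ j ∧ p i ^ e i ∣ p j ^ e j ∧ 1 ≤ e i := by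
    obtain ⟨i, j, hij, hnc⟩ := hex
    have h1 : ¬ IsCoprime (p i) (p j) := fun h => hnc h.pow
    have hei : 1 ≤ e i := by
      by_contra h
      have : e i = 0 := by omega
      rw [this, pow_zero] at hnc
      exact hnc isCoprime_one_left
    have hej : 1 ≤ e j := by
      by_contra h
      have : e j = 0 := by omega
      rw [this, pow_zero] at hnc
      exact hnc isCoprime_one_right
    have hdvd : p i ∣ p j := by
      by_contra h
      exact h1 ((hp i).coprime_iff_not_dvd.2 h)
    have hdvd' : p j ∣ p i := (hp i).dvd_symm (hp j) hdvd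
    rcases le_total (e i) (e j) with h | h
    · exact ⟨i, j, hij, (pow_dvd_pow_of_dvd hdvd _).trans (pow_dvd_pow _ h), hei⟩
    · exact ⟨j, i, hij.symm, (pow_dvd_pow_of_dvd hdvd' _).trans (pow_dvd_pow _ h), hej⟩
  obtain ⟨i, j, hij, hdvd, hei⟩ := hex2
  let P : Submodule F V :=
    { carrier := {x | E x i = 0}
      add_mem' := fun {x y} hx hy => by
        rw [Set.mem_ofPred_eq] at *
        rw [map_add, Pi.add_apply, hx, hy, add_zero]
      zero_mem' := by
        rw [Set.mem_ofPred_eq, map_zero]; rfl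
      smul_mem' := fun c x hx => by
        rw [Set.mem_ofPred_eq] at *
        rw [hEc, hx, mul_zero] }
  let Q : Submodule F V :=
    { carrier := {x | ∀ k, k ≠ i → E x k = 0}
      add_mem' := fun {x y} hx hy => by
        rw [Set.mem_ofPred_eq] at *
        intro k hk
        rw [map_add, Pi.add_apply, hx k hk, hy k hk, add_zero]
      zero_mem' := by
        rw [Set.mem_ofPred_eq, map_zero]
        intro k hk
        rfl
      smul_mem' := fun c x hx => by
        rw [Set.mem_ofPred_eq] at *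
        intro k hk
        rw [hEc, hx k hk, mul_zero] }
  have hPm : ∀ x, x ∈ P ↔ E x i = 0 := fun x => Iff.rfl
  have hQm : ∀ x, x ∈ Q ↔ ∀ k, k ≠ i → E x k = 0 := fun x => Iff.rfl
  have hdis : Disjoint P Q := by
    rw [Submodule.disjoint_def]
    intro x hx hx'
    apply E.injective
    rw [map_zero]
    funext k
    by_cases hk : k = i
    · subst hk; exact hx
    · exact hx' k hk
  have hcod : Codisjoint P Q := by
    rw [codisjoint_iff, eq_top_iff]
    intro x _
    rw [Submodule.mem_sup]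
    refine ⟨x - E.symm (Pi.single i (E x i)), ?_, E.symm (Pi.single i (E x i)), ?_, by abel⟩
    · rw [hPm, map_sub, AddEquiv.apply_symm_apply, Pi.sub_apply, Pi.single_eq_same, sub_self]
    · rw [hQm]
      intro k hk
      rw [AddEquiv.apply_symm_apply, Pi.single_eq_of_ne hk]
  have hwQ : ∀ (k : ι) (z : F[X] ⧸ Ideal.span {p k ^ e k}), ∀ l, l ≠ k →
      E (E.symm (Pi.single k z)) l = 0 := by
    intro k z l hl
    rw [AddEquiv.apply_symm_apply, Pi.single_eq_of_ne hl]
  refine ⟨P, Q, ⟨hdis, hcod⟩, ?_, ?_, ?_, ⟨E.symm (Pi.single i 1), hwQ i 1, ?_⟩, ?_⟩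
  · intro x hx
    rw [hPm] at *
    rw [hEX, hx, mul_zero]
  · intro x hx
    rw [hQm] at *
    intro k hk
    rw [hEX, hx k hk, mul_zero]
  · intro hbot
    have h1 : E.symm (Pi.single i 1) ∈ Q := hwQ i 1
    rw [hbot, Submodule.mem_bot] at h1
    have h2 := congrArg (fun z => E z i) h1
    simp only [AddEquiv.apply_symm_apply, Pi.single_eq_same, map_zero, Pi.zero_apply] at h2
    have h3 : (1 : F[X]) ∈ Ideal.span {p i ^ e i} := by
      rw [← Ideal.Quotient.eq_zero_iff_mem, map_one]
      exact h2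
    rw [Ideal.mem_span_singleton] at h3
    have h4 : IsUnit (p i ^ e i) := isUnit_of_dvd_one h3
    rw [isUnit_pow_iff (by omega)] at h4
    exact (hp i).not_isUnit h4
  · intro r hr hinv x hx
    obtain ⟨g, hg⟩ := Ideal.Quotient.mk_surjective (E x i)
    have hxg : x = aeval a g (E.symm (Pi.single i 1)) := by
      apply E.injective
      funext k
      rw [hE, AddEquiv.apply_symm_apply]
      by_cases hk : k = i
      · subst hk
        rw [Pi.single_eq_same, mul_one, hg]
      · rw [Pi.single_eq_of_ne hk, mul_zero]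
        exact hx k hk
    rw [hxg]
    exact inv_aeval a r hinv g _ hr
  · intro f hf
    have h1 : (E.symm (Pi.single j 1) : V) ∈ P := hwQ j 1 i hij
    have h2 := hf _ h1
    have h3 := congrArg (fun z => E z j) h2
    simp only [hE, AddEquiv.apply_symm_apply, Pi.single_eq_same, map_zero, Pi.zero_apply,
      mul_one] at h3
    rw [Ideal.Quotient.eq_zero_iff_mem, Ideal.mem_span_singleton] at h3
    have h4 : p i ^ e i ∣ f := hdvd.trans h3
    have h5 : ∀ x ∈ Q, aeval a f x = 0 := by
      intro x hx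
      apply E.injective
      funext k
      rw [hE, map_zero, Pi.zero_apply]
      by_cases hk : k = i
      · subst hk
        have : Ideal.Quotient.mk (Ideal.span {p k ^ e k}) f = 0 := by
          rw [Ideal.Quotient.eq_zero_iff_mem, Ideal.mem_span_singleton]
          exact h4
        rw [this, zero_mul]
      · rw [hx k hk, mul_zero]
    ext x
    have hx : x ∈ P ⊔ Q := by rw [codisjoint_iff.1 hcod]; trivial
    obtain ⟨y, hy, z, hz, rfl⟩ := Submodule.mem_sup.1 hx
    rw [map_add, hf y hy, h5 z hz, add_zero, LinearMap.zero_apply]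

end F5
end Pool.Agent.PC

namespace Pool.Agent.PC
namespace F7b

open Module Polynomial

theorem qf_aux {F V : Type} [Field F] [AddCommGroup V] [Module F V] [FiniteDimensional F V]
    (a : Module.End F V) (hev : ∀ (c : F) (x : V), a x = c • x → x = 0) (t d : F)
    (hq : ∀ x, a (a x) = t • a x - d • x) (M : Submodule F V) (hM : ∀ z ∈ M, a z ∈ M)
    (x : V) (hx : x ∉ M) (c1 c2 : F) (h : c1 • x + c2 • a x ∈ M) : c1 = 0 ∧ c2 = 0 := by
  by_cases h2 : c2 = 0
  · subst h2
    refine ⟨?_, rfl⟩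
    by_contra h1
    apply hx
    have : c1⁻¹ • (c1 • x + (0 : F) • a x) ∈ M := M.smul_mem _ h
    rwa [zero_smul, add_zero, smul_smul, inv_mul_cancel₀ h1, one_smul] at this
  · exfalso
    -- a x - c x in M
    set c : F := -(c2⁻¹ * c1) with hc
    have hm : a x - c • x ∈ M := by
      have : c2⁻¹ • (c1 • x + c2 • a x) ∈ M := M.smul_mem _ h
      rw [smul_add, smul_smul, smul_smul, inv_mul_cancel₀ h2, one_smul] at this
      rw [hc, neg_smul, sub_neg_eq_add, add_comm]
      exact this
    have hm2 : a (a x - c • x) ∈ M := hM _ hm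
    rw [map_sub, map_smul, hq] at hm2
    have hm3 : (t • a x - d • x - c • a x) - (t - c) • (a x - c • x) ∈ M :=
      M.sub_mem hm2 (M.smul_mem _ hm)
    have he : (t • a x - d • x - c • a x) - (t - c) • (a x - c • x) = ((t - c) * c - d) • x := by
      module
    rw [he] at hm3
    have hcd : (t - c) * c - d = 0 := by
      by_contra h3
      apply hx
      have := M.smul_mem ((t - c) * c - d)⁻¹ hm3
      rwa [smul_smul, inv_mul_cancel₀ h3, one_smul] at this
    have hy : a x - (t - c) • x = 0 := by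
      apply hev c
      rw [map_sub, map_smul, hq]
      have hd : d = (t - c) * c := by linear_combination -hcd
      rw [hd]
      module
    have hx0 : x = 0 := hev (t - c) x (sub_eq_zero.mp hy)
    exact hx (hx0 ▸ M.zero_mem)

/-- eigenvalue-free quadratic maps are `quadM` -/
theorem quad_form {F V : Type} [Field F] [AddCommGroup V] [Module F V] [FiniteDimensional F V]
    (a : Module.End F V) (hev : ∀ (c : F) (x : V), a x = c • x → x = 0) (t d : F)
    (hq : ∀ x, a (a x) = t • a x - d • x) :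
    ∃ s : ℕ, finrank F V = 2 * s ∧ Sim a (quadM (F := F) (Fin s → F) t d) := by
  classical
  have hinj : Function.Injective a := by
    rw [← LinearMap.ker_eq_bot, LinearMap.ker_eq_bot']
    intro x hx
    exact hev 0 x (by simpa using hx)
  obtain ⟨U, hU, hmax⟩ : ∃ U : Submodule F V, Disjoint U (U.map a) ∧
      ∀ U' : Submodule F V, Disjoint U' (U'.map a) → ¬ U < U' := by
    obtain ⟨U, hU, h⟩ := (wellFounded_gt (α := Submodule F V)).has_min
      {U | Disjoint U (U.map a)} ⟨⊥, by simp⟩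
    exact ⟨U, hU, fun U' h' => h U' h'⟩
  have hMinv : ∀ z ∈ U ⊔ U.map a, a z ∈ U ⊔ U.map a := by
    intro z hz
    obtain ⟨u, hu, v, hv, rfl⟩ := Submodule.mem_sup.mp hz
    obtain ⟨w, hw, rfl⟩ := Submodule.mem_map.mp hv
    rw [map_add, hq]
    refine Submodule.add_mem _ (Submodule.mem_sup_right (Submodule.mem_map_of_mem hu)) ?_
    exact Submodule.sub_mem _
      (Submodule.smul_mem _ _ (Submodule.mem_sup_right (Submodule.mem_map_of_mem hw)))
      (Submodule.smul_mem _ _ (Submodule.mem_sup_left hw))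
  have hM : U ⊔ U.map a = ⊤ := by
    by_contra hne
    obtain ⟨x, hx⟩ : ∃ x, x ∉ U ⊔ U.map a := by
      by_contra hcon
      push Not at hcon
      exact hne (eq_top_iff.mpr fun x _ => hcon x)
    have hlt : U < U ⊔ F ∙ x := by
      refine lt_of_le_of_ne le_sup_left ?_
      intro he
      apply hx
      apply Submodule.mem_sup_left
      rw [he]
      exact Submodule.mem_sup_right (Submodule.mem_span_singleton_self x)
    refine hmax _ ?_ hlt
    rw [Submodule.disjoint_def]
    intro z hz1 hz2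
    obtain ⟨u, hu, v, hv, rfl⟩ := Submodule.mem_sup.mp hz1
    obtain ⟨α, rfl⟩ := Submodule.mem_span_singleton.mp hv
    obtain ⟨z', hz', hzz⟩ := Submodule.mem_map.mp hz2
    obtain ⟨u', hu', v', hv', rfl⟩ := Submodule.mem_sup.mp hz'
    obtain ⟨β, rfl⟩ := Submodule.mem_span_singleton.mp hv'
    rw [map_add, map_smul] at hzz
    have h1 : α • x + (-β) • a x ∈ U ⊔ U.map a := by
      have : α • x + (-β) • a x = a u' - u := by
        rw [neg_smul, ← sub_eq_add_neg, sub_eq_sub_iff_add_eq_add, hzz, add_comm]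
      rw [this]
      exact Submodule.sub_mem _ (Submodule.mem_sup_right (Submodule.mem_map_of_mem hu'))
        (Submodule.mem_sup_left hu)
    obtain ⟨ha, hb⟩ := qf_aux a hev t d hq _ hMinv x hx α (-β) h1
    have hb' : β = 0 := by simpa using hb
    subst ha hb'
    rw [zero_smul, add_zero, zero_smul, add_zero] at hzz
    rw [zero_smul, add_zero]
    exact Submodule.disjoint_def.mp hU u hu (hzz ▸ Submodule.mem_map_of_mem hu')
  have hcompl : IsCompl U (U.map a) := ⟨hU, codisjoint_iff.mpr hM⟩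
  have hrk : finrank F V = 2 * finrank F U := by
    rw [← Submodule.finrank_add_eq_of_isCompl hcompl,
      ← (Submodule.equivMapOfInjective a hinj U).finrank_eq]
    ring
  refine ⟨finrank F U, hrk, ?_⟩
  let φ : U ≃ₗ[F] (Fin (finrank F U) → F) := (finBasis F U).equivFun
  let Ψ : ((Fin (finrank F U) → F) × (Fin (finrank F U) → F)) →ₗ[F] V :=
    LinearMap.coprod (U.subtype ∘ₗ (φ.symm : (Fin (finrank F U) → F) →ₗ[F] U))
      (a ∘ₗ U.subtype ∘ₗ (φ.symm : (Fin (finrank F U) → F) →ₗ[F] U))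
  have hΨ : ∀ p, Ψ p = (φ.symm p.1 : V) + a (φ.symm p.2 : V) := by
    intro p
    simp [Ψ]
  have hΨinj : Function.Injective Ψ := by
    rw [← LinearMap.ker_eq_bot, LinearMap.ker_eq_bot']
    rintro ⟨x, y⟩ h
    rw [hΨ] at h
    simp only at h
    have h1 : (φ.symm x : V) ∈ U.map a := by
      rw [add_eq_zero_iff_eq_neg] at h
      rw [h]
      exact Submodule.neg_mem _ (Submodule.mem_map_of_mem (φ.symm y).2)
    have h2 : (φ.symm x : V) = 0 := Submodule.disjoint_def.mp hU _ (φ.symm x).2 h1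
    rw [h2, zero_add] at h
    have h3 : (φ.symm y : V) = 0 := hinj (by rw [h, map_zero])
    have h4 : φ.symm x = 0 := Subtype.ext h2
    have h5 : φ.symm y = 0 := Subtype.ext h3
    rw [LinearEquiv.map_eq_zero_iff] at h4 h5
    rw [h4, h5]
    rfl
  have hdim : finrank F ((Fin (finrank F U) → F) × (Fin (finrank F U) → F)) = finrank F V := by
    rw [hrk, Module.finrank_prod, Module.finrank_fin_fun]
    ring
  let E := LinearEquiv.ofInjectiveOfFinrankEq Ψ hΨinj hdim
  have hE : ∀ p, E p = Ψ p := fun p => rfl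
  refine ⟨E.symm, ?_⟩
  intro v
  obtain ⟨p, rfl⟩ := E.surjective v
  have hq1 : (quadM (F := F) (Fin (finrank F U) → F) t d p).1 = -(d • p.2) := rfl
  have hq2 : (quadM (F := F) (Fin (finrank F U) → F) t d p).2 = p.1 + t • p.2 := rfl
  rw [LinearEquiv.symm_apply_apply, LinearEquiv.eq_symm_apply, hE, hE, hΨ, hΨ, map_add, hq, hq1, hq2]
  simp only [map_neg, map_smul, map_add,
    Submodule.coe_neg, Submodule.coe_smul, Submodule.coe_add]
  module

end F7b
end Pool.Agent.PC

namespace Pool.Agent.PC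
namespace G4

open Module Polynomial

section pcaux
variable {F V : Type} [Field F] [AddCommGroup V] [Module F V] [FiniteDimensional F V]

theorem pc_minvec (b : Module.End F V) :
    ∃ v : V, ∀ p : F[X], (aeval b p) v = 0 → aeval b p = 0 := by
  obtain ⟨x, hx⟩ := exists_ker_toSpanSingleton_eq_annihilator F[X] (AEval' b)
  obtain ⟨v, rfl⟩ := (AEval'.of b).surjective x
  refine ⟨v, fun p hp => ?_⟩
  have h1 : p ∈ LinearMap.ker (LinearMap.toSpanSingleton F[X] _ (AEval'.of b v)) := by
    rw [LinearMap.mem_ker, LinearMap.toSpanSingleton_apply]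
    have h2 : p • (AEval'.of b v) = AEval'.of b ((aeval b p) v) := rfl
    rw [h2, hp, map_zero]
  rw [hx, mem_annihilator] at h1
  apply LinearMap.ext
  intro y
  have h3 := h1 (AEval'.of b y)
  have h4 : p • (AEval'.of b y) = AEval'.of b ((aeval b p) y) := rfl
  rw [h4] at h3
  exact (AEval'.of b).map_eq_zero_iff.mp h3

theorem pc_li (b : Module.End F V) (v : V) (hv : ∀ p : F[X], (aeval b p) v = 0 → aeval b p = 0) :
    LinearIndependent F (fun i : Fin (minpoly F b).natDegree => (b ^ (i:ℕ)) v) := by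
  rw [Fintype.linearIndependent_iff]
  intro g hg
  have h1 : aeval b (∑ i : Fin (minpoly F b).natDegree, C (g i) * X ^ (i:ℕ)) =
      ∑ i, g i • b ^ (i:ℕ) := by
    rw [map_sum]
    refine Finset.sum_congr rfl fun i _ => ?_
    rw [map_mul, aeval_C, map_pow, aeval_X, Algebra.smul_def]
  have h2 : (∑ i, g i • b ^ (i:ℕ)) v = 0 := by
    rw [LinearMap.sum_apply]
    exact hg
  have h3 := hv _ (by rw [h1]; exact h2)
  rw [h1] at h3
  exact Fintype.linearIndependent_iff.mp (linearIndependent_pow (K := F) b) g h3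

theorem pc_cyc (b : Module.End F V) (v : V) (hv : ∀ p : F[X], (aeval b p) v = 0 → aeval b p = 0)
    (hn : (minpoly F b).natDegree = finrank F V) : Cyc b v := by
  intro p hvp hinv
  have hli := pc_li b v hv
  have hpow : ∀ i : ℕ, (b ^ i) v ∈ p := by
    intro i
    induction i with
    | zero => exact hvp
    | succ i ih =>
      rw [pow_succ']
      exact hinv _ ih
  have hspan := hli.span_eq_top_of_card_eq_finrank' (by simp [hn])
  rw [eq_top_iff, ← hspan, Submodule.span_le]
  rintro _ ⟨i, rfl⟩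
  exact hpow i

theorem pc_rel (b : Module.End F V) (n : ℕ) (h : (minpoly F b).natDegree = n) :
    ∃ c : ℕ → F, ∀ y, (b ^ n) y + ∑ i ∈ Finset.range n, c i • (b ^ i) y = 0 := by
  have hm : (minpoly F b).Monic := minpoly.monic (Algebra.IsIntegral.isIntegral b)
  refine ⟨(minpoly F b).coeff, fun y => ?_⟩
  have h1 := minpoly.aeval F b
  have h3 : minpoly F b = X ^ n + ∑ i ∈ Finset.range n, C ((minpoly F b).coeff i) * X ^ i := by
    have := hm.as_sum
    rw [h] at this
    exact this
  have h4 : aeval b (minpoly F b) = b ^ n + ∑ i ∈ Finset.range n, (minpoly F b).coeff i • b ^ i := by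
    conv_lhs => rw [h3]
    rw [map_add, map_pow, aeval_X, map_sum]
    congr 1
    refine Finset.sum_congr rfl fun i _ => ?_
    rw [map_mul, aeval_C, map_pow, aeval_X, Algebra.smul_def]
  rw [h4] at h1
  have h5 := LinearMap.congr_fun h1 y
  rw [LinearMap.add_apply, LinearMap.sum_apply] at h5
  exact h5

theorem pc_sim {k : ℕ} (b : Module.End F V) (B : Module.Basis (Fin k) F V) (M : Matrix (Fin k) (Fin k) F)
    (h : ∀ i, b (B i) = ∑ j, M j i • B j) : Sim b (Matrix.toLin' M) := by
  refine ⟨B.equivFun, ?_⟩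
  have h1 : (Matrix.toLin' M).comp B.equivFun.toLinearMap = B.equivFun.toLinearMap.comp b := by
    refine B.ext fun i => ?_
    rw [LinearMap.comp_apply, LinearMap.comp_apply, h i, map_sum]
    funext j
    rw [Finset.sum_apply]
    have e1 : (B.equivFun.toLinearMap (B i)) = Pi.single i 1 := by
      funext l
      show B.equivFun (B i) l = _
      rw [B.equivFun_self, Pi.single_apply]
      simp [eq_comm]
    rw [e1, Matrix.toLin'_apply, Matrix.mulVec_single_one]
    have e2 : ∀ c, (B.equivFun.toLinearMap (M c i • B c)) j = if c = j then M c i else 0 := by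
      intro c
      show B.equivFun (M c i • B c) j = _
      rw [map_smul, Pi.smul_apply, B.equivFun_self, smul_eq_mul, mul_ite, mul_one, mul_zero]
    rw [Finset.sum_congr rfl fun c _ => e2 c, Finset.sum_ite_eq', if_pos (Finset.mem_univ j)]
    rfl
  intro x
  exact LinearMap.congr_fun h1 x

theorem pc_li2 {u v : V} : LinearIndependent F ![u, v] ↔
    ∀ a b : F, a • u + b • v = 0 → a = 0 ∧ b = 0 := by
  rw [Fintype.linearIndependent_iff]
  constructor
  · intro h a b hab
    have h1 := h ![a, b] (by simpa [Fin.sum_univ_two] using hab)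
    exact ⟨h1 0, h1 1⟩
  · intro h g hg
    obtain ⟨h0, h1⟩ := h (g 0) (g 1) (by simpa [Fin.sum_univ_two] using hg)
    intro i
    fin_cases i
    · exact h0
    · exact h1

theorem pc_li3 {u v w : V} : LinearIndependent F ![u, v, w] ↔
    ∀ a b c : F, a • u + b • v + c • w = 0 → a = 0 ∧ b = 0 ∧ c = 0 := by
  rw [Fintype.linearIndependent_iff]
  constructor
  · intro h a b c hab
    have h1 := h ![a, b, c] (by simpa [Fin.sum_univ_three] using hab)
    exact ⟨h1 0, h1 1, h1 2⟩
  · intro h g hg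
    obtain ⟨h0, h1, h2⟩ := h (g 0) (g 1) (g 2) (by simpa [Fin.sum_univ_three] using hg)
    intro i
    fin_cases i
    · exact h0
    · exact h1
    · exact h2

theorem pc_li4 {u v w z : V} : LinearIndependent F ![u, v, w, z] ↔
    ∀ a b c d : F, a • u + b • v + c • w + d • z = 0 → a = 0 ∧ b = 0 ∧ c = 0 ∧ d = 0 := by
  rw [Fintype.linearIndependent_iff]
  constructor
  · intro h a b c d hab
    have h1 := h ![a, b, c, d] (by simpa [Fin.sum_univ_four] using hab)
    exact ⟨h1 0, h1 1, h1 2, h1 3⟩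
  · intro h g hg
    obtain ⟨h0, h1, h2, h3⟩ := h (g 0) (g 1) (g 2) (g 3) (by simpa [Fin.sum_univ_four] using hg)
    intro i
    fin_cases i
    · exact h0
    · exact h1
    · exact h2
    · exact h3

theorem pc_mem2 {u v x : V} : x ∈ Submodule.span F (Set.range ![u, v]) ↔
    ∃ a b : F, a • u + b • v = x := by
  rw [Submodule.mem_span_range_iff_exists_fun]
  constructor
  · rintro ⟨c, hc⟩
    exact ⟨c 0, c 1, by simpa [Fin.sum_univ_two] using hc⟩
  · rintro ⟨a, b, h⟩
    exact ⟨![a, b], by simpa [Fin.sum_univ_two] using h⟩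

theorem pc_mem3 {u v w x : V} : x ∈ Submodule.span F (Set.range ![u, v, w]) ↔
    ∃ a b c : F, a • u + b • v + c • w = x := by
  rw [Submodule.mem_span_range_iff_exists_fun]
  constructor
  · rintro ⟨c, hc⟩
    exact ⟨c 0, c 1, c 2, by simpa [Fin.sum_univ_three] using hc⟩
  · rintro ⟨a, b, c, h⟩
    exact ⟨![a, b, c], by simpa [Fin.sum_univ_three] using h⟩

theorem pc_mem4 {u v w z x : V} : x ∈ Submodule.span F (Set.range ![u, v, w, z]) ↔
    ∃ a b c d : F, a • u + b • v + c • w + d • z = x := by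
  rw [Submodule.mem_span_range_iff_exists_fun]
  constructor
  · rintro ⟨c, hc⟩
    exact ⟨c 0, c 1, c 2, c 3, by simpa [Fin.sum_univ_four] using hc⟩
  · rintro ⟨a, b, c, d, h⟩
    exact ⟨![a, b, c, d], by simpa [Fin.sum_univ_four] using h⟩

theorem pc_notin {k : ℕ} (u : Fin k → V) (hk : k < finrank F V) :
    ∃ y, y ∉ Submodule.span F (Set.range u) := by
  by_contra hc
  push Not at hc
  have h1 : Submodule.span F (Set.range u) = ⊤ := by
    rw [eq_top_iff]; exact fun y _ => hc y
  have h2 := finrank_range_le_card (R := F) u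
  rw [Set.finrank, h1, finrank_top, Fintype.card_fin] at h2
  omega

theorem pc_sim4 (b : Module.End F V) (h4 : finrank F V = 4) (u0 u1 u2 u3 : V)
    (hli : LinearIndependent F ![u0, u1, u2, u3]) (M : Matrix (Fin 4) (Fin 4) F)
    (h0 : b u0 = M 0 0 • u0 + M 1 0 • u1 + M 2 0 • u2 + M 3 0 • u3)
    (h1 : b u1 = M 0 1 • u0 + M 1 1 • u1 + M 2 1 • u2 + M 3 1 • u3)
    (h2 : b u2 = M 0 2 • u0 + M 1 2 • u1 + M 2 2 • u2 + M 3 2 • u3)
    (h3 : b u3 = M 0 3 • u0 + M 1 3 • u1 + M 2 3 • u2 + M 3 3 • u3) :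
    Sim b (Matrix.toLin' M) := by
  obtain ⟨B, hB⟩ : ∃ B : Module.Basis (Fin 4) F V, (B : Fin 4 → V) = ![u0, u1, u2, u3] :=
    ⟨basisOfLinearIndependentOfCardEqFinrank hli (by rw [Fintype.card_fin, h4]),
      coe_basisOfLinearIndependentOfCardEqFinrank hli _⟩
  refine pc_sim b B M fun i => ?_
  rw [hB, Fin.sum_univ_four]
  fin_cases i
  · exact h0
  · exact h1
  · exact h2
  · exact h3

/-- the eigenvector outside `K(v)`, quadratic case -/
theorem pc_eig (b : Module.End F V) (t d : F) (hrel : ∀ y, b (b y) = t • b y - d • y) (v y : V)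
    (a α β : F) (hy : b y = a • y + α • v + β • b v) (hli : LinearIndependent F ![y, v, b v]) :
    a ^ 2 - t * a + d = 0 ∧ α = - (a * β) ∧ b (y - β • v) = a • (y - β • v) := by
  have hry := hrel y
  have hrv := hrel v
  have e1 : b (b y) = a • b y + α • b v + β • b (b v) := by
    conv_lhs => rw [hy]
    simp only [map_add, map_smul]
  have e2 : (a ^ 2 - t * a + d) • y + (a * α - β * d - t * α) • v + (a * β + α) • b v = 0 := by
    linear_combination (norm := module) hry - e1 - (a - t) • hy + β • (-hrv)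
  obtain ⟨f1, f2, f3⟩ := pc_li3.mp hli _ _ _ e2
  have f4 : α = - (a * β) := by linear_combination f3
  refine ⟨f1, f4, ?_⟩
  rw [map_sub, map_smul, hy, f4]
  module

theorem pc_perm4 {u v w z : V} (h : LinearIndependent F ![z, w, u, v]) :
    LinearIndependent F ![u, v, w, z] := by
  rw [pc_li4] at h ⊢
  intro a b c d hh
  obtain ⟨h1, h2, h3, h4⟩ := h d c a b (by rw [← hh]; abel)
  exact ⟨h3, h4, h2, h1⟩

theorem pc_cons {k : ℕ} {u : Fin k → V} {y : V} (h : LinearIndependent F u)
    (hy : y ∉ Submodule.span F (Set.range u)) : LinearIndependent F (Matrix.vecCons y u) :=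
  linearIndependent_fin_cons.mpr ⟨h, hy⟩

theorem pc_claim (b : Module.End F V) (v y : V) (h2 : LinearIndependent F ![v, b v])
    (hy : y ∉ Submodule.span F (Set.range ![v, b v]))
    (hno : ¬ LinearIndependent F ![v, b v, y, b y]) :
    ∃ a α β : F, b y = a • y + α • v + β • b v := by
  have h3 : LinearIndependent F ![y, v, b v] := pc_cons h2 hy
  have hin : b y ∈ Submodule.span F (Set.range ![y, v, b v]) := by
    by_contra hc
    exact hno (pc_perm4 (pc_cons h3 hc))
  obtain ⟨a, α, β, h⟩ := pc_mem3.mp hin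
  exact ⟨a, α, β, h.symm⟩

theorem pc_zero (b : Module.End F V) (h : (minpoly F b).natDegree = 0) : finrank F V = 0 := by
  obtain ⟨c, hc⟩ := pc_rel b 0 h
  have h1 : ∀ y : V, y = 0 := by
    intro y
    have := hc y
    simpa using this
  have : Subsingleton V := ⟨fun x y => by rw [h1 x, h1 y]⟩
  exact Module.finrank_zero_of_subsingleton

theorem pc_one (b : Module.End F V) (h : (minpoly F b).natDegree = 1) : ∃ c : F, ∀ x, b x = c • x := by
  obtain ⟨c, hc⟩ := pc_rel b 1 h
  refine ⟨- c 0, fun y => ?_⟩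
  have := hc y
  rw [Finset.sum_range_one, pow_one, pow_zero] at this
  have h2 : b y = - (c 0 • y) := eq_neg_of_add_eq_zero_left this
  rw [h2, neg_smul]

theorem pc_two (b : Module.End F V) (h : (minpoly F b).natDegree = 2) :
    ∃ t d : F, ∀ y, b (b y) = t • b y - d • y := by
  obtain ⟨c, hc⟩ := pc_rel b 2 h
  refine ⟨- c 1, c 0, fun y => ?_⟩
  have h1 := hc y
  rw [Finset.sum_range_succ, Finset.sum_range_one, pow_one, pow_zero, pow_two] at h1
  have h2 : b (b y) + (c 0 • y + c 1 • b y) = 0 := h1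
  linear_combination (norm := module) h2

theorem pc_three (b : Module.End F V) (h : (minpoly F b).natDegree = 3) :
    ∃ c0 c1 c2 : F, ∀ y, b (b (b y)) = - (c2 • b (b y)) - c1 • b y - c0 • y := by
  obtain ⟨c, hc⟩ := pc_rel b 3 h
  refine ⟨c 0, c 1, c 2, fun y => ?_⟩
  have h1 := hc y
  rw [Finset.sum_range_succ, Finset.sum_range_succ, Finset.sum_range_one, pow_one, pow_zero] at h1
  have h2 : b (b (b y)) + (c 0 • y + c 1 • b y + c 2 • b (b y)) = 0 := h1
  linear_combination (norm := module) h2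

theorem pc_li_two (b : Module.End F V) (v : V)
    (hv : ∀ p : F[X], (aeval b p) v = 0 → aeval b p = 0) (h : (minpoly F b).natDegree = 2) :
    LinearIndependent F ![v, b v] := by
  have h1 := pc_li b v hv
  rw [h] at h1
  have h2 : (fun i : Fin 2 => (b ^ (i:ℕ)) v) = ![v, b v] := by
    funext i
    fin_cases i
    · rfl
    · rfl
  rw [h2] at h1
  exact h1

theorem pc_li_three (b : Module.End F V) (v : V)
    (hv : ∀ p : F[X], (aeval b p) v = 0 → aeval b p = 0) (h : (minpoly F b).natDegree = 3) :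
    LinearIndependent F ![v, b v, b (b v)] := by
  have h1 := pc_li b v hv
  rw [h] at h1
  have h2 : (fun i : Fin 3 => (b ^ (i:ℕ)) v) = ![v, b v, b (b v)] := by
    funext i
    fin_cases i
    · rfl
    · rfl
    · rfl
  rw [h2] at h1
  exact h1

theorem pc_span_top {k : ℕ} {u : Fin k → V} (h : LinearIndependent F u) (hk : finrank F V = k)
    (x : V) : x ∈ Submodule.span F (Set.range u) := by
  rw [h.span_eq_top_of_card_eq_finrank' (by rw [Fintype.card_fin, hk])]
  trivial

theorem pc_case3 (b : Module.End F V) (h4 : finrank F V = 4) (v : V)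
    (hli : LinearIndependent F ![v, b v, b (b v)]) (c0 c1 c2 : F)
    (hrel : ∀ y, b (b (b y)) = - (c2 • b (b y)) - c1 • b y - c0 • y) :
    ∃ a h0 h1 : F, Sim b (Matrix.toLin' !![a, 0, 0, 0; 0, 0, 0, a * h0;
      0, 1, 0, a * h1 - h0; 0, 0, 1, a - h1]) := by
  obtain ⟨y, hy⟩ := pc_notin (F := F) ![v, b v, b (b v)] (by omega)
  obtain ⟨a, α, β, γ, hby⟩ := pc_mem4.mp (pc_span_top (pc_cons hli hy) h4 (b y))
  obtain ⟨y', hy'⟩ : ∃ y', y' = y - γ • b v - (β + a * γ) • v := ⟨_, rfl⟩
  obtain ⟨κ, hκ⟩ : ∃ κ, κ = α + a * β + a ^ 2 * γ := ⟨_, rfl⟩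
  have hnot : y' ∉ Submodule.span F (Set.range ![v, b v, b (b v)]) := by
    intro hc
    apply hy
    obtain ⟨p, q, r, hpq⟩ := pc_mem3.mp hc
    refine pc_mem3.mpr ⟨p + (β + a * γ), q + γ, r, ?_⟩
    have e : y = y' + γ • b v + (β + a * γ) • v := by rw [hy']; abel
    rw [e, ← hpq]
    module
  have hli4 : LinearIndependent F ![y', v, b v, b (b v)] := pc_cons hli hnot
  have e1 : b y' = a • y' + κ • v := by
    rw [hy', map_sub, map_sub, map_smul, map_smul, ← hby, hκ]
    module
  have e2 : b (b y') = a ^ 2 • y' + (a * κ) • v + κ • b v := by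
    rw [e1, map_add, map_smul, map_smul, e1]
    module
  have e3 : b (b (b y')) = a ^ 3 • y' + (a ^ 2 * κ) • v + (a * κ) • b v + κ • b (b v) := by
    rw [e2, map_add, map_add, map_smul, map_smul, map_smul, e1]
    module
  have e4 := hrel y'
  have e5 : (a ^ 3 + c2 * a ^ 2 + c1 * a + c0) • y' + (a ^ 2 * κ + c2 * (a * κ) + c1 * κ) • v +
      (a * κ + c2 * κ) • b v + κ • b (b v) = 0 := by
    rw [e3, e2, e1] at e4
    linear_combination (norm := module) e4
  obtain ⟨f1, _, _, f4⟩ := pc_li4.mp hli4 _ _ _ _ e5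
  have e6 : b y' = a • y' := by rw [e1, f4, zero_smul, add_zero]
  have e7 := hrel v
  refine ⟨a, c1 + a * c2 + a ^ 2, c2 + a, pc_sim4 b h4 y' v (b v) (b (b v)) hli4 _ ?_ ?_ ?_ ?_⟩
  · simp [e6]
  · simp
  · simp
  · rw [e7]
    have g1 : a * (c1 + a * c2 + a ^ 2) = - c0 := by linear_combination f1
    have g2 : a * (c2 + a) - (c1 + a * c2 + a ^ 2) = - c1 := by ring
    have g3 : a - (c2 + a) = - c2 := by ring
    simp [g1, g2, g3]
    abel

theorem pc_case2 (b : Module.End F V) (h4 : finrank F V = 4) (v : V)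
    (hli : LinearIndependent F ![v, b v]) (t d : F) (hrel : ∀ y, b (b y) = t • b y - d • y) :
    (∃ a c : F, Sim b (Matrix.toLin' !![a, 0, 0, 0; 0, a, 0, 0; 0, 0, 0, -(a * c);
      0, 0, 1, a + c])) ∨ (∃ t d : F, Sim b (excM F t d)) := by
  by_cases hx : ∃ y, LinearIndependent F ![v, b v, y, b y]
  · obtain ⟨y, hy⟩ := hx
    right
    refine ⟨t, d, pc_sim4 b h4 v (b v) y (b y) hy _ ?_ ?_ ?_ ?_⟩
    · simp
    · rw [hrel v]; simp; abel
    · simp
    · rw [hrel y]; simp; abel
  · left
    push Not at hx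
    obtain ⟨y2, hy2⟩ := pc_notin (F := F) ![v, b v] (by omega)
    have hli2 : LinearIndependent F ![y2, v, b v] := pc_cons hli hy2
    obtain ⟨y1, hy1⟩ := pc_notin (F := F) ![y2, v, b v] (by omega)
    have hli1 : LinearIndependent F ![y1, y2, v, b v] := pc_cons hli2 hy1
    have hy1' : y1 ∉ Submodule.span F (Set.range ![v, b v]) := by
      intro hc
      apply hy1
      obtain ⟨p, q, hpq⟩ := pc_mem2.mp hc
      exact pc_mem3.mpr ⟨0, p, q, by rw [← hpq]; simp⟩
    have hy3 : y1 + y2 ∉ Submodule.span F (Set.range ![v, b v]) := by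
      intro hc
      apply hy1
      obtain ⟨p, q, hpq⟩ := pc_mem2.mp hc
      refine pc_mem3.mpr ⟨-1, p, q, ?_⟩
      linear_combination (norm := module) hpq
    have hli1' : LinearIndependent F ![y1, v, b v] := pc_cons hli hy1'
    obtain ⟨a1, α1, β1, h1⟩ := pc_claim b v y1 hli hy1' (hx y1)
    obtain ⟨a2, α2, β2, h2⟩ := pc_claim b v y2 hli hy2 (hx y2)
    obtain ⟨a3, α3, β3, h3⟩ := pc_claim b v (y1 + y2) hli hy3 (hx (y1 + y2))
    have h5 : (a1 - a3) • y1 + (a2 - a3) • y2 + (α1 + α2 - α3) • v + (β1 + β2 - β3) • b v = 0 := by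
      rw [map_add] at h3
      linear_combination (norm := module) h3 - h1 - h2
    obtain ⟨f1, f2, _, _⟩ := pc_li4.mp hli1 _ _ _ _ h5
    obtain ⟨g1, g2, g3⟩ := pc_eig b t d hrel v y1 a1 α1 β1 h1 hli1'
    obtain ⟨k1, k2, k3⟩ := pc_eig b t d hrel v y2 a2 α2 β2 h2 hli2
    have ha : a2 = a1 := by linear_combination f2 - f1
    rw [ha] at k3
    have hliP : LinearIndependent F ![y1 - β1 • v, y2 - β2 • v, v, b v] := by
      rw [pc_li4]
      intro p q r s hh
      have h6 : p • y1 + q • y2 + (r - p * β1 - q * β2) • v + s • b v = 0 := by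
        linear_combination (norm := module) hh
      obtain ⟨q1, q2, q3, q4⟩ := pc_li4.mp hli1 _ _ _ _ h6
      refine ⟨q1, q2, ?_, q4⟩
      rw [q1, q2] at q3
      linear_combination q3
    have hd : d = a1 * (t - a1) := by linear_combination g1
    have ht : a1 + (t - a1) = t := by ring
    refine ⟨a1, t - a1, pc_sim4 b h4 (y1 - β1 • v) (y2 - β2 • v) v (b v) hliP _ ?_ ?_ ?_ ?_⟩
    · rw [g3]; simp
    · rw [k3]; simp
    · simp
    · rw [hrel v, hd]
      simp [ht]
      abel

end pcaux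

/-- non-cyclic, non-scalar maps in dimension 4 -/
theorem noncyc_four {F V : Type} [Field F] [AddCommGroup V] [Module F V] [FiniteDimensional F V]
    (h4 : finrank F V = 4) (b : Module.End F V) (hs : ¬ Scal b) (hnc : ¬ ∃ w, Cyc b w) :
    (∃ a h0 h1 : F, Sim b (Matrix.toLin' !![a, 0, 0, 0; 0, 0, 0, a * h0;
      0, 1, 0, a * h1 - h0; 0, 0, 1, a - h1])) ∨
    (∃ a c : F, Sim b (Matrix.toLin' !![a, 0, 0, 0; 0, a, 0, 0; 0, 0, 0, -(a * c);
      0, 0, 1, a + c])) ∨
    (∃ t d : F, Sim b (excM F t d)) := by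
  obtain ⟨v, hv⟩ := pc_minvec b
  have hli := pc_li b v hv
  have hle : (minpoly F b).natDegree ≤ 4 := by
    have := hli.fintype_card_le_finrank
    rw [Fintype.card_fin, h4] at this
    exact this
  obtain ⟨n, hn⟩ : ∃ n, (minpoly F b).natDegree = n := ⟨_, rfl⟩
  rw [hn] at hle
  interval_cases n
  · have := pc_zero b hn
    omega
  · exact absurd (pc_one b hn) hs
  · obtain ⟨t, d, hrel⟩ := pc_two b hn
    exact Or.inr (pc_case2 b h4 v (pc_li_two b v hv hn) t d hrel)
  · obtain ⟨c0, c1, c2, hrel⟩ := pc_three b hn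
    exact Or.inl (pc_case3 b h4 v (pc_li_three b v hv hn) c0 c1 c2 hrel)
  · exact absurd ⟨v, pc_cyc b v hv (by rw [hn, h4])⟩ hnc

/-- in dimension 3 `Big` implies cyclic -/
theorem cyc_of_big_three {F V : Type} [Field F] [AddCommGroup V] [Module F V]
    [FiniteDimensional F V] (h3 : finrank F V = 3) (b : Module.End F V) (hb : Big b) :
    ∃ w, Cyc b w := by
  obtain ⟨v, hv⟩ := pc_minvec b
  have hli := pc_li b v hv
  have hle : (minpoly F b).natDegree ≤ 3 := by
    have := hli.fintype_card_le_finrank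
    rw [Fintype.card_fin, h3] at this
    exact this
  obtain ⟨n, hn⟩ : ∃ n, (minpoly F b).natDegree = n := ⟨_, rfl⟩
  rw [hn] at hle
  interval_cases n
  · have := pc_zero b hn
    omega
  · obtain ⟨c, hc⟩ := pc_one b hn
    exfalso
    have h1 := hb c
    have h2 : b - c • (LinearMap.id : V →ₗ[F] V) = 0 := by
      apply LinearMap.ext
      intro x
      rw [LinearMap.sub_apply, LinearMap.smul_apply, LinearMap.id_apply, hc x, sub_self]
      rfl
    rw [h2, LinearMap.range_zero, finrank_bot] at h1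
    omega
  · exfalso
    obtain ⟨t, d, hrel⟩ := pc_two b hn
    have hli2 := pc_li_two b v hv hn
    obtain ⟨y, hy⟩ := pc_notin (F := F) ![v, b v] (by omega)
    have hli3 : LinearIndependent F ![y, v, b v] := pc_cons hli2 hy
    obtain ⟨a, α, β, hby⟩ := pc_mem3.mp (pc_span_top hli3 h3 (b y))
    obtain ⟨g1, g2, g3⟩ := pc_eig b t d hrel v y a α β hby.symm hli3
    have h1 := hb a
    have h2 : LinearMap.range (b - a • (LinearMap.id : V →ₗ[F] V)) ≤
        Submodule.span F {b v - a • v} := by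
      rintro _ ⟨x, rfl⟩
      obtain ⟨ξ, η, ζ, hx⟩ := pc_mem3.mp (pc_span_top hli3 h3 x)
      rw [Submodule.mem_span_singleton]
      refine ⟨ξ * β + η + ζ * (t - a), ?_⟩
      rw [LinearMap.sub_apply, LinearMap.smul_apply, LinearMap.id_apply, ← hx, map_add, map_add,
        map_smul, map_smul, map_smul, hrel v, ← hby, g2]
      have hd : d = a * (t - a) := by linear_combination g1
      rw [hd]
      module
    have h5 := (Submodule.finrank_mono h2).trans (finrank_span_le_card ({b v - a • v} : Set V))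
    rw [Set.toFinset_singleton, Finset.card_singleton] at h5
    omega
  · exact ⟨v, pc_cyc b v hv (by rw [hn, h3])⟩

end G4
end Pool.Agent.PC
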