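import Pool.Agent.MP485c8a.Defs
import Pool.Agent.MP485c8a.P1
import Pool.Agent.MP485c8a.P3

set_option autoImplicit false

namespace Pool.Agent.PC
namespace F1
open Pool.Agent.PC.A1a (cyc_aeval_eq_zero)

open Module Polynomial

theorem aux_inv_aeval {F V : Type} [Field F] [AddCommGroup V] [Module F V]
    (T : V →ₗ[F] V) (C : Submodule F V) (hC : ∀ x ∈ C, T x ∈ C) (p : F[X]) (x : V) (hx : x ∈ C) :
    (aeval (R := F) (A := Module.End F V) T p) x ∈ C := by
  induction p using Polynomial.induction_on' with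
  | add p q hp hq =>
    rw [map_add, LinearMap.add_apply]
    exact C.add_mem hp hq
  | monomial n a =>
    rw [aeval_monomial, Module.End.mul_apply, Module.algebraMap_end_apply]
    apply C.smul_mem
    induction n with
    | zero => simpa using hx
    | succ n ih =>
      rw [pow_succ', Module.End.mul_apply]
      exact hC _ ih

theorem aux_blk_apply {F U W : Type} [Field F] [AddCommGroup U] [Module F U] [AddCommGroup W]
    [Module F W] (P : U →ₗ[F] U) (Z : W →ₗ[F] U) (Q : W →ₗ[F] W) (z : U × W) :
    Blk P Z Q z = (P z.1 + Z z.2, Q z.2) := rfl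

theorem aux_blk_inl {F U W : Type} [Field F] [AddCommGroup U] [Module F U] [AddCommGroup W]
    [Module F W] (P : U →ₗ[F] U) (Z : W →ₗ[F] U) (Q : W →ₗ[F] W) (p : F[X]) (u : U) :
    (aeval (R := F) (A := Module.End F (U × W)) (Blk P Z Q) p) (u, 0) =
      ((aeval (R := F) (A := Module.End F U) P p) u, 0) := by
  induction p using Polynomial.induction_on' with
  | add p q hp hq =>
    rw [map_add, LinearMap.add_apply, hp, hq, map_add, LinearMap.add_apply]
    simp
  | monomial n a =>
    rw [aeval_monomial, Module.End.mul_apply, Module.algebraMap_end_apply,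
      aeval_monomial, Module.End.mul_apply, Module.algebraMap_end_apply]
    have : ((Blk P Z Q : Module.End F (U × W)) ^ n) (u, 0) = (((P : Module.End F U) ^ n) u, 0) := by
      induction n with
      | zero => simp
      | succ n ih =>
        rw [pow_succ', Module.End.mul_apply, ih, aux_blk_apply, pow_succ', Module.End.mul_apply]
        simp
    rw [this]
    simp

theorem aux_blk_snd {F U W : Type} [Field F] [AddCommGroup U] [Module F U] [AddCommGroup W]
    [Module F W] (P : U →ₗ[F] U) (Z : W →ₗ[F] U) (Q : W →ₗ[F] W) (p : F[X]) (z : U × W) :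
    ((aeval (R := F) (A := Module.End F (U × W)) (Blk P Z Q) p) z).2 =
      (aeval (R := F) (A := Module.End F W) Q p) z.2 := by
  induction p using Polynomial.induction_on' with
  | add p q hp hq =>
    rw [map_add, LinearMap.add_apply, Prod.snd_add, hp, hq, map_add, LinearMap.add_apply]
  | monomial n a =>
    rw [aeval_monomial, Module.End.mul_apply, Module.algebraMap_end_apply,
      aeval_monomial, Module.End.mul_apply, Module.algebraMap_end_apply]
    have : (((Blk P Z Q : Module.End F (U × W)) ^ n) z).2 = ((Q : Module.End F W) ^ n) z.2 := by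
      induction n with
      | zero => simp
      | succ n ih =>
        rw [pow_succ', Module.End.mul_apply, aux_blk_apply, pow_succ', Module.End.mul_apply]
        simp [ih]
    rw [Prod.smul_snd, this]

theorem aux_cyc_surj {F V : Type} [Field F] [AddCommGroup V] [Module F V]
    (T : V →ₗ[F] V) (u : V) (h : Cyc T u) (x : V) :
    ∃ f : F[X], (aeval (R := F) (A := Module.End F V) T f) u = x := by
  let S : Submodule F V :=
    { carrier := {x | ∃ f : F[X], (aeval (R := F) (A := Module.End F V) T f) u = x}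
      add_mem' := by
        rintro a b ⟨f, hf⟩ ⟨g, hg⟩
        exact ⟨f + g, by rw [map_add, LinearMap.add_apply, hf, hg]⟩
      zero_mem' := ⟨0, by simp⟩
      smul_mem' := by
        rintro c a ⟨f, hf⟩
        exact ⟨c • f, by rw [map_smul, LinearMap.smul_apply, hf]⟩ }
  have hS : S = ⊤ := by
    apply h S
    · exact ⟨1, by simp⟩
    · rintro x ⟨f, hf⟩
      exact ⟨X * f, by rw [map_mul, aeval_X, Module.End.mul_apply, hf]⟩
  have : x ∈ S := by rw [hS]; trivial
  exact this

theorem aux_inl_top {F U W : Type} [Field F] [AddCommGroup U] [Module F U] [AddCommGroup W]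
    [Module F W] (P : U →ₗ[F] U) (Z : W →ₗ[F] U) (Q : W →ₗ[F] W) (C : Submodule F (U × W))
    (hC : ∀ x ∈ C, Blk P Z Q x ∈ C) (u : U) (hu : Cyc P u) (h : ((u, 0) : U × W) ∈ C) (x : U) :
    ((x, 0) : U × W) ∈ C := by
  have h1 : C.comap (LinearMap.inl F U W) = ⊤ := by
    apply hu
    · simpa using h
    · intro y hy
      have := hC _ hy
      rw [aux_blk_apply] at this
      simpa using this
  have : x ∈ C.comap (LinearMap.inl F U W) := by rw [h1]; trivial
  simpa using this

theorem aux_top {F U W : Type} [Field F] [AddCommGroup U] [Module F U] [AddCommGroup W]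
    [Module F W] (P : U →ₗ[F] U) (Z : W →ₗ[F] U) (Q : W →ₗ[F] W) (C : Submodule F (U × W))
    (hC : ∀ x ∈ C, Blk P Z Q x ∈ C) (u : U) (hu : Cyc P u) (h : ((u, 0) : U × W) ∈ C)
    (u' : U) (w : W) (hw : Cyc Q w) (hz : ((u', w) : U × W) ∈ C) : C = ⊤ := by
  have hU := aux_inl_top P Z Q C hC u hu h
  have h0w : ((0, w) : U × W) ∈ C := by
    have := C.sub_mem hz (hU u')
    simpa using this
  have h1 : C.comap (LinearMap.inr F U W) = ⊤ := by
    apply hw
    · simpa using h0w
    · intro y hy
      have h2 := hC _ hy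
      rw [aux_blk_apply] at h2
      have h3 := C.sub_mem h2 (hU (Z y))
      simpa using h3
  rw [eq_top_iff]
  rintro ⟨x, y⟩ -
  have hy : y ∈ C.comap (LinearMap.inr F U W) := by rw [h1]; trivial
  have hy' : ((0, y) : U × W) ∈ C := by simpa using hy
  have := C.add_mem (hU x) hy'
  simpa using this

theorem aux_cyc_smul {F V : Type} [Field F] [AddCommGroup V] [Module F V]
    (T : V →ₗ[F] V) (u : V) (h : Cyc T u) (c : F) (hc : c ≠ 0) : Cyc T (c • u) := by
  intro p hp hT
  apply h p _ hT
  have := p.smul_mem c⁻¹ hp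
  rwa [smul_smul, inv_mul_cancel₀ hc, one_smul] at this

theorem aux_eigen_poly {F V : Type} [Field F] [AddCommGroup V] [Module F V]
    (T : Module.End F V) (lam : F) (y : V) (hy : T y = lam • y) (k : F[X]) :
    (aeval T k) y = k.eval lam • y := by
  induction k using Polynomial.induction_on' with
  | add p q hp hq => rw [map_add, LinearMap.add_apply, hp, hq, eval_add, add_smul]
  | monomial n a =>
    rw [aeval_monomial, Module.End.mul_apply, Module.algebraMap_end_apply, eval_monomial]
    have : (T ^ n) y = lam ^ n • y := by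
      induction n with
      | zero => simp
      | succ n ih => rw [pow_succ', Module.End.mul_apply, ih, map_smul, hy, smul_smul, pow_succ]
    rw [this, smul_smul]

/-- kernel of `φ` with `φ ∘ P = lam φ` is in the range of `P - lam` -/
theorem aux_ker_range {F U : Type} [Field F] [AddCommGroup U] [Module F U]
    (P : Module.End F U) (uc : U) (hu : Cyc P uc) (lam : F) (φ : U →ₗ[F] F)
    (hφ : ∀ x, φ (P x) = lam * φ x) (hφu : φ uc ≠ 0) (ζ : U) (hζ : φ ζ = 0) :
    ∃ ξ, P ξ - lam • ξ = ζ := by
  obtain ⟨f, hf⟩ := aux_cyc_surj P uc hu ζ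
  obtain ⟨h, hh⟩ := Polynomial.X_sub_C_dvd_sub_C_eval (a := lam) (p := f)
  have e1 : f = (X - C lam) * h + C (f.eval lam) := by rw [← hh]; ring
  have e2 : ζ = (P ((aeval P h) uc) - lam • ((aeval P h) uc)) + (f.eval lam) • uc := by
    rw [← hf]
    conv_lhs => rw [e1]
    rw [map_add, map_mul, map_sub, aeval_X, aeval_C, aeval_C, LinearMap.add_apply,
      Module.End.mul_apply, LinearMap.sub_apply, Module.algebraMap_end_apply,
      Module.algebraMap_end_apply]
  have e3 : f.eval lam * φ uc = 0 := by
    have := congrArg φ e2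
    rw [hζ, map_add, map_sub, hφ, map_smul, map_smul, smul_eq_mul, smul_eq_mul, sub_self,
      zero_add] at this
    exact this.symm
  have e4 : f.eval lam = 0 := by
    rcases mul_eq_zero.mp e3 with h' | h'
    · exact h'
    · exact absurd h' hφu
  exact ⟨(aeval P h) uc, by rw [e2, e4, zero_smul, add_zero]⟩

theorem aux_ker_dvd {F V : Type} [Field F] [AddCommGroup V] [Module F V] [FiniteDimensional F V]
    (T : Module.End F V) (u : V) (h : Cyc T u) (f : F[X]) (hf : (aeval T f) u = 0) :
    LinearMap.charpoly T ∣ f := by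
  have hm := LinearMap.charpoly_monic T
  have h0 : (aeval T (f %ₘ LinearMap.charpoly T)) u = 0 := by
    have e := modByMonic_add_div f (LinearMap.charpoly T)
    have e2 := congrArg (fun q => (aeval T q) u) e
    simp only [map_add, map_mul, LinearMap.aeval_self_charpoly, zero_mul, add_zero, hf] at e2
    exact e2
  have hdeg : (f %ₘ LinearMap.charpoly T).degree < (finrank F V : ℕ) := by
    have := degree_modByMonic_lt f hm
    rwa [degree_eq_natDegree hm.ne_zero, LinearMap.charpoly_natDegree] at this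
  have := cyc_aeval_eq_zero T u h _ hdeg h0
  exact (modByMonic_eq_zero_iff_dvd hm).mp this

/-- direct sum of cyclic maps with coprime characteristic polynomials is cyclic -/
theorem prod_cyclic {F U W : Type} [Field F] [AddCommGroup U] [Module F U] [FiniteDimensional F U]
    [AddCommGroup W] [Module F W] [FiniteDimensional F W]
    (P : Module.End F U) (Q : Module.End F W) (u : U) (w : W) (hu : Cyc P u) (hw : Cyc Q w)
    (hc : IsCoprime (LinearMap.charpoly P) (LinearMap.charpoly Q)) :
    ∃ z, Cyc (Blk P 0 Q) z := by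
  obtain ⟨a, b, hab⟩ := hc
  refine ⟨(u, w), fun C hz hC => ?_⟩
  have h1 := aux_inv_aeval _ C hC (b * LinearMap.charpoly Q) _ hz
  have hin : ∀ (p : F[X]) (x : U) (y : W),
      (aeval (R := F) (A := Module.End F (U × W)) (Blk P 0 Q) p) (x, y) =
        ((aeval P p) x, (aeval Q p) y) := by
    intro p x y
    induction p using Polynomial.induction_on' with
    | add p q hp hq =>
      rw [map_add, LinearMap.add_apply, hp, hq, map_add, LinearMap.add_apply, map_add,
        LinearMap.add_apply]
      simp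
    | monomial n a =>
      rw [aeval_monomial, Module.End.mul_apply, Module.algebraMap_end_apply,
        aeval_monomial, Module.End.mul_apply, Module.algebraMap_end_apply,
        aeval_monomial, Module.End.mul_apply, Module.algebraMap_end_apply]
      have : ((Blk P 0 Q : Module.End F (U × W)) ^ n) (x, y) = ((P ^ n) x, (Q ^ n) y) := by
        induction n with
        | zero => simp
        | succ n ih =>
          rw [pow_succ', Module.End.mul_apply, ih, aux_blk_apply, pow_succ',
            Module.End.mul_apply, pow_succ', Module.End.mul_apply]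
          simp
      rw [this]
      simp
  rw [hin] at h1
  have e1 : (aeval P (b * LinearMap.charpoly Q)) u = u := by
    have e2 := congrArg (fun q => (aeval P q) u) hab
    simp only [map_add, map_mul, LinearMap.aeval_self_charpoly, mul_zero, zero_add, map_one,
      Module.End.one_apply] at e2
    rw [map_mul]
    exact e2
  have e2 : (aeval Q (b * LinearMap.charpoly Q)) w = 0 := by
    rw [map_mul, LinearMap.aeval_self_charpoly, mul_zero, LinearMap.zero_apply]
  rw [e1, e2] at h1
  exact aux_top P 0 Q C hC u hu h1 u w hw hz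

/-- a non-split extension with one common simple eigenvalue is cyclic -/
theorem ext_cyclic {F U W : Type} [Field F] [AddCommGroup U] [Module F U] [FiniteDimensional F U]
    [AddCommGroup W] [Module F W] [FiniteDimensional F W]
    (P : Module.End F U) (Q : Module.End F W) (lam : F) (g1 g2 : F[X])
    (hP : CycS P lam g1) (hQ : CycS Q lam g2) (h12 : IsCoprime g1 g2)
    (h1 : g1.eval lam ≠ 0) (h2 : g2.eval lam ≠ 0)
    (Z : W →ₗ[F] U) (φ : U →ₗ[F] F) (hφ : ∀ x, φ (P x) = lam * φ x)
    (v : W) (hv : Q v = lam • v) (hZ : φ (Z v) ≠ 0) :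
    ∃ z, Cyc (Blk P Z Q) z := by
  obtain ⟨⟨uc, huc⟩, hPc⟩ := hP
  obtain ⟨⟨x0, hx0⟩, hQc⟩ := hQ
  have hφu : φ uc ≠ 0 := by
    intro h0
    have ht : LinearMap.ker φ = ⊤ := by
      apply huc
      · exact h0
      · intro x hx
        rw [LinearMap.mem_ker] at hx ⊢
        rw [hφ, hx, mul_zero]
    have : Z v ∈ LinearMap.ker φ := by rw [ht]; trivial
    exact hZ this
  -- coprimality
  have hcop : IsCoprime g1 ((X - C lam) * g2) := by
    apply IsCoprime.mul_right _ h12
    apply IsCoprime.symm
    rw [(irreducible_X_sub_C lam).coprime_iff_not_dvd, dvd_iff_isRoot]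
    exact h1
  obtain ⟨a, b, hab⟩ := hcop
  -- (ii)
  have hii : ∀ ζ : U, φ ζ = 0 → ∃ u', (aeval P ((X - C lam) * g2)) u' = ζ := by
    intro ζ hζ
    obtain ⟨ξ, hξ⟩ := aux_ker_range P uc huc lam φ hφ hφu ζ hζ
    have hg : (aeval P g1) ζ = 0 := by
      have e0 : (aeval P ((X - C lam) * g1)) ξ = 0 := by
        rw [← hPc, LinearMap.aeval_self_charpoly, LinearMap.zero_apply]
      rw [mul_comm, map_mul, Module.End.mul_apply, map_sub, aeval_X, aeval_C,
        LinearMap.sub_apply, Module.algebraMap_end_apply, hξ] at e0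
      exact e0
    refine ⟨(aeval P b) ζ, ?_⟩
    rw [← Module.End.mul_apply, ← map_mul]
    have e2 := congrArg (fun q => (aeval P q) ζ) hab
    simp only [map_add, map_one, Module.End.one_apply, LinearMap.add_apply] at e2
    have e3 : (aeval P (a * g1)) ζ = 0 := by
      rw [map_mul, Module.End.mul_apply, hg, map_zero]
    rw [e3, zero_add] at e2
    rw [mul_comm]
    exact e2
  -- (iii)
  have hyW : Q ((aeval Q g2) x0) = lam • ((aeval Q g2) x0) := by
    have e0 : (aeval Q ((X - C lam) * g2)) x0 = 0 := by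
      rw [← hQc, LinearMap.aeval_self_charpoly, LinearMap.zero_apply]
    rw [map_mul, Module.End.mul_apply, map_sub, aeval_X, aeval_C,
      LinearMap.sub_apply, Module.algebraMap_end_apply] at e0
    exact sub_eq_zero.mp e0
  have hZy : φ (Z ((aeval Q g2) x0)) ≠ 0 := by
    obtain ⟨f, hf⟩ := aux_cyc_surj Q x0 hx0 v
    have e1 : (aeval Q ((X - C lam) * f)) x0 = 0 := by
      rw [map_mul, Module.End.mul_apply, map_sub, aeval_X, aeval_C,
        LinearMap.sub_apply, Module.algebraMap_end_apply, hf, hv, sub_self]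
    have e2 := aux_ker_dvd Q x0 hx0 _ e1
    rw [hQc] at e2
    have e3 : g2 ∣ f := by
      have hne : (X - C lam : F[X]) ≠ 0 := X_sub_C_ne_zero lam
      exact (mul_dvd_mul_iff_left hne).mp e2
    obtain ⟨k, hk⟩ := e3
    have e4 : v = k.eval lam • ((aeval Q g2) x0) := by
      rw [← aux_eigen_poly Q lam _ hyW k, ← Module.End.mul_apply, ← map_mul, mul_comm, ← hk, hf]
    intro h0
    apply hZ
    rw [e4, map_smul, map_smul, h0, smul_zero]
  -- ζ0
  set M : Module.End F (U × W) := Blk P Z Q with hM
  set y : U × W := (aeval M g2) (0, x0) with hy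
  have hy2 : y.2 = (aeval Q g2) x0 := aux_blk_snd P Z Q g2 (0, x0)
  have e5 : (aeval M ((X - C lam) * g2)) (0, x0) = (P y.1 + Z y.2 - lam • y.1, 0) := by
    rw [map_mul, Module.End.mul_apply, map_sub, aeval_X, aeval_C,
        LinearMap.sub_apply, Module.algebraMap_end_apply, ← hy, hM, aux_blk_apply]
    apply Prod.ext
    · simp
    · simp only [Prod.snd_sub, Prod.smul_snd]
      rw [hy2, hyW, sub_self]
  obtain ⟨ζ0, hζ0⟩ : ∃ ζ0, ζ0 = P y.1 + Z y.2 - lam • y.1 := ⟨_, rfl⟩
  have e6 : φ ζ0 ≠ 0 := by
    rw [hζ0, map_sub, map_add, hφ, map_smul, smul_eq_mul, hy2]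
    intro h0
    apply hZy
    linear_combination h0
  have hc : φ ζ0 / φ uc ≠ 0 := div_ne_zero e6 hφu
  have huc' := aux_cyc_smul P uc huc _ hc
  have e7 : φ ((φ ζ0 / φ uc) • uc - ζ0) = 0 := by
    rw [map_sub, map_smul, smul_eq_mul, div_mul_cancel₀ _ hφu, sub_self]
  obtain ⟨u', hu'⟩ := hii _ e7
  refine ⟨(u', x0), fun D hz hD => ?_⟩
  have h1 := aux_inv_aeval _ D hD ((X - C lam) * g2) _ hz
  have e8 : ((u', x0) : U × W) = (u', 0) + (0, x0) := by simp
  have e9 : (aeval (R := F) (A := Module.End F (U × W)) M ((X - C lam) * g2)) (u', x0) =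
      ((φ ζ0 / φ uc) • uc, 0) := by
    rw [e8, map_add, e5, ← hζ0, hM, aux_blk_inl, hu']
    simp
  have h1' : (((φ ζ0 / φ uc) • uc, 0) : U × W) ∈ D := by
    rw [← e9]
    exact h1
  exact aux_top P Z Q D hD _ huc' h1' u' x0 hx0 hz

end F1
end Pool.Agent.PC

namespace Pool.Agent.PC
namespace F1b
open Pool.Agent.PC.F1 (prod_cyclic)
open Pool.Agent.PC.F1 (ext_cyclic)

open Module Polynomial

theorem combine_blk_apply {F U W : Type} [Field F] [AddCommGroup U] [Module F U] [AddCommGroup W]
    [Module F W] (P : U →ₗ[F] U) (Z : W →ₗ[F] U) (Q : W →ₗ[F] W) (x : U × W) :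
    Blk P Z Q x = (P x.1 + Z x.2, Q x.2) := rfl

theorem combine_blk_mul {F U W : Type} [Field F] [AddCommGroup U] [Module F U] [AddCommGroup W]
    [Module F W] (A P : Module.End F U) (Z : W →ₗ[F] U) (D Q : Module.End F W) :
    (Blk A Z D : Module.End F (U × W)) * Blk P 0 Q = Blk (A * P) (Z.comp Q) (D * Q) := by
  apply LinearMap.ext
  intro x
  rw [Module.End.mul_apply, combine_blk_apply, combine_blk_apply, combine_blk_apply]
  simp

theorem combine_blk_one {F U W : Type} [Field F] [AddCommGroup U] [Module F U] [AddCommGroup W]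
    [Module F W] :
    (Blk (1 : Module.End F U) 0 (1 : Module.End F W) : Module.End F (U × W)) = 1 := by
  apply LinearMap.ext
  intro x
  rw [combine_blk_apply]
  simp

theorem combine_blk_sim {F U W : Type} [Field F] [AddCommGroup U] [Module F U] [AddCommGroup W]
    [Module F W] {a A : Module.End F U} {d D : Module.End F W} (h : Sim a A) (h' : Sim d D) :
    Sim (Blk a 0 d) (Blk A 0 D) := by
  obtain ⟨e, he⟩ := h
  obtain ⟨e', he'⟩ := h'
  refine ⟨LinearEquiv.prodCongr e e', fun x => ?_⟩
  rw [combine_blk_apply, combine_blk_apply]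
  simp [he, he']

theorem combine_list {F U W : Type} [Field F] [AddCommGroup U] [Module F U] [AddCommGroup W]
    [Module F W] (a : Module.End F U) (d : Module.End F W) (k : ℕ) :
    ∀ (lP : List (Module.End F U)) (lQ : List (Module.End F W)), lP.length = k → lQ.length = k →
      (∀ b ∈ lP, Sim a b) → (∀ b ∈ lQ, Sim d b) →
      Rep (Blk a 0 d) (Blk lP.prod 0 lQ.prod) k := by
  induction k with
  | zero =>
    intro lP lQ h1 h2 _ _
    have e1 := List.length_eq_zero_iff.1 h1
    have e2 := List.length_eq_zero_iff.1 h2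
    subst e1 e2
    refine ⟨[], rfl, by simp, ?_⟩
    rw [List.prod_nil, List.prod_nil, List.prod_nil, combine_blk_one]
  | succ k ih =>
    intro lP lQ h1 h2 h3 h4
    cases lP with
    | nil => simp at h1
    | cons A lP =>
      cases lQ with
      | nil => simp at h2
      | cons D lQ =>
        obtain ⟨l, hl1, hl2, hl3⟩ := ih lP lQ (by simpa using h1) (by simpa using h2)
          (fun b hb => h3 b (List.mem_cons_of_mem _ hb))
          (fun b hb => h4 b (List.mem_cons_of_mem _ hb))
        refine ⟨Blk A 0 D :: l, by simp [hl1], ?_, ?_⟩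
        · intro b hb
          rcases List.mem_cons.1 hb with rfl | hb
          · exact combine_blk_sim (h3 A List.mem_cons_self) (h4 D List.mem_cons_self)
          · exact hl2 b hb
        · rw [List.prod_cons, List.prod_cons, List.prod_cons, hl3, combine_blk_mul]
          rfl

theorem combine_eig {F V : Type} [Field F] [AddCommGroup V] [Module F V] [FiniteDimensional F V]
    {b : Module.End F V} {lam : F} {g : F[X]} (h : CycS b lam g) :
    ∃ v : V, v ≠ 0 ∧ b v = lam • v := by
  have h1 : (LinearMap.charpoly b).IsRoot lam := by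
    rw [h.2, IsRoot.def, eval_mul]
    simp
  rw [← Module.End.hasEigenvalue_iff_isRoot_charpoly] at h1
  obtain ⟨v, hv⟩ := h1.exists_hasEigenvector
  exact ⟨v, hv.2, hv.apply_eq_smul⟩

theorem combine_dual {F V : Type} [Field F] [AddCommGroup V] [Module F V] [FiniteDimensional F V]
    {b : Module.End F V} {lam : F} {g : F[X]} (h : CycS b lam g) :
    ∃ φ : V →ₗ[F] F, φ ≠ 0 ∧ ∀ x, φ (b x) = lam * φ x := by
  obtain ⟨v, hv0, hv⟩ := combine_eig h
  have h1 : ¬ Function.Surjective (b - lam • (LinearMap.id : V →ₗ[F] V)) := by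
    intro hs
    have hi := LinearMap.injective_iff_surjective.2 hs
    apply hv0
    apply hi
    rw [map_zero, LinearMap.sub_apply, hv]
    simp
  have h2 : LinearMap.range (b - lam • (LinearMap.id : V →ₗ[F] V)) < ⊤ := by
    rw [lt_top_iff_ne_top]
    intro h3
    exact h1 (LinearMap.range_eq_top.1 h3)
  obtain ⟨φ, hφ0, hφ⟩ := Submodule.exists_le_ker_of_lt_top _ h2
  refine ⟨φ, hφ0, fun x => ?_⟩
  have h3 := hφ (LinearMap.mem_range_self _ x)
  rw [LinearMap.mem_ker, LinearMap.sub_apply, map_sub, sub_eq_zero] at h3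
  rw [h3]
  simp

/-- combining two factorisations into a cyclic element of the direct sum -/
theorem combine {F U W : Type} [Field F] [AddCommGroup U] [Module F U] [FiniteDimensional F U]
    [AddCommGroup W] [Module F W] [FiniteDimensional F W]
    (a : Module.End F U) (d : Module.End F W) (k : ℕ) (hk : 1 ≤ k)
    (hd : ∀ (c : F) (x : W), d x = c • x → x = 0)
    (P : Module.End F U) (Q : Module.End F W) (lam : F) (hlam : lam ≠ 0) (g1 g2 : F[X])
    (hP : CycS P lam g1) (hQ : CycS Q lam g2) (h12 : IsCoprime g1 g2)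
    (h1 : g1.eval lam ≠ 0) (h2 : g2.eval lam ≠ 0)
    (hrP : Rep a P k) (hrQ : Rep d Q k) (ha : LinearMap.det a ≠ 0) (hd0 : LinearMap.det d ≠ 0) :
    ∃ (e : Module.End F (U × W)) (z : U × W), Rep (Blk a 0 d) e k ∧ Cyc e z := by
  obtain ⟨k, rfl⟩ : ∃ k', k = k' + 1 := ⟨k - 1, by omega⟩
  obtain ⟨lP, hlP1, hlP2, hlP3⟩ := hrP
  obtain ⟨lQ, hlQ1, hlQ2, hlQ3⟩ := hrQ
  cases lP with
  | nil => simp at hlP1
  | cons A lP =>
  cases lQ with
  | nil => simp at hlQ1
  | cons D lQ =>
  rw [List.prod_cons] at hlP3 hlQ3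
  have hA : Sim a A := hlP2 A List.mem_cons_self
  have hD : Sim d D := hlQ2 D List.mem_cons_self
  obtain ⟨l, hl1, hl2, hl3⟩ := combine_list a d k lP lQ (by simpa using hlP1) (by simpa using hlQ1)
    (fun b hb => hlP2 b (List.mem_cons_of_mem _ hb))
    (fun b hb => hlQ2 b (List.mem_cons_of_mem _ hb))
  -- `D` has no eigenvectors
  have hDe : ∀ (c : F) (x : W), D x = c • x → x = 0 := by
    intro c x hx
    obtain ⟨e, he⟩ := hD
    have h3 : D (e (e.symm x)) = e (d (e.symm x)) := he _
    rw [e.apply_symm_apply, hx] at h3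
    have h4 : d (e.symm x) = c • e.symm x := by
      apply e.injective
      rw [← h3, map_smul, e.apply_symm_apply]
    have h5 := hd c _ h4
    rw [LinearEquiv.map_eq_zero_iff] at h5
    exact h5
  have hDi : Function.Injective D := by
    rw [← LinearMap.ker_eq_bot, LinearMap.ker_eq_bot']
    intro x hx
    exact hDe 0 x (by rw [hx, zero_smul])
  have hDs : Function.Surjective D := LinearMap.injective_iff_surjective.1 hDi
  obtain ⟨φ, hφ0, hφ⟩ := combine_dual hP
  obtain ⟨v, hv0, hv⟩ := combine_eig hQ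
  obtain ⟨x1, hx1⟩ := hDs v
  have hnot : v ∉ Submodule.span F {x1} := by
    intro hmem
    obtain ⟨c, hc⟩ := Submodule.mem_span_singleton.1 hmem
    have h3 : x1 = 0 := hDe c x1 (by rw [hx1, hc])
    apply hv0
    rw [← hx1, h3, map_zero]
  obtain ⟨f, hfv, hf⟩ := Submodule.exists_le_ker_of_notMem hnot
  have hfx : f x1 = 0 := hf (Submodule.mem_span_singleton_self x1)
  obtain ⟨z0, hz0⟩ : ∃ z0, φ z0 ≠ 0 := by
    by_contra hcon
    push Not at hcon
    exact hφ0 (LinearMap.ext fun x => by rw [hcon x]; rfl)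
  let Y : W →ₗ[F] U := f.smulRight z0
  have hYx : Y x1 = 0 := by
    show f x1 • z0 = 0
    rw [hfx, zero_smul]
  have hYv : Y v = f v • z0 := rfl
  have hQ'v : lQ.prod v = lam • x1 := by
    apply hDi
    rw [map_smul, hx1, ← hv, ← hlQ3]
    rfl
  let Z1 : W →ₗ[F] U := LinearMap.comp A Y - Y.comp D
  have hsim : Sim (Blk a 0 d) (Blk A Z1 D) := by
    obtain ⟨e, he⟩ := combine_blk_sim hA hD
    let g : (U × W) ≃ₗ[F] (U × W) :=
      { toFun := fun x => (x.1 - Y x.2, x.2)
        invFun := fun x => (x.1 + Y x.2, x.2)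
        map_add' := by
          intro x y
          ext
          · simp only [Prod.fst_add, Prod.snd_add, map_add]
            abel
          · rfl
        map_smul' := by
          intro c x
          ext
          · simp only [Prod.smul_fst, Prod.smul_snd, map_smul, RingHom.id_apply, smul_sub]
          · rfl
        left_inv := by
          intro x
          ext <;> simp
        right_inv := by
          intro x
          ext <;> simp }
    refine ⟨e.trans g, fun x => ?_⟩
    have h3 : ∀ y : U × W, Blk A Z1 D (g y) = g (Blk A 0 D y) := by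
      intro y
      show Blk A Z1 D (y.1 - Y y.2, y.2) = ((Blk A 0 D y).1 - Y (Blk A 0 D y).2, (Blk A 0 D y).2)
      rw [combine_blk_apply, combine_blk_apply]
      simp only [Z1, LinearMap.sub_apply, LinearMap.comp_apply, map_sub, LinearMap.zero_apply,
        add_zero]
      ext
      · simp only []
        abel
      · rfl
    rw [LinearEquiv.trans_apply, LinearEquiv.trans_apply, h3, he]
  obtain ⟨z, hz⟩ := ext_cyclic P Q lam g1 g2 hP hQ h12 h1 h2 (Z1.comp lQ.prod) φ hφ v hv (by
    have h3 : (Z1.comp lQ.prod) v = -(lam • (f v • z0)) := by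
      show A (Y (lQ.prod v)) - Y (D (lQ.prod v)) = _
      rw [hQ'v, map_smul, hYx, smul_zero, map_zero, map_smul, hx1, map_smul, hYv, zero_sub]
    rw [h3, map_neg, map_smul, map_smul, smul_eq_mul, smul_eq_mul]
    exact neg_ne_zero.2 (mul_ne_zero hlam (mul_ne_zero hfv hz0)))
  refine ⟨Blk P (Z1.comp lQ.prod) Q, z, ⟨Blk A Z1 D :: l, by simp [hl1], ?_, ?_⟩, hz⟩
  · intro b hb
    rcases List.mem_cons.1 hb with rfl | hb
    · exact hsim
    · exact hl2 b hb
  · rw [List.prod_cons, hl3, combine_blk_mul, hlP3, hlQ3]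

/-- the same in the coprime case -/
theorem combine' {F U W : Type} [Field F] [AddCommGroup U] [Module F U] [FiniteDimensional F U]
    [AddCommGroup W] [Module F W] [FiniteDimensional F W]
    (a : Module.End F U) (d : Module.End F W) (k : ℕ)
    (P : Module.End F U) (Q : Module.End F W) (u : U) (w : W) (hu : Cyc P u) (hw : Cyc Q w)
    (hc : IsCoprime (LinearMap.charpoly P) (LinearMap.charpoly Q))
    (hrP : Rep a P k) (hrQ : Rep d Q k) :
    ∃ (e : Module.End F (U × W)) (z : U × W), Rep (Blk a 0 d) e k ∧ Cyc e z := by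
  obtain ⟨lP, hlP1, hlP2, hlP3⟩ := hrP
  obtain ⟨lQ, hlQ1, hlQ2, hlQ3⟩ := hrQ
  obtain ⟨z, hz⟩ := prod_cyclic P Q u w hu hw hc
  refine ⟨Blk P 0 Q, z, ?_, hz⟩
  rw [← hlP3, ← hlQ3]
  exact combine_list a d k lP lQ hlP1 hlQ1 hlP2 hlQ2

end F1b
end Pool.Agent.PC

namespace Pool.Agent.PC
namespace F3

open Module Polynomial

section RepTwoAux

variable {F V : Type} [Field F] [AddCommGroup V] [Module F V] [FiniteDimensional F V]

/-- basis from a pair of independent vectors -/
noncomputable def rtB (h2 : finrank F V = 2) (x y : V) (h : LinearIndependent F ![x, y]) :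
    Basis (Fin 2) F V :=
  basisOfLinearIndependentOfCardEqFinrank h (by simp [h2])

theorem rtB_zero (h2 : finrank F V = 2) (x y : V) (h : LinearIndependent F ![x, y]) :
    rtB h2 x y h 0 = x := by
  simp [rtB]

theorem rtB_one (h2 : finrank F V = 2) (x y : V) (h : LinearIndependent F ![x, y]) :
    rtB h2 x y h 1 = y := by
  simp [rtB]

theorem rt_cyc (h2 : finrank F V = 2) (P : Module.End F V) (w : V)
    (h : LinearIndependent F ![w, P w]) : Cyc P w := by
  intro p hw hp
  rw [eq_top_iff, ← (rtB h2 w (P w) h).span_eq, Submodule.span_le]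
  rintro _ ⟨i, rfl⟩
  fin_cases i
  · show rtB h2 w (P w) h 0 ∈ p
    rw [rtB_zero]; exact hw
  · show rtB h2 w (P w) h 1 ∈ p
    rw [rtB_one]; exact hp _ hw

theorem rt_cyc_of_nonscal (h2 : finrank F V = 2) (P : Module.End F V) (h : ¬ Scal P) :
    ∃ w, Cyc P w := by
  by_contra hcon
  apply h
  have : ∀ v, ¬ LinearIndependent F ![v, P v] := by
    intro v hv
    exact hcon ⟨v, rt_cyc h2 P v hv⟩
  obtain ⟨c, hc⟩ := LinearMap.exists_eq_smul_id_of_forall_notLinearIndependent this
  exact ⟨c, fun x => by rw [hc]; rfl⟩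

theorem rt_indep (a : Module.End F V) (hev : ∀ (c : F) (x : V), a x = c • x → x = 0)
    (x : V) (hx : x ≠ 0) : LinearIndependent F ![x, a x] := by
  rw [LinearIndependent.pair_iff' hx]
  intro c hc
  exact hx (hev c x hc.symm)

/-- coefficients of the characteristic polynomial in dimension two -/
theorem rt_charpoly (h2 : finrank F V = 2) (P : Module.End F V) :
    ∃ c1 : F, (∀ u, (LinearMap.charpoly P).eval u = u ^ 2 + c1 * u + LinearMap.det P) ∧
      ∀ x, P (P x) = -(c1 • P x) - LinearMap.det P • x := by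
  have hm := LinearMap.charpoly_monic P
  have hd : (LinearMap.charpoly P).natDegree = 2 := by rw [LinearMap.charpoly_natDegree, h2]
  have h0 : (LinearMap.charpoly P).coeff 0 = LinearMap.det P := by
    rw [LinearMap.det_eq_sign_charpoly_coeff, h2]; ring
  have h2c : (LinearMap.charpoly P).coeff 2 = 1 := by
    have := hm.coeff_natDegree
    rwa [hd] at this
  have hq : LinearMap.charpoly P
      = X ^ 2 + C ((LinearMap.charpoly P).coeff 1) * X + C (LinearMap.det P) := by
    have hs := Polynomial.as_sum_range_C_mul_X_pow' (LinearMap.charpoly P) (n := 3)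
      (by rw [hd]; norm_num)
    rw [Finset.sum_range_succ, Finset.sum_range_succ, Finset.sum_range_succ,
      Finset.sum_range_zero, h0, h2c] at hs
    conv_lhs => rw [hs]
    simp only [pow_zero, mul_one, pow_one, map_one, one_mul, zero_add]
    ring
  refine ⟨(LinearMap.charpoly P).coeff 1, ?_, ?_⟩
  · intro u
    conv_lhs => rw [hq]
    simp
  · intro x
    have h := LinearMap.aeval_self_charpoly P
    rw [hq] at h
    have hx := congrArg (fun T : Module.End F V => T x) h
    simp only [map_add, map_mul, map_pow, aeval_X, aeval_C, LinearMap.add_apply,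
      Module.End.mul_apply, pow_two, LinearMap.zero_apply, Module.algebraMap_end_apply] at hx
    have e : P (P x) = (P (P x) + (LinearMap.charpoly P).coeff 1 • P x + LinearMap.det P • x)
      - (LinearMap.charpoly P).coeff 1 • P x - LinearMap.det P • x := by abel
    rw [e, hx]
    abel

theorem rt_noroot (h2 : finrank F V = 2) (a : Module.End F V)
    (hev : ∀ (c : F) (x : V), a x = c • x → x = 0) (c1 c0 : F)
    (hq : ∀ x, a (a x) = -(c1 • a x) - c0 • x) (c : F) : c ^ 2 + c1 * c + c0 ≠ 0 := by
  intro h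
  have hnt : Nontrivial V := by
    apply Module.nontrivial_of_finrank_pos (R := F)
    omega
  obtain ⟨x, hx⟩ := exists_ne (0 : V)
  have hy : a x + (c1 + c) • x = 0 := by
    apply hev c
    rw [map_add, map_smul, hq]
    match_scalars
    · ring
    · linear_combination -h
  apply hx
  apply hev (-(c1 + c))
  rw [neg_smul]
  exact eq_neg_of_add_eq_zero_left hy

theorem rt_pow_inj (a : Module.End F V) (hev : ∀ (c : F) (x : V), a x = c • x → x = 0) (n : ℕ) :
    ∀ x, (a ^ n) x = 0 → x = 0 := by
  induction n with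
  | zero => intro x hx; simpa using hx
  | succ n ih =>
    intro x hx
    rw [pow_succ, Module.End.mul_apply] at hx
    have := ih _ hx
    exact hev 0 x (by rw [this, zero_smul])

theorem rt_pow_free (a : Module.End F V) (hev : ∀ (c : F) (x : V), a x = c • x → x = 0)
    (N k : ℕ) (hN : a ^ N = 1) (hk : (k * k) % N = 1) (c : F) (x : V)
    (h : (a ^ k) x = c • x) : x = 0 := by
  have h1 : ∀ n : ℕ, ((a ^ k) ^ n) x = c ^ n • x := by
    intro n
    induction n with
    | zero => simp
    | succ n ih =>
      rw [pow_succ, Module.End.mul_apply, h, map_smul, ih, smul_smul, pow_succ, mul_comm]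
  have h2 : (a ^ k) ^ k = a := by
    rw [← pow_mul, ← Nat.div_add_mod (k * k) N, hk, pow_add, pow_mul, hN, one_pow, one_mul, pow_one]
  have h3 := h1 k
  rw [h2] at h3
  exact hev _ _ h3

theorem rt_rep_pow (a : Module.End F V) (j : ℕ) : Rep a (a ^ j) j := by
  refine ⟨List.replicate j a, by simp, ?_, by simp⟩
  intro d hd
  rw [List.eq_of_mem_replicate hd]
  exact ⟨LinearEquiv.refl F V, fun x => rfl⟩

theorem rt_rep_pow_mul (a a' : Module.End F V) (hs : Sim a a') (j : ℕ) :
    Rep a (a ^ j * a') (j + 1) := by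
  refine ⟨List.replicate j a ++ [a'], by simp, ?_, by simp⟩
  intro d hd
  rw [List.mem_append] at hd
  rcases hd with hd | hd
  · rw [List.eq_of_mem_replicate hd]
    exact ⟨LinearEquiv.refl F V, fun x => rfl⟩
  · rw [List.mem_singleton] at hd
    rw [hd]; exact hs

theorem rt_nonscal (h2 : finrank F V = 2) (a : Module.End F V)
    (hev : ∀ (c : F) (x : V), a x = c • x → x = 0) (j : ℕ) (hj : 1 ≤ j) :
    ∃ P : Module.End F V, Rep a P j ∧ ¬ Scal P ∧ LinearMap.det P = LinearMap.det a ^ j := by
  by_cases hs : Scal (a ^ j)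
  · obtain ⟨c, hc⟩ := hs
    obtain ⟨n, rfl⟩ : ∃ n, j = n + 1 := ⟨j - 1, by omega⟩
    have hnt : Nontrivial V := by
      apply Module.nontrivial_of_finrank_pos (R := F)
      omega
    obtain ⟨x, hx⟩ := exists_ne (0 : V)
    have hi1 := rt_indep a hev x hx
    have hi2 : LinearIndependent F ![x, a x + x] := by
      rw [LinearIndependent.pair_iff' hx]
      intro c hc
      apply hx
      apply hev (c - 1)
      rw [sub_smul, one_smul, hc]; abel
    let e : V ≃ₗ[F] V := (rtB h2 _ _ hi1).equiv (rtB h2 _ _ hi2) (Equiv.refl _)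
    have he1 : e x = x := by
      have := (rtB h2 _ _ hi1).equiv_apply 0 (rtB h2 _ _ hi2) (Equiv.refl _)
      rw [rtB_zero] at this
      simpa [e, rtB_zero] using this
    have he2 : e (a x) = a x + x := by
      have := (rtB h2 _ _ hi1).equiv_apply 1 (rtB h2 _ _ hi2) (Equiv.refl _)
      rw [rtB_one] at this
      simpa [e, rtB_one] using this
    let a' : Module.End F V := (e : V →ₗ[F] V) ∘ₗ a ∘ₗ (e.symm : V →ₗ[F] V)
    have hsim : Sim a a' := ⟨e, fun z => by simp [a']⟩
    have ha'x : a' x = a x + x := by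
      have : e.symm x = x := by rw [LinearEquiv.symm_apply_eq, he1]
      simp [a', this, he2]
    refine ⟨a ^ n * a', rt_rep_pow_mul a a' hsim n, ?_, ?_⟩
    · rintro ⟨c', hc'⟩
      have h1 := hc' x
      rw [Module.End.mul_apply, ha'x, map_add] at h1
      have h3 : (a ^ n) (a x) = c • x := by
        have := hc x
        rwa [pow_succ, Module.End.mul_apply] at this
      rw [h3] at h1
      have h4 : (a ^ n) x = (c' - c) • x := by
        rw [sub_smul, ← h1]; abel
      have h5 : a ((a ^ n) x) = c • x := by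
        have := hc x
        rwa [pow_succ', Module.End.mul_apply] at this
      rw [h4, map_smul] at h5
      by_cases h6 : c' - c = 0
      · rw [h6, zero_smul] at h4
        exact hx (rt_pow_inj a hev n x h4)
      · apply hx
        apply hev ((c' - c)⁻¹ * c)
        rw [mul_smul, ← h5, smul_smul, inv_mul_cancel₀ h6, one_smul]
    · rw [map_mul, map_pow, pow_succ]
      congr 1
      exact LinearMap.det_conj a e
  · exact ⟨a ^ j, rt_rep_pow a j, hs, map_pow _ _ _⟩

theorem rt_free (h2 : finrank F V = 2) (P : Module.End F V)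
    (hev : ∀ (c : F) (x : V), P x = c • x → x = 0) :
    ∃ w, Cyc P w ∧ (LinearMap.charpoly P).eval 1 ≠ 0 := by
  have hnt : Nontrivial V := by
    apply Module.nontrivial_of_finrank_pos (R := F)
    omega
  obtain ⟨x, hx⟩ := exists_ne (0 : V)
  obtain ⟨c1, h1, h3⟩ := rt_charpoly h2 P
  refine ⟨x, rt_cyc h2 P x (rt_indep P hev x hx), ?_⟩
  rw [h1]
  exact rt_noroot h2 P hev c1 _ h3 1

end RepTwoAux

/-- two-dimensional irreducible case -/
theorem rep_two {F V : Type} [Field F] [AddCommGroup V] [Module F V] [FiniteDimensional F V]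
    (h2 : finrank F V = 2) (a : Module.End F V) (hev : ∀ (c : F) (x : V), a x = c • x → x = 0)
    (j : ℕ) (hj : 1 ≤ j) :
    ∃ (P : Module.End F V) (w : V) (lam : F), Rep a P j ∧ Cyc P w ∧ lam ≠ 0 ∧
      (LinearMap.charpoly P).eval lam ≠ 0 := by
  classical
  obtain ⟨c1, hc1, hq⟩ := rt_charpoly h2 a
  have hnr := rt_noroot h2 a hev c1 _ hq
  set d : F := LinearMap.det a with hd
  obtain ⟨P, hP1, hP2, hP3⟩ := rt_nonscal h2 a hev j hj
  obtain ⟨w, hw⟩ := rt_cyc_of_nonscal h2 P hP2
  obtain ⟨p1, hp1, -⟩ := rt_charpoly h2 P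
  have hd0 : d ≠ 0 := by simpa using hnr 0
  by_cases hA : ∃ u v : F, u ≠ 0 ∧ v ≠ 0 ∧ u ≠ 1 ∧ v ≠ 1 ∧ u ≠ v
  · -- at least four elements
    obtain ⟨u, v, hu0, hv0, hu1, hv1, huv⟩ := hA
    have : ∃ lam : F, lam ≠ 0 ∧ (LinearMap.charpoly P).eval lam ≠ 0 := by
      by_contra hcon
      push Not at hcon
      have e1 := hcon 1 one_ne_zero
      have e2 := hcon u hu0
      have e3 := hcon v hv0
      rw [hp1] at e1 e2 e3
      have f1 : (u - 1) * (u + 1 + p1) = 0 := by linear_combination e2 - e1
      have f2 : (v - 1) * (v + 1 + p1) = 0 := by linear_combination e3 - e1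
      have g1 := (mul_eq_zero.mp f1).resolve_left (sub_ne_zero.mpr hu1)
      have g2 := (mul_eq_zero.mp f2).resolve_left (sub_ne_zero.mpr hv1)
      exact huv (by linear_combination g1 - g2)
    obtain ⟨lam, hl0, hl1⟩ := this
    exact ⟨P, w, lam, hP1, hw, hl0, hl1⟩
  · push Not at hA
    by_cases h11 : (1 : F) = -1
    · -- two elements
      have hF : ∀ u : F, u ≠ 0 → u = 1 := by
        intro u hu
        by_contra hu1
        have h3 : u = u + 1 := by
          apply hA u (u + 1) hu _ hu1 _
          · intro h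
            apply hu1
            rw [h11]
            exact eq_neg_of_add_eq_zero_left h
          · intro h
            apply hu
            linear_combination h
        exact one_ne_zero (α := F) (by linear_combination -h3)
      have h20 : (1 : F) + 1 = 0 := by linear_combination h11
      have hd1 : d = 1 := hF d hd0
      have hc11 : c1 = 1 := by
        apply hF
        intro h
        apply hnr 1
        rw [h, hd1]
        linear_combination h20
      rw [hc11, hd1] at hq
      have hq' : ∀ x, a (a x) = -(a x) - x := by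
        intro x
        rw [hq, one_smul, one_smul]
      have h3 : a ^ 3 = 1 := by
        ext x
        simp only [pow_succ, pow_zero, one_mul, Module.End.mul_apply, Module.End.one_apply]
        rw [hq', hq']
        abel
      have hsim : Sim a (a ^ 2) := by
        have hnt : Nontrivial V := by
          apply Module.nontrivial_of_finrank_pos (R := F)
          omega
        obtain ⟨x, hx⟩ := exists_ne (0 : V)
        have hi1 := rt_indep a hev x hx
        have hi2 : LinearIndependent F ![x, a (a x)] := by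
          rw [LinearIndependent.pair_iff' hx]
          intro c hc
          apply hx
          apply hev (-(1 + c))
          rw [hq'] at hc
          rw [neg_smul, add_smul, one_smul, hc]
          abel
        let e : V ≃ₗ[F] V := (rtB h2 _ _ hi1).equiv (rtB h2 _ _ hi2) (Equiv.refl _)
        have he1 : e x = x := by
          have := (rtB h2 _ _ hi1).equiv_apply 0 (rtB h2 _ _ hi2) (Equiv.refl _)
          rw [rtB_zero] at this
          simpa [e, rtB_zero] using this
        have he2 : e (a x) = a (a x) := by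
          have := (rtB h2 _ _ hi1).equiv_apply 1 (rtB h2 _ _ hi2) (Equiv.refl _)
          rw [rtB_one] at this
          simpa [e, rtB_one] using this
        refine ⟨e, ?_⟩
        have : (a ^ 2) ∘ₗ (e : V →ₗ[F] V) = (e : V →ₗ[F] V) ∘ₗ a := by
          apply (rtB h2 _ _ hi1).ext
          intro i
          fin_cases i
          · show ((a ^ 2) ∘ₗ (e : V →ₗ[F] V)) (rtB h2 _ _ hi1 0)
              = ((e : V →ₗ[F] V) ∘ₗ a) (rtB h2 _ _ hi1 0)
            rw [rtB_zero]
            simp [pow_two, he1, he2]
          · show ((a ^ 2) ∘ₗ (e : V →ₗ[F] V)) (rtB h2 _ _ hi1 1)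
              = ((e : V →ₗ[F] V) ∘ₗ a) (rtB h2 _ _ hi1 1)
            rw [rtB_one]
            simp only [LinearMap.comp_apply, LinearEquiv.coe_coe, pow_two, Module.End.mul_apply,
              he2]
            rw [hq' x]
            simp only [map_sub, map_neg, he1, he2, hq']
            abel
        intro z
        exact LinearMap.congr_fun this z
      obtain ⟨n, rfl⟩ : ∃ n, j = n + 1 := ⟨j - 1, by omega⟩
      by_cases hm : (n + 1) % 3 = 0
      · have hf := rt_pow_free a hev 3 (n + 2) h3 (by
          rw [Nat.mul_mod]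
          have : (n + 2) % 3 = 1 := by omega
          rw [this])
        obtain ⟨w', hw', hl⟩ := rt_free h2 (a ^ (n + 2)) hf
        refine ⟨a ^ (n + 2), w', 1, ?_, hw', one_ne_zero, hl⟩
        rw [pow_add]
        exact rt_rep_pow_mul a (a ^ 2) hsim n
      · have hf := rt_pow_free a hev 3 (n + 1) h3 (by
          rw [Nat.mul_mod]
          have : (n + 1) % 3 = 1 ∨ (n + 1) % 3 = 2 := by omega
          rcases this with h | h <;> rw [h])
        obtain ⟨w', hw', hl⟩ := rt_free h2 (a ^ (n + 1)) hf
        exact ⟨a ^ (n + 1), w', 1, rt_rep_pow a (n + 1), hw', one_ne_zero, hl⟩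
    · have hF : ∀ u : F, u ≠ 0 → u = 1 ∨ u = -1 := by
        intro u hu
        by_cases hu1 : u = 1
        · exact Or.inl hu1
        · refine Or.inr (hA u (-1) hu (neg_ne_zero.mpr one_ne_zero) hu1 ?_)
          intro h
          exact h11 h.symm
      have h20 : (2 : F) ≠ 0 := by
        intro h
        apply h11
        linear_combination h
      have h30 : (3 : F) = 0 := by
        rcases hF 2 h20 with h | h
        · exfalso
          exact one_ne_zero (α := F) (by linear_combination h)
        · linear_combination h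
      by_cases hdj : d ^ j = -1
      · have hdm : d = -1 := by
          rcases hF d hd0 with h | h
          · rw [h, one_pow] at hdj
            exact absurd hdj h11
          · exact h
        have hodd : j % 2 = 1 := by
          by_contra hcon
          have : Even j := Nat.even_iff.mpr (by omega)
          rw [hdm, this.neg_one_pow] at hdj
          exact h11 hdj
        have hc10 : c1 ≠ 0 := by
          intro h
          apply hnr 1
          rw [h, hdm]; ring
        have hc1sq : c1 * c1 = 1 := by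
          rcases hF c1 hc10 with h | h <;> rw [h] <;> ring
        rw [hdm] at hq
        have h4 : ∀ x, a (a (a (a x))) = -x := by
          intro x
          have e1 : a (a (a x)) = (1 + c1 * c1) • a x - c1 • x := by
            rw [hq (a x), hq x]; module
          rw [e1, map_sub, map_smul, map_smul, hq x]
          match_scalars
          · linear_combination (-c1) * h30 - c1 * hc1sq
          · linear_combination h30 + hc1sq
        have h8 : a ^ 8 = 1 := by
          ext x
          simp only [pow_succ, pow_zero, one_mul, Module.End.mul_apply, Module.End.one_apply]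
          rw [h4, h4, neg_neg]
        have hf := rt_pow_free a hev 8 j h8 (by
          have h : j % 8 = 1 ∨ j % 8 = 3 ∨ j % 8 = 5 ∨ j % 8 = 7 := by omega
          rw [Nat.mul_mod]
          rcases h with h | h | h | h <;> rw [h])
        obtain ⟨w', hw', hl⟩ := rt_free h2 (a ^ j) hf
        exact ⟨a ^ j, w', 1, rt_rep_pow a j, hw', one_ne_zero, hl⟩
      · by_cases he : (LinearMap.charpoly P).eval 1 = 0
        · refine ⟨P, w, -1, hP1, hw, neg_ne_zero.mpr one_ne_zero, ?_⟩
          intro he2
          rw [hp1, hP3] at he he2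
          apply hdj
          have h5 : (2 : F) * (d ^ j + 1) = 0 := by linear_combination he + he2
          have h6 := (mul_eq_zero.mp h5).resolve_left h20
          linear_combination h6
        · exact ⟨P, w, 1, hP1, hw, one_ne_zero, he⟩

end F3
end Pool.Agent.PC

namespace Pool.Agent.PC
namespace F4
open Pool.Agent.PC.A1a (cyc_of_span)

open Module Polynomial

theorem f4_irr {F V : Type} [Field F] [AddCommGroup V] [Module F V] [FiniteDimensional F V]
    (h3 : finrank F V = 3) (a : Module.End F V) (hev : ∀ (c : F) (x : V), a x = c • x → x = 0) :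
    Irreducible (LinearMap.charpoly a) := by
  apply irreducible_of_degree_le_three_of_not_isRoot
  · rw [LinearMap.charpoly_natDegree, h3]
    decide
  · intro c hc
    have h1 : a.HasEigenvalue c := (Module.End.hasEigenvalue_iff_isRoot_charpoly a c).mpr hc
    obtain ⟨v, hv⟩ := h1.exists_hasEigenvector
    exact hv.2 (hev c v hv.apply_eq_smul)

theorem f4_kill {F V : Type} [Field F] [AddCommGroup V] [Module F V] [FiniteDimensional F V]
    (h3 : finrank F V = 3) (a : Module.End F V) (hirr : Irreducible (LinearMap.charpoly a))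
    (q : F[X]) (hq : q ≠ 0) (hdeg : q.natDegree < 3) (x : V) (hx : (aeval a q) x = 0) : x = 0 := by
  have h1 : ¬ LinearMap.charpoly a ∣ q := by
    intro h
    have h2 := Polynomial.natDegree_le_of_dvd h hq
    rw [LinearMap.charpoly_natDegree, h3] at h2
    omega
  obtain ⟨r, s, hrs⟩ := (hirr.coprime_iff_not_dvd).mpr h1
  have h4 : (aeval a (r * LinearMap.charpoly a + s * q)) x = 0 := by
    rw [map_add, map_mul, map_mul, LinearMap.aeval_self_charpoly, mul_zero, zero_add]
    change (aeval a s) ((aeval a q) x) = 0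
    rw [hx, map_zero]
  rw [hrs, map_one] at h4
  exact h4

theorem f4_cyc {F V : Type} [Field F] [AddCommGroup V] [Module F V] [FiniteDimensional F V]
    (h3 : finrank F V = 3) (a : Module.End F V) (hirr : Irreducible (LinearMap.charpoly a))
    (x : V) (hx : x ≠ 0) : Cyc a x := by
  apply cyc_of_span
  have hli : LinearIndependent F (fun i : Fin 3 => (a ^ (i : ℕ)) x) := by
    rw [Fintype.linearIndependent_iff]
    intro g hg
    by_contra hne
    push Not at hne
    obtain ⟨i, hi⟩ := hne
    apply hx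
    set q : F[X] := ∑ j : Fin 3, Polynomial.monomial (j : ℕ) (g j) with hq
    have hcoef : ∀ j : Fin 3, q.coeff (j : ℕ) = g j := by
      intro j
      rw [hq, Polynomial.finsetSum_coeff, Finset.sum_eq_single j]
      · rw [Polynomial.coeff_monomial, if_pos rfl]
      · intro b _ hb
        rw [Polynomial.coeff_monomial, if_neg]
        intro h
        exact hb (Fin.ext h)
      · intro h
        exact absurd (Finset.mem_univ j) h
    have hq0 : q ≠ 0 := by
      intro h
      apply hi
      rw [← hcoef i, h, Polynomial.coeff_zero]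
    refine f4_kill h3 a hirr q hq0 ?_ x ?_
    · have h5 : q.natDegree ≤ 2 := by
        rw [hq]
        apply Polynomial.natDegree_sum_le_of_forall_le
        intro j _
        refine (Polynomial.natDegree_monomial_le _).trans ?_
        have := j.2
        omega
      omega
    · rw [hq, map_sum, LinearMap.sum_apply, ← hg]
      refine Finset.sum_congr rfl fun j _ => ?_
      rw [Polynomial.aeval_monomial]
      rw [Module.algebraMap_end_eq_smul_id]
      rfl
  have hspan := hli.span_eq_top_of_card_eq_finrank (by rw [h3, Fintype.card_fin])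
  rw [← hspan]
  apply Submodule.span_mono
  rintro _ ⟨i, rfl⟩
  exact ⟨i, rfl⟩

/-- three-dimensional case -/
theorem sq_three {F V : Type} [Field F] [AddCommGroup V] [Module F V] [FiniteDimensional F V]
    (h3 : finrank F V = 3) (a : Module.End F V) (hev : ∀ (c : F) (x : V), a x = c • x → x = 0) :
    (∃ w, Cyc a w) ∧ (∃ w, Cyc (a * a) w) ∧ Irreducible (LinearMap.charpoly (a * a)) ∧
      Irreducible (LinearMap.charpoly a) := by
  have hirr := f4_irr h3 a hev
  have hev2 : ∀ (c : F) (x : V), (a * a) x = c • x → x = 0 := by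
    intro c x hx
    refine f4_kill h3 a hirr (X^2 - C c) ?_ ?_ x ?_
    · exact (monic_X_pow_sub_C c (by norm_num)).ne_zero
    · rw [natDegree_X_pow_sub_C]
      norm_num
    · rw [map_sub, map_pow, aeval_X, aeval_C, pow_two, LinearMap.sub_apply, hx,
        Module.algebraMap_end_eq_smul_id]
      change c • x - c • x = 0
      rw [sub_self]
  have hirr2 := f4_irr h3 (a * a) hev2
  have hnt : Nontrivial V := by
    apply Module.nontrivial_of_finrank_pos (R := F)
    rw [h3]
    norm_num
  obtain ⟨w, hw⟩ := exists_ne (0 : V)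
  exact ⟨⟨w, f4_cyc h3 a hirr w hw⟩, ⟨w, f4_cyc h3 (a * a) hirr2 w hw⟩, hirr2, hirr⟩

end F4
end Pool.Agent.PC

namespace Pool.Agent.PC
namespace F6
open Pool.Agent.PC.E1 (exists_poly_avoid)
open Pool.Agent.PC.E1 (rep_mul)
open Pool.Agent.PC.E1 (rep_cycS_ge)
open Pool.Agent.PC.F1b (combine)
open Pool.Agent.PC.F1b (combine')
open Pool.Agent.PC.F2 (poly_pair)
open Pool.Agent.PC.F2 (poly_one)
open Pool.Agent.PC.F3 (rep_two)
open Pool.Agent.PC.F4 (sq_three)
open Pool.Agent.PC.F5 (decomp)

open Module Polynomial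

theorem q8094_inj {F V : Type} [Field F] [AddCommGroup V] [Module F V]
    (a : Module.End F V) (hev : ∀ (c : F) (x : V), a x = c • x → x = 0) :
    Function.Injective a := by
  rw [injective_iff_map_eq_zero]
  intro x hx
  exact hev 0 x (by rw [hx, zero_smul])

theorem q8094_det {F V : Type} [Field F] [AddCommGroup V] [Module F V] [FiniteDimensional F V]
    (a : Module.End F V) (h : Function.Injective a) : LinearMap.det a ≠ 0 := by
  have h1 : IsUnit a := (LinearMap.isUnit_iff_ker_eq_bot a).2 (LinearMap.ker_eq_bot.2 h)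
  exact (h1.map LinearMap.det).ne_zero

theorem q8094_transport {F V W : Type} [Field F] [AddCommGroup V] [Module F V]
    [AddCommGroup W] [Module F W] (E : W ≃ₗ[F] V) (a : Module.End F V) (a' : Module.End F W)
    (h : ∀ x, a (E x) = E (a' x)) (k : ℕ) (e : Module.End F W) (z : W)
    (hr : Rep a' e k) (hc : Cyc e z) :
    ∃ (e' : Module.End F V) (w' : V), Rep a e' k ∧ Cyc e' w' := by
  obtain ⟨l, hl, hs, hp⟩ := hr
  have hconj : ∀ (d : Module.End F W) (x : V), (E.conj d) x = E (d (E.symm x)) := fun _ _ => rfl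
  refine ⟨E.conj e, E z, ⟨l.map (fun d => E.conj d), by simpa using hl, ?_, ?_⟩, ?_⟩
  · intro d hd
    rw [List.mem_map] at hd
    obtain ⟨d', hd', rfl⟩ := hd
    obtain ⟨e1, he1⟩ := hs d' hd'
    refine ⟨(E.symm.trans e1).trans E, fun x => ?_⟩
    have h1 : a x = E (a' (E.symm x)) := by rw [← h, E.apply_symm_apply]
    rw [hconj, h1]
    simp [he1]
  · rw [← hp]
    clear hp hl hs
    induction l with
    | nil =>
      ext x
      simp
    | cons d l ih =>
      rw [List.map_cons, List.prod_cons, List.prod_cons, ih]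
      ext x
      rw [Module.End.mul_apply, hconj, hconj, hconj]
      simp
  · intro p hz hinv
    have h1 : p.comap (E : W →ₗ[F] V) = ⊤ := by
      apply hc
      · exact hz
      · intro x hx
        have h2 : E x ∈ p := hx
        have h3 := hinv (E x) h2
        rw [hconj, E.symm_apply_apply] at h3
        exact h3
    rw [eq_top_iff]
    intro x _
    have h2 : E.symm x ∈ p.comap (E : W →ₗ[F] V) := by rw [h1]; trivial
    have h3 : E (E.symm x) ∈ p := h2
    rwa [E.apply_symm_apply] at h3

theorem q8094_dim_ne_one {F W : Type} [Field F] [AddCommGroup W] [Module F W]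
    [FiniteDimensional F W]
    (b : Module.End F W) (hev : ∀ (c : F) (x : W), b x = c • x → x = 0) : finrank F W ≠ 1 := by
  intro h1
  have : Nontrivial W := Module.nontrivial_of_finrank_pos (R := F) (by omega)
  obtain ⟨v, hv⟩ := exists_ne (0 : W)
  obtain ⟨c, hc⟩ := (finrank_eq_one_iff_of_nonzero' v hv).1 h1 (b v)
  exact hv (hev c v hc.symm)

theorem q8094_quad {F W : Type} [Field F] [AddCommGroup W] [Module F W] [FiniteDimensional F W]
    (b : Module.End F W) (hev : ∀ (c : F) (x : W), b x = c • x → x = 0) (h2 : finrank F W ≤ 2) :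
    ∃ t d : F, ∀ x, b (b x) = t • b x - d • x := by
  have h1 := q8094_dim_ne_one b hev
  rcases (show finrank F W = 0 ∨ finrank F W = 2 by omega) with h0 | h0
  · have : Subsingleton W := Module.finrank_zero_iff.1 h0
    exact ⟨0, 0, fun x => Subsingleton.elim _ _⟩
  · have h := LinearMap.aeval_self_charpoly b
    rw [Polynomial.aeval_eq_sum_range, LinearMap.charpoly_natDegree, h0] at h
    have hm : (LinearMap.charpoly b).coeff 2 = 1 := by
      have h3 := LinearMap.charpoly_monic b
      rw [Polynomial.Monic, Polynomial.leadingCoeff, LinearMap.charpoly_natDegree, h0] at h3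
      exact h3
    simp only [Finset.sum_range_succ, Finset.sum_range_zero, zero_add, hm] at h
    refine ⟨-(LinearMap.charpoly b).coeff 1, (LinearMap.charpoly b).coeff 0, fun x => ?_⟩
    have h4 := LinearMap.congr_fun h x
    simp only [LinearMap.add_apply, LinearMap.smul_apply, pow_zero, pow_one, one_smul,
      Module.End.one_apply, LinearMap.zero_apply, pow_two, Module.End.mul_apply] at h4
    rw [neg_smul]
    have h5 : b (b x) = -((LinearMap.charpoly b).coeff 0 • x + (LinearMap.charpoly b).coeff 1 • b x) := by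
      rw [eq_neg_iff_add_eq_zero, add_comm]
      exact h4
    rw [h5]
    abel

theorem q8094_rep_inj {F V : Type} [Field F] [AddCommGroup V] [Module F V]
    (a b : Module.End F V) (k : ℕ) (ha : Function.Injective a) (h : Rep a b k) :
    Function.Injective b := by
  obtain ⟨l, -, hs, rfl⟩ := h
  induction l with
  | nil =>
    intro x y hxy
    simpa using hxy
  | cons d l ih =>
    rw [List.prod_cons]
    have h1 := ih (fun d hd => hs d (List.mem_cons_of_mem _ hd))
    obtain ⟨e, he⟩ := hs d (List.mem_cons_self)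
    have h2 : Function.Injective d := by
      intro x y hxy
      have h3 := he (e.symm x)
      have h4 := he (e.symm y)
      rw [e.apply_symm_apply] at h3 h4
      rw [h3, h4] at hxy
      exact e.symm.injective (ha (e.injective hxy))
    intro x y hxy
    rw [Module.End.mul_apply, Module.End.mul_apply] at hxy
    exact h1 (h2 hxy)

theorem q8094_sim_refl {F V : Type} [Field F] [AddCommGroup V] [Module F V]
    (a : Module.End F V) : Sim a a := ⟨LinearEquiv.refl F V, fun _ => rfl⟩

theorem q8094_k_pos {F V : Type} [Field F] [AddCommGroup V] [Module F V] [FiniteDimensional F V]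
    (a e : Module.End F V) (w : V) (k : ℕ) (h3 : 3 ≤ finrank F V) (hr : Rep a e k)
    (hc : Cyc e w) : 1 ≤ k := by
  by_contra hk
  have hk0 : k = 0 := by omega
  subst hk0
  obtain ⟨l, hl, -, hp⟩ := hr
  rw [List.length_eq_zero_iff] at hl
  subst hl
  rw [List.prod_nil] at hp
  subst hp
  have h1 := hc (Submodule.span F {w}) (Submodule.mem_span_singleton_self w) (fun x hx => hx)
  have h2 : finrank F (Submodule.span F {w}) ≤ 1 := by
    have := finrank_span_le_card (R := F) ({w} : Set V)
    simpa using this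
  rw [h1, finrank_top] at h2
  omega

theorem q8094_cop_lin {F : Type} [Field F] (p : F[X]) (lam : F) (h : p.eval lam ≠ 0) :
    IsCoprime p (X - C lam) := by
  apply IsCoprime.symm
  rw [(Polynomial.irreducible_X_sub_C lam).coprime_iff_not_dvd]
  rw [Polynomial.dvd_iff_isRoot]
  exact h

theorem q8094_neg {F : Type} [Field F] (m : ℕ) (c : F) :
    (-1) ^ m * ((-1) ^ m * c) = c := by
  rw [← mul_assoc, ← mul_pow]
  simp

theorem q8094_main {F : Type} [Field F] (n : ℕ) : ∀ (V : Type) [AddCommGroup V] [Module F V]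
    [FiniteDimensional F V]
    (a : Module.End F V) (_ : finrank F V = n) (_ : 3 ≤ finrank F V)
    (_ : ∀ (c : F) (x : V), a x = c • x → x = 0)
    (_ : ¬ ∃ t d : F, ∀ x, a (a x) = t • a x - d • x),
    ∃ (k : ℕ) (e : Module.End F V) (w : V), 2 * k + 1 ≤ finrank F V ∧ Rep a e k ∧ Cyc e w := by
  induction n using Nat.strong_induction_on with
  | _ n ih =>
  intro V _ _ _ a hn h3 hev hnq
  by_cases hcyc : ∃ w, Cyc a w
  · obtain ⟨w, hw⟩ := hcyc
    refine ⟨1, a, w, by omega, ⟨[a], rfl, ?_, by simp⟩, hw⟩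
    intro d hd
    rw [List.mem_singleton] at hd
    subst hd
    exact q8094_sim_refl d
  obtain ⟨p, q, hpq, hp, hq, hqb, ⟨w, hwq, hw⟩, hkill⟩ := decomp (by omega) a hcyc
  have hinj := q8094_inj a hev
  obtain ⟨aq, haq⟩ : ∃ aq : Module.End F q, ∀ x, (aq x : V) = a x :=
    ⟨a.restrict hq, fun x => rfl⟩
  obtain ⟨ap, hap⟩ : ∃ ap : Module.End F p, ∀ x, (ap x : V) = a x :=
    ⟨a.restrict hp, fun x => rfl⟩
  have hevq : ∀ (c : F) (x : q), aq x = c • x → x = 0 := by
    intro c x hx
    have h1 : (aq x : V) = c • (x : V) := by rw [hx]; rfl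
    rw [haq] at h1
    exact Subtype.ext (hev c x h1)
  have hevp : ∀ (c : F) (x : p), ap x = c • x → x = 0 := by
    intro c x hx
    have h1 : (ap x : V) = c • (x : V) := by rw [hx]; rfl
    rw [hap] at h1
    exact Subtype.ext (hev c x h1)
  have hinjq := q8094_inj aq hevq
  have hinjp := q8094_inj ap hevp
  have hdetq := q8094_det aq hinjq
  have hdetp := q8094_det ap hinjp
  have hsum : finrank F p + finrank F q = finrank F V := Submodule.finrank_add_eq_of_isCompl hpq
  have hq0 : finrank F q ≠ 0 := by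
    intro h0
    exact hqb (Submodule.finrank_eq_zero.1 h0)
  have hq1 := q8094_dim_ne_one aq hevq
  -- aq is cyclic
  have hcycq : Cyc aq ⟨w, hwq⟩ := by
    intro r hr hinv
    have h1 : q ≤ r.map q.subtype := by
      apply hw
      · exact ⟨⟨w, hwq⟩, hr, rfl⟩
      · rintro _ ⟨y, hy, rfl⟩
        exact ⟨aq y, hinv y hy, haq y⟩
    rw [eq_top_iff]
    intro x _
    obtain ⟨y, hy, hyx⟩ := h1 x.2
    have : y = x := Subtype.ext hyx
    rw [← this]
    exact hy
  -- powers of the restriction
  have haev : ∀ (f : F[X]) (x : p), ((aeval ap f) x : V) = (aeval a f) x := by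
    intro f x
    have hpow : ∀ (m : ℕ) (x : p), ((ap ^ m) x : V) = (a ^ m) x := by
      intro m
      induction m with
      | zero => intro x; rfl
      | succ m ihm =>
        intro x
        rw [pow_succ, pow_succ, Module.End.mul_apply, Module.End.mul_apply, ihm, hap]
    rw [Polynomial.aeval_eq_sum_range, Polynomial.aeval_eq_sum_range]
    simp only [LinearMap.sum_apply, LinearMap.smul_apply]
    push_cast
    apply Finset.sum_congr rfl
    intro m _
    rw [hpow]
  have haevq : ∀ (f : F[X]) (x : q), ((aeval aq f) x : V) = (aeval a f) x := by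
    intro f x
    have hpow : ∀ (m : ℕ) (x : q), ((aq ^ m) x : V) = (a ^ m) x := by
      intro m
      induction m with
      | zero => intro x; rfl
      | succ m ihm =>
        intro x
        rw [pow_succ, pow_succ, Module.End.mul_apply, Module.End.mul_apply, ihm, haq]
    rw [Polynomial.aeval_eq_sum_range, Polynomial.aeval_eq_sum_range]
    simp only [LinearMap.sum_apply, LinearMap.smul_apply]
    push_cast
    apply Finset.sum_congr rfl
    intro m _
    rw [hpow]
  -- ap is not quadratic
  have hnqp : ¬ ∃ t d : F, ∀ x, ap (ap x) = t • ap x - d • x := by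
    rintro ⟨t, d, htd⟩
    apply hnq
    have h1 := hkill (X ^ 2 - C t * X + C d) (by
      intro x hx
      have h2 := congrArg (Subtype.val) (htd ⟨x, hx⟩)
      rw [hap] at h2
      push_cast at h2
      rw [hap] at h2
      simp only [map_add, map_sub, map_mul, aeval_X, aeval_C, LinearMap.add_apply,
        LinearMap.sub_apply, Module.End.mul_apply, Module.algebraMap_end_apply, pow_two]
      rw [h2]
      abel)
    refine ⟨t, d, fun x => ?_⟩
    have h3 := LinearMap.congr_fun h1 x
    simp only [map_add, map_sub, map_mul, aeval_X, aeval_C, LinearMap.add_apply,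
        LinearMap.sub_apply, Module.End.mul_apply, Module.algebraMap_end_apply, pow_two,
        LinearMap.zero_apply] at h3
    rw [sub_add, sub_eq_zero] at h3
    exact h3
  have hp3 : 3 ≤ finrank F p := by
    by_contra hc
    exact hnqp (q8094_quad ap hevp (by omega))
  -- induction hypothesis
  obtain ⟨k', e', w', hk', hre', hce'⟩ := ih (finrank F p) (by omega) p ap rfl hp3 hevp hnqp
  have hk1 := q8094_k_pos ap e' w' k' hp3 hre' hce'
  -- transport
  obtain ⟨E, hE⟩ : ∃ E : (q × p) ≃ₗ[F] V, ∀ x, E x = (x.1 : V) + x.2 :=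
    ⟨Submodule.prodEquivOfIsCompl q p hpq.symm, fun x => Submodule.coe_prodEquivOfIsCompl' _ _ _ _⟩
  have hEa : ∀ x, a (E x) = E (Blk aq 0 ap x) := by
    intro x
    have hb1 : (Blk aq 0 ap x).1 = aq x.1 := by simp [Blk]
    have hb2 : (Blk aq 0 ap x).2 = ap x.2 := by simp [Blk]
    rw [hE, hE, map_add, hb1, hb2, haq, hap]
  suffices hgoal : ∃ (e : Module.End F (q × p)) (z : q × p),
      Rep (Blk aq 0 ap) e (k' + 1) ∧ Cyc e z by
    obtain ⟨e, z, he, hz⟩ := hgoal
    obtain ⟨e2, w2, h1, h2⟩ := q8094_transport E a (Blk aq 0 ap) hEa (k' + 1) e z he hz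
    exact ⟨k' + 1, e2, w2, by omega, h1, h2⟩
  have hscalp : ¬ Scal ap := by
    rintro ⟨c, hc⟩
    have : Nontrivial p := Module.nontrivial_of_finrank_pos (R := F) (by omega)
    obtain ⟨v, hv⟩ := exists_ne (0 : p)
    exact hv (hevp c v (hc v))
  have hscalq : ¬ Scal aq := by
    rintro ⟨c, hc⟩
    have : Nontrivial q := Module.nontrivial_of_finrank_pos (R := F) (by omega)
    obtain ⟨v, hv⟩ := exists_ne (0 : q)
    exact hv (hevq c v (hc v))
  have hrep1 : Rep aq aq 1 := by
    refine ⟨[aq], rfl, ?_, by simp⟩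
    intro d hd
    rw [List.mem_singleton] at hd
    subst hd
    exact q8094_sim_refl d
  by_cases hq3 : 3 ≤ finrank F q
  · by_cases h33 : finrank F q = 3 ∧ finrank F p = 3
    · -- case B
      obtain ⟨hq3', hp3'⟩ := h33
      have hk'1 : k' = 1 := by omega
      subst hk'1
      obtain ⟨-, ⟨w3, hw3⟩, hirr, -⟩ := sq_three hq3' aq hevq
      obtain ⟨g2, hg2m, hg2d, hg20, hg2a⟩ := exists_poly_avoid (F := F) 2 le_rfl
        ((-1) ^ 2 * LinearMap.det ap ^ 2) {1} (by simp)
      have hg21 : g2.eval 1 ≠ 0 := hg2a 1 (by simp)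
      obtain ⟨⟨Q, hQ⟩, hQr⟩ := rep_cycS_ge hp3 ap e' w' 1 hdetp hscalp hre' hce' 2 (by omega)
        1 g2 one_ne_zero hg2m (by omega) hg21 (by rw [hg2d, hg20, q8094_neg, one_mul])
      obtain ⟨⟨wQ, hwQ⟩, hQc⟩ := id hQ
      apply combine' aq ap 2 (aq * aq) Q w3 wQ hw3 hwQ _ _ (hQr Q hQ)
      · rw [hirr.coprime_iff_not_dvd]
        intro hdvd
        have hmQ : (LinearMap.charpoly Q).Monic := LinearMap.charpoly_monic Q
        have heq := Polynomial.eq_of_monic_of_dvd_of_natDegree_le
          (LinearMap.charpoly_monic (aq * aq)) hmQ hdvd (by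
            rw [LinearMap.charpoly_natDegree, LinearMap.charpoly_natDegree, hq3', hp3'])
        rw [← heq, hQc] at hirr
        rcases hirr.isUnit_or_isUnit rfl with hu | hu
        · exact (Polynomial.irreducible_X_sub_C (1 : F)).not_isUnit hu
        · have := Polynomial.natDegree_eq_zero_of_isUnit hu
          omega
      · have := rep_mul aq aq aq 1 1 hrep1 hrep1
        exact this
    · -- case A
      obtain ⟨g1, g2, hg1m, hg2m, hg1d, hg2d, hg10, hg20, hg1l, hg2l, hcop⟩ :=
        poly_pair (F := F) (finrank F q - 1) (finrank F p - 1) (by omega) (by omega)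
          (by rintro ⟨h1, h2, -⟩; exact h33 ⟨by omega, by omega⟩) 1
          ((-1) ^ (finrank F q - 1) * LinearMap.det aq ^ (k' + 1))
          ((-1) ^ (finrank F p - 1) * LinearMap.det ap ^ (k' + 1)) one_ne_zero
          (mul_ne_zero (pow_ne_zero _ (by simp)) (pow_ne_zero _ hdetq))
          (mul_ne_zero (pow_ne_zero _ (by simp)) (pow_ne_zero _ hdetp))
      obtain ⟨⟨P, hP⟩, hPr⟩ := rep_cycS_ge hq3 aq aq ⟨w, hwq⟩ 1 hdetq hscalq hrep1 hcycq (k' + 1)
        (by omega) 1 g1 one_ne_zero hg1m (by omega) hg1l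
        (by rw [hg1d, hg10, q8094_neg, one_mul])
      obtain ⟨⟨Q, hQ⟩, hQr⟩ := rep_cycS_ge hp3 ap e' w' k' hdetp hscalp hre' hce' (k' + 1)
        (by omega) 1 g2 one_ne_zero hg2m (by omega) hg2l
        (by rw [hg2d, hg20, q8094_neg, one_mul])
      exact combine aq ap (k' + 1) (by omega) hevp P Q 1 one_ne_zero g1 g2 hP hQ hcop hg1l hg2l
        (hPr P hP) (hQr Q hQ) hdetq hdetp
  · -- case C
    have hq2 : finrank F q = 2 := by omega
    have hp4 : 4 ≤ finrank F p := by
      by_contra hc
      have hp3' : finrank F p = 3 := by omega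
      obtain ⟨-, -, -, hirr⟩ := sq_three hp3' ap hevp
      have h1 : aeval a (LinearMap.charpoly ap) = 0 := by
        apply hkill
        intro x hx
        have h2 := haev (LinearMap.charpoly ap) ⟨x, hx⟩
        rw [LinearMap.aeval_self_charpoly] at h2
        simpa using h2.symm
      have hcop : IsCoprime (LinearMap.charpoly ap) (LinearMap.charpoly aq) := by
        rw [hirr.coprime_iff_not_dvd]
        intro hdvd
        have h2 := Polynomial.natDegree_le_of_dvd hdvd (LinearMap.charpoly_monic aq).ne_zero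
        rw [LinearMap.charpoly_natDegree, LinearMap.charpoly_natDegree] at h2
        omega
      obtain ⟨u, v, huv⟩ := hcop
      have h4 : aeval aq (LinearMap.charpoly ap) = 0 := by
        apply LinearMap.ext
        intro x
        apply Subtype.ext
        rw [haevq, h1]
        rfl
      have h5 : aeval aq (u * LinearMap.charpoly ap + v * LinearMap.charpoly aq) = 1 := by
        rw [huv, map_one]
      rw [map_add, map_mul, map_mul, h4, LinearMap.aeval_self_charpoly, mul_zero, mul_zero,
        add_zero] at h5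
      have : Nontrivial q := Module.nontrivial_of_finrank_pos (R := F) (by omega)
      obtain ⟨v, hv⟩ := exists_ne (0 : q)
      apply hv
      have h6 := LinearMap.congr_fun h5 v
      simpa using h6.symm
    obtain ⟨P, wP, lam, hPr, hPc, hlam, hPl⟩ := rep_two hq2 aq hevq (k' + 1) (by omega)
    have hPinj := q8094_rep_inj aq P (k' + 1) hinjq hPr
    have hPdet := q8094_det P hPinj
    have hP0 : (LinearMap.charpoly P).coeff 0 ≠ 0 := by
      intro h0
      apply hPdet
      rw [LinearMap.det_eq_sign_charpoly_coeff, h0, mul_zero]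
    obtain ⟨g, hgm, hgd, hg0, hgl, hcop⟩ := poly_one (F := F) (finrank F p - 1) (by omega)
      (LinearMap.charpoly P) (LinearMap.charpoly_monic P)
      (by rw [LinearMap.charpoly_natDegree, hq2]) hP0 lam
      ((-1) ^ (finrank F p - 1) * (lam⁻¹ * LinearMap.det ap ^ (k' + 1))) hlam hPl
      (mul_ne_zero (pow_ne_zero _ (by simp))
        (mul_ne_zero (inv_ne_zero hlam) (pow_ne_zero _ hdetp)))
    obtain ⟨⟨Q, hQ⟩, hQr⟩ := rep_cycS_ge hp3 ap e' w' k' hdetp hscalp hre' hce' (k' + 1)
      (by omega) lam g hlam hgm (by omega) hgl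
      (by rw [hgd, hg0, q8094_neg, ← mul_assoc, mul_inv_cancel₀ hlam, one_mul])
    obtain ⟨⟨wQ, hwQ⟩, hQc⟩ := id hQ
    apply combine' aq ap (k' + 1) P Q wP wQ hPc hwQ _ hPr (hQr Q hQ)
    rw [hQc]
    exact IsCoprime.mul_right (q8094_cop_lin _ _ hPl) hcop

/-- eigenvalue-free, not quadratic -/
theorem ef_nonquad {F V : Type} [Field F] [AddCommGroup V] [Module F V] [FiniteDimensional F V]
    (a : Module.End F V) (hdet : LinearMap.det a ≠ 0) (h3 : 3 ≤ finrank F V)
    (hev : ∀ (c : F) (x : V), a x = c • x → x = 0)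
    (hnq : ¬ ∃ t d : F, ∀ x, a (a x) = t • a x - d • x) :
    ∃ (k : ℕ) (e : Module.End F V) (w : V), 2 * k + 1 ≤ finrank F V ∧ Rep a e k ∧ Cyc e w := by
  exact q8094_main (finrank F V) V a rfl h3 hev hnq

end F6
end Pool.Agent.PC

namespace Pool.Agent.PC
namespace F7a
open Pool.Agent.PC.A1a (cyc_feedback)
open Pool.Agent.PC.A1b (pole_placement)
open Pool.Agent.PC.A2 (r_star)

open Module Polynomial

theorem qc_aeval_eigen {F V : Type} [Field F] [AddCommGroup V] [Module F V]
    (p : Module.End F V) (mu : F) (x : V) (h : p x = mu • x) (P : F[X]) :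
    (aeval p P) x = P.eval mu • x := by
  by_cases hx : x = 0
  · subst hx; simp
  · exact Module.End.aeval_apply_of_hasEigenvector ⟨Module.End.mem_eigenspace_iff.mpr h, hx⟩

theorem qc_surj_on {F V : Type} [Field F] [AddCommGroup V] [Module F V] [FiniteDimensional F V]
    (f : Module.End F V) (hf : Function.Injective f) (C : Submodule F V)
    (hC : ∀ x ∈ C, f x ∈ C) : ∀ x ∈ C, ∃ y ∈ C, f y = x := by
  intro x hx
  have hinj : Function.Injective (f.restrict hC) := by
    intro a b hab
    have := congrArg Subtype.val hab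
    exact Subtype.ext (hf this)
  have hsurj := LinearMap.injective_iff_surjective.mp hinj
  obtain ⟨y, hy⟩ := hsurj ⟨x, hx⟩
  exact ⟨y.1, y.2, congrArg Subtype.val hy⟩

theorem qc_pow_mem {F V : Type} [Field F] [AddCommGroup V] [Module F V]
    (f : Module.End F V) (C : Submodule F V)
    (hC : ∀ x ∈ C, f x ∈ C) (n : ℕ) : ∀ x ∈ C, (f ^ n) x ∈ C := by
  induction n with
  | zero => intro x hx; simpa using hx
  | succ n ih =>
      intro x hx
      rw [pow_succ]
      exact ih _ (hC x hx)

/-- choice of the polynomial: an endomorphism with a cyclic vector such that squares generate. -/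
theorem qc_choice {F U : Type} [Field F] [AddCommGroup U] [Module F U] [FiniteDimensional F U]
    (h2 : 2 ≤ finrank F U) (t : F) :
    ∃ (p : Module.End F U) (u : U), Cyc p u ∧ (∀ x, p x = 0 → x = 0) ∧
      (∀ x, p x = t • x → x = 0) ∧
      (∀ C : Submodule F (U × U), (∀ x ∈ C, ((p (p x.1), p (p x.2)) : U × U) ∈ C) →
        ∀ x ∈ C, ((p x.1, p x.2) : U × U) ∈ C) := by
  have hnt : Nontrivial U := by
    apply Module.nontrivial_of_finrank_pos (R := F); omega
  obtain ⟨u, hu⟩ := exists_ne (0 : U)
  obtain ⟨r, hr, -⟩ := r_star (1 : Module.End F U) (fun a b h => h) u hu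
  -- the main construction from a polynomial
  have key : ∀ P : F[X], P.Monic → P.natDegree = finrank F U → P.eval 0 ≠ 0 → P.eval t ≠ 0 →
      ∃ p : Module.End F U, Cyc p u ∧ aeval p P = 0 ∧ (∀ x, p x = 0 → x = 0) ∧
        (∀ x, p x = t • x → x = 0) := by
    intro P hm hd h0 ht
    obtain ⟨c, hc⟩ := pole_placement r u hr P hm hd
    refine ⟨r + c.smulRight u, cyc_feedback r u c hr, ?_, ?_, ?_⟩
    · rw [← hc]; exact LinearMap.aeval_self_charpoly _
    · intro x hx
      have h1 := qc_aeval_eigen (r + c.smulRight u) 0 x (by rw [hx]; simp) P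
      have h3 : aeval (r + c.smulRight u) P = 0 := by
        rw [← hc]; exact LinearMap.aeval_self_charpoly _
      rw [h3] at h1
      have h4 : P.eval 0 • x = 0 := by rw [← h1]; simp
      exact (smul_eq_zero.mp h4).resolve_left h0
    · intro x hx
      have h1 := qc_aeval_eigen (r + c.smulRight u) t x hx P
      have h3 : aeval (r + c.smulRight u) P = 0 := by
        rw [← hc]; exact LinearMap.aeval_self_charpoly _
      rw [h3] at h1
      have h4 : P.eval t • x = 0 := by rw [← h1]; simp
      exact (smul_eq_zero.mp h4).resolve_left ht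
  set s := finrank F U with hs
  rcases Nat.even_or_odd' s with ⟨m, hm | hm⟩
  · -- s = 2 m
    have hm1 : 1 ≤ m := by omega
    obtain ⟨e0, he0, het⟩ : ∃ e0 : F, e0 ≠ 0 ∧ e0 ≠ -(t ^ s + t) := by
      by_cases hF : ∃ a : F, a ≠ 0 ∧ a ≠ 1
      · obtain ⟨a, ha0, ha1⟩ := hF
        by_cases h1 : (1 : F) = -(t ^ s + t)
        · exact ⟨a, ha0, fun h => ha1 (h.trans h1.symm)⟩
        · exact ⟨1, one_ne_zero, h1⟩
      · push Not at hF
        refine ⟨1, one_ne_zero, ?_⟩
        intro h
        by_cases h0 : t = 0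
        · rw [h0, zero_pow (by omega)] at h
          simp at h
        · have h1 := hF t h0
          rw [h1] at h
          have h2 : (1 : F) + 1 = 0 := by
            by_contra h3
            have := hF _ h3
            simp at this
          rw [one_pow, h2] at h
          simp at h
    have hdeg : (X + C e0 : F[X]).degree < (s : ℕ) := by
      rw [Polynomial.degree_X_add_C]
      have : (1 : ℕ) < s := by omega
      exact_mod_cast this
    have hmon : (X ^ s + (X + C e0) : F[X]).Monic := Polynomial.monic_X_pow_add hdeg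
    have hnd : (X ^ s + (X + C e0) : F[X]).natDegree = s := by
      apply Polynomial.natDegree_eq_of_degree_eq_some
      rw [Polynomial.degree_add_eq_left_of_degree_lt (by rwa [Polynomial.degree_X_pow])]
      exact Polynomial.degree_X_pow s
    obtain ⟨p, hp1, hp2, hp3, hp4⟩ := key (X ^ s + (X + C e0)) hmon hnd
      (by simp [zero_pow (show s ≠ 0 by omega), he0])
      (by
        simp only [eval_add, eval_pow, eval_X, eval_C]
        intro h
        apply het
        linear_combination h)
    refine ⟨p, u, hp1, hp3, hp4, ?_⟩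
    intro W hW x hx
    have hD : ∀ k, ∀ x ∈ W, (((p ^ (2 * k)) x.1, (p ^ (2 * k)) x.2) : U × U) ∈ W := by
      intro k
      induction k with
      | zero => intro x hx; simpa using hx
      | succ k ih =>
          intro x hx
          have := hW _ (ih x hx)
          simp only at this
          rw [show 2 * (k + 1) = 1 + (1 + 2 * k) by ring, pow_add, pow_add, pow_one]
          exact this
    have hP : ∀ y : U, p y = -((p ^ (2 * m)) y + e0 • y) := by
      intro y
      have h1 : (aeval p (X ^ s + (X + C e0) : F[X])) y = 0 := by rw [hp2]; rfl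
      simp only [map_add, map_pow, aeval_X, aeval_C, LinearMap.add_apply,
        Module.algebraMap_end_apply] at h1
      rw [hm] at h1
      have : p y + ((p ^ (2 * m)) y + e0 • y) = 0 := by rw [← h1]; abel
      exact eq_neg_of_add_eq_zero_left this
    have h5 : ((p x.1, p x.2) : U × U) = -((((p ^ (2 * m)) x.1, (p ^ (2 * m)) x.2) : U × U) + e0 • x) := by
      ext
      · simp [hP x.1]
      · simp [hP x.2]
    rw [h5]
    exact W.neg_mem (W.add_mem (hD m x hx) (W.smul_mem e0 hx))
  · -- s = 2 m + 1
    have hm1 : 1 ≤ m := by omega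
    obtain ⟨e1, het⟩ : ∃ e1 : F, t ^ s + e1 * t ^ 2 + 1 ≠ 0 := by
      by_cases h0 : t = 0
      · refine ⟨0, ?_⟩
        rw [h0, zero_pow (by omega)]; simp
      · by_cases h1 : t ^ s + 0 * t ^ 2 + 1 = 0
        · refine ⟨1, ?_⟩
          intro h
          have h3 : t ^ 2 = 0 := by linear_combination h - h1
          exact h0 (pow_eq_zero_iff (two_ne_zero) |>.mp h3)
        · exact ⟨0, h1⟩
    have hdeg : (C e1 * X ^ 2 + C 1 : F[X]).degree < (s : ℕ) := by
      apply lt_of_le_of_lt (Polynomial.degree_add_le _ _)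
      rw [max_lt_iff]
      constructor
      · apply lt_of_le_of_lt (Polynomial.degree_C_mul_X_pow_le 2 e1)
        have : (2 : ℕ) < s := by omega
        exact_mod_cast this
      · apply lt_of_le_of_lt (Polynomial.degree_C_le)
        have : (0 : ℕ) < s := by omega
        exact_mod_cast this
    have hmon : (X ^ s + (C e1 * X ^ 2 + C 1) : F[X]).Monic := Polynomial.monic_X_pow_add hdeg
    have hnd : (X ^ s + (C e1 * X ^ 2 + C 1) : F[X]).natDegree = s := by
      apply Polynomial.natDegree_eq_of_degree_eq_some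
      rw [Polynomial.degree_add_eq_left_of_degree_lt (by rwa [Polynomial.degree_X_pow])]
      exact Polynomial.degree_X_pow s
    obtain ⟨p, hp1, hp2, hp3, hp4⟩ := key (X ^ s + (C e1 * X ^ 2 + C 1)) hmon hnd
      (by simp [zero_pow (show s ≠ 0 by omega)])
      (by
        simp only [eval_add, eval_pow, eval_X, eval_C, eval_mul]
        intro h
        apply het
        linear_combination h)
    refine ⟨p, u, hp1, hp3, hp4, ?_⟩
    intro W hW x hx
    -- the diagonal map
    set D : Module.End F (U × U) := LinearMap.prodMap (p * p) (p * p) with hDdef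
    have hDinj : Function.Injective D := by
      rw [← LinearMap.ker_eq_bot, LinearMap.ker_eq_bot']
      intro y hy
      have h1 : p (p y.1) = 0 := congrArg Prod.fst hy
      have h3 : p (p y.2) = 0 := congrArg Prod.snd hy
      exact Prod.ext (hp3 _ (hp3 _ h1)) (hp3 _ (hp3 _ h3))
    have hDW : ∀ x ∈ W, D x ∈ W := fun x hx => hW x hx
    have hDm : Function.Injective (D ^ m) := by
      have : ∀ k : ℕ, Function.Injective (D ^ k) := by
        intro k
        induction k with
        | zero => intro a b h; simpa using h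
        | succ k ih =>
            intro a b h
            rw [pow_succ] at h
            exact hDinj (ih h)
      exact this m
    obtain ⟨y, hy, hyx⟩ := qc_surj_on (D ^ m) hDm W (qc_pow_mem D W hDW m) x hx
    have hpow : ∀ (k : ℕ) (z : U × U), (D ^ k) z = ((p ^ (2 * k)) z.1, (p ^ (2 * k)) z.2) := by
      intro k
      induction k with
      | zero => intro z; simp
      | succ k ih =>
          intro z
          rw [pow_succ']
          change D ((D ^ k) z) = _
          rw [ih]
          rw [show 2 * (k + 1) = 1 + (1 + 2 * k) by ring, pow_add, pow_add, pow_one]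
          rfl
    have hP : ∀ z : U, p ((p ^ (2 * m)) z) = -(e1 • (p (p z)) + z) := by
      intro z
      have h1 : (aeval p (X ^ s + (C e1 * X ^ 2 + C 1) : F[X])) z = 0 := by rw [hp2]; rfl
      simp only [map_add, map_pow, map_mul, aeval_X, aeval_C, LinearMap.add_apply,
        Module.algebraMap_end_apply, Module.End.mul_apply, one_smul] at h1
      rw [hm] at h1
      have h6 : (p ^ (2 * m + 1)) z = p ((p ^ (2 * m)) z) := by
        rw [pow_succ']; rfl
      have h7 : (p ^ 2) z = p (p z) := by rw [pow_two]; rfl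
      rw [h6, h7] at h1
      exact eq_neg_of_add_eq_zero_left h1
    have h5 : ((p x.1, p x.2) : U × U) = -(e1 • D y + y) := by
      rw [← hyx, hpow]
      ext
      · simp only [hP]; rfl
      · simp only [hP]; rfl
    rw [h5]
    exact W.neg_mem (W.add_mem (W.smul_mem e1 (hDW y hy)) hy)

/-- the shear `(x,y) ↦ (x + p y, y)` -/
def qcShear {F U : Type} [Field F] [AddCommGroup U] [Module F U] (p : Module.End F U) :
    (U × U) ≃ₗ[F] (U × U) where
  toFun x := (x.1 + p x.2, x.2)
  invFun x := (x.1 - p x.2, x.2)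
  map_add' x y := by ext <;> simp <;> abel
  map_smul' c x := by ext <;> simp
  left_inv x := by ext <;> simp
  right_inv x := by ext <;> simp

/-- the second factor -/
def qcJ {F U : Type} [Field F] [AddCommGroup U] [Module F U] (p : Module.End F U) (t d : F) :
    Module.End F (U × U) :=
  ((qcShear p).toLinearMap ∘ₗ quadM (F := F) U t d) ∘ₗ (qcShear p).symm.toLinearMap

theorem qcJ_apply {F U : Type} [Field F] [AddCommGroup U] [Module F U] (p : Module.End F U)
    (t d : F) (x : U × U) :
    qcJ p t d x = (-(d • x.2) + p (x.1 - p x.2 + t • x.2), x.1 - p x.2 + t • x.2) := rfl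

theorem quadM_apply {F U : Type} [Field F] [AddCommGroup U] [Module F U]
    (t d : F) (x : U × U) :
    quadM (F := F) U t d x = (-(d • x.2), x.1 + t • x.2) := rfl

/-- cyclic element in `C(quadM)^2` -/
theorem quad_cyclic {F U : Type} [Field F] [AddCommGroup U] [Module F U] [FiniteDimensional F U]
    (h2 : 2 ≤ finrank F U) (t d : F) (hd : d ≠ 0) :
    ∃ (e : Module.End F (U × U)) (w : U × U), Rep (quadM (F := F) U t d) e 2 ∧ Cyc e w ∧
      (∀ (a : F) (x : U × U), a * a - t * a + d = 0 → e x = (a * a) • x → x = 0) := by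
  obtain ⟨p, u, hcyc, hp0, hpt, hsq⟩ := qc_choice h2 t
  set J1 : Module.End F (U × U) := quadM (F := F) U t d with hJ1
  set J2 : Module.End F (U × U) := qcJ p t d with hJ2
  have he1 : ∀ x : U × U, (J1 * J2) x =
      (-(d • x.1) - d • (t • x.2 - p x.2),
        p x.1 + t • x.1 + (t * t) • x.2 - d • x.2 - p (p x.2)) := by
    intro x
    change J1 (J2 x) = _
    rw [hJ1, hJ2, qcJ_apply, quadM_apply]
    ext
    · simp only [smul_add, smul_sub]
      abel
    · simp only [smul_add, smul_sub, map_add, map_sub, map_smul, smul_smul]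
      abel
  -- quadratic relation
  have hquad : ∀ x : U × U, (J1 * J2) ((J1 * J2) x) =
      (t * t - d - d) • ((J1 * J2) x) -
        (p (p ((J1 * J2) x).1), p (p ((J1 * J2) x).2)) - (d * d) • x := by
    intro x
    rw [he1 ((J1 * J2) x), he1 x]
    ext
    · simp only [Prod.fst_sub, Prod.smul_fst, smul_add, smul_sub, map_add, map_sub, map_smul,
        map_neg, smul_smul, smul_neg, add_smul, sub_smul]
      simp only [mul_comm, mul_left_comm]
      abel
    · simp only [Prod.snd_sub, Prod.smul_snd, smul_add, smul_sub, map_add, map_sub, map_smul,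
        map_neg, smul_smul, smul_neg, add_smul, sub_smul]
      simp only [mul_comm, mul_left_comm]
      abel
  have hinj : ∀ x : U × U, (J1 * J2) x = 0 → x = 0 := by
    intro x hx
    have h1 := hquad x
    rw [hx] at h1
    simp only [map_zero, smul_zero, Prod.fst_zero, Prod.snd_zero, zero_sub] at h1
    have h3 : (d * d) • x = 0 := by
      have h4 : (((0 : U), (0 : U)) : U × U) = 0 := rfl
      rw [h4] at h1
      have := h1.symm
      simpa using this
    exact (smul_eq_zero.mp h3).resolve_left (mul_ne_zero hd hd)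
  refine ⟨J1 * J2, (0, u), ?_, ?_, ?_⟩
  · refine ⟨[J1, J2], rfl, ?_, by simp⟩
    intro j hj
    simp only [List.mem_cons, List.not_mem_nil, or_false] at hj
    rcases hj with rfl | rfl
    · exact ⟨LinearEquiv.refl F _, fun x => rfl⟩
    · refine ⟨qcShear p, fun x => ?_⟩
      change (qcShear p) (quadM (F := F) U t d ((qcShear p).symm ((qcShear p) x))) = _
      rw [LinearEquiv.symm_apply_apply]
  · intro W hwW hW
    have hinj' : Function.Injective (J1 * J2) := by
      rw [← LinearMap.ker_eq_bot, LinearMap.ker_eq_bot']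
      exact hinj
    have hsurj := qc_surj_on (J1 * J2) hinj' W hW
    have hp2W : ∀ x ∈ W, ((p (p x.1), p (p x.2)) : U × U) ∈ W := by
      intro x hx
      obtain ⟨y, hy, hyx⟩ := hsurj x hx
      have h1 := hquad y
      rw [hyx] at h1
      have h3 : ((p (p x.1), p (p x.2)) : U × U) =
          (t * t - d - d) • x - (d * d) • y - (J1 * J2) x := by
        rw [h1]; abel
      rw [h3]
      exact W.sub_mem (W.sub_mem (W.smul_mem _ hx) (W.smul_mem _ hy)) (hW x hx)
    have hpW := hsq W hp2W
    have h0U : ∀ y : U, ((0, y) : U × U) ∈ W := by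
      have hcom := hcyc (W.comap (LinearMap.inr F U U)) (by simpa using hwW) (by
        intro x hx
        have h1 := hpW _ hx
        simp only [Submodule.mem_comap, LinearMap.inr_apply, map_zero] at h1 ⊢
        exact h1)
      intro y
      have : y ∈ W.comap (LinearMap.inr F U U) := by rw [hcom]; trivial
      exact this
    have htp : Function.Surjective (t • (LinearMap.id : U →ₗ[F] U) - p) := by
      rw [← LinearMap.injective_iff_surjective, ← LinearMap.ker_eq_bot, LinearMap.ker_eq_bot']
      intro x hx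
      apply hpt
      simp only [LinearMap.sub_apply, LinearMap.smul_apply, LinearMap.id_apply] at hx
      exact (sub_eq_zero.mp hx).symm
    have hU0 : ∀ y : U, ((y, 0) : U × U) ∈ W := by
      intro y
      obtain ⟨z, hz⟩ := htp (-(d⁻¹ • y))
      simp only [LinearMap.sub_apply, LinearMap.smul_apply, LinearMap.id_apply] at hz
      have h1 := hW _ (h0U z)
      rw [he1] at h1
      have h3 := W.sub_mem h1 (h0U ((p 0 + t • (0 : U) + (t * t) • z - d • z - p (p z))))
      have h4 : ((y, 0) : U × U) = (-(d • (0 : U)) - d • (t • z - p z),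
          p 0 + t • (0 : U) + (t * t) • z - d • z - p (p z)) -
            (0, p 0 + t • (0 : U) + (t * t) • z - d • z - p (p z)) := by
        rw [hz]
        ext
        · simp [smul_smul, mul_inv_cancel₀ hd]
        · simp
      rw [h4]
      exact h3
    rw [eq_top_iff]
    rintro ⟨x, y⟩ -
    have := W.add_mem (hU0 x) (h0U y)
    simpa using this
  · intro a x ha hx
    have h1 := hquad x
    rw [hx, map_smul, hx] at h1
    have ha0 : a ≠ 0 := by
      rintro rfl
      apply hd
      linear_combination ha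
    have h3 : (a * a) • (((p (p x.1), p (p x.2)) : U × U)) = 0 := by
      have h4 : (((p (p ((a * a) • x).1), p (p ((a * a) • x).2)) : U × U)) =
          (a * a) • (((p (p x.1), p (p x.2)) : U × U)) := by
        ext <;> simp
      rw [h4] at h1
      have h5 : (a * a) • (((p (p x.1), p (p x.2)) : U × U)) =
          ((t * t - d - d) * (a * a) - d * d - (a * a) * (a * a)) • x := by
        rw [sub_smul, sub_smul, mul_smul (t * t - d - d) (a * a) x, mul_smul (a * a) (a * a) x, h1]
        abel
      rw [h5]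
      have h6 : ((t * t - d - d) * (a * a) - d * d - (a * a) * (a * a)) = 0 := by
        linear_combination (-(a * a + d + a * t)) * ha
      rw [h6, zero_smul]
    have h7 := (smul_eq_zero.mp h3).resolve_left (mul_ne_zero ha0 ha0)
    have h8 : p (p x.1) = 0 := congrArg Prod.fst h7
    have h9 : p (p x.2) = 0 := congrArg Prod.snd h7
    exact Prod.ext (hp0 _ (hp0 _ h8)) (hp0 _ (hp0 _ h9))

end F7a
end Pool.Agent.PC

namespace Pool.Agent.PC
namespace F8
open Pool.Agent.PC.F6 (ef_nonquad)
open Pool.Agent.PC.F7a (quad_cyclic)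
open Pool.Agent.PC.F7b (quad_form)

open Module Polynomial

/-- conjugation by an equivalence -/
def cjE {F V W : Type} [Field F] [AddCommGroup V] [Module F V] [AddCommGroup W] [Module F W]
    (φ : V ≃ₗ[F] W) (b : Module.End F W) : Module.End F V :=
  (φ.symm : W →ₗ[F] V) ∘ₗ b ∘ₗ (φ : V →ₗ[F] W)

theorem cjE_apply {F V W : Type} [Field F] [AddCommGroup V] [Module F V] [AddCommGroup W]
    [Module F W] (φ : V ≃ₗ[F] W) (b : Module.End F W) (x : V) :
    cjE φ b x = φ.symm (b (φ x)) := rfl

theorem cjE_mul {F V W : Type} [Field F] [AddCommGroup V] [Module F V] [AddCommGroup W]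
    [Module F W] (φ : V ≃ₗ[F] W) (b c : Module.End F W) :
    cjE φ b * cjE φ c = cjE φ (b * c) := by
  ext x
  simp [cjE_apply]

theorem cjE_one {F V W : Type} [Field F] [AddCommGroup V] [Module F V] [AddCommGroup W]
    [Module F W] (φ : V ≃ₗ[F] W) : cjE φ (1 : Module.End F W) = 1 := by
  ext x
  simp [cjE_apply]

theorem cjE_rep {F V W : Type} [Field F] [AddCommGroup V] [Module F V] [AddCommGroup W]
    [Module F W] (φ : V ≃ₗ[F] W) (a : Module.End F V) (a' e' : Module.End F W) (m : ℕ)
    (hφ : ∀ x, a' (φ x) = φ (a x)) (h : Rep a' e' m) : Rep a (cjE φ e') m := by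
  obtain ⟨l, hl, hs, hp⟩ := h
  refine ⟨l.map (cjE φ), by simpa using hl, ?_, ?_⟩
  · intro d hd
    obtain ⟨d', hd', rfl⟩ := List.mem_map.1 hd
    obtain ⟨ψ, hψ⟩ := hs d' hd'
    refine ⟨φ.trans (ψ.trans φ.symm), fun x => ?_⟩
    rw [cjE_apply]
    simp only [LinearEquiv.trans_apply, LinearEquiv.apply_symm_apply]
    rw [hψ, hφ]
  · rw [← hp]
    clear hl hs hp
    induction l with
    | nil => simp [cjE_one]
    | cons d l ih => rw [List.map_cons, List.prod_cons, ih, cjE_mul, List.prod_cons]

theorem cjE_cyc {F V W : Type} [Field F] [AddCommGroup V] [Module F V] [AddCommGroup W]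
    [Module F W] (φ : V ≃ₗ[F] W) (e' : Module.End F W) (w' : W) (h : Cyc e' w') :
    Cyc (cjE φ e') (φ.symm w') := by
  intro p hw hp
  have h1 := h (p.map (φ : V →ₗ[F] W)) ⟨φ.symm w', hw, by simp⟩ (by
    rintro _ ⟨x, hx, rfl⟩
    refine ⟨cjE φ e' x, hp x hx, ?_⟩
    rw [cjE_apply]
    simp)
  rw [eq_top_iff]
  intro x _
  have h2 : φ x ∈ p.map (φ : V →ₗ[F] W) := by rw [h1]; trivial
  obtain ⟨y, hy, hyx⟩ := h2
  have h3 : y = x := φ.injective hyx
  rw [← h3]
  exact hy

/-- the coordinates of the exceptional model -/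
def excE (F : Type) [Field F] : ((Fin 2 → F) × (Fin 2 → F)) ≃ₗ[F] (Fin 4 → F) where
  toFun p := ![p.1 0, p.2 0, p.1 1, p.2 1]
  invFun v := (![v 0, v 2], ![v 1, v 3])
  map_add' p q := by
    funext i
    fin_cases i <;> rfl
  map_smul' c p := by
    funext i
    fin_cases i <;> rfl
  left_inv p := by
    refine Prod.ext ?_ ?_
    · funext i
      fin_cases i <;> rfl
    · funext i
      fin_cases i <;> rfl
  right_inv v := by
    funext i
    fin_cases i <;> rfl

theorem excE_quad {F : Type} [Field F] (t d : F) (p : (Fin 2 → F) × (Fin 2 → F)) :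
    excM F t d (excE F p) = excE F (quadM (F := F) (Fin 2 → F) t d p) := by
  funext i
  fin_cases i <;>
    simp [excM, excE, quadM, Matrix.mulVec, dotProduct, Fin.sum_univ_four]

/-- all eigenvalue-free maps in dimension ≠ 4 (or cyclic) -/
theorem ef_all {F V : Type} [Field F] [AddCommGroup V] [Module F V] [FiniteDimensional F V]
    (a : Module.End F V) (hdet : LinearMap.det a ≠ 0) (h3 : 3 ≤ finrank F V)
    (hev : ∀ (c : F) (x : V), a x = c • x → x = 0) (hexc : ¬ ∃ t d : F, Sim a (excM F t d)) :
    ∃ (k : ℕ) (e : Module.End F V) (w : V), 2 * k + 1 ≤ finrank F V ∧ Rep a e k ∧ Cyc e w := by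
  by_cases hq : ∃ t d : F, ∀ x, a (a x) = t • a x - d • x
  · obtain ⟨t, d, hq⟩ := hq
    obtain ⟨s, hs, φ, hφ⟩ := quad_form a hev t d hq
    have hd : d ≠ 0 := by
      rintro rfl
      have h0 : ∀ x : V, x = 0 := by
        intro x
        refine hev t x ?_
        have h1 : a (a x - t • x) = (0 : F) • (a x - t • x) := by
          rw [map_sub, map_smul, hq x]
          simp
        have h2 := hev 0 _ h1
        exact sub_eq_zero.1 h2
      have h1 : Subsingleton V := ⟨fun x y => by rw [h0 x, h0 y]⟩
      have h2 : finrank F V = 0 := finrank_zero_of_subsingleton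
      omega
    rcases Nat.lt_or_ge s 3 with hs3 | hs3
    · have hs2 : s = 2 := by omega
      subst hs2
      exfalso
      apply hexc
      refine ⟨t, d, φ.trans (excE F), fun x => ?_⟩
      simp only [LinearEquiv.trans_apply]
      rw [excE_quad, hφ]
    · obtain ⟨e', w', hrep, hcyc, -⟩ := quad_cyclic (F := F) (U := Fin s → F)
        (by simp; omega) t d hd
      exact ⟨2, cjE φ e', φ.symm w', by omega, cjE_rep φ a _ e' 2 hφ hrep, cjE_cyc φ e' w' hcyc⟩
  · exact ef_nonquad a hdet h3 hev hq


end F8
end Pool.Agent.PC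

namespace Pool.Agent.PC
namespace G0
open Pool.Agent.PC.F7a (quad_cyclic)

open Module Polynomial

theorem excM_apply_8175 {F : Type} [Field F] (t d : F) (v : Fin 4 → F) :
    excM F t d v = ![-d * v 1, v 0 + t * v 1, -d * v 3, v 2 + t * v 3] := by
  unfold excM
  rw [Matrix.toLin'_apply]
  ext i
  fin_cases i <;> simp [Matrix.mulVec, dotProduct, Fin.sum_univ_four]

/-- the linear equivalence -/
def eqv_8175 (F : Type) [Field F] : ((Fin 2 → F) × (Fin 2 → F)) ≃ₗ[F] (Fin 4 → F) where
  toFun p := ![p.1 0, p.2 0, p.1 1, p.2 1]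
  map_add' p q := by
    ext i
    fin_cases i <;> simp
  map_smul' c p := by
    ext i
    fin_cases i <;> simp
  invFun v := (![v 0, v 2], ![v 1, v 3])
  left_inv p := by
    ext i
    · fin_cases i <;> simp
    · fin_cases i <;> simp
  right_inv v := by
    ext i
    fin_cases i <;> simp

theorem eqv_quad_8175 {F : Type} [Field F] (t d : F) (p : (Fin 2 → F) × (Fin 2 → F)) :
    eqv_8175 F (quadM (F := F) (Fin 2 → F) t d p) = excM F t d (eqv_8175 F p) := by
  rw [excM_apply_8175]
  ext i
  fin_cases i <;> simp [eqv_8175, quadM]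

theorem quad_symm_8175 {F : Type} [Field F] (t d : F) (v : Fin 4 → F) :
    (eqv_8175 F).symm (excM F t d v) =
      quadM (F := F) (Fin 2 → F) t d ((eqv_8175 F).symm v) := by
  rw [LinearEquiv.symm_apply_eq, eqv_quad_8175, LinearEquiv.apply_symm_apply]

theorem sim_conj_8175 {F : Type} [Field F] (t d : F)
    (δ : Module.End F ((Fin 2 → F) × (Fin 2 → F)))
    (h : Sim (quadM (F := F) (Fin 2 → F) t d) δ) :
    Sim (excM F t d) ((eqv_8175 F).conj δ) := by
  obtain ⟨ε, hε⟩ := h
  refine ⟨((eqv_8175 F).symm.trans ε).trans (eqv_8175 F), fun x => ?_⟩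
  rw [LinearEquiv.conj_apply_apply]
  simp only [LinearEquiv.trans_apply, LinearEquiv.symm_apply_apply]
  rw [hε, quad_symm_8175]

/-- cyclic element of `C(excM)^2` without the eigenvalues `a^2` -/
theorem exc_e {F : Type} [Field F] (t d : F) (hd : d ≠ 0) :
    ∃ (e : Module.End F (Fin 4 → F)) (w : Fin 4 → F), Rep (excM F t d) e 2 ∧ Cyc e w ∧
      (∀ (a : F) (x : Fin 4 → F), a * a - t * a + d = 0 → e x = (a * a) • x → x = 0) := by
  obtain ⟨e', w', ⟨l, hl1, hl2, hl3⟩, hcyc, heig⟩ :=
    quad_cyclic (F := F) (U := Fin 2 → F) (by simp) t d hd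
  refine ⟨(eqv_8175 F).conj e', eqv_8175 F w', ?_, ?_, ?_⟩
  · obtain ⟨d1, d2, rfl⟩ := List.length_eq_two.1 hl1
    refine ⟨[(eqv_8175 F).conj d1, (eqv_8175 F).conj d2], rfl, ?_, ?_⟩
    · intro δ hδ
      simp only [List.mem_cons, List.not_mem_nil, or_false] at hδ
      rcases hδ with rfl | rfl
      · exact sim_conj_8175 t d d1 (hl2 d1 (by simp))
      · exact sim_conj_8175 t d d2 (hl2 d2 (by simp))
    · rw [← hl3]
      simp only [List.prod_cons, List.prod_nil, mul_one]
      refine LinearMap.ext fun x => ?_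
      rw [Module.End.mul_apply, LinearEquiv.conj_apply_apply, LinearEquiv.conj_apply_apply,
        LinearEquiv.conj_apply_apply, LinearEquiv.symm_apply_apply, Module.End.mul_apply]
  · intro p hp hinv
    have h1 := hcyc (p.comap (eqv_8175 F).toLinearMap) hp (fun x hx => by
      have := hinv _ hx
      simp only [LinearEquiv.coe_coe, LinearEquiv.conj_apply_apply,
        LinearEquiv.symm_apply_apply] at this
      exact this)
    rw [eq_top_iff]
    intro v _
    have h2 : (eqv_8175 F).symm v ∈ p.comap (eqv_8175 F).toLinearMap := by rw [h1]; trivial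
    rw [Submodule.mem_comap] at h2
    simpa using h2
  · intro a x ha hx
    rw [LinearEquiv.conj_apply_apply] at hx
    have h1 : e' ((eqv_8175 F).symm x) = (a * a) • (eqv_8175 F).symm x := by
      apply (eqv_8175 F).injective
      rw [hx, map_smul, LinearEquiv.apply_symm_apply]
    have h2 := heig a _ ha h1
    simpa using h2

theorem excM_sq_8175 {F : Type} [Field F] (t d : F) (v : Fin 4 → F) :
    excM F t d (excM F t d v) = t • excM F t d v - d • v := by
  rw [excM_apply_8175, excM_apply_8175]
  ext i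
  fin_cases i <;> simp <;> ring

/-- criterion for no common eigenvector -/
theorem repN_of_e {F : Type} [Field F] (t d : F) (hd : d ≠ 0) (e b' : Module.End F (Fin 4 → F))
    (he : Rep (excM F t d) e 2)
    (hne : ∀ (a : F) (x : Fin 4 → F), a * a - t * a + d = 0 → e x = (a * a) • x → x = 0)
    (hb' : Rep (excM F t d) b' 2) : RepN (excM F t d) (e * b') 4 := by
  obtain ⟨l, hl1, hl2, hl3⟩ := he
  obtain ⟨l', hl1', hl2', hl3'⟩ := hb'
  obtain ⟨d1, d2, rfl⟩ := List.length_eq_two.1 hl1
  obtain ⟨d3, d4, rfl⟩ := List.length_eq_two.1 hl1'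
  refine ⟨[d1, d2, d3, d4], rfl, ?_, ?_, ?_⟩
  · intro δ hδ
    simp only [List.mem_cons, List.not_mem_nil, or_false] at hδ
    rcases hδ with rfl | rfl | rfl | rfl
    · exact hl2 _ (by simp)
    · exact hl2 _ (by simp)
    · exact hl2' _ (by simp)
    · exact hl2' _ (by simp)
  · rw [← hl3, ← hl3']
    simp only [List.prod_cons, List.prod_nil, mul_one, mul_assoc]
  · intro c x hx
    by_contra hx0
    have h1 : d1 x = c • x := hx d1 (by simp)
    have h2 : d2 x = c • x := hx d2 (by simp)
    obtain ⟨ε, hε⟩ := hl2 d1 (by simp)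
    have h3 : d1 (d1 x) = t • d1 x - d • x := by
      have e0 : x = ε (ε.symm x) := (ε.apply_symm_apply x).symm
      obtain ⟨y, hy⟩ : ∃ y, y = ε.symm x := ⟨_, rfl⟩
      rw [← hy] at e0
      rw [e0, hε, hε, excM_sq_8175, map_sub, map_smul, map_smul]
    rw [h1, map_smul, h1] at h3
    have h4 : (c * c - t * c + d) • x = 0 := by
      have : (c * c - t * c + d) • x = c • c • x - (t • c • x - d • x) := by
        rw [add_smul, sub_smul, mul_smul, mul_smul]; abel
      rw [this, h3, sub_self]
    have h5 : c * c - t * c + d = 0 := (smul_eq_zero.1 h4).resolve_right hx0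
    refine hx0 (hne c x h5 ?_)
    rw [← hl3]
    simp only [List.prod_cons, List.prod_nil, mul_one]
    rw [Module.End.mul_apply, h2, map_smul, h1, mul_smul]

end G0
end Pool.Agent.PC

namespace Pool.Agent.PC
namespace G1a

open Module Polynomial

section exc
variable {F : Type} [Field F]

/-- second factor -/
def M2x (t d ka p : F) : Matrix (Fin 4) (Fin 4) F :=
  !![ka * t / d, (ka * t / d * (t - ka * t / d) - d) / (-ka / d), 0, 0;
     -ka / d, t - ka * t / d, 0, 0;
     0, 0, p, p * (t - p) - d;
     0, 0, 1, t - p]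

/-- the product -/
def Mx (t d ka p : F) : Matrix (Fin 4) (Fin 4) F :=
  !![ka, t * (ka - d), 0, 0;
     0, d ^ 2 / ka, 0, 0;
     0, 0, -d, -d * (t - p);
     0, 0, p + t, t ^ 2 - d - p ^ 2]

/-- conjugating matrix and inverse -/
def Px (t d ka p : F) : Matrix (Fin 4) (Fin 4) F :=
  !![1, ka * t / d, 0, 0;
     0, -ka / d, 0, 0;
     0, 0, 1, p;
     0, 0, 0, 1]

def Pxi (t d ka p : F) : Matrix (Fin 4) (Fin 4) F :=
  !![1, t, 0, 0;
     0, -d / ka, 0, 0;
     0, 0, 1, -p;
     0, 0, 0, 1]

theorem Px_mul (t d ka p : F) (hd : d ≠ 0) (hk : ka ≠ 0) : Px t d ka p * Pxi t d ka p = 1 := by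
  ext i j
  fin_cases i <;> fin_cases j <;>
    simp [Px, Pxi, Matrix.mul_apply, Fin.sum_univ_four] <;> field_simp <;> ring

theorem Pxi_mul (t d ka p : F) (hd : d ≠ 0) (hk : ka ≠ 0) : Pxi t d ka p * Px t d ka p = 1 :=
  mul_eq_one_comm.1 (Px_mul t d ka p hd hk)

theorem conj_eq (t d ka p : F) (hd : d ≠ 0) (hk : ka ≠ 0) :
    M2x t d ka p * Px t d ka p = Px t d ka p *
      !![0, -d, 0, 0; 1, t, 0, 0; 0, 0, 0, -d; 0, 0, 1, t] := by
  ext i j
  fin_cases i <;> fin_cases j <;>
    simp [Px, M2x, Matrix.mul_apply, Fin.sum_univ_four] <;> field_simp <;> ring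

theorem prod_eq (t d ka p : F) (hd : d ≠ 0) (hk : ka ≠ 0) :
    !![0, -d, 0, 0; 1, t, 0, 0; 0, 0, 0, -d; 0, 0, 1, t] * M2x t d ka p = Mx t d ka p := by
  ext i j
  fin_cases i <;> fin_cases j <;>
    simp [Mx, M2x, Matrix.mul_apply, Fin.sum_univ_four] <;> field_simp <;> ring

theorem charpoly_Mx (t d ka p : F) (hk : ka ≠ 0) : (Mx t d ka p).charpoly =
    (X - C ka) * ((X - C (d ^ 2 / ka)) * (X ^ 2 - C (t ^ 2 - 2 * d - p ^ 2) * X + C (d ^ 2))) := by
  have h2 : (C (2 : F) : F[X]) = 2 := map_ofNat C 2
  unfold Matrix.charpoly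
  rw [Matrix.det_succ_row_zero]
  simp [Fin.sum_univ_four, Matrix.det_fin_three, Matrix.charmatrix_apply, Mx, Matrix.submatrix,
    Fin.succAbove]
  left
  rw [h2]
  ring

end exc


/-- for large fields `C(excM)^2` contains a cyclic class with a simple root -/
theorem exc_simple {F : Type} [Field F] (hF : ∃ S : Finset F, S.card = 4) (t d : F) (hd : d ≠ 0) :
    ∃ (b' : Module.End F (Fin 4 → F)) (lam : F) (g : F[X]), Rep (excM F t d) b' 2 ∧ lam ≠ 0 ∧
      g.Monic ∧ g.natDegree = 3 ∧ g.eval lam ≠ 0 ∧ CycS b' lam g := by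
  classical
  obtain ⟨S, hS⟩ := hF
  -- choose kappa
  obtain ⟨ka, hkaS, hka⟩ : ∃ ka ∈ S, ka ∉ ({0, d, -d} : Finset F) := by
    apply Finset.exists_mem_notMem_of_card_lt_card
    have : ({0, d, -d} : Finset F).card ≤ 3 := Finset.card_le_three
    omega
  simp only [Finset.mem_insert, Finset.mem_singleton, not_or] at hka
  obtain ⟨hk0, hkd, hkd'⟩ := hka
  set mu : F := d ^ 2 / ka with hmu
  have hmk : ka * mu = d ^ 2 := by rw [hmu]; field_simp
  have hmu0 : mu ≠ 0 := by
    intro h
    rw [h, mul_zero] at hmk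
    exact hd (pow_eq_zero_iff (two_ne_zero)|>.1 hmk.symm)
  have hkmu : ka - mu ≠ 0 := by
    intro h
    have h1 : ka = mu := sub_eq_zero.1 h
    have h2 : (ka - d) * (ka + d) = 0 := by
      rw [← h1] at hmk
      linear_combination hmk
    rcases mul_eq_zero.1 h2 with h3 | h3
    · exact hkd (sub_eq_zero.1 h3)
    · exact hkd' (eq_neg_of_add_eq_zero_left h3)
  -- choose p
  set A : F := t ^ 2 - 2 * d - ka - mu with hA
  obtain ⟨p, hpS, hp⟩ : ∃ p ∈ S, p ∉ insert t (nthRoots 2 A).toFinset := by
    apply Finset.exists_mem_notMem_of_card_lt_card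
    have h1 : (insert t (nthRoots 2 A).toFinset).card ≤ (nthRoots 2 A).toFinset.card + 1 :=
      Finset.card_insert_le _ _
    have h2 := Multiset.toFinset_card_le (nthRoots 2 A)
    have h3 := card_nthRoots 2 A
    omega
  simp only [Finset.mem_insert, Multiset.mem_toFinset, mem_nthRoots (show 0 < 2 by norm_num),
    not_or] at hp
  obtain ⟨hpt, hpA⟩ := hp
  set ee : F := ka + mu - (t ^ 2 - 2 * d - p ^ 2) with hee
  have hee0 : ee ≠ 0 := by
    intro h
    apply hpA
    rw [hA]
    linear_combination h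
  -- the element
  set b' : Module.End F (Fin 4 → F) := Matrix.toLin' (Mx t d ka p) with hb'
  set g : F[X] := (X - C mu) * (X ^ 2 - C (t ^ 2 - 2 * d - p ^ 2) * X + C (d ^ 2)) with hg
  have hq : (X ^ 2 - C (t ^ 2 - 2 * d - p ^ 2) * X + C (d ^ 2) : F[X]).Monic ∧
      (X ^ 2 - C (t ^ 2 - 2 * d - p ^ 2) * X + C (d ^ 2) : F[X]).natDegree = 2 := by
    constructor
    · monicity!
    · compute_degree!
  have hgm : g.Monic := (monic_X_sub_C mu).mul hq.1
  have hgd : g.natDegree = 3 := by
    rw [hg, (monic_X_sub_C mu).natDegree_mul hq.1, natDegree_X_sub_C, hq.2]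
  refine ⟨b', ka, g, ?_, hk0, hgm, hgd, ?_, ?_, ?_⟩
  · refine ⟨[excM F t d, Matrix.toLin' (M2x t d ka p)], rfl, ?_, ?_⟩
    · intro x hx
      simp only [List.mem_cons, List.not_mem_nil, or_false] at hx
      rcases hx with rfl | rfl
      · exact ⟨LinearEquiv.refl F _, fun x => rfl⟩
      · refine ⟨Matrix.toLin'OfInv (Pxi_mul t d ka p hd hk0) (Px_mul t d ka p hd hk0), fun x => ?_⟩
        show Matrix.toLin' (M2x t d ka p) (Matrix.toLin' (Px t d ka p) x) =
          Matrix.toLin' (Px t d ka p) (excM F t d x)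
        unfold excM
        rw [Matrix.toLin'_apply, Matrix.toLin'_apply, Matrix.toLin'_apply, Matrix.toLin'_apply,
          Matrix.mulVec_mulVec, Matrix.mulVec_mulVec, conj_eq t d ka p hd hk0]
    · rw [List.prod_cons, List.prod_cons, List.prod_nil, mul_one, hb', ← prod_eq t d ka p hd hk0,
        Matrix.toLin'_mul]
      rfl
  · rw [hg]
    simp only [eval_mul, eval_sub, eval_add, eval_pow, eval_X, eval_C]
    have : ka ^ 2 - (t ^ 2 - 2 * d - p ^ 2) * ka + d ^ 2 = ka * ee := by
      rw [← hmk, hee]; ring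
    rw [this]
    exact mul_ne_zero hkmu (mul_ne_zero hk0 hee0)
  · -- cyclic vector
    obtain ⟨x, hx⟩ : ∃ x : F, x * mu - ka * x - t * (ka - d) ≠ 0 := by
      by_cases ht : t = 0
      · refine ⟨1, ?_⟩
        rw [ht]
        intro h
        apply hkmu
        linear_combination -h
      · refine ⟨0, ?_⟩
        intro h
        have h1 : t * (ka - d) = 0 := by linear_combination -h
        rcases mul_eq_zero.1 h1 with h2 | h2
        · exact ht h2
        · exact hkd (sub_eq_zero.1 h2)
    refine ⟨![x, 1, 0, 1], ?_⟩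
    intro W hw hW
    have hbv : ∀ a0 a1 a2 a3 : F, b' ![a0, a1, a2, a3] =
        ![ka * a0 + t * (ka - d) * a1, mu * a1, -d * a2 + -d * (t - p) * a3,
          (p + t) * a2 + (t ^ 2 - d - p ^ 2) * a3] := by
      intro a0 a1 a2 a3
      rw [hb', Matrix.toLin'_apply]
      ext i
      fin_cases i <;> simp [Mx, Matrix.mulVec, dotProduct, Fin.sum_univ_four, hmu]
    have h1 := hW _ hw
    have h2 := hW _ h1
    -- f1(b') w
    have h3 : b' (b' ![x, 1, 0, 1]) - (t ^ 2 - 2 * d - p ^ 2) • b' ![x, 1, 0, 1] +
        d ^ 2 • ![x, 1, 0, 1] ∈ W :=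
      W.add_mem (W.sub_mem h2 (W.smul_mem _ h1)) (W.smul_mem _ hw)
    have e3 : b' (b' ![x, 1, 0, 1]) - (t ^ 2 - 2 * d - p ^ 2) • b' ![x, 1, 0, 1] +
        d ^ 2 • ![x, 1, 0, 1] = ee • ![ka * x + t * (ka - d), mu, 0, 0] := by
      rw [hbv, hbv, ← hmk, hee]
      ext i
      fin_cases i
      · simp; ring
      · simp; ring
      · simp; ring
      · simp
        linear_combination hmk
    rw [e3] at h3
    have h4 : ![ka * x + t * (ka - d), mu, 0, 0] ∈ W := by
      have := W.smul_mem ee⁻¹ h3
      rwa [smul_smul, inv_mul_cancel₀ hee0, one_smul] at this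
    have h5 := hW _ h4
    have h6 : (ka + mu) • ![ka * x + t * (ka - d), mu, 0, 0] -
        b' ![ka * x + t * (ka - d), mu, 0, 0] ∈ W := W.sub_mem (W.smul_mem _ h4) h5
    have e6 : (ka + mu) • ![ka * x + t * (ka - d), mu, 0, 0] -
        b' ![ka * x + t * (ka - d), mu, 0, 0] = (ka * mu) • ![x, 1, 0, 0] := by
      rw [hbv]
      ext i
      fin_cases i <;> simp <;> ring
    rw [e6] at h6
    have h7 : ![x, 1, 0, 0] ∈ W := by
      have := W.smul_mem (ka * mu)⁻¹ h6
      rwa [smul_smul, inv_mul_cancel₀ (mul_ne_zero hk0 hmu0), one_smul] at this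
    -- basis vectors
    have hE0 : ![1, 0, 0, 0] ∈ W := by
      have h8 : mu • ![x, 1, 0, 0] - ![ka * x + t * (ka - d), mu, 0, 0] ∈ W :=
        W.sub_mem (W.smul_mem _ h7) h4
      have e8 : mu • ![x, 1, 0, 0] - ![ka * x + t * (ka - d), mu, 0, 0] =
          (x * mu - ka * x - t * (ka - d)) • ![1, 0, 0, 0] := by
        ext i
        fin_cases i <;> simp <;> ring
      rw [e8] at h8
      have := W.smul_mem (x * mu - ka * x - t * (ka - d))⁻¹ h8
      rwa [smul_smul, inv_mul_cancel₀ hx, one_smul] at this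
    have hE1 : ![0, 1, 0, 0] ∈ W := by
      have h8 : ![x, 1, 0, 0] - x • ![1, 0, 0, 0] ∈ W := W.sub_mem h7 (W.smul_mem _ hE0)
      have e8 : ![x, 1, 0, 0] - x • ![1, 0, 0, 0] = ![0, 1, 0, 0] := by
        ext i
        fin_cases i <;> simp
      rwa [e8] at h8
    have hE3 : ![0, 0, 0, 1] ∈ W := by
      have h8 : ![x, 1, 0, 1] - ![x, 1, 0, 0] ∈ W := W.sub_mem hw h7
      have e8 : ![x, 1, 0, 1] - ![x, 1, 0, 0] = ![0, 0, 0, 1] := by
        ext i
        fin_cases i <;> simp
      rwa [e8] at h8
    have hE2 : ![0, 0, 1, 0] ∈ W := by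
      have h8 : b' ![0, 0, 0, 1] - (t ^ 2 - d - p ^ 2) • ![0, 0, 0, 1] ∈ W :=
        W.sub_mem (hW _ hE3) (W.smul_mem _ hE3)
      have e8 : b' ![0, 0, 0, 1] - (t ^ 2 - d - p ^ 2) • ![0, 0, 0, 1] =
          (-d * (t - p)) • ![0, 0, 1, 0] := by
        rw [hbv]
        ext i
        fin_cases i <;> simp
      rw [e8] at h8
      have hne : -d * (t - p) ≠ 0 :=
        mul_ne_zero (neg_ne_zero.2 hd) (sub_ne_zero.2 (Ne.symm hpt))
      have := W.smul_mem (-d * (t - p))⁻¹ h8
      rwa [smul_smul, inv_mul_cancel₀ hne, one_smul] at this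
    rw [Submodule.eq_top_iff']
    intro y
    have e9 : y = y 0 • ![1, 0, 0, 0] + y 1 • ![0, 1, 0, 0] + y 2 • ![0, 0, 1, 0] +
        y 3 • ![0, 0, 0, 1] := by
      ext i
      fin_cases i <;> simp
    rw [e9]
    exact W.add_mem (W.add_mem (W.add_mem (W.smul_mem _ hE0) (W.smul_mem _ hE1))
      (W.smul_mem _ hE2)) (W.smul_mem _ hE3)
  · rw [hb', Matrix.charpoly_toLin', charpoly_Mx t d ka p hk0]

end G1a
end Pool.Agent.PC

namespace Pool.Agent.PC
namespace G1
open Pool.Agent.PC.A1a (cyc_inv)
open Pool.Agent.PC.B1 (thmII)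
open Pool.Agent.PC.E1 (exists_poly_avoid)
open Pool.Agent.PC.E1 (cycS_sim)
open Pool.Agent.PC.E1 (rep_sim)
open Pool.Agent.PC.G0 (exc_e)
open Pool.Agent.PC.G0 (repN_of_e)
open Pool.Agent.PC.G1a (exc_simple)

open Module Polynomial

section aux444

variable {F V : Type} [Field F] [AddCommGroup V] [Module F V]

/-- conjugation by a linear equivalence -/
def cj (φ : V ≃ₗ[F] V) (a : Module.End F V) : Module.End F V :=
  (φ : V →ₗ[F] V) ∘ₗ a ∘ₗ (φ.symm : V →ₗ[F] V)

theorem cj_apply (φ : V ≃ₗ[F] V) (a : Module.End F V) (x : V) : cj φ a x = φ (a (φ.symm x)) := rfl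

theorem cj_mul (φ : V ≃ₗ[F] V) (a b : Module.End F V) : cj φ (a * b) = cj φ a * cj φ b := by
  ext x
  rw [Module.End.mul_apply, cj_apply, cj_apply, cj_apply, LinearEquiv.symm_apply_apply,
    Module.End.mul_apply]

theorem cj_one (φ : V ≃ₗ[F] V) : cj φ (1 : Module.End F V) = 1 :=
  LinearMap.ext fun x => by
    rw [cj_apply, Module.End.one_apply, LinearEquiv.apply_symm_apply, Module.End.one_apply]

theorem sim_cj (φ : V ≃ₗ[F] V) (a : Module.End F V) : Sim a (cj φ a) :=
  ⟨φ, fun x => by rw [cj_apply, LinearEquiv.symm_apply_apply]⟩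

theorem sim_refl' (a : Module.End F V) : Sim a a := ⟨LinearEquiv.refl F V, fun _ => rfl⟩

theorem sim_trans' {a b c : Module.End F V} (h : Sim a b) (h' : Sim b c) : Sim a c := by
  obtain ⟨e, he⟩ := h
  obtain ⟨e', he'⟩ := h'
  exact ⟨e.trans e', fun x => by
    rw [LinearEquiv.trans_apply, LinearEquiv.trans_apply, he', he]⟩

theorem eq_cj_of_sim {a b : Module.End F V} {φ : V ≃ₗ[F] V} (h : ∀ x, b (φ x) = φ (a x)) :
    b = cj φ a := by
  ext x
  rw [cj_apply, ← h, LinearEquiv.apply_symm_apply]

theorem cj_symm_of {a b : Module.End F V} {φ : V ≃ₗ[F] V} (h : ∀ x, b (φ x) = φ (a x)) :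
    a = cj φ.symm b := by
  ext x
  rw [cj_apply, LinearEquiv.symm_symm, h, LinearEquiv.symm_apply_apply]

theorem sim_det' {a b : Module.End F V} (h : Sim a b) : LinearMap.det b = LinearMap.det a := by
  obtain ⟨φ, hφ⟩ := h
  rw [eq_cj_of_sim hφ]
  exact LinearMap.det_conj a φ

theorem rep_det' {a b : Module.End F V} {k : ℕ} (h : Rep a b k) :
    LinearMap.det b = LinearMap.det a ^ k := by
  obtain ⟨l, hl, hs, hp⟩ := h
  subst hl hp
  induction l with
  | nil => simp
  | cons d l ih =>
    rw [List.prod_cons, map_mul, ih (fun d hd => hs d (List.mem_cons_of_mem _ hd)),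
      sim_det' (hs d (List.mem_cons_self)), List.length_cons, pow_succ]
    ring

theorem exists_inv' [FiniteDimensional F V] (a : Module.End F V) (h : LinearMap.det a ≠ 0) :
    ∃ a' : Module.End F V, a' * a = 1 ∧ a * a' = 1 := by
  have h1 : IsUnit a := (LinearMap.isUnit_iff_isUnit_det a).2 (isUnit_iff_ne_zero.2 h)
  obtain ⟨u, hu⟩ := h1
  refine ⟨(u⁻¹ : (Module.End F V)ˣ), ?_, ?_⟩
  · rw [← hu]; exact u.inv_mul
  · rw [← hu]; exact u.mul_inv

theorem det_cycS' [FiniteDimensional F V] (h4 : finrank F V = 4) {b : Module.End F V} {lam : F}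
    {g : F[X]} (h : CycS b lam g) :
    LinearMap.det b = lam * ((-1) ^ 3 * g.coeff 0) := by
  rw [LinearMap.det_eq_sign_charpoly_coeff, h.2, h4, mul_coeff_zero]
  simp
  ring

end aux444

theorem excM_det {F : Type} [Field F] (t d : F) : LinearMap.det (excM F t d) = d ^ 2 := by
  unfold excM
  rw [LinearMap.det_toLin']
  simp [Matrix.det_succ_row_zero, Fin.sum_univ_succ, Fin.succAbove]
  ring

theorem excM_not_scal {F : Type} [Field F] (t d : F) : ¬ Scal (excM F t d) := by
  rintro ⟨c, hc⟩
  have h := congrFun (hc ![1, 0, 0, 0]) 1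
  unfold excM at h
  rw [Matrix.toLin'_apply] at h
  simp [Matrix.mulVec, dotProduct, Fin.sum_univ_succ, Matrix.vecHead, Matrix.vecTail] at h

theorem finrank4 (F : Type) [Field F] : finrank F (Fin 4 → F) = 4 := by
  simp

/-- exceptional type, large fields -/
theorem exc_large {F : Type} [Field F] (hF : ∃ S : Finset F, S.card = 4) (t d : F) (hd : d ≠ 0)
    (b : Module.End F (Fin 4 → F)) (hbs : ¬ Scal b)
    (hdet : LinearMap.det b = LinearMap.det (excM F t d) ^ 4) : RepN (excM F t d) b 4 := by
  set A : Module.End F (Fin 4 → F) := excM F t d with hA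
  have hA0 : LinearMap.det A ≠ 0 := by
    rw [hA, excM_det]; exact pow_ne_zero _ hd
  obtain ⟨e, w, heR, hew, hee⟩ := exc_e t d hd
  obtain ⟨b', lam, g, hb'R, hlam, hg, hgd, hgl, hb'C⟩ := exc_simple hF t d hd
  have hdete : LinearMap.det e = LinearMap.det A ^ 2 := rep_det' heR
  have hdetb' : LinearMap.det b' = LinearMap.det A ^ 2 := rep_det' hb'R
  have hdetb'' := det_cycS' (finrank4 F) hb'C
  have he0 : LinearMap.det e ≠ 0 := by rw [hdete]; exact pow_ne_zero _ hA0
  obtain ⟨d0, hd0e, hed0⟩ := exists_inv' e he0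
  have hd0c : Cyc d0 w := cyc_inv e d0 w hew hd0e
  have hdd : LinearMap.det d0 * LinearMap.det e = 1 := by
    rw [← map_mul, hd0e, map_one]
  have hd00 : LinearMap.det d0 ≠ 0 := left_ne_zero_of_mul_eq_one hdd
  have hdetprod : LinearMap.det d0 * LinearMap.det b = lam * ((-1) ^ g.natDegree * g.coeff 0) := by
    rw [hgd, ← hdetb'', hdetb', hdet]
    rw [hdete] at hdd
    calc LinearMap.det d0 * LinearMap.det A ^ 4
        = (LinearMap.det d0 * LinearMap.det A ^ 2) * LinearMap.det A ^ 2 := by ring
      _ = LinearMap.det A ^ 2 := by rw [hdd, one_mul]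
  have hb0 : LinearMap.det b ≠ 0 := by rw [hdet]; exact pow_ne_zero _ hA0
  obtain ⟨δ, hδs, hδC, -⟩ := thmII b d0 w lam g hb0 hbs hd00 hd0c hlam hg
    (by rw [hgd, finrank4]) hgl hdetprod
  have hδR : Rep A (δ * b) 2 := rep_sim A b' (δ * b) 2 hb'R (cycS_sim b' (δ * b) lam g hb'C hδC)
  -- the inverse of δ
  obtain ⟨φ, hφ⟩ := hδs
  have hδ : δ = cj φ d0 := eq_cj_of_sim hφ
  set e1 : Module.End F (Fin 4 → F) := cj φ e with he1
  have he1δ : e1 * δ = 1 := by
    rw [he1, hδ, ← cj_mul, hed0, cj_one]
  have he1R : Rep A e1 2 := rep_sim A e e1 2 heR (sim_cj φ e)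
  have he1e : ∀ (a : F) (x : Fin 4 → F), a * a - t * a + d = 0 → e1 x = (a * a) • x → x = 0 := by
    intro a x ha hx
    rw [he1, cj_apply] at hx
    have h1 : e (φ.symm x) = (a * a) • φ.symm x := by
      apply φ.injective
      rw [hx, map_smul, LinearEquiv.apply_symm_apply]
    have h2 := hee a _ ha h1
    have h3 := congrArg φ h2
    rwa [LinearEquiv.apply_symm_apply, map_zero] at h3
  have hfin := repN_of_e t d hd e1 (δ * b) he1R he1e hδR
  rwa [← mul_assoc, he1δ, one_mul] at hfin

/-- exceptional type, cyclic `b`, all fields -/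
theorem exc_cyclic {F : Type} [Field F] (t d : F) (hd : d ≠ 0)
    (b : Module.End F (Fin 4 → F)) (w : Fin 4 → F) (hw : Cyc b w)
    (hdet : LinearMap.det b = LinearMap.det (excM F t d) ^ 4) : RepN (excM F t d) b 4 := by
  set A : Module.End F (Fin 4 → F) := excM F t d with hA
  have hA0 : LinearMap.det A ≠ 0 := by
    rw [hA, excM_det]; exact pow_ne_zero _ hd
  have hAs : ¬ Scal A := excM_not_scal t d
  obtain ⟨e, we, heR, hew, hee⟩ := exc_e t d hd
  have hdete : LinearMap.det e = LinearMap.det A ^ 2 := rep_det' heR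
  have he0 : LinearMap.det e ≠ 0 := by rw [hdete]; exact pow_ne_zero _ hA0
  have hb0 : LinearMap.det b ≠ 0 := by rw [hdet]; exact pow_ne_zero _ hA0
  obtain ⟨g, hg, hgd, hgc, hgM⟩ := exists_poly_avoid 3 (by norm_num) (-(LinearMap.det A ^ 3))
    ({1} : Finset F) (by simp)
  have hg1 : g.eval 1 ≠ 0 := hgM 1 (Finset.mem_singleton_self _)
  have hcst : (1 : F) * ((-1) ^ g.natDegree * g.coeff 0) = LinearMap.det A ^ 3 := by
    rw [hgd, hgc]; ring
  obtain ⟨Ai, hAiA, hAAi⟩ := exists_inv' A hA0
  have hAid : LinearMap.det Ai * LinearMap.det A = 1 := by rw [← map_mul, hAiA, map_one]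
  have hAi0 : LinearMap.det Ai ≠ 0 := left_ne_zero_of_mul_eq_one hAid
  have hAis : ¬ Scal Ai := by
    rintro ⟨c, hc⟩
    apply hAs
    have hc0 : c ≠ 0 := by
      rintro rfl
      apply hAi0
      have : Ai = 0 := by
        ext1 x
        ext1 
        simp [hc]
      rw [this]
      have h1 : LinearMap.det (0 : Module.End F (Fin 4 → F)) =
        (0 : F) ^ finrank F (Fin 4 → F) := LinearMap.det_zero
      rw [h1, finrank4]; simp
    refine ⟨c⁻¹, fun x => ?_⟩
    have h1 : Ai (A x) = x := by
      have := congrArg (fun f : Module.End F (Fin 4 → F) => f x) hAiA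
      exact this
    rw [hc] at h1
    rw [← h1, smul_smul, inv_mul_cancel₀ hc0, one_smul, h1]
  obtain ⟨d1, hd1s, hd1C, -⟩ := thmII Ai b w 1 g hAi0 hAis hb0 hw one_ne_zero hg
    (by rw [hgd, finrank4]) hg1 (by
      rw [hcst, hdet]
      calc LinearMap.det A ^ 4 * LinearMap.det Ai
          = LinearMap.det A ^ 3 * (LinearMap.det Ai * LinearMap.det A) := by ring
        _ = LinearMap.det A ^ 3 := by rw [hAid, mul_one])
  obtain ⟨d2, hd2s, hd2C, -⟩ := thmII A e we 1 g hA0 hAs he0 hew one_ne_zero hg
    (by rw [hgd, finrank4]) hg1 (by rw [hcst, hdete]; ring)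
  obtain ⟨E, hE⟩ := cycS_sim (d2 * A) (d1 * Ai) 1 g hd2C hd1C
  have h1 : d1 * Ai = cj E d2 * cj E A := by
    rw [← cj_mul]; exact eq_cj_of_sim hE
  have h2 : d1 = cj E d2 * (cj E A * A) := by
    calc d1 = d1 * (Ai * A) := by rw [hAiA, mul_one]
      _ = (d1 * Ai) * A := by rw [mul_assoc]
      _ = cj E d2 * (cj E A * A) := by rw [h1, mul_assoc]
  obtain ⟨φ, hφ⟩ := hd1s
  have h3 : b = cj φ.symm d1 := cj_symm_of hφ
  have h4 : b = cj φ.symm (cj E d2) * (cj φ.symm (cj E A) * cj φ.symm A) := by
    rw [h3, h2, cj_mul, cj_mul]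
  have hes : Sim e (cj φ.symm (cj E d2)) :=
    sim_trans' hd2s (sim_trans' (sim_cj E d2) (sim_cj _ _))
  have heR' : Rep A (cj φ.symm (cj E d2)) 2 := rep_sim A e _ 2 heR hes
  have hne' : ∀ (a : F) (x : Fin 4 → F), a * a - t * a + d = 0 →
      (cj φ.symm (cj E d2)) x = (a * a) • x → x = 0 := by
    intro a x ha hx
    obtain ⟨ψ, hψ⟩ := hes
    have h5 : e (ψ.symm x) = (a * a) • ψ.symm x := by
      apply ψ.injective
      rw [← hψ, LinearEquiv.apply_symm_apply, hx, map_smul, LinearEquiv.apply_symm_apply]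
    have h6 := hee a _ ha h5
    have h7 := congrArg ψ h6
    rwa [LinearEquiv.apply_symm_apply, map_zero] at h7
  have hb'R : Rep A (cj φ.symm (cj E A) * cj φ.symm A) 2 := by
    refine ⟨[cj φ.symm (cj E A), cj φ.symm A], rfl, ?_, by simp⟩
    intro d hd
    rw [List.mem_cons, List.mem_singleton] at hd
    rcases hd with rfl | rfl
    · exact sim_trans' (sim_cj E A) (sim_cj _ _)
    · exact sim_cj _ _
  have hfin := repN_of_e t d hd _ _ heR' hne' hb'R
  rw [h4]
  exact hfin

end G1
end Pool.Agent.PC
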