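import Pool.Agent.MP485c8a.Cert2
import Pool.Agent.MP485c8a.Cert3a
import Pool.Agent.MP485c8a.Cert3b
import Pool.Agent.MP485c8a.Defs
import Pool.Agent.MP485c8a.P1
import Pool.Agent.MP485c8a.P2
import Pool.Agent.MP485c8a.P3
import Pool.Agent.MP485c8a.P4

set_option autoImplicit false

namespace Pool.Agent.PC
namespace H1
open Pool.Agent.PC.D2 (exists_big_quotient)
open Pool.Agent.PC.D4 (step_one)
open Pool.Agent.PC.E1 (rep_master)
open Pool.Agent.PC.E2 (repN_cyclic)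
open Pool.Agent.PC.F8 (ef_all)
open Pool.Agent.PC.G4 (cyc_of_big_three)

open Module Polynomial

/-- transport of `RepN` -/
theorem repN_transport {F V W : Type} [Field F] [AddCommGroup V] [Module F V]
    [AddCommGroup W] [Module F W] (a : Module.End F V) (a' b' : Module.End F W) (b : Module.End F V)
    (m : ℕ) (E : V ≃ₗ[F] W) (haa : Sim a a') (hb : ∀ x, b' (E x) = E (b x))
    (h : RepN a' b' m) : RepN a b m := by
  obtain ⟨l, hl1, hl2, hl3, hl4⟩ := h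
  obtain ⟨e, he⟩ := haa
  obtain ⟨φ, hφ⟩ : ∃ φ : Module.End F W →* Module.End F V, ∀ d x, φ d x = E.symm (d (E x)) := by
    refine ⟨{ toFun := fun d => E.symm.toLinearMap ∘ₗ d ∘ₗ E.toLinearMap
              map_one' := ?_
              map_mul' := ?_ }, fun d x => rfl⟩
    · ext x
      simp
    · intro d d'
      ext x
      simp
  refine ⟨l.map φ, by rw [List.length_map, hl1], ?_, ?_, ?_⟩
  · intro d hd
    rw [List.mem_map] at hd
    obtain ⟨d0, hd0, rfl⟩ := hd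
    obtain ⟨e0, he0⟩ := hl2 d0 hd0
    refine ⟨(e.trans e0).trans E.symm, ?_⟩
    intro x
    rw [hφ]
    simp only [LinearEquiv.trans_apply, LinearEquiv.apply_symm_apply]
    rw [he0, he]
  · rw [← map_list_prod, hl3]
    ext x
    rw [hφ, hb, LinearEquiv.symm_apply_apply]
  · intro c x hx
    have h1 : E x = 0 := by
      apply hl4 c
      intro d hd
      have h2 := hx (φ d) (List.mem_map_of_mem hd)
      rw [hφ, LinearEquiv.symm_apply_eq, map_smul] at h2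
      exact h2
    exact E.map_eq_zero_iff.1 h1

/-- the theorem for `Big` maps -/
theorem main_big {F : Type} [Field F] (hE : ExcGood F) (n : ℕ) (h3 : 3 ≤ n)
    (V : Type) [AddCommGroup V] [Module F V] [FiniteDimensional F V] (hn : finrank F V = n)
    (al be : Module.End F V) (hal : LinearMap.det al ≠ 0) (hbig : Big al) (hbs : ¬ Scal be)
    (hdet : LinearMap.det be = LinearMap.det al ^ n) : RepN al be n := by
  have key : ∀ n : ℕ, 3 ≤ n → ∀ (V : Type) [AddCommGroup V] [Module F V] [FiniteDimensional F V],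
      finrank F V = n → ∀ (al be : Module.End F V), LinearMap.det al ≠ 0 → Big al → ¬ Scal be →
      LinearMap.det be = LinearMap.det al ^ n → RepN al be n := by
    intro n h3
    induction n, h3 using Nat.le_induction with
    | base =>
      intro V _ _ _ hn al be hal hbig hbs hdet
      obtain ⟨w, hw⟩ := cyc_of_big_three hn al hbig
      have h := repN_cyclic (by rw [hn]) al w hal hw be hbs (by rw [hn]; exact hdet)
      rwa [hn] at h
    | succ m hm ih =>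
      intro V _ _ _ hn al be hal hbig hbs hdet
      by_cases hexc : ∃ t d : F, Sim al (excM F t d)
      · obtain ⟨t, d, E, hEE⟩ := hexc
        have h4 : finrank F V = 4 := by rw [E.finrank_eq, Module.finrank_fin_fun]
        have hm4 : m + 1 = 4 := by omega
        have hconj : excM F t d = E.toLinearMap ∘ₗ al ∘ₗ E.symm.toLinearMap := by
          refine LinearMap.ext fun y => ?_
          obtain ⟨x, rfl⟩ := E.surjective y
          rw [hEE]
          simp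
        have hdc : LinearMap.det (excM F t d) = LinearMap.det al := by
          rw [hconj]
          exact LinearMap.det_conj al E
        have hd : d ≠ 0 := by
          rintro rfl
          apply hal
          rw [← hdc]
          unfold excM
          rw [LinearMap.det_toLin']
          apply Matrix.det_eq_zero_of_row_eq_zero 0
          intro j
          fin_cases j <;> simp
        have hbE : ∀ x, (E.toLinearMap ∘ₗ be ∘ₗ E.symm.toLinearMap) (E x) = E (be x) := by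
          intro x
          simp
        have hns : ¬ Scal (E.toLinearMap ∘ₗ be ∘ₗ E.symm.toLinearMap) := by
          rintro ⟨c, hc⟩
          apply hbs
          refine ⟨c, fun x => ?_⟩
          have h1 := hc (E x)
          rw [hbE, ← map_smul] at h1
          exact E.injective h1
        have hr := hE t d (E.toLinearMap ∘ₗ be ∘ₗ E.symm.toLinearMap) hd hns (by
          rw [hdc]
          refine (LinearMap.det_conj be E).trans ?_
          rw [hdet, hm4])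
        rw [hm4]
        exact repN_transport al (excM F t d) _ be 4 E ⟨E, hEE⟩ hbE hr
      · by_cases hev : ∃ (a : F) (w : V), w ≠ 0 ∧ al w = a • w
        · obtain ⟨a, χ, at', hsim, hbig'⟩ := exists_big_quotient m hm hn al hal hbig hev hexc
          exact step_one m hm hn (fun c d hc hbc hsd hdd =>
            ih (Fin m → F) (Module.finrank_fin_fun F) c d hc hbc hsd hdd)
            al be hal hbig a χ at' hsim hbig' hbs hdet
        · have hev' : ∀ (c : F) (x : V), al x = c • x → x = 0 := by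
            intro c x hx
            by_contra h
            exact hev ⟨c, x, h, hx⟩
          obtain ⟨k, e, w, hk, hrep, hcyc⟩ := ef_all al hal (by omega) hev' hexc
          have hsc : ¬ Scal al := by
            rintro ⟨c, hc⟩
            have h1 := hbig c
            have h2 : al - c • (LinearMap.id : V →ₗ[F] V) = 0 := by
              refine LinearMap.ext fun x => ?_
              rw [LinearMap.sub_apply, LinearMap.smul_apply, LinearMap.id_apply, hc, sub_self,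
                LinearMap.zero_apply]
            rw [h2, LinearMap.range_zero, finrank_bot] at h1
            omega
          obtain ⟨l, hl1, hl2, hl3⟩ := rep_master (by omega) al e w k hal hsc hrep hcyc (m + 1)
            (by omega) be hbs hdet
          refine ⟨l, hl1, hl2, hl3, ?_⟩
          intro c x hx
          have hne : l ≠ [] := by
            rintro rfl
            simp at hl1
          obtain ⟨d, hd⟩ := List.exists_mem_of_ne_nil l hne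
          obtain ⟨e', he'⟩ := hl2 d hd
          obtain ⟨y, rfl⟩ := e'.surjective x
          have h1 := hx d hd
          rw [he', ← map_smul] at h1
          have h2 := hev' c y (e'.injective h1)
          rw [h2, map_zero]
  exact key n h3 V hn al be hal hbig hbs hdet

end H1
end Pool.Agent.PC

namespace Pool.Agent.PC
namespace H2
open Pool.Agent.PC.C4 (rep_of_not_big)
open Pool.Agent.PC.H1 (main_big)

open Module Polynomial

theorem not_scal_8217 {F : Type} [Field F] (n : ℕ) (α : Matrix.SpecialLinearGroup (Fin n) F)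
    (hα : α ∉ Subgroup.center (Matrix.SpecialLinearGroup (Fin n) F)) :
    ¬ Scal (Matrix.toLin' (α : Matrix (Fin n) (Fin n) F)) := by
  rintro ⟨c, hc⟩
  apply hα
  have hA : (α : Matrix (Fin n) (Fin n) F) = Matrix.scalar (Fin n) c := by
    ext i j
    have h := congrFun (hc (Pi.single j 1)) i
    rw [Matrix.toLin'_apply, Matrix.mulVec_single_one] at h
    have h1 : (α : Matrix (Fin n) (Fin n) F).col j i = (α : Matrix (Fin n) (Fin n) F) i j := rfl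
    rw [h1] at h
    rw [h, Matrix.scalar_apply, Matrix.diagonal_apply, Pi.smul_apply, Pi.single_apply, smul_eq_mul]
    by_cases hij : i = j
    · rw [if_pos hij, if_pos hij, mul_one]
    · rw [if_neg hij, if_neg hij, mul_zero]
  rw [Matrix.SpecialLinearGroup.mem_center_iff]
  refine ⟨c, ?_, hA.symm⟩
  have hdet := α.2
  rw [show (α.1 : Matrix (Fin n) (Fin n) F) = Matrix.scalar (Fin n) c from hA] at hdet
  rw [Matrix.scalar_apply, Matrix.det_diagonal, Finset.prod_const, Finset.card_univ] at hdet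
  exact hdet

theorem sim_matrix_8217 {F : Type} [Field F] (n : ℕ) (A : Matrix (Fin n) (Fin n) F)
    (d : Module.End F (Fin n → F)) (h : Sim (Matrix.toLin' A) d) :
    ∃ g : Matrix.GeneralLinearGroup (Fin n) F, LinearMap.toMatrixAlgEquiv' d =
      ((g : Matrix.GeneralLinearGroup (Fin n) F) : Matrix (Fin n) (Fin n) F) * A *
        ((g⁻¹ : Matrix.GeneralLinearGroup (Fin n) F) : Matrix (Fin n) (Fin n) F) := by
  obtain ⟨e, he⟩ := h
  let E : Module.End F (Fin n → F) := e.toLinearMap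
  let E' : Module.End F (Fin n → F) := e.symm.toLinearMap
  have h1 : E * E' = 1 := by
    ext1 x
    apply LinearMap.ext
    intro y
    show e (e.symm _) = _
    rw [LinearEquiv.apply_symm_apply]
    rfl
  have h2 : E' * E = 1 := by
    ext1 x
    apply LinearMap.ext
    intro y
    show e.symm (e _) = _
    rw [LinearEquiv.symm_apply_apply]
    rfl
  let g : Matrix.GeneralLinearGroup (Fin n) F :=
    ⟨LinearMap.toMatrixAlgEquiv' E, LinearMap.toMatrixAlgEquiv' E',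
      by rw [← map_mul, h1, map_one], by rw [← map_mul, h2, map_one]⟩
  refine ⟨g, ?_⟩
  show _ = LinearMap.toMatrixAlgEquiv' E * A * LinearMap.toMatrixAlgEquiv' E'
  have hA : A = LinearMap.toMatrixAlgEquiv' (Matrix.toLin' A) := by
    have := LinearMap.toMatrix'_toLin' A
    exact this.symm
  conv_rhs => rw [hA]
  rw [← map_mul, ← map_mul]
  congr 1
  apply LinearMap.ext
  intro x
  show d x = e (Matrix.toLin' A (e.symm x))
  rw [← he, LinearEquiv.apply_symm_apply]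

/-- from linear maps to the frozen matrix statement -/
theorem matrix_form {F : Type} [Field F] (hE : ExcGood F) (n : ℕ) (hn : 2 < n)
    (α β : Matrix.SpecialLinearGroup (Fin n) F)
    (hα : α ∉ Subgroup.center (Matrix.SpecialLinearGroup (Fin n) F))
    (hβ : β ∉ Subgroup.center (Matrix.SpecialLinearGroup (Fin n) F)) :
    ∃ g : Fin n → Matrix.GeneralLinearGroup (Fin n) F,
      (β : Matrix (Fin n) (Fin n) F) =
        (List.ofFn (fun i =>
          ((g i : Matrix.GeneralLinearGroup (Fin n) F) : Matrix (Fin n) (Fin n) F) *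
            (α : Matrix (Fin n) (Fin n) F) *
            (((g i)⁻¹ : Matrix.GeneralLinearGroup (Fin n) F) : Matrix (Fin n) (Fin n) F))).prod := by
  have hdetα : LinearMap.det (Matrix.toLin' (α : Matrix (Fin n) (Fin n) F)) = 1 := by
    rw [LinearMap.det_toLin']; exact α.2
  have hdetβ : LinearMap.det (Matrix.toLin' (β : Matrix (Fin n) (Fin n) F)) = 1 := by
    rw [LinearMap.det_toLin']; exact β.2
  have hsα := not_scal_8217 n α hα
  have hsβ := not_scal_8217 n β hβ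
  have hfin : finrank F (Fin n → F) = n := by rw [Module.finrank_fin_fun]
  have hRep : Rep (Matrix.toLin' (α : Matrix (Fin n) (Fin n) F))
      (Matrix.toLin' (β : Matrix (Fin n) (Fin n) F)) n := by
    by_cases hbig : Big (Matrix.toLin' (α : Matrix (Fin n) (Fin n) F))
    · obtain ⟨l, h1, h2, h3, _⟩ := main_big hE n (by omega) (Fin n → F) hfin
        (Matrix.toLin' (α : Matrix (Fin n) (Fin n) F)) (Matrix.toLin' (β : Matrix (Fin n) (Fin n) F))
        (by rw [hdetα]; exact one_ne_zero) hbig hsβ (by rw [hdetα, hdetβ, one_pow])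
      exact ⟨l, h1, h2, h3⟩
    · have h := rep_of_not_big (by rw [hfin]; omega)
        (Matrix.toLin' (α : Matrix (Fin n) (Fin n) F)) (Matrix.toLin' (β : Matrix (Fin n) (Fin n) F))
        (by rw [hdetα]; exact one_ne_zero) hsα hbig hsβ (by rw [hdetα, hdetβ, one_pow])
      rwa [hfin] at h
  obtain ⟨l, hlen, hsim, hprod⟩ := hRep
  have hg : ∀ i : Fin n, ∃ g : Matrix.GeneralLinearGroup (Fin n) F,
      LinearMap.toMatrixAlgEquiv' (l[(i : ℕ)]'(by rw [hlen]; exact i.2)) =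
      ((g : Matrix.GeneralLinearGroup (Fin n) F) : Matrix (Fin n) (Fin n) F) *
        (α : Matrix (Fin n) (Fin n) F) *
        ((g⁻¹ : Matrix.GeneralLinearGroup (Fin n) F) : Matrix (Fin n) (Fin n) F) := by
    intro i
    exact sim_matrix_8217 n _ _ (hsim _ (List.getElem_mem _))
  choose g hg using hg
  refine ⟨g, ?_⟩
  have hlist : (List.ofFn (fun i =>
          ((g i : Matrix.GeneralLinearGroup (Fin n) F) : Matrix (Fin n) (Fin n) F) *
            (α : Matrix (Fin n) (Fin n) F) *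
            (((g i)⁻¹ : Matrix.GeneralLinearGroup (Fin n) F) : Matrix (Fin n) (Fin n) F))) =
      l.map LinearMap.toMatrixAlgEquiv' := by
    apply List.ext_getElem
    · rw [List.length_ofFn, List.length_map, hlen]
    · intro k hk1 hk2
      rw [List.getElem_ofFn, List.getElem_map, ← hg]
  rw [hlist, ← map_list_prod, hprod]
  exact (LinearMap.toMatrix'_toLin' _).symm

end H2
end Pool.Agent.PC

namespace Pool.Agent.PC
namespace H3

theorem center_transport {F K : Type} [Field F] [Field K] (e : F ≃+* K) (n : ℕ)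
    (α : Matrix.SpecialLinearGroup (Fin n) F)
    (h : α ∉ Subgroup.center (Matrix.SpecialLinearGroup (Fin n) F)) :
    Matrix.SpecialLinearGroup.map (e : F →+* K) α ∉
      Subgroup.center (Matrix.SpecialLinearGroup (Fin n) K) := by
  intro hc
  apply h
  rw [Subgroup.mem_center_iff] at hc ⊢
  intro γ
  have h1 := hc (Matrix.SpecialLinearGroup.map (e : F →+* K) γ)
  rw [← map_mul, ← map_mul] at h1
  apply Subtype.ext
  have h2 := congrArg (fun M : Matrix.SpecialLinearGroup (Fin n) K => (M : Matrix (Fin n) (Fin n) K)) h1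
  simp only [Matrix.SpecialLinearGroup.map_apply_coe] at h2
  ext i j
  have h3 := congrFun (congrFun h2 i) j
  simp only [RingHom.mapMatrix_apply, Matrix.map_apply] at h3
  exact e.injective h3

/-- transport along a field isomorphism -/
theorem concl_transport {F K : Type} [Field F] [Field K] (e : F ≃+* K) (h : Concl K) : Concl F := by
  intro n hn α β hα hβ
  obtain ⟨g, hg⟩ := h n hn _ _ (center_transport e n α hα) (center_transport e n β hβ)
  refine ⟨fun i => Matrix.GeneralLinearGroup.map (e.symm : K →+* F) (g i), ?_⟩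
  have h1 := congrArg (fun M : Matrix (Fin n) (Fin n) K => (e.symm : K →+* F).mapMatrix M) hg
  simp only [map_list_prod, List.map_ofFn] at h1
  have h2 : ∀ M : Matrix.SpecialLinearGroup (Fin n) F, (e.symm : K →+* F).mapMatrix
      ((Matrix.SpecialLinearGroup.map (e : F →+* K) M : Matrix.SpecialLinearGroup (Fin n) K) :
        Matrix (Fin n) (Fin n) K) = (M : Matrix (Fin n) (Fin n) F) := by
    intro M
    ext i j
    simp [Matrix.SpecialLinearGroup.map_apply_coe]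
  rw [h2] at h1
  rw [h1]
  congr 2
  funext i
  simp only [Function.comp_apply, map_mul, h2]
  congr 1

/-- fields with at most 3 elements -/
theorem small_field {F : Type} [Field F] (h : ¬ ∃ S : Finset F, S.card = 4) :
    Nonempty (F ≃+* ZMod 2) ∨ Nonempty (F ≃+* ZMod 3) := by
  classical
  have hfin : Finite F := by
    by_contra hinf
    rw [not_finite_iff_infinite] at hinf
    exact h (Infinite.exists_subset_card_eq F 4)
  haveI : Fintype F := Fintype.ofFinite F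
  have hcard : Fintype.card F ≤ 3 := by
    by_contra hc
    push Not at hc
    obtain ⟨S, -, hS⟩ := Finset.exists_subset_card_eq (s := (Finset.univ : Finset F)) (n := 4)
      (by rw [Finset.card_univ]; omega)
    exact h ⟨S, hS⟩
  have h2 : 1 < Fintype.card F := Fintype.one_lt_card
  have h3 : Fintype.card F = 2 ∨ Fintype.card F = 3 := by omega
  rcases h3 with h3 | h3
  · left
    haveI : Fact (Nat.Prime 2) := ⟨Nat.prime_two⟩
    exact ⟨FiniteField.ringEquivOfCardEq (by rw [h3, ZMod.card])⟩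
  · right
    haveI : Fact (Nat.Prime 3) := ⟨Nat.prime_three⟩
    exact ⟨FiniteField.ringEquivOfCardEq (by rw [h3, ZMod.card])⟩

end H3
end Pool.Agent.PC

set_option maxRecDepth 100000

namespace Pool.Agent.PC
namespace ExcSmall

open Module
open Pool.Agent.PC.Cert (m)
open Pool.Agent.PC.G1 (exc_cyclic exc_large)
open Pool.Agent.PC.G4 (noncyc_four)
open Pool.Agent.PC.H1 (repN_transport)

theorem repN_of_sim {F : Type} [Field F] (t d : F) (b b' : Module.End F (Fin 4 → F))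
    (hs : Sim b b') (h : RepN (excM F t d) b' 4) : RepN (excM F t d) b 4 := by
  obtain ⟨E, hE⟩ := hs
  exact repN_transport (excM F t d) (excM F t d) b' b 4 E ⟨LinearEquiv.refl F _, fun x => rfl⟩ hE h

theorem det_of_sim {F V W : Type} [Field F] [AddCommGroup V] [Module F V] [AddCommGroup W]
    [Module F W] (b : Module.End F V) (b' : Module.End F W) (hs : Sim b b') :
    LinearMap.det b = LinearMap.det b' := by
  obtain ⟨E, hE⟩ := hs
  have : b' = (E : V →ₗ[F] W) ∘ₗ b ∘ₗ (E.symm : W →ₗ[F] V) := by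
    apply LinearMap.ext
    intro x
    have := hE (E.symm x)
    simp only [LinearEquiv.apply_symm_apply] at this
    simpa using this
  rw [this, LinearMap.det_conj]

theorem det_exc {F : Type} [Field F] (t d : F) : LinearMap.det (excM F t d) = d * d := by
  unfold excM
  rw [LinearMap.det_toLin']
  simp [Matrix.det_succ_row_zero, Fin.sum_univ_succ, Fin.succAbove]

theorem det_T1 {F : Type} [Field F] (a h0 h1 : F) :
    LinearMap.det (Matrix.toLin' (!![a, 0, 0, 0; 0, 0, 0, a * h0;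
      0, 1, 0, a * h1 - h0; 0, 0, 1, a - h1] : Matrix (Fin 4) (Fin 4) F)) = a * a * h0 := by
  rw [LinearMap.det_toLin']
  simp [Matrix.det_succ_row_zero, Fin.sum_univ_succ, Fin.succAbove]
  ring

theorem det_T2 {F : Type} [Field F] (a c : F) :
    LinearMap.det (Matrix.toLin' (!![a, 0, 0, 0; 0, a, 0, 0; 0, 0, 0, -(a * c);
      0, 0, 1, a + c] : Matrix (Fin 4) (Fin 4) F)) = a * a * (a * c) := by
  rw [LinearMap.det_toLin']
  simp [Matrix.det_succ_row_zero, Fin.sum_univ_succ, Fin.succAbove]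
  ring

theorem t1_2 (t d a h0 h1 : ZMod 2) (hd : d ≠ 0) (h : a * a * h0 = (d * d) ^ 4) :
    RepN (excM (ZMod 2) t d) (Matrix.toLin' (!![a, 0, 0, 0; 0, 0, 0, a * h0;
      0, 1, 0, a * h1 - h0; 0, 0, 1, a - h1] : Matrix (Fin 4) (Fin 4) (ZMod 2))) 4 := by
  have hd' : d = 1 := by clear h; revert d; decide
  have ht : t = 0 ∨ t = 1 := by revert t; decide
  have hh1 : h1 = 0 ∨ h1 = 1 := by revert h1; decide
  have ha : (a = 1) ∧ h0 = 1 := by clear hd' ht hh1; revert h hd; revert a h0 d; decide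
  obtain ⟨ha, rfl⟩ := ha
  clear h
  subst hd' <;> rcases ht with rfl | rfl <;> subst ha <;> rcases hh1 with rfl | rfl
  · have e : (!![1, 0, 0, 0; 0, 0, 0, 1 * 1; 0, 1, 0, 1 * 0 - 1; 0, 0, 1, 1 - 0] : Matrix (Fin 4) (Fin 4) (ZMod 2)) = m [1,0,0,0,0,0,0,1,0,1,0,1,0,0,1,1] := by decide
    rw [e]; exact Cert2_01.c_T1_1_1_0
  · have e : (!![1, 0, 0, 0; 0, 0, 0, 1 * 1; 0, 1, 0, 1 * 1 - 1; 0, 0, 1, 1 - 1] : Matrix (Fin 4) (Fin 4) (ZMod 2)) = m [1,0,0,0,0,0,0,1,0,1,0,0,0,0,1,0] := by decide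
    rw [e]; exact Cert2_01.c_T1_1_1_1
  · have e : (!![1, 0, 0, 0; 0, 0, 0, 1 * 1; 0, 1, 0, 1 * 0 - 1; 0, 0, 1, 1 - 0] : Matrix (Fin 4) (Fin 4) (ZMod 2)) = m [1,0,0,0,0,0,0,1,0,1,0,1,0,0,1,1] := by decide
    rw [e]; exact Cert2_11.c_T1_1_1_0
  · have e : (!![1, 0, 0, 0; 0, 0, 0, 1 * 1; 0, 1, 0, 1 * 1 - 1; 0, 0, 1, 1 - 1] : Matrix (Fin 4) (Fin 4) (ZMod 2)) = m [1,0,0,0,0,0,0,1,0,1,0,0,0,0,1,0] := by decide
    rw [e]; exact Cert2_11.c_T1_1_1_1

theorem t2_2 (t d a c : ZMod 2) (hd : d ≠ 0) (h : a * a * (a * c) = (d * d) ^ 4) :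
    RepN (excM (ZMod 2) t d) (Matrix.toLin' (!![a, 0, 0, 0; 0, a, 0, 0; 0, 0, 0, -(a * c);
      0, 0, 1, a + c] : Matrix (Fin 4) (Fin 4) (ZMod 2))) 4 := by
  have hd' : d = 1 := by clear h; revert d; decide
  have ht : t = 0 ∨ t = 1 := by revert t; decide
  have ha : (a = 1) ∧ c = a := by clear hd' ht; revert h hd; revert a c d; decide
  obtain ⟨ha, rfl⟩ := ha
  clear h
  subst hd' <;> rcases ht with rfl | rfl <;> subst ha
  · have e : (!![1, 0, 0, 0; 0, 1, 0, 0; 0, 0, 0, -(1 * 1); 0, 0, 1, 1 + 1] : Matrix (Fin 4) (Fin 4) (ZMod 2)) = m [1,0,0,0,0,1,0,0,0,0,0,1,0,0,1,0] := by decide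
    rw [e]; exact Cert2_01.c_T2_1_1
  · have e : (!![1, 0, 0, 0; 0, 1, 0, 0; 0, 0, 0, -(1 * 1); 0, 0, 1, 1 + 1] : Matrix (Fin 4) (Fin 4) (ZMod 2)) = m [1,0,0,0,0,1,0,0,0,0,0,1,0,0,1,0] := by decide
    rw [e]; exact Cert2_11.c_T2_1_1

theorem t3_2 (t d s c : ZMod 2) (hd : d ≠ 0) (hc : c ≠ 0) :
    RepN (excM (ZMod 2) t d) (excM (ZMod 2) s c) 4 := by
  have hd' : d = 1 := by revert d; decide
  have ht : t = 0 ∨ t = 1 := by revert t; decide
  have hc' : c = 1 := by revert c; decide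
  have hs : s = 0 ∨ s = 1 := by revert s; decide
  subst hd' <;> rcases ht with rfl | rfl <;> subst hc' <;> rcases hs with rfl | rfl
  · have e : excM (ZMod 2) 0 1 = Matrix.toLin' (m [0,1,0,0,1,0,0,0,0,0,0,1,0,0,1,0] : Matrix (Fin 4) (Fin 4) (ZMod 2)) := by
      unfold excM; congr 1; decide
    have h := Cert2_01.c_T3_0_1
    rw [← e] at h; exact h
  · have e : excM (ZMod 2) 1 1 = Matrix.toLin' (m [0,1,0,0,1,1,0,0,0,0,0,1,0,0,1,1] : Matrix (Fin 4) (Fin 4) (ZMod 2)) := by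
      unfold excM; congr 1; decide
    have h := Cert2_01.c_T3_1_1
    rw [← e] at h; exact h
  · have e : excM (ZMod 2) 0 1 = Matrix.toLin' (m [0,1,0,0,1,0,0,0,0,0,0,1,0,0,1,0] : Matrix (Fin 4) (Fin 4) (ZMod 2)) := by
      unfold excM; congr 1; decide
    have h := Cert2_11.c_T3_0_1
    rw [← e] at h; exact h
  · have e : excM (ZMod 2) 1 1 = Matrix.toLin' (m [0,1,0,0,1,1,0,0,0,0,0,1,0,0,1,1] : Matrix (Fin 4) (Fin 4) (ZMod 2)) := by
      unfold excM; congr 1; decide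
    have h := Cert2_11.c_T3_1_1
    rw [← e] at h; exact h

theorem excGood_2 : ExcGood (ZMod 2) := by
  intro t d b hd hbs hdet
  by_cases hc : ∃ w, Cyc b w
  · obtain ⟨w, hw⟩ := hc
    exact exc_cyclic t d hd b w hw hdet
  have h4 : finrank (ZMod 2) (Fin 4 → ZMod 2) = 4 := by simp
  rw [det_exc] at hdet
  rcases noncyc_four h4 b hbs hc with ⟨a, h0, h1, hs⟩ | ⟨a, c, hs⟩ | ⟨s, c, hs⟩
  · refine repN_of_sim t d b _ hs (t1_2 t d a h0 h1 hd ?_)
    rw [← hdet, det_of_sim b _ hs, det_T1]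
  · refine repN_of_sim t d b _ hs (t2_2 t d a c hd ?_)
    rw [← hdet, det_of_sim b _ hs, det_T2]
  · refine repN_of_sim t d b _ hs (t3_2 t d s c hd ?_)
    intro hc0
    rw [det_of_sim b _ hs, det_exc, hc0, mul_zero] at hdet
    exact hd (by simpa using hdet.symm)

theorem t1_3 (t d a h0 h1 : ZMod 3) (hd : d ≠ 0) (h : a * a * h0 = (d * d) ^ 4) :
    RepN (excM (ZMod 3) t d) (Matrix.toLin' (!![a, 0, 0, 0; 0, 0, 0, a * h0;
      0, 1, 0, a * h1 - h0; 0, 0, 1, a - h1] : Matrix (Fin 4) (Fin 4) (ZMod 3))) 4 := by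
  have hd' : d = 1 ∨ d = 2 := by clear h; revert d; decide
  have ht : t = 0 ∨ t = 1 ∨ t = 2 := by revert t; decide
  have hh1 : h1 = 0 ∨ h1 = 1 ∨ h1 = 2 := by revert h1; decide
  have ha : (a = 1 ∨ a = 2) ∧ h0 = 1 := by clear hd' ht hh1; revert h hd; revert a h0 d; decide
  obtain ⟨ha, rfl⟩ := ha
  clear h
  rcases hd' with rfl | rfl <;> rcases ht with rfl | rfl | rfl <;> rcases ha with rfl | rfl <;> rcases hh1 with rfl | rfl | rfl
  · have e : (!![1, 0, 0, 0; 0, 0, 0, 1 * 1; 0, 1, 0, 1 * 0 - 1; 0, 0, 1, 1 - 0] : Matrix (Fin 4) (Fin 4) (ZMod 3)) = m [1,0,0,0,0,0,0,1,0,1,0,2,0,0,1,1] := by decide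
    rw [e]; exact Cert3_01.c_T1_1_1_0
  · have e : (!![1, 0, 0, 0; 0, 0, 0, 1 * 1; 0, 1, 0, 1 * 1 - 1; 0, 0, 1, 1 - 1] : Matrix (Fin 4) (Fin 4) (ZMod 3)) = m [1,0,0,0,0,0,0,1,0,1,0,0,0,0,1,0] := by decide
    rw [e]; exact Cert3_01.c_T1_1_1_1
  · have e : (!![1, 0, 0, 0; 0, 0, 0, 1 * 1; 0, 1, 0, 1 * 2 - 1; 0, 0, 1, 1 - 2] : Matrix (Fin 4) (Fin 4) (ZMod 3)) = m [1,0,0,0,0,0,0,1,0,1,0,1,0,0,1,2] := by decide
    rw [e]; exact Cert3_01.c_T1_1_1_2
  · have e : (!![2, 0, 0, 0; 0, 0, 0, 2 * 1; 0, 1, 0, 2 * 0 - 1; 0, 0, 1, 2 - 0] : Matrix (Fin 4) (Fin 4) (ZMod 3)) = m [2,0,0,0,0,0,0,2,0,1,0,2,0,0,1,2] := by decide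
    rw [e]; exact Cert3_01.c_T1_2_1_0
  · have e : (!![2, 0, 0, 0; 0, 0, 0, 2 * 1; 0, 1, 0, 2 * 1 - 1; 0, 0, 1, 2 - 1] : Matrix (Fin 4) (Fin 4) (ZMod 3)) = m [2,0,0,0,0,0,0,2,0,1,0,1,0,0,1,1] := by decide
    rw [e]; exact Cert3_01.c_T1_2_1_1
  · have e : (!![2, 0, 0, 0; 0, 0, 0, 2 * 1; 0, 1, 0, 2 * 2 - 1; 0, 0, 1, 2 - 2] : Matrix (Fin 4) (Fin 4) (ZMod 3)) = m [2,0,0,0,0,0,0,2,0,1,0,0,0,0,1,0] := by decide
    rw [e]; exact Cert3_01.c_T1_2_1_2
  · have e : (!![1, 0, 0, 0; 0, 0, 0, 1 * 1; 0, 1, 0, 1 * 0 - 1; 0, 0, 1, 1 - 0] : Matrix (Fin 4) (Fin 4) (ZMod 3)) = m [1,0,0,0,0,0,0,1,0,1,0,2,0,0,1,1] := by decide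
    rw [e]; exact Cert3_11.c_T1_1_1_0
  · have e : (!![1, 0, 0, 0; 0, 0, 0, 1 * 1; 0, 1, 0, 1 * 1 - 1; 0, 0, 1, 1 - 1] : Matrix (Fin 4) (Fin 4) (ZMod 3)) = m [1,0,0,0,0,0,0,1,0,1,0,0,0,0,1,0] := by decide
    rw [e]; exact Cert3_11.c_T1_1_1_1
  · have e : (!![1, 0, 0, 0; 0, 0, 0, 1 * 1; 0, 1, 0, 1 * 2 - 1; 0, 0, 1, 1 - 2] : Matrix (Fin 4) (Fin 4) (ZMod 3)) = m [1,0,0,0,0,0,0,1,0,1,0,1,0,0,1,2] := by decide
    rw [e]; exact Cert3_11.c_T1_1_1_2
  · have e : (!![2, 0, 0, 0; 0, 0, 0, 2 * 1; 0, 1, 0, 2 * 0 - 1; 0, 0, 1, 2 - 0] : Matrix (Fin 4) (Fin 4) (ZMod 3)) = m [2,0,0,0,0,0,0,2,0,1,0,2,0,0,1,2] := by decide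
    rw [e]; exact Cert3_11.c_T1_2_1_0
  · have e : (!![2, 0, 0, 0; 0, 0, 0, 2 * 1; 0, 1, 0, 2 * 1 - 1; 0, 0, 1, 2 - 1] : Matrix (Fin 4) (Fin 4) (ZMod 3)) = m [2,0,0,0,0,0,0,2,0,1,0,1,0,0,1,1] := by decide
    rw [e]; exact Cert3_11.c_T1_2_1_1
  · have e : (!![2, 0, 0, 0; 0, 0, 0, 2 * 1; 0, 1, 0, 2 * 2 - 1; 0, 0, 1, 2 - 2] : Matrix (Fin 4) (Fin 4) (ZMod 3)) = m [2,0,0,0,0,0,0,2,0,1,0,0,0,0,1,0] := by decide
    rw [e]; exact Cert3_11.c_T1_2_1_2
  · have e : (!![1, 0, 0, 0; 0, 0, 0, 1 * 1; 0, 1, 0, 1 * 0 - 1; 0, 0, 1, 1 - 0] : Matrix (Fin 4) (Fin 4) (ZMod 3)) = m [1,0,0,0,0,0,0,1,0,1,0,2,0,0,1,1] := by decide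
    rw [e]; exact Cert3_21.c_T1_1_1_0
  · have e : (!![1, 0, 0, 0; 0, 0, 0, 1 * 1; 0, 1, 0, 1 * 1 - 1; 0, 0, 1, 1 - 1] : Matrix (Fin 4) (Fin 4) (ZMod 3)) = m [1,0,0,0,0,0,0,1,0,1,0,0,0,0,1,0] := by decide
    rw [e]; exact Cert3_21.c_T1_1_1_1
  · have e : (!![1, 0, 0, 0; 0, 0, 0, 1 * 1; 0, 1, 0, 1 * 2 - 1; 0, 0, 1, 1 - 2] : Matrix (Fin 4) (Fin 4) (ZMod 3)) = m [1,0,0,0,0,0,0,1,0,1,0,1,0,0,1,2] := by decide
    rw [e]; exact Cert3_21.c_T1_1_1_2
  · have e : (!![2, 0, 0, 0; 0, 0, 0, 2 * 1; 0, 1, 0, 2 * 0 - 1; 0, 0, 1, 2 - 0] : Matrix (Fin 4) (Fin 4) (ZMod 3)) = m [2,0,0,0,0,0,0,2,0,1,0,2,0,0,1,2] := by decide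
    rw [e]; exact Cert3_21.c_T1_2_1_0
  · have e : (!![2, 0, 0, 0; 0, 0, 0, 2 * 1; 0, 1, 0, 2 * 1 - 1; 0, 0, 1, 2 - 1] : Matrix (Fin 4) (Fin 4) (ZMod 3)) = m [2,0,0,0,0,0,0,2,0,1,0,1,0,0,1,1] := by decide
    rw [e]; exact Cert3_21.c_T1_2_1_1
  · have e : (!![2, 0, 0, 0; 0, 0, 0, 2 * 1; 0, 1, 0, 2 * 2 - 1; 0, 0, 1, 2 - 2] : Matrix (Fin 4) (Fin 4) (ZMod 3)) = m [2,0,0,0,0,0,0,2,0,1,0,0,0,0,1,0] := by decide
    rw [e]; exact Cert3_21.c_T1_2_1_2
  · have e : (!![1, 0, 0, 0; 0, 0, 0, 1 * 1; 0, 1, 0, 1 * 0 - 1; 0, 0, 1, 1 - 0] : Matrix (Fin 4) (Fin 4) (ZMod 3)) = m [1,0,0,0,0,0,0,1,0,1,0,2,0,0,1,1] := by decide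
    rw [e]; exact Cert3_02.c_T1_1_1_0
  · have e : (!![1, 0, 0, 0; 0, 0, 0, 1 * 1; 0, 1, 0, 1 * 1 - 1; 0, 0, 1, 1 - 1] : Matrix (Fin 4) (Fin 4) (ZMod 3)) = m [1,0,0,0,0,0,0,1,0,1,0,0,0,0,1,0] := by decide
    rw [e]; exact Cert3_02.c_T1_1_1_1
  · have e : (!![1, 0, 0, 0; 0, 0, 0, 1 * 1; 0, 1, 0, 1 * 2 - 1; 0, 0, 1, 1 - 2] : Matrix (Fin 4) (Fin 4) (ZMod 3)) = m [1,0,0,0,0,0,0,1,0,1,0,1,0,0,1,2] := by decide
    rw [e]; exact Cert3_02.c_T1_1_1_2
  · have e : (!![2, 0, 0, 0; 0, 0, 0, 2 * 1; 0, 1, 0, 2 * 0 - 1; 0, 0, 1, 2 - 0] : Matrix (Fin 4) (Fin 4) (ZMod 3)) = m [2,0,0,0,0,0,0,2,0,1,0,2,0,0,1,2] := by decide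
    rw [e]; exact Cert3_02.c_T1_2_1_0
  · have e : (!![2, 0, 0, 0; 0, 0, 0, 2 * 1; 0, 1, 0, 2 * 1 - 1; 0, 0, 1, 2 - 1] : Matrix (Fin 4) (Fin 4) (ZMod 3)) = m [2,0,0,0,0,0,0,2,0,1,0,1,0,0,1,1] := by decide
    rw [e]; exact Cert3_02.c_T1_2_1_1
  · have e : (!![2, 0, 0, 0; 0, 0, 0, 2 * 1; 0, 1, 0, 2 * 2 - 1; 0, 0, 1, 2 - 2] : Matrix (Fin 4) (Fin 4) (ZMod 3)) = m [2,0,0,0,0,0,0,2,0,1,0,0,0,0,1,0] := by decide
    rw [e]; exact Cert3_02.c_T1_2_1_2
  · have e : (!![1, 0, 0, 0; 0, 0, 0, 1 * 1; 0, 1, 0, 1 * 0 - 1; 0, 0, 1, 1 - 0] : Matrix (Fin 4) (Fin 4) (ZMod 3)) = m [1,0,0,0,0,0,0,1,0,1,0,2,0,0,1,1] := by decide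
    rw [e]; exact Cert3_12.c_T1_1_1_0
  · have e : (!![1, 0, 0, 0; 0, 0, 0, 1 * 1; 0, 1, 0, 1 * 1 - 1; 0, 0, 1, 1 - 1] : Matrix (Fin 4) (Fin 4) (ZMod 3)) = m [1,0,0,0,0,0,0,1,0,1,0,0,0,0,1,0] := by decide
    rw [e]; exact Cert3_12.c_T1_1_1_1
  · have e : (!![1, 0, 0, 0; 0, 0, 0, 1 * 1; 0, 1, 0, 1 * 2 - 1; 0, 0, 1, 1 - 2] : Matrix (Fin 4) (Fin 4) (ZMod 3)) = m [1,0,0,0,0,0,0,1,0,1,0,1,0,0,1,2] := by decide
    rw [e]; exact Cert3_12.c_T1_1_1_2
  · have e : (!![2, 0, 0, 0; 0, 0, 0, 2 * 1; 0, 1, 0, 2 * 0 - 1; 0, 0, 1, 2 - 0] : Matrix (Fin 4) (Fin 4) (ZMod 3)) = m [2,0,0,0,0,0,0,2,0,1,0,2,0,0,1,2] := by decide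
    rw [e]; exact Cert3_12.c_T1_2_1_0
  · have e : (!![2, 0, 0, 0; 0, 0, 0, 2 * 1; 0, 1, 0, 2 * 1 - 1; 0, 0, 1, 2 - 1] : Matrix (Fin 4) (Fin 4) (ZMod 3)) = m [2,0,0,0,0,0,0,2,0,1,0,1,0,0,1,1] := by decide
    rw [e]; exact Cert3_12.c_T1_2_1_1
  · have e : (!![2, 0, 0, 0; 0, 0, 0, 2 * 1; 0, 1, 0, 2 * 2 - 1; 0, 0, 1, 2 - 2] : Matrix (Fin 4) (Fin 4) (ZMod 3)) = m [2,0,0,0,0,0,0,2,0,1,0,0,0,0,1,0] := by decide
    rw [e]; exact Cert3_12.c_T1_2_1_2
  · have e : (!![1, 0, 0, 0; 0, 0, 0, 1 * 1; 0, 1, 0, 1 * 0 - 1; 0, 0, 1, 1 - 0] : Matrix (Fin 4) (Fin 4) (ZMod 3)) = m [1,0,0,0,0,0,0,1,0,1,0,2,0,0,1,1] := by decide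
    rw [e]; exact Cert3_22.c_T1_1_1_0
  · have e : (!![1, 0, 0, 0; 0, 0, 0, 1 * 1; 0, 1, 0, 1 * 1 - 1; 0, 0, 1, 1 - 1] : Matrix (Fin 4) (Fin 4) (ZMod 3)) = m [1,0,0,0,0,0,0,1,0,1,0,0,0,0,1,0] := by decide
    rw [e]; exact Cert3_22.c_T1_1_1_1
  · have e : (!![1, 0, 0, 0; 0, 0, 0, 1 * 1; 0, 1, 0, 1 * 2 - 1; 0, 0, 1, 1 - 2] : Matrix (Fin 4) (Fin 4) (ZMod 3)) = m [1,0,0,0,0,0,0,1,0,1,0,1,0,0,1,2] := by decide
    rw [e]; exact Cert3_22.c_T1_1_1_2
  · have e : (!![2, 0, 0, 0; 0, 0, 0, 2 * 1; 0, 1, 0, 2 * 0 - 1; 0, 0, 1, 2 - 0] : Matrix (Fin 4) (Fin 4) (ZMod 3)) = m [2,0,0,0,0,0,0,2,0,1,0,2,0,0,1,2] := by decide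
    rw [e]; exact Cert3_22.c_T1_2_1_0
  · have e : (!![2, 0, 0, 0; 0, 0, 0, 2 * 1; 0, 1, 0, 2 * 1 - 1; 0, 0, 1, 2 - 1] : Matrix (Fin 4) (Fin 4) (ZMod 3)) = m [2,0,0,0,0,0,0,2,0,1,0,1,0,0,1,1] := by decide
    rw [e]; exact Cert3_22.c_T1_2_1_1
  · have e : (!![2, 0, 0, 0; 0, 0, 0, 2 * 1; 0, 1, 0, 2 * 2 - 1; 0, 0, 1, 2 - 2] : Matrix (Fin 4) (Fin 4) (ZMod 3)) = m [2,0,0,0,0,0,0,2,0,1,0,0,0,0,1,0] := by decide
    rw [e]; exact Cert3_22.c_T1_2_1_2

theorem t2_3 (t d a c : ZMod 3) (hd : d ≠ 0) (h : a * a * (a * c) = (d * d) ^ 4) :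
    RepN (excM (ZMod 3) t d) (Matrix.toLin' (!![a, 0, 0, 0; 0, a, 0, 0; 0, 0, 0, -(a * c);
      0, 0, 1, a + c] : Matrix (Fin 4) (Fin 4) (ZMod 3))) 4 := by
  have hd' : d = 1 ∨ d = 2 := by clear h; revert d; decide
  have ht : t = 0 ∨ t = 1 ∨ t = 2 := by revert t; decide
  have ha : (a = 1 ∨ a = 2) ∧ c = a := by clear hd' ht; revert h hd; revert a c d; decide
  obtain ⟨ha, rfl⟩ := ha
  clear h
  rcases hd' with rfl | rfl <;> rcases ht with rfl | rfl | rfl <;> rcases ha with rfl | rfl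
  · have e : (!![1, 0, 0, 0; 0, 1, 0, 0; 0, 0, 0, -(1 * 1); 0, 0, 1, 1 + 1] : Matrix (Fin 4) (Fin 4) (ZMod 3)) = m [1,0,0,0,0,1,0,0,0,0,0,2,0,0,1,2] := by decide
    rw [e]; exact Cert3_01.c_T2_1_1
  · have e : (!![2, 0, 0, 0; 0, 2, 0, 0; 0, 0, 0, -(2 * 2); 0, 0, 1, 2 + 2] : Matrix (Fin 4) (Fin 4) (ZMod 3)) = m [2,0,0,0,0,2,0,0,0,0,0,2,0,0,1,1] := by decide
    rw [e]; exact Cert3_01.c_T2_2_2
  · have e : (!![1, 0, 0, 0; 0, 1, 0, 0; 0, 0, 0, -(1 * 1); 0, 0, 1, 1 + 1] : Matrix (Fin 4) (Fin 4) (ZMod 3)) = m [1,0,0,0,0,1,0,0,0,0,0,2,0,0,1,2] := by decide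
    rw [e]; exact Cert3_11.c_T2_1_1
  · have e : (!![2, 0, 0, 0; 0, 2, 0, 0; 0, 0, 0, -(2 * 2); 0, 0, 1, 2 + 2] : Matrix (Fin 4) (Fin 4) (ZMod 3)) = m [2,0,0,0,0,2,0,0,0,0,0,2,0,0,1,1] := by decide
    rw [e]; exact Cert3_11.c_T2_2_2
  · have e : (!![1, 0, 0, 0; 0, 1, 0, 0; 0, 0, 0, -(1 * 1); 0, 0, 1, 1 + 1] : Matrix (Fin 4) (Fin 4) (ZMod 3)) = m [1,0,0,0,0,1,0,0,0,0,0,2,0,0,1,2] := by decide
    rw [e]; exact Cert3_21.c_T2_1_1
  · have e : (!![2, 0, 0, 0; 0, 2, 0, 0; 0, 0, 0, -(2 * 2); 0, 0, 1, 2 + 2] : Matrix (Fin 4) (Fin 4) (ZMod 3)) = m [2,0,0,0,0,2,0,0,0,0,0,2,0,0,1,1] := by decide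
    rw [e]; exact Cert3_21.c_T2_2_2
  · have e : (!![1, 0, 0, 0; 0, 1, 0, 0; 0, 0, 0, -(1 * 1); 0, 0, 1, 1 + 1] : Matrix (Fin 4) (Fin 4) (ZMod 3)) = m [1,0,0,0,0,1,0,0,0,0,0,2,0,0,1,2] := by decide
    rw [e]; exact Cert3_02.c_T2_1_1
  · have e : (!![2, 0, 0, 0; 0, 2, 0, 0; 0, 0, 0, -(2 * 2); 0, 0, 1, 2 + 2] : Matrix (Fin 4) (Fin 4) (ZMod 3)) = m [2,0,0,0,0,2,0,0,0,0,0,2,0,0,1,1] := by decide
    rw [e]; exact Cert3_02.c_T2_2_2
  · have e : (!![1, 0, 0, 0; 0, 1, 0, 0; 0, 0, 0, -(1 * 1); 0, 0, 1, 1 + 1] : Matrix (Fin 4) (Fin 4) (ZMod 3)) = m [1,0,0,0,0,1,0,0,0,0,0,2,0,0,1,2] := by decide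
    rw [e]; exact Cert3_12.c_T2_1_1
  · have e : (!![2, 0, 0, 0; 0, 2, 0, 0; 0, 0, 0, -(2 * 2); 0, 0, 1, 2 + 2] : Matrix (Fin 4) (Fin 4) (ZMod 3)) = m [2,0,0,0,0,2,0,0,0,0,0,2,0,0,1,1] := by decide
    rw [e]; exact Cert3_12.c_T2_2_2
  · have e : (!![1, 0, 0, 0; 0, 1, 0, 0; 0, 0, 0, -(1 * 1); 0, 0, 1, 1 + 1] : Matrix (Fin 4) (Fin 4) (ZMod 3)) = m [1,0,0,0,0,1,0,0,0,0,0,2,0,0,1,2] := by decide
    rw [e]; exact Cert3_22.c_T2_1_1
  · have e : (!![2, 0, 0, 0; 0, 2, 0, 0; 0, 0, 0, -(2 * 2); 0, 0, 1, 2 + 2] : Matrix (Fin 4) (Fin 4) (ZMod 3)) = m [2,0,0,0,0,2,0,0,0,0,0,2,0,0,1,1] := by decide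
    rw [e]; exact Cert3_22.c_T2_2_2

theorem t3_3 (t d s c : ZMod 3) (hd : d ≠ 0) (hc : c ≠ 0) :
    RepN (excM (ZMod 3) t d) (excM (ZMod 3) s c) 4 := by
  have hd' : d = 1 ∨ d = 2 := by revert d; decide
  have ht : t = 0 ∨ t = 1 ∨ t = 2 := by revert t; decide
  have hc' : c = 1 ∨ c = 2 := by revert c; decide
  have hs : s = 0 ∨ s = 1 ∨ s = 2 := by revert s; decide
  rcases hd' with rfl | rfl <;> rcases ht with rfl | rfl | rfl <;> rcases hc' with rfl | rfl <;> rcases hs with rfl | rfl | rfl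
  · have e : excM (ZMod 3) 0 1 = Matrix.toLin' (m [0,2,0,0,1,0,0,0,0,0,0,2,0,0,1,0] : Matrix (Fin 4) (Fin 4) (ZMod 3)) := by
      unfold excM; congr 1; decide
    have h := Cert3_01.c_T3_0_1
    rw [← e] at h; exact h
  · have e : excM (ZMod 3) 1 1 = Matrix.toLin' (m [0,2,0,0,1,1,0,0,0,0,0,2,0,0,1,1] : Matrix (Fin 4) (Fin 4) (ZMod 3)) := by
      unfold excM; congr 1; decide
    have h := Cert3_01.c_T3_1_1
    rw [← e] at h; exact h
  · have e : excM (ZMod 3) 2 1 = Matrix.toLin' (m [0,2,0,0,1,2,0,0,0,0,0,2,0,0,1,2] : Matrix (Fin 4) (Fin 4) (ZMod 3)) := by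
      unfold excM; congr 1; decide
    have h := Cert3_01.c_T3_2_1
    rw [← e] at h; exact h
  · have e : excM (ZMod 3) 0 2 = Matrix.toLin' (m [0,1,0,0,1,0,0,0,0,0,0,1,0,0,1,0] : Matrix (Fin 4) (Fin 4) (ZMod 3)) := by
      unfold excM; congr 1; decide
    have h := Cert3_01.c_T3_0_2
    rw [← e] at h; exact h
  · have e : excM (ZMod 3) 1 2 = Matrix.toLin' (m [0,1,0,0,1,1,0,0,0,0,0,1,0,0,1,1] : Matrix (Fin 4) (Fin 4) (ZMod 3)) := by
      unfold excM; congr 1; decide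
    have h := Cert3_01.c_T3_1_2
    rw [← e] at h; exact h
  · have e : excM (ZMod 3) 2 2 = Matrix.toLin' (m [0,1,0,0,1,2,0,0,0,0,0,1,0,0,1,2] : Matrix (Fin 4) (Fin 4) (ZMod 3)) := by
      unfold excM; congr 1; decide
    have h := Cert3_01.c_T3_2_2
    rw [← e] at h; exact h
  · have e : excM (ZMod 3) 0 1 = Matrix.toLin' (m [0,2,0,0,1,0,0,0,0,0,0,2,0,0,1,0] : Matrix (Fin 4) (Fin 4) (ZMod 3)) := by
      unfold excM; congr 1; decide
    have h := Cert3_11.c_T3_0_1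
    rw [← e] at h; exact h
  · have e : excM (ZMod 3) 1 1 = Matrix.toLin' (m [0,2,0,0,1,1,0,0,0,0,0,2,0,0,1,1] : Matrix (Fin 4) (Fin 4) (ZMod 3)) := by
      unfold excM; congr 1; decide
    have h := Cert3_11.c_T3_1_1
    rw [← e] at h; exact h
  · have e : excM (ZMod 3) 2 1 = Matrix.toLin' (m [0,2,0,0,1,2,0,0,0,0,0,2,0,0,1,2] : Matrix (Fin 4) (Fin 4) (ZMod 3)) := by
      unfold excM; congr 1; decide
    have h := Cert3_11.c_T3_2_1
    rw [← e] at h; exact h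
  · have e : excM (ZMod 3) 0 2 = Matrix.toLin' (m [0,1,0,0,1,0,0,0,0,0,0,1,0,0,1,0] : Matrix (Fin 4) (Fin 4) (ZMod 3)) := by
      unfold excM; congr 1; decide
    have h := Cert3_11.c_T3_0_2
    rw [← e] at h; exact h
  · have e : excM (ZMod 3) 1 2 = Matrix.toLin' (m [0,1,0,0,1,1,0,0,0,0,0,1,0,0,1,1] : Matrix (Fin 4) (Fin 4) (ZMod 3)) := by
      unfold excM; congr 1; decide
    have h := Cert3_11.c_T3_1_2
    rw [← e] at h; exact h
  · have e : excM (ZMod 3) 2 2 = Matrix.toLin' (m [0,1,0,0,1,2,0,0,0,0,0,1,0,0,1,2] : Matrix (Fin 4) (Fin 4) (ZMod 3)) := by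
      unfold excM; congr 1; decide
    have h := Cert3_11.c_T3_2_2
    rw [← e] at h; exact h
  · have e : excM (ZMod 3) 0 1 = Matrix.toLin' (m [0,2,0,0,1,0,0,0,0,0,0,2,0,0,1,0] : Matrix (Fin 4) (Fin 4) (ZMod 3)) := by
      unfold excM; congr 1; decide
    have h := Cert3_21.c_T3_0_1
    rw [← e] at h; exact h
  · have e : excM (ZMod 3) 1 1 = Matrix.toLin' (m [0,2,0,0,1,1,0,0,0,0,0,2,0,0,1,1] : Matrix (Fin 4) (Fin 4) (ZMod 3)) := by
      unfold excM; congr 1; decide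
    have h := Cert3_21.c_T3_1_1
    rw [← e] at h; exact h
  · have e : excM (ZMod 3) 2 1 = Matrix.toLin' (m [0,2,0,0,1,2,0,0,0,0,0,2,0,0,1,2] : Matrix (Fin 4) (Fin 4) (ZMod 3)) := by
      unfold excM; congr 1; decide
    have h := Cert3_21.c_T3_2_1
    rw [← e] at h; exact h
  · have e : excM (ZMod 3) 0 2 = Matrix.toLin' (m [0,1,0,0,1,0,0,0,0,0,0,1,0,0,1,0] : Matrix (Fin 4) (Fin 4) (ZMod 3)) := by
      unfold excM; congr 1; decide
    have h := Cert3_21.c_T3_0_2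
    rw [← e] at h; exact h
  · have e : excM (ZMod 3) 1 2 = Matrix.toLin' (m [0,1,0,0,1,1,0,0,0,0,0,1,0,0,1,1] : Matrix (Fin 4) (Fin 4) (ZMod 3)) := by
      unfold excM; congr 1; decide
    have h := Cert3_21.c_T3_1_2
    rw [← e] at h; exact h
  · have e : excM (ZMod 3) 2 2 = Matrix.toLin' (m [0,1,0,0,1,2,0,0,0,0,0,1,0,0,1,2] : Matrix (Fin 4) (Fin 4) (ZMod 3)) := by
      unfold excM; congr 1; decide
    have h := Cert3_21.c_T3_2_2
    rw [← e] at h; exact h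
  · have e : excM (ZMod 3) 0 1 = Matrix.toLin' (m [0,2,0,0,1,0,0,0,0,0,0,2,0,0,1,0] : Matrix (Fin 4) (Fin 4) (ZMod 3)) := by
      unfold excM; congr 1; decide
    have h := Cert3_02.c_T3_0_1
    rw [← e] at h; exact h
  · have e : excM (ZMod 3) 1 1 = Matrix.toLin' (m [0,2,0,0,1,1,0,0,0,0,0,2,0,0,1,1] : Matrix (Fin 4) (Fin 4) (ZMod 3)) := by
      unfold excM; congr 1; decide
    have h := Cert3_02.c_T3_1_1
    rw [← e] at h; exact h
  · have e : excM (ZMod 3) 2 1 = Matrix.toLin' (m [0,2,0,0,1,2,0,0,0,0,0,2,0,0,1,2] : Matrix (Fin 4) (Fin 4) (ZMod 3)) := by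
      unfold excM; congr 1; decide
    have h := Cert3_02.c_T3_2_1
    rw [← e] at h; exact h
  · have e : excM (ZMod 3) 0 2 = Matrix.toLin' (m [0,1,0,0,1,0,0,0,0,0,0,1,0,0,1,0] : Matrix (Fin 4) (Fin 4) (ZMod 3)) := by
      unfold excM; congr 1; decide
    have h := Cert3_02.c_T3_0_2
    rw [← e] at h; exact h
  · have e : excM (ZMod 3) 1 2 = Matrix.toLin' (m [0,1,0,0,1,1,0,0,0,0,0,1,0,0,1,1] : Matrix (Fin 4) (Fin 4) (ZMod 3)) := by
      unfold excM; congr 1; decide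
    have h := Cert3_02.c_T3_1_2
    rw [← e] at h; exact h
  · have e : excM (ZMod 3) 2 2 = Matrix.toLin' (m [0,1,0,0,1,2,0,0,0,0,0,1,0,0,1,2] : Matrix (Fin 4) (Fin 4) (ZMod 3)) := by
      unfold excM; congr 1; decide
    have h := Cert3_02.c_T3_2_2
    rw [← e] at h; exact h
  · have e : excM (ZMod 3) 0 1 = Matrix.toLin' (m [0,2,0,0,1,0,0,0,0,0,0,2,0,0,1,0] : Matrix (Fin 4) (Fin 4) (ZMod 3)) := by
      unfold excM; congr 1; decide
    have h := Cert3_12.c_T3_0_1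
    rw [← e] at h; exact h
  · have e : excM (ZMod 3) 1 1 = Matrix.toLin' (m [0,2,0,0,1,1,0,0,0,0,0,2,0,0,1,1] : Matrix (Fin 4) (Fin 4) (ZMod 3)) := by
      unfold excM; congr 1; decide
    have h := Cert3_12.c_T3_1_1
    rw [← e] at h; exact h
  · have e : excM (ZMod 3) 2 1 = Matrix.toLin' (m [0,2,0,0,1,2,0,0,0,0,0,2,0,0,1,2] : Matrix (Fin 4) (Fin 4) (ZMod 3)) := by
      unfold excM; congr 1; decide
    have h := Cert3_12.c_T3_2_1
    rw [← e] at h; exact h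
  · have e : excM (ZMod 3) 0 2 = Matrix.toLin' (m [0,1,0,0,1,0,0,0,0,0,0,1,0,0,1,0] : Matrix (Fin 4) (Fin 4) (ZMod 3)) := by
      unfold excM; congr 1; decide
    have h := Cert3_12.c_T3_0_2
    rw [← e] at h; exact h
  · have e : excM (ZMod 3) 1 2 = Matrix.toLin' (m [0,1,0,0,1,1,0,0,0,0,0,1,0,0,1,1] : Matrix (Fin 4) (Fin 4) (ZMod 3)) := by
      unfold excM; congr 1; decide
    have h := Cert3_12.c_T3_1_2
    rw [← e] at h; exact h
  · have e : excM (ZMod 3) 2 2 = Matrix.toLin' (m [0,1,0,0,1,2,0,0,0,0,0,1,0,0,1,2] : Matrix (Fin 4) (Fin 4) (ZMod 3)) := by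
      unfold excM; congr 1; decide
    have h := Cert3_12.c_T3_2_2
    rw [← e] at h; exact h
  · have e : excM (ZMod 3) 0 1 = Matrix.toLin' (m [0,2,0,0,1,0,0,0,0,0,0,2,0,0,1,0] : Matrix (Fin 4) (Fin 4) (ZMod 3)) := by
      unfold excM; congr 1; decide
    have h := Cert3_22.c_T3_0_1
    rw [← e] at h; exact h
  · have e : excM (ZMod 3) 1 1 = Matrix.toLin' (m [0,2,0,0,1,1,0,0,0,0,0,2,0,0,1,1] : Matrix (Fin 4) (Fin 4) (ZMod 3)) := by
      unfold excM; congr 1; decide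
    have h := Cert3_22.c_T3_1_1
    rw [← e] at h; exact h
  · have e : excM (ZMod 3) 2 1 = Matrix.toLin' (m [0,2,0,0,1,2,0,0,0,0,0,2,0,0,1,2] : Matrix (Fin 4) (Fin 4) (ZMod 3)) := by
      unfold excM; congr 1; decide
    have h := Cert3_22.c_T3_2_1
    rw [← e] at h; exact h
  · have e : excM (ZMod 3) 0 2 = Matrix.toLin' (m [0,1,0,0,1,0,0,0,0,0,0,1,0,0,1,0] : Matrix (Fin 4) (Fin 4) (ZMod 3)) := by
      unfold excM; congr 1; decide
    have h := Cert3_22.c_T3_0_2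
    rw [← e] at h; exact h
  · have e : excM (ZMod 3) 1 2 = Matrix.toLin' (m [0,1,0,0,1,1,0,0,0,0,0,1,0,0,1,1] : Matrix (Fin 4) (Fin 4) (ZMod 3)) := by
      unfold excM; congr 1; decide
    have h := Cert3_22.c_T3_1_2
    rw [← e] at h; exact h
  · have e : excM (ZMod 3) 2 2 = Matrix.toLin' (m [0,1,0,0,1,2,0,0,0,0,0,1,0,0,1,2] : Matrix (Fin 4) (Fin 4) (ZMod 3)) := by
      unfold excM; congr 1; decide
    have h := Cert3_22.c_T3_2_2
    rw [← e] at h; exact h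

theorem excGood_3 : ExcGood (ZMod 3) := by
  intro t d b hd hbs hdet
  by_cases hc : ∃ w, Cyc b w
  · obtain ⟨w, hw⟩ := hc
    exact exc_cyclic t d hd b w hw hdet
  have h4 : finrank (ZMod 3) (Fin 4 → ZMod 3) = 4 := by simp
  rw [det_exc] at hdet
  rcases noncyc_four h4 b hbs hc with ⟨a, h0, h1, hs⟩ | ⟨a, c, hs⟩ | ⟨s, c, hs⟩
  · refine repN_of_sim t d b _ hs (t1_3 t d a h0 h1 hd ?_)
    rw [← hdet, det_of_sim b _ hs, det_T1]
  · refine repN_of_sim t d b _ hs (t2_3 t d a c hd ?_)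
    rw [← hdet, det_of_sim b _ hs, det_T2]
  · refine repN_of_sim t d b _ hs (t3_3 t d s c hd ?_)
    intro hc0
    rw [det_of_sim b _ hs, det_exc, hc0, mul_zero] at hdet
    exact hd (by simpa using hdet.symm)

theorem excGood_large {F : Type} [Field F] (hF : ∃ S : Finset F, S.card = 4) : ExcGood F := by
  intro t d b hd hbs hdet
  exact exc_large hF t d hd b hbs hdet

end ExcSmall
end Pool.Agent.PC
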